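import Pool.Agent.H71.GEN.Stm3
import Pool.Agent.H54.GN.Lb
import Pool.Agent.H72.ACT.Stm

/-!
# The exactness theorem (statements)

* `ActM`: (ACT), pure part, with a modulus. `ActF`: the negation of (ACT).
* `Nums`: the numbers of a class. `Gra`: the attained labels, as functions of the side information.
* `Btr`: better labels (absent).
* `FTC n`: the exactness theorem, for classes. `FTZ n`: for one family with side information.
-/

set_option autoImplicit false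

namespace Pool.GEN

open Finset Real MvPolynomial
open Pool.Agent.H49.Ent Pool.Agent.H32.Dense Pool.STK Pool.KA Pool.KSAT Pool.K2S Pool.PB Pool.S6C
open Pool.FLF (Fam.sub)

variable {m n J : ℕ}

/-! ### Activity -/

/-- **(ACT), pure part, with the modulus `g₀`.** The numbers `N` are at least `al` times the length
on most of the intervals of the meshes of `[0, g]`, for all `g ≤ g₀ ε`. -/
def ActM (N : ℚ → ℚ → ℝ) (al : ℝ) (g₀ : ℝ → ℝ) : Prop :=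
  ∀ ε : ℝ, 0 < ε → ∀ g : ℚ, 0 < g → (g : ℝ) ≤ g₀ ε → ∀ M : ℕ,
    (((range M).filter fun i : ℕ => N (i * (g / M)) ((i + 1) * (g / M)) <
      (al - ε) * ((g : ℝ) / M)).card : ℝ) ≤ ε * M

theorem ActQ.mod {N : ℚ → ℚ → ℝ} {al : ℝ} (h : ActQ N al) :
    ∃ g₀ : ℝ → ℝ, (∀ ε, 0 < ε → 0 < g₀ ε) ∧ ActM N al g₀ := by
  classical
  refine ⟨fun ε => if hε : 0 < ε then (h ε hε).choose else 0, fun ε hε => ?_,
    fun ε hε g hg hgg M => ?_⟩
  · simp only [dif_pos hε]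
    exact (h ε hε).choose_spec.1
  · simp only [dif_pos hε] at hgg
    exact (h ε hε).choose_spec.2 g hg hgg M

theorem ActM.q {N : ℚ → ℚ → ℝ} {al : ℝ} {g₀ : ℝ → ℝ} (h : ActM N al g₀)
    (hg : ∀ ε, 0 < ε → 0 < g₀ ε) : ActQ N al :=
  fun ε hε => ⟨g₀ ε, hg ε hε, h ε hε⟩

/-- The digits `q J, …, q' J` of the velocity `k` have less than the entropy `N q q' - h`, given
the point and the digits before `q J` of all velocities (the negation of (ACT)). -/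
def ActF (N : ℚ → ℚ → ℝ) (q q' : ℚ) (h : ℝ) (k : Fin m) : Stat m := fun J F A =>
  CH (Pool.Agent.H49.Ent.cond F.p A True) (fun ω => F.D ⌊((q' : ℚ) : ℝ) * J⌋₊ ω k)
    (fun ω => (F.D ⌊((q : ℚ) : ℝ) * J⌋₊ ω, (F.X J ω, F.W ω))) < (N q q' - h) * Real.log 2 * J

/-! ### Numbers and labels -/

/-- The numbers of a class: thresholds `s j` up to `x`. -/
structure Nums {n : ℕ} (x : ℝ) (s u : Fin n → ℝ) : Prop where
  ms : Monotone s
  mu : Monotone u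
  s0 : ∀ j, 0 ≤ s j
  su : ∀ j, s j ≤ u j
  us : ∀ j, u j ≤ s j + x
  u1 : ∀ j, u j ≤ 1
  z : ∀ j : Fin n, (j : ℕ) = 0 → s j = 0

/-- The polynomial depends on the time and on the coordinates in `I` only. -/
def DepOn {m : ℕ} (I : Finset (Fin m)) (G : MvPolynomial (Option (Fin m)) ℝ) : Prop :=
  ∀ b b' : Option (Fin m) → ℝ, b none = b' none → (∀ i ∈ I, b (some i) = b' (some i)) →
    eval b G = eval b' G

/-- **Attained labels.** The family is contained in graphs of polynomials which are functions of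
the side information: all coordinates `k ≥ j` over the first `j` coordinates, with precision
`2 ^ (-s j J)` and gradient at most `2 ^ (e J)` on the balls of radius `2 ^ (-u (j - 1) J)`. -/
def Gra {n : ℕ} (K : ℕ) (e : ℝ) (s u : Fin n → ℝ) (J : ℕ) (F : Fam n J) : Prop :=
  ∃ G : F.ζ → Fin n → Fin n → MvPolynomial (Option (Fin n)) ℝ,
    (∀ z j k, (G z j k).totalDegree ≤ K ∧ DepOn (Finset.Iio j) (G z j k)) ∧
    ∀ ω, 0 < F.p ω → ∀ j k, j ≤ k →
      |F.x ω k - eval (bt F ω) (G (F.Z ω) j k)| ≤ 1 / 2 ^ ⌊s j * J⌋₊ ∧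
      ∀ b : Option (Fin n) → ℝ, (∀ o, |b o - bt F ω o| ≤ 1 / 2 ^ ⌊rad u 0 j * J⌋₊) → ∀ o,
        |eval b (pderiv o (G (F.Z ω) j k))| ≤ 2 ^ ⌊e * J⌋₊

/-- **Absent labels.** A label of class `K` of the coordinate `j` over the first `j` coordinates,
for windows of length `2 ^ (-w J)`, with precision `2 ^ (-(u j + h) J)` and with gradient at most
`2 ^ (w J)` on the balls of radius `2 ^ (-(u (j - 1) + w) J)`. -/
def Btr {n : ℕ} (u : Fin n → ℝ) (w h : ℝ) (K : ℕ) : Stat n := fun J F A =>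
  ∃ j : Fin n, u j + h ≤ 1 ∧ Lb F (Finset.Iio j) j K ⌊w * J⌋₊ J ⌊w * J⌋₊
    ⌊(rad u w j + w) * J⌋₊ ⌊(u j + h) * J⌋₊ A

theorem Btr.hered {n : ℕ} (u : Fin n → ℝ) (w h : ℝ) (K : ℕ) (J : ℕ) (F : Fam n J) :
    Hered (Btr u w h K J F) := by
  rintro A B hB ⟨j, h1, h2⟩
  exact ⟨j, h1, Lb.hered F _ _ _ _ _ _ _ _ A B hB h2⟩

/-! ### The exactness theorem -/

/-- **(FT), for classes.** Coordinate `0` is active, the labels over the first `j` coordinates are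
attained with precision `s j` as functions of the side information, and absent with precision
`u j + h`. Then the positions have full entropy above the precisions `s j`. -/
def FTC (n : ℕ) : Prop :=
  ∀ ρ al : ℝ, 0 < ρ → 0 < al → ∀ g₀ : ℝ → ℝ, (∀ ε, 0 < ε → 0 < g₀ ε) → ∃ x : ℝ, 0 < x ∧
    ∀ s u : Fin n → ℝ, Nums x s u →
    ∀ w : ℝ, 0 < w → (∀ j, w ≤ u j) → ∀ N : ℚ → ℚ → ℝ, ActM N al g₀ → ∃ e : ℝ, 0 < e ∧
    ∀ (K₀ : ℕ) (S : PCl n), S.Ne →
    (∀ (τ : ℝ) (J : ℕ) (F : Fam n J) (A : F.Ω → Prop), S.St τ J F A → F.Tr ∧ F.Tm (τ * J) ∧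
      F.Rb (τ * J) ∧ Real.exp (-(τ * J)) ≤ Pe F.p A ∧ Gd F ∧ Gra K₀ e s u J F) →
    (∀ (K : ℕ) (h : ℝ), 0 < h → Bas S (fun J F A => ¬ Btr u w h K J F A)) →
    (∀ k : Fin n, (k : ℕ) = 0 → ActB N S k) →
    ¬ Bas S (fun J F A => CH (Pool.Agent.H49.Ent.cond F.p A True) (F.X J) F.W ≤
      ((∑ j, (1 - s j)) - ρ) * Real.log 2 * J)

/-- The list of the bad properties of a family with side information: a velocity which is not
active, or a better label. -/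
def FBad {n : ℕ} (N : ℚ → ℚ → ℝ) (u : Fin n → ℝ) (w : ℝ) (i : ℕ) : Stat n := fun J G B =>
  (∃ (q q' : ℚ) (k : Fin n), (k : ℕ) = 0 ∧ Encodable.encode (q, q') ≤ i ∧ 0 ≤ q ∧ q ≤ q' ∧
    q' ≤ 1 ∧ ActF N q q' (1 / ((i : ℝ) + 1)) k J G B) ∨
  Btr u w (1 / ((i : ℝ) + 1)) i J G B

/-- **(FT), for one family with side information.** -/
def FTZ (n : ℕ) : Prop :=
  ∀ ρ al : ℝ, 0 < ρ → 0 < al → ∀ g₀ : ℝ → ℝ, (∀ ε, 0 < ε → 0 < g₀ ε) → ∃ x : ℝ, 0 < x ∧
    ∀ s u : Fin n → ℝ, Nums x s u →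
    ∀ w : ℝ, 0 < w → (∀ j, w ≤ u j) → ∀ N : ℚ → ℚ → ℝ, ActM N al g₀ → ∃ e : ℝ, 0 < e ∧
    ∀ (K₀ : ℕ) (ψ : ℕ → ℝ), (∀ i, 0 < ψ i) → ∃ η : ℝ, 0 < η ∧ ∃ M J₁ : ℕ, ∀ J ≥ J₁,
    ∀ G : Fam n J, G.Tm (η * J) → Gd G → Gra K₀ e s u J G →
    (∃ i ≤ M, ∃ B : G.Ω → Prop, Real.exp (-(3 * ψ i * J)) ≤ Pe G.p B ∧
      FBad N u w i J G B) ∨
    ((∑ j, (1 - s j)) - ρ) * Real.log 2 * J ≤ CH G.p (G.X J) G.W

/-- **(LEAF)** in dimension `n`. -/
def LEAF (n : ℕ) : Prop := FTZ (n - 1) → FTC n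

end Pool.GEN
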