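import Pool.Agent.H71.GEN.Defs
import Pool.Agent.H74.PZ.Line
import Pool.Agent.H37.STPA.Reg2

/-!
# Velocities along the leaves of closed labels

If a polynomial graph which is a function of the line and of the window contains the samples of an
event in a family with nearly uniform times, then, on one half of the event, the lines are tangent
to the graph.
-/

set_option autoImplicit false

namespace Pool.GEN

open Finset Real MvPolynomial
open Pool.Agent.H49.Ent Pool.Agent.H32.Dense Pool.STK Pool.KA Pool.KSAT Pool.K2S Pool.PB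
open Pool.FLF (Fam.sub)
open Pool.PB.Trl (rt rt_mem t_rt)

variable {m J : ℕ}

/-- The chain rule along a curve. -/
theorem der_aevalσ {σ : Type} [Fintype σ] [DecidableEq σ] (Q : MvPolynomial σ ℝ)
    (g : σ → Polynomial ℝ) :
    Polynomial.derivative (aeval g Q) =
      ∑ i, aeval g (pderiv i Q) * Polynomial.derivative (g i) := by
  induction Q using MvPolynomial.induction_on with
  | C a =>
    have h1 : aeval g (C a : MvPolynomial σ ℝ) = Polynomial.C a := by
      rw [aeval_C]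
      rfl
    rw [h1, Polynomial.derivative_C]
    symm
    refine Finset.sum_eq_zero fun i _ => ?_
    rw [pderiv_C, map_zero, zero_mul]
  | add p q hp hq =>
    rw [map_add, Polynomial.derivative_add, hp, hq, ← Finset.sum_add_distrib]
    refine Finset.sum_congr rfl fun i _ => ?_
    rw [map_add, map_add, add_mul]
  | mul_X p j hp =>
    rw [map_mul, Polynomial.derivative_mul, hp, aeval_X]
    have h1 : ∀ i, aeval g (pderiv i (p * X j)) * Polynomial.derivative (g i) =
        aeval g (pderiv i p) * Polynomial.derivative (g i) * g j +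
          (if i = j then aeval g p * Polynomial.derivative (g i) else 0) := by
      intro i
      rw [pderiv_mul, map_add, map_mul, map_mul, aeval_X, pderiv_X]
      by_cases h : i = j
      · rw [if_pos h, h, Pi.single_eq_same, map_one]
        ring
      · rw [if_neg h, Pi.single_eq_of_ne (Ne.symm h), map_zero]
        ring
    rw [Finset.sum_congr rfl fun i _ => h1 i, Finset.sum_add_distrib, Finset.sum_ite_eq',
      if_pos (Finset.mem_univ _), ← Finset.sum_mul]

/-- The line of the data `s`, in the relative time of the window of length `2 ^ (-w)`. -/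
noncomputable def lc {ζ : Type} (w : ℕ) (s : ((Fin m → ℝ) × (Fin m → ℝ)) × ζ × ℕ) :
    Option (Fin m) → Polynomial ℝ
  | none => Polynomial.C ((s.2.2 : ℝ) / 2 ^ w) + Polynomial.C (1 / 2 ^ w) * Polynomial.X
  | some j => Polynomial.C (s.1.1 j) + Polynomial.C (s.1.2 j) *
      (Polynomial.C ((s.2.2 : ℝ) / 2 ^ w) + Polynomial.C (1 / 2 ^ w) * Polynomial.X)

theorem natDegree_lc {ζ : Type} (w : ℕ) (s : ((Fin m → ℝ) × (Fin m → ℝ)) × ζ × ℕ)
    (o : Option (Fin m)) : (lc w s o).natDegree ≤ 1 := by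
  have h1 : (Polynomial.C ((s.2.2 : ℝ) / 2 ^ w) +
      Polynomial.C (1 / 2 ^ w) * Polynomial.X : Polynomial ℝ).natDegree ≤ 1 := by
    refine (Polynomial.natDegree_add_le _ _).trans (max_le ?_ ?_)
    · rw [Polynomial.natDegree_C]
      exact Nat.zero_le _
    · exact (Polynomial.natDegree_C_mul_le _ _).trans Polynomial.natDegree_X_le
  cases o with
  | none => exact h1
  | some j =>
    refine (Polynomial.natDegree_add_le _ _).trans (max_le ?_ ?_)
    · rw [Polynomial.natDegree_C]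
      exact Nat.zero_le _
    · exact (Polynomial.natDegree_C_mul_le _ _).trans h1

theorem eval_lc (F : Fam m J) {w : ℕ} (hw : w ≤ J) (ω : F.Ω) (o : Option (Fin m)) :
    (lc w (slam F w ω) o).eval (rt F w ω) = bt F ω o := by
  have h := t_rt F hw ω
  cases o with
  | none =>
    simp only [lc, bt, Polynomial.eval_add, Polynomial.eval_mul, Polynomial.eval_C,
      Polynomial.eval_X]
    rw [h]
    ring
  | some j =>
    simp only [lc, bt, Polynomial.eval_add, Polynomial.eval_mul, Polynomial.eval_C,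
      Polynomial.eval_X]
    unfold Fam.x
    rw [h]
    have e1 : (slam F w ω).1.1 j = F.u ω j := rfl
    have e2 : (slam F w ω).1.2 j = F.d ω j := rfl
    rw [e1, e2]
    ring

theorem der_lc (F : Fam m J) (w : ℕ) (ω : F.Ω) (o : Option (Fin m)) :
    Polynomial.derivative (lc w (slam F w ω) o) = Polynomial.C (1 / 2 ^ w * bd F ω o) := by
  cases o with
  | none =>
    simp [lc, bd]
  | some j =>
    have e2 : (slam F w ω).1.2 j = F.d ω j := rfl
    simp only [lc, bd, e2, Polynomial.derivative_add, Polynomial.derivative_C,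
      Polynomial.derivative_C_mul, Polynomial.derivative_X, zero_add, mul_one]
    rw [← Polynomial.C_mul, mul_comm]

/-- The deviation of the line from the graph. -/
noncomputable def dv {ζ : Type} (w : ℕ)
    (G : ((Fin m → ℝ) × (Fin m → ℝ)) × ζ × ℕ → Fin m → MvPolynomial (Option (Fin m)) ℝ)
    (j : Fin m) (s : ((Fin m → ℝ) × (Fin m → ℝ)) × ζ × ℕ) : Polynomial ℝ :=
  lc w s (some j) - aeval (lc w s) (G s j)

theorem natDegree_dv {ζ : Type} (w : ℕ) {K : ℕ}
    {G : ((Fin m → ℝ) × (Fin m → ℝ)) × ζ × ℕ → Fin m → MvPolynomial (Option (Fin m)) ℝ}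
    (hG : ∀ s j, (G s j).totalDegree ≤ K) (j : Fin m)
    (s : ((Fin m → ℝ) × (Fin m → ℝ)) × ζ × ℕ) : (dv w G j s).natDegree ≤ K + 1 := by
  unfold dv
  refine (Polynomial.natDegree_sub_le _ _).trans (max_le ((natDegree_lc w s _).trans (by omega)) ?_)
  exact (Pool.KBX.natDegree_aeval_le _ _ (natDegree_lc w s) (hG s j)).trans (by omega)

theorem eval_dv (F : Fam m J) {w : ℕ} (hw : w ≤ J) (G : LnT F → Fin m →
    MvPolynomial (Option (Fin m)) ℝ) (ω : F.Ω) (j : Fin m) :
    (dv w G j (slam F w ω)).eval (rt F w ω) =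
      F.x ω j - eval (bt F ω) (G (slam F w ω) j) := by
  unfold dv
  rw [Polynomial.eval_sub, Pool.KBX.eval_aeval_poly, eval_lc F hw]
  have : (fun i => (lc w (slam F w ω) i).eval (rt F w ω)) = bt F ω := by
    funext o
    exact eval_lc F hw ω o
  rw [this]
  rfl

theorem der_dv (F : Fam m J) {w : ℕ} (hw : w ≤ J) (G : LnT F → Fin m →
    MvPolynomial (Option (Fin m)) ℝ) (ω : F.Ω) (j : Fin m) :
    (dv w G j (slam F w ω)).derivative.eval (rt F w ω) = 1 / 2 ^ w * (F.d ω j -
      ∑ o, bd F ω o * eval (bt F ω) (pderiv o (G (slam F w ω) j))) := by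
  classical
  unfold dv
  rw [Polynomial.derivative_sub, Polynomial.eval_sub, der_lc, Polynomial.eval_C, der_aevalσ,
    Polynomial.eval_finsetSum, mul_sub, Finset.mul_sum]
  congr 1
  refine Finset.sum_congr rfl fun o _ => ?_
  have : (fun i => (lc w (slam F w ω) i).eval (rt F w ω)) = bt F ω := by
    funext o
    exact eval_lc F hw ω o
  rw [Polynomial.eval_mul, Pool.KBX.eval_aeval_poly, this, der_lc, Polynomial.eval_C]
  ring

/-- **The lines are tangent to the leaves.** -/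
theorem vel_of_pos (m K : ℕ) : ∃ C : ℝ, 1 ≤ C ∧ ∀ (J : ℕ) (F : Fam m J) (A : F.Ω → Prop)
    (hA : 0 < Pe F.p A) (w : ℕ) (G : LnT F → Fin m → MvPolynomial (Option (Fin m)) ℝ)
    (S₀ θ : ℝ), w ≤ J → (∀ s j, (G s j).totalDegree ≤ K) → 0 < S₀ → 0 ≤ θ →
    (Fam.sub F A hA).Tm θ → C * (θ + 1) ≤ ((J : ℝ) - w) * Real.log 2 →
    (∀ ω, A ω → ∀ j, |F.x ω j - eval (bt F ω) (G (slam F w ω) j)| ≤ S₀) →
    ∃ B : F.Ω → Prop, Sub B A ∧ Pe F.p A / 2 ≤ Pe F.p B ∧ ∀ ω, B ω → ∀ j,
      |F.d ω j - ∑ o, bd F ω o * eval (bt F ω) (pderiv o (G (slam F w ω) j))| ≤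
        Real.exp (C * (θ + 1)) * 2 ^ w * S₀ := by
  classical
  obtain ⟨C₁, hC₁, hrem⟩ := Pool.PZ.Zrt.rem_ev (m := m) (2 * (K + 1))
  obtain ⟨C₂, hC₂, hmk⟩ := Pool.Agent.H40.BFL.unit_markov (K + 1)
  obtain ⟨C, hC⟩ : ∃ C : ℝ, C = C₁ + Real.log (C₂ * (m + 1)) := ⟨_, rfl⟩
  have hm1 : (1 : ℝ) ≤ C₂ * (m + 1) := by
    have : (0 : ℝ) ≤ m := Nat.cast_nonneg m
    nlinarith
  have hlog : 0 ≤ Real.log (C₂ * (m + 1)) := Real.log_nonneg hm1
  refine ⟨C, by rw [hC]; linarith, ?_⟩
  intro J F A hA w G S₀ θ hw hG hS₀ hθ hTm hJ hpos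
  obtain ⟨q, hq⟩ : ∃ q : LnT F → Polynomial ℝ, q = fun s => ∑ j, dv w G j s ^ 2 := ⟨_, rfl⟩
  have hqd : ∀ s, (q s).natDegree ≤ 2 * (K + 1) := by
    intro s
    rw [hq]
    refine Polynomial.natDegree_sum_le_of_forall_le _ _ fun j _ => ?_
    refine (Polynomial.natDegree_pow_le).trans ?_
    exact Nat.mul_le_mul_left 2 (natDegree_dv w hG j s)
  have hqe : ∀ s t, (q s).eval t = ∑ j, (dv w G j s).eval t ^ 2 := by
    intro s t
    rw [hq]
    simp only [Polynomial.eval_finsetSum, Polynomial.eval_pow]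
  have hm0 : (0 : ℝ) < (m : ℝ) + 1 := by positivity
  obtain ⟨B, hBA, hPB, hB⟩ := hrem J F A hA w q (((m : ℝ) + 1) ^ 2 * S₀ ^ 2) θ hw hqd
    (by positivity) hθ hTm (by
      refine le_trans ?_ hJ
      refine mul_le_mul_of_nonneg_right ?_ (by linarith)
      rw [hC]
      linarith) (by
      intro ω hω
      rw [hqe]
      have h1 : ∀ j ∈ (Finset.univ : Finset (Fin m)), (dv w G j (slam F w ω)).eval (rt F w ω) ^ 2 ≤
          S₀ ^ 2 := by
        intro j _
        rw [eval_dv F hw]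
        exact sq_le_sq' (by have := (abs_le.1 (hpos ω hω j)).1; linarith)
          (abs_le.1 (hpos ω hω j)).2
      have h2 : ∑ j, (dv w G j (slam F w ω)).eval (rt F w ω) ^ 2 ≤ m * S₀ ^ 2 := by
        refine (Finset.sum_le_sum h1).trans (le_of_eq ?_)
        rw [Finset.sum_const, Finset.card_univ, Fintype.card_fin, nsmul_eq_mul]
      have h3 : 0 ≤ ∑ j, (dv w G j (slam F w ω)).eval (rt F w ω) ^ 2 :=
        Finset.sum_nonneg fun j _ => sq_nonneg _
      rw [abs_of_nonneg h3]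
      refine h2.trans (mul_le_mul_of_nonneg_right ?_ (sq_nonneg _))
      have : (0 : ℝ) ≤ m := Nat.cast_nonneg m
      nlinarith)
  refine ⟨B, hBA, hPB, fun ω hω j => ?_⟩
  obtain ⟨E, hE⟩ : ∃ E : ℝ, E = Real.exp (C₁ * (θ + 1)) := ⟨_, rfl⟩
  have hE1 : 1 ≤ E := by
    rw [hE, Real.one_le_exp_iff]
    have : 0 ≤ θ + 1 := by linarith
    nlinarith
  have h1 : ∀ t ∈ Set.Icc (0 : ℝ) 1, |(dv w G j (slam F w ω)).eval t| ≤ (m + 1) * (E * S₀) := by
    intro t ht
    have h2 := hB ω hω t ht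
    rw [hqe, ← hE] at h2
    have h3 : (dv w G j (slam F w ω)).eval t ^ 2 ≤ ∑ j, (dv w G j (slam F w ω)).eval t ^ 2 :=
      Finset.single_le_sum (f := fun j => (dv w G j (slam F w ω)).eval t ^ 2)
        (fun j _ => sq_nonneg _) (Finset.mem_univ j)
    have h4 := (h3.trans (le_abs_self _)).trans h2
    refine abs_le_of_sq_le_sq ?_ (by positivity)
    refine h4.trans ?_
    have h5 : E * (((m : ℝ) + 1) ^ 2 * S₀ ^ 2) ≤ E ^ 2 * (((m : ℝ) + 1) ^ 2 * S₀ ^ 2) :=
      mul_le_mul_of_nonneg_right (by nlinarith) (by positivity)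
    refine h5.trans (le_of_eq (by ring))
  have h2 := hmk _ _ (natDegree_dv w hG j (slam F w ω)) h1 (rt F w ω) (rt_mem F w ω)
  rw [der_dv F hw, abs_mul, abs_of_pos (by positivity : (0 : ℝ) < 1 / 2 ^ w), one_div,
    inv_mul_le_iff₀ (by positivity)] at h2
  refine h2.trans ?_
  have h3 : Real.exp (C * (θ + 1)) = E * Real.exp (Real.log (C₂ * (m + 1)) * (θ + 1)) := by
    rw [hE, ← Real.exp_add, hC]
    congr 1
    ring
  have h4 : C₂ * (m + 1) ≤ Real.exp (Real.log (C₂ * (m + 1)) * (θ + 1)) := by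
    calc C₂ * (m + 1) = Real.exp (Real.log (C₂ * (m + 1))) := (Real.exp_log (by linarith)).symm
      _ ≤ _ := Real.exp_le_exp.2 (by nlinarith)
  rw [h3]
  have h5 : 0 ≤ 2 ^ w * (E * S₀) := by positivity
  calc (2 : ℝ) ^ w * (C₂ * ((m + 1) * (E * S₀))) = C₂ * (m + 1) * (2 ^ w * (E * S₀)) := by ring
    _ ≤ Real.exp (Real.log (C₂ * (m + 1)) * (θ + 1)) * (2 ^ w * (E * S₀)) :=
        mul_le_mul_of_nonneg_right h4 h5
    _ = _ := by ring

end Pool.GEN
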