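import Pool.Agent.H71.GEN.Cell
import Pool.Agent.H71.GEN.Vel

/-!
# Positions and velocities on the leaves of closed labels

Given the label and the time, the coordinates and the velocities are Lipschitz functions of the
free coordinates and of the free velocities.
-/

set_option autoImplicit false

namespace Pool.GEN

open Finset Real MvPolynomial
open Pool.Agent.H49.Ent Pool.Agent.H32.Dense Pool.STK Pool.KA Pool.KSAT Pool.K2S Pool.PB Pool.S6C
open Pool.FLF (Fam.sub)

variable {m n J : ℕ} {κ : Type}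

theorem totalDegree_pdσ {σ : Type} {P : MvPolynomial σ ℝ} {d : ℕ} (hd : P.totalDegree ≤ d)
    (i : σ) : (pderiv i P).totalDegree ≤ d := by
  classical
  refine Finset.sup_le fun s hs => ?_
  rw [mem_support_iff, coeff_pderiv] at hs
  have h1 : s + Finsupp.single i 1 ∈ P.support := by
    rw [mem_support_iff]
    exact left_ne_zero_of_mul hs
  have h2 := (le_totalDegree h1).trans hd
  rw [Finsupp.sum_add_index' (fun _ => rfl) (fun _ _ _ => rfl)] at h2
  omega

/-- The mean value inequality. -/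
theorem mvσ {σ : Type} [Fintype σ] (P : MvPolynomial σ ℝ) (a b : σ → ℝ) (M : ℝ)
    (hM : ∀ y : σ → ℝ, (∀ j, |y j - a j| ≤ |b j - a j|) → ∀ i, |eval y (pderiv i P)| ≤ M) :
    |eval b P - eval a P| ≤ M * ∑ i, |b i - a i| := by
  classical
  obtain ⟨g, hg⟩ : ∃ g : σ → Polynomial ℝ, g = fun j =>
      Polynomial.C (a j) + Polynomial.C (b j - a j) * Polynomial.X := ⟨_, rfl⟩
  have hge : ∀ (Q : MvPolynomial σ ℝ) (t : ℝ), (MvPolynomial.aeval g Q).eval t =
      MvPolynomial.eval (fun j => a j + (b j - a j) * t) Q := by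
    intro Q t
    rw [Pool.KBX.eval_aeval_poly]
    congr 1
    congr 1
    funext j
    rw [hg]
    simp
  have hd : ∀ t, (Polynomial.derivative (MvPolynomial.aeval g P)).eval t =
      ∑ i, eval (fun j => a j + (b j - a j) * t) (pderiv i P) * (b i - a i) := by
    intro t
    rw [der_aevalσ, Polynomial.eval_finset_sum]
    refine Finset.sum_congr rfl fun i _ => ?_
    rw [Polynomial.eval_mul, hge]
    congr 1
    rw [hg]
    simp
  obtain ⟨c, hc, hcd⟩ := exists_deriv_eq_slope (fun t => (MvPolynomial.aeval g P).eval t)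
    (zero_lt_one' ℝ) (Polynomial.continuous _).continuousOn
    (Polynomial.differentiable _).differentiableOn
  rw [Polynomial.deriv, hd, sub_zero, div_one, hge, hge] at hcd
  have e1 : (fun j => a j + (b j - a j) * 1) = b := by
    funext j
    ring
  have e2 : (fun j => a j + (b j - a j) * 0) = a := by
    funext j
    ring
  rw [e1, e2] at hcd
  rw [← hcd, Finset.mul_sum]
  refine (Finset.abs_sum_le_sum_abs _ _).trans (Finset.sum_le_sum fun i _ => ?_)
  rw [abs_mul]
  refine mul_le_mul_of_nonneg_right (hM _ (fun j => ?_) i) (abs_nonneg _)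
  have e3 : a j + (b j - a j) * c - a j = (b j - a j) * c := by ring
  rw [e3, abs_mul, abs_of_pos hc.1]
  have := abs_nonneg (b j - a j)
  nlinarith [hc.2]

/-- The derivative in a direction on which a polynomial does not depend. -/
theorem pderiv_dep {σ : Type} [Fintype σ] [DecidableEq σ] (P : MvPolynomial σ ℝ) (k : σ)
    (h : ∀ b b' : σ → ℝ, (∀ j, j ≠ k → b j = b' j) → eval b P = eval b' P) (b : σ → ℝ) :
    eval b (pderiv k P) = 0 := by
  obtain ⟨g, hg⟩ : ∃ g : σ → Polynomial ℝ, g = fun j =>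
      if j = k then Polynomial.X else Polynomial.C (b j) := ⟨_, rfl⟩
  have hge : ∀ (Q : MvPolynomial σ ℝ) (t : ℝ), (MvPolynomial.aeval g Q).eval t =
      MvPolynomial.eval (Function.update b k t) Q := by
    intro Q t
    rw [Pool.KBX.eval_aeval_poly]
    congr 1
    congr 1
    funext j
    rw [hg]
    by_cases hj : j = k
    · subst hj
      simp
    · simp [hj]
  have hc : MvPolynomial.aeval g P = Polynomial.C (eval b P) := by
    refine Polynomial.funext fun t => ?_
    rw [hge, Polynomial.eval_C]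
    exact h _ _ fun j hj => Function.update_of_ne hj _ _
  have h1 : Polynomial.derivative (MvPolynomial.aeval g P) = 0 := by
    rw [hc, Polynomial.derivative_C]
  rw [der_aevalσ, Finset.sum_eq_single k] at h1
  · have h2 : Polynomial.derivative (g k) = 1 := by
      rw [hg]
      simp
    rw [h2, mul_one] at h1
    have h3 := congrArg (Polynomial.eval (b k)) h1
    rw [hge, Function.update_eq_self, Polynomial.eval_zero] at h3
    exact h3
  · intro j _ hj
    have h2 : Polynomial.derivative (g j) = 0 := by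
      rw [hg]
      simp [hj]
    rw [h2, mul_zero]
  · intro hk
    exact absurd (Finset.mem_univ k) hk

section

variable {F : Fam m J} {I : Finset (Fin m)} {K r w P : ℕ} {A : F.Ω → Prop} {V : Type}
  {z : PtT F → V} {z' : LnT F → V} {G : V → Fin m → MvPolynomial (Option (Fin m)) ℝ}

theorem LabOK.pd (h : LabOK F I K r w P A z z' G) (v : V) (j k : Fin m) (hk : k ∉ I)
    (b : Option (Fin m) → ℝ) : eval b (pderiv (some k) (G v j)) = 0 := by
  classical
  refine pderiv_dep _ _ (fun b b' hb => h.dep v j b b' (hb none (by simp)) fun l hl => ?_) b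
  refine hb (some l) fun he => hk ?_
  have := Option.some.inj he
  rwa [this] at hl

/-- **The coordinates on a leaf** at the same time are Lipschitz functions of the free
coordinates. -/
theorem LabOK.crd (h : LabOK F I K r w P A z z' G) {ω ω' : F.Ω} (hω : A ω) (hω' : A ω')
    (hz : z' (slam F w ω) = z' (slam F w ω')) (ht : F.t ω = F.t ω') {δ : ℝ} (hδ : δ ≤ 1 / 2 ^ w)
    (hI : ∀ k ∈ I, |F.x ω k - F.x ω' k| ≤ δ) (hδ0 : 0 ≤ δ) (j : Fin m) :
    |F.x ω j - F.x ω' j| ≤ 2 / 2 ^ P + K * (m * δ) := by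
  classical
  have h1 := h.pos ω hω j
  have h2 := h.pos ω' hω' j
  obtain ⟨v, hv⟩ : ∃ v, v = z' (slam F w ω) := ⟨_, rfl⟩
  rw [← hz, ← hv] at h2
  rw [← hv] at h1
  obtain ⟨b, hb⟩ : ∃ b : Option (Fin m) → ℝ, b = fun o => match o with
      | none => F.t ω
      | some k => if k ∈ I then F.x ω' k else F.x ω k := ⟨_, rfl⟩
  have e1 : eval (bt F ω') (G v j) = eval b (G v j) := by
    refine h.dep v j _ _ ?_ fun k hk => ?_
    · rw [hb]
      exact ht.symm
    · rw [hb]
      simp only [if_pos hk]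
      rfl
  have hbd : ∀ o, |b o - bt F ω o| ≤ δ := by
    intro o
    rw [hb]
    rcases o with _ | k
    · simp only [bt, sub_self, abs_zero]
      exact hδ0
    · simp only [bt]
      by_cases hk : k ∈ I
      · rw [if_pos hk, abs_sub_comm]
        exact hI k hk
      · rw [if_neg hk, sub_self, abs_zero]
        exact hδ0
  have h3 := mvσ (G v j) (bt F ω) b K (fun y hy i => by
    have := h.lip ω hω y (fun o => ((hy o).trans (hbd o)).trans hδ) j i
    rwa [← hv] at this)
  have h4 : ∑ o, |b o - bt F ω o| ≤ m * δ := by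
    rw [Fintype.sum_option]
    have a1 : |b none - bt F ω none| = 0 := by
      rw [hb]
      simp [bt]
    rw [a1, zero_add]
    calc ∑ k : Fin m, |b (some k) - bt F ω (some k)| ≤ ∑ _k : Fin m, δ :=
          Finset.sum_le_sum fun k _ => hbd (some k)
      _ = m * δ := by rw [Finset.sum_const, Finset.card_univ, Fintype.card_fin, nsmul_eq_mul]
  have h5 := h3.trans (mul_le_mul_of_nonneg_left h4 (Nat.cast_nonneg K))
  rw [e1] at h2
  have e2 : (2 : ℝ) / 2 ^ P = 1 / 2 ^ P + 1 / 2 ^ P := by ring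
  rw [e2]
  rw [abs_le] at h1 h2 h5 ⊢
  constructor <;> linarith [h1.1, h1.2, h2.1, h2.2, h5.1, h5.2]

end

/-- **The velocities on a leaf** at the same point are Lipschitz functions of the free
velocities. -/
theorem lab_vel (m K : ℕ) : ∃ C : ℝ, 1 ≤ C ∧ ∀ (J : ℕ) (F : Fam m J) (I : Finset (Fin m))
    (r w P : ℕ) (A : F.Ω → Prop) (V : Type) (z : PtT F → V) (z' : LnT F → V)
    (G : V → Fin m → MvPolynomial (Option (Fin m)) ℝ), LabOK F I K r w P A z z' G →
    ∀ (ω ω' : F.Ω), A ω → A ω' → z' (slam F w ω) = z' (slam F w ω') → F.t ω = F.t ω' →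
    ∀ (δ σ : ℝ), 0 < δ → δ ≤ 1 / 2 ^ w → (∀ j, |F.x ω j - F.x ω' j| ≤ δ) → 0 ≤ σ →
    (∀ k ∈ I, |F.d ω k - F.d ω' k| ≤ σ) → ∀ j,
    |F.d ω j - F.d ω' j| ≤ C * (σ + δ * 2 ^ w + 2 ^ w / 2 ^ P) := by
  classical
  obtain ⟨C₁, hC₁, hball⟩ := ball_lipσ K
  refine ⟨(m + 1) * (C₁ * K + K) + 2, ?_, ?_⟩
  · have : (0 : ℝ) ≤ (m + 1) * (C₁ * K + K) := by positivity
    linarith
  intro J F I r w P A V z z' G h ω ω' hω hω' hz ht δ σ hδ hδw hx hσ hI j
  have h1 := h.vel ω hω j
  have h2 := h.vel ω' hω' j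
  obtain ⟨v, hv⟩ : ∃ v, v = z' (slam F w ω) := ⟨_, rfl⟩
  rw [← hz, ← hv] at h2
  rw [← hv] at h1
  have pw : (0 : ℝ) < 2 ^ w := by positivity
  have hC0 : 0 ≤ C₁ := by linarith
  have hK0 : (0 : ℝ) ≤ K := Nat.cast_nonneg K
  have hbt : ∀ o, |bt F ω' o - bt F ω o| ≤ δ := by
    intro o
    rcases o with _ | k
    · simp only [bt, ht, sub_self, abs_zero]
      exact hδ.le
    · simp only [bt]
      rw [abs_sub_comm]
      exact hx k
  have hgr : ∀ o, |eval (bt F ω') (pderiv o (G v j)) - eval (bt F ω) (pderiv o (G v j))| ≤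
      C₁ * K * (δ * 2 ^ w) := by
    intro o
    have := hball (Option (Fin m)) inferInstance (pderiv o (G v j)) (bt F ω) (bt F ω')
      (1 / 2 ^ w) δ K (by
        refine (totalDegree_pdσ (h.deg v j) o).trans (by omega)) hδ hδw (fun y hy => by
        have := h.lip ω hω y hy j o
        rwa [← hv] at this) hbt
    refine this.trans (le_of_eq ?_)
    field_simp
  have hterm : ∀ o, |bd F ω o * eval (bt F ω) (pderiv o (G v j)) -
      bd F ω' o * eval (bt F ω') (pderiv o (G v j))| ≤ C₁ * K * (δ * 2 ^ w) + K * σ := by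
    intro o
    have hg := hgr o
    have hb : |eval (bt F ω) (pderiv o (G v j))| ≤ K := by
      have := h.lip ω hω (bt F ω) (fun o => by
        rw [sub_self, abs_zero]
        positivity) j o
      rwa [← hv] at this
    have hbd : |bd F ω' o| ≤ 1 := by
      rcases o with _ | k
      · simp [bd]
      · exact F.dir ω' k
    have e1 : bd F ω o * eval (bt F ω) (pderiv o (G v j)) -
        bd F ω' o * eval (bt F ω') (pderiv o (G v j)) =
        (bd F ω o - bd F ω' o) * eval (bt F ω) (pderiv o (G v j)) -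
        bd F ω' o * (eval (bt F ω') (pderiv o (G v j)) - eval (bt F ω) (pderiv o (G v j))) := by
      ring
    have h3 : |(bd F ω o - bd F ω' o) * eval (bt F ω) (pderiv o (G v j))| ≤ K * σ := by
      rcases o with _ | k
      · simp only [bd, sub_self, zero_mul, abs_zero]
        positivity
      · by_cases hk : k ∈ I
        · rw [abs_mul, mul_comm]
          exact mul_le_mul hb (hI k hk) (abs_nonneg _) hK0
        · rw [h.pd v j k hk, mul_zero, abs_zero]
          positivity
    have h4 : |bd F ω' o * (eval (bt F ω') (pderiv o (G v j)) -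
        eval (bt F ω) (pderiv o (G v j)))| ≤ C₁ * K * (δ * 2 ^ w) := by
      rw [abs_mul]
      calc _ ≤ 1 * (C₁ * K * (δ * 2 ^ w)) := mul_le_mul hbd hg (abs_nonneg _) zero_le_one
        _ = _ := one_mul _
    rw [e1]
    have h5 := abs_sub ((bd F ω o - bd F ω' o) * eval (bt F ω) (pderiv o (G v j)))
      (bd F ω' o * (eval (bt F ω') (pderiv o (G v j)) - eval (bt F ω) (pderiv o (G v j))))
    linarith
  have hsum : |∑ o, bd F ω o * eval (bt F ω) (pderiv o (G v j)) -
      ∑ o, bd F ω' o * eval (bt F ω') (pderiv o (G v j))| ≤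
      (m + 1) * (C₁ * K * (δ * 2 ^ w) + K * σ) := by
    rw [← Finset.sum_sub_distrib]
    refine (Finset.abs_sum_le_sum_abs _ _).trans ?_
    refine (Finset.sum_le_sum fun o _ => hterm o).trans (le_of_eq ?_)
    rw [Finset.sum_const, Finset.card_univ, Fintype.card_option, Fintype.card_fin, nsmul_eq_mul]
    push_cast
    ring
  have e2 : F.d ω j - F.d ω' j = (F.d ω j - ∑ o, bd F ω o * eval (bt F ω) (pderiv o (G v j))) -
      (F.d ω' j - ∑ o, bd F ω' o * eval (bt F ω') (pderiv o (G v j))) +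
      (∑ o, bd F ω o * eval (bt F ω) (pderiv o (G v j)) -
      ∑ o, bd F ω' o * eval (bt F ω') (pderiv o (G v j))) := by ring
  have h6 : |F.d ω j - F.d ω' j| ≤ 2 ^ w / 2 ^ P + 2 ^ w / 2 ^ P +
      (m + 1) * (C₁ * K * (δ * 2 ^ w) + K * σ) := by
    rw [e2]
    rw [abs_le] at h1 h2 hsum ⊢
    constructor <;> linarith [h1.1, h1.2, h2.1, h2.2, hsum.1, hsum.2]
  refine h6.trans ?_
  have p1 : 0 ≤ δ * 2 ^ w := by positivity
  have p2 : (0 : ℝ) ≤ 2 ^ w / 2 ^ P := by positivity
  have p3 : 0 ≤ C₁ * K := mul_nonneg hC0 hK0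
  have p4 : (0 : ℝ) ≤ m := Nat.cast_nonneg m
  have p5 : 0 ≤ C₁ * K * σ := mul_nonneg p3 hσ
  have p6 : 0 ≤ K * (δ * 2 ^ w) := mul_nonneg hK0 p1
  have p7 : 0 ≤ (m + 1) * (C₁ * K + K) * (2 ^ w / 2 ^ P) :=
    mul_nonneg (mul_nonneg (by linarith) (by linarith)) p2
  have e3 : ((m + 1) * (C₁ * K + K) + 2) * (σ + δ * 2 ^ w + 2 ^ w / 2 ^ P) =
      (m + 1) * (C₁ * K * σ + K * σ + C₁ * K * (δ * 2 ^ w) + K * (δ * 2 ^ w)) +
      (m + 1) * (C₁ * K + K) * (2 ^ w / 2 ^ P) + 2 * σ + 2 * (δ * 2 ^ w) +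
      2 * (2 ^ w / 2 ^ P) := by ring
  rw [e3]
  have p8 : (m + 1) * (C₁ * K * (δ * 2 ^ w) + K * σ) ≤
      (m + 1) * (C₁ * K * σ + K * σ + C₁ * K * (δ * 2 ^ w) + K * (δ * 2 ^ w)) :=
    mul_le_mul_of_nonneg_left (by linarith) (by linarith)
  linarith

end Pool.GEN
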