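import Pool.Agent.H71.GEN.Stm2
import Pool.Agent.H60.ZCL.BTail

/-!
# The tail from the rates, in base form, for all dimensions
-/

set_option autoImplicit false

namespace Pool.GEN

open Finset Real
open Pool.Agent.H49.Ent Pool.Agent.H32.Dense Pool.STK Pool.KA Pool.K2S Pool.PB Pool.S6C

variable {m : ℕ}

/-- **The tail at a Pliss row**, in base form. -/
theorem btail {S : PCl m} {r : ℝ → ℝ} (hS : ∀ P : ℝ, 0 ≤ P → P ≤ 1 → ∀ h : ℝ, 0 < h →
    Bas S (fun J F A => |CH (Pool.Agent.H49.Ent.cond F.p A True) (F.X ⌊P * J⌋₊) F.W -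
      r P * Real.log 2 * J| ≤ h * J))
    (hpos : ∀ (τ : ℝ) (J : ℕ) (F : Fam m J) (A : F.Ω → Prop), S.St τ J F A → 0 < Pe F.p A)
    {γ Q : ℝ} (hQ0 : 0 ≤ Q) (hQ1 : Q ≤ 1)
    (hQ : ∀ P, 0 ≤ P → P ≤ Q → r Q - r P ≤ γ * (Q - P)) (h : ℝ) (hh : 0 < h) :
    Bas S (fun J F A => ∀ k : ℕ, k ≤ ⌊Q * J⌋₊ →
    CH (Pool.Agent.H49.Ent.cond F.p A True) (F.X ⌊Q * J⌋₊) (fun ω => (F.X k ω, F.W ω)) ≤
      γ * Real.log 2 * ((⌊Q * J⌋₊ : ℝ) - k) + h * J) := by
  classical
  obtain ⟨n, hn⟩ := exists_nat_gt (8 * (|γ| + 1) / h)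
  have hn0 : (0 : ℝ) < n := lt_of_le_of_lt (by positivity) hn
  have hn1 : 0 < n := by exact_mod_cast hn0
  have hnh : (|γ| + 1) / n ≤ h / 8 := by
    rw [div_le_iff₀ hn0]
    rw [div_lt_iff₀ hh] at hn
    linarith
  obtain ⟨J₂, hJ₂⟩ := exists_nat_gt (16 * (|γ| + 1) / h)
  have hPi : ∀ i : ℕ, i < n + 1 → 0 ≤ Q * (i / n) ∧ Q * (i / n) ≤ 1 := by
    intro i hi
    have h1 : (i : ℝ) / n ≤ 1 := by
      rw [div_le_one hn0]
      exact_mod_cast Nat.lt_succ_iff.1 hi
    have h2 : (0 : ℝ) ≤ i / n := by positivity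
    exact ⟨mul_nonneg hQ0 h2, by nlinarith⟩
  refine Bas.mono J₂ (((Bas.all (n + 1) fun i hi => hS (Q * (i / n)) (hPi i hi).1 (hPi i hi).2
    (h / 8) (by linarith)).and (hS Q hQ0 hQ1 (h / 8) (by linarith))).and
    (⟨1, one_pos, 0, fun J _ F A hA => hpos 1 J F A hA⟩ :
      Bas S (fun _ F A => 0 < Pe F.p A))) ?_
  rintro J hJ F A ⟨⟨k1, k2⟩, k3⟩ k hk
  have hcl := isLaw_cond F.isLaw k3
  have hJ0 : (0 : ℝ) ≤ J := Nat.cast_nonneg J
  have hl2 : 0 < Real.log 2 := Real.log_pos (by norm_num)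
  have hl1 : Real.log 2 ≤ 1 := by
    have := Real.log_two_lt_d9
    linarith
  have hJ3 : |γ| + 1 ≤ h / 16 * J := by
    have : 16 * (|γ| + 1) / h < J := hJ₂.trans_le (by exact_mod_cast hJ)
    rw [div_lt_iff₀ hh] at this
    linarith
  rw [rows_eq hcl hk]
  have hfl : (⌊Q * J⌋₊ : ℝ) ≤ Q * J := Nat.floor_le (by positivity)
  have hfl2 := Nat.lt_floor_add_one (Q * J)
  have hkr : (k : ℝ) ≤ ⌊Q * J⌋₊ := by exact_mod_cast hk
  -- the mesh point below `k`
  obtain ⟨i, hin, hi1, hi2⟩ : ∃ i < n + 1, Q * (i / n) * J ≤ k ∧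
      (k : ℝ) ≤ Q * (i / n) * J + Q * J / n + 1 := by
    rcases eq_or_lt_of_le (mul_nonneg hQ0 hJ0) with h0 | h0
    · refine ⟨0, by omega, ?_, ?_⟩
      · simp
      · have : (k : ℝ) ≤ 0 := by linarith
        simp only [Nat.cast_zero, zero_div, mul_zero, zero_mul, zero_add]
        have : 0 ≤ Q * J / n := by positivity
        linarith
    · obtain ⟨i, hi⟩ : ∃ i, i = ⌊(k : ℝ) * n / (Q * J)⌋₊ := ⟨_, rfl⟩
      have a1 : (i : ℝ) ≤ k * n / (Q * J) := by
        rw [hi]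
        exact Nat.floor_le (by positivity)
      have a2 : (k : ℝ) * n / (Q * J) < i + 1 := by
        rw [hi]
        exact Nat.lt_floor_add_one _
      rw [le_div_iff₀ h0] at a1
      rw [div_lt_iff₀ h0] at a2
      refine ⟨i, ?_, ?_, ?_⟩
      · have : (i : ℝ) ≤ n := by
          by_contra hcon
          push Not at hcon
          nlinarith
        have : i ≤ n := by exact_mod_cast this
        omega
      · have : Q * (i / n) * J = (i * (Q * J)) / n := by ring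
        rw [this, div_le_iff₀ hn0]
        exact a1
      · have e1 : Q * (i / n) * J + Q * J / n + 1 = ((i + 1) * (Q * J)) / n + 1 := by ring
        rw [e1]
        have : (k : ℝ) ≤ ((i + 1) * (Q * J)) / n := by
          rw [le_div_iff₀ hn0]
          exact a2.le
        linarith
  have hPi1 := hPi i hin
  have hle : ⌊Q * (i / n) * J⌋₊ ≤ k := Nat.floor_le_of_le hi1
  have m1 := rows_eq (F := F) hcl hle
  have m2 := CH_nonneg hcl.nonneg (F.X k) (fun ω => (F.X ⌊Q * (i / n) * J⌋₊ ω, F.W ω))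
  have m3 := (abs_le.1 (k1 i hin)).1
  have m4 := (abs_le.1 k2).2
  have hin' : (i : ℝ) / n ≤ 1 := by
    rw [div_le_one hn0]
    exact_mod_cast Nat.lt_succ_iff.1 hin
  have hQi : Q * (i / n) ≤ Q := by
    have := mul_le_mul_of_nonneg_left hin' hQ0
    linarith
  have m5 := hQ (Q * (i / n)) hPi1.1 hQi
  have m6 : (r Q - r (Q * (i / n))) * (Real.log 2 * J) ≤
      (γ * (Q - Q * (i / n))) * (Real.log 2 * J) :=
    mul_le_mul_of_nonneg_right m5 (by positivity)
  -- the error of the mesh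
  obtain ⟨E, hE⟩ : ∃ E, E = (Q - Q * (i / n)) * J - ((⌊Q * J⌋₊ : ℝ) - k) := ⟨_, rfl⟩
  have hEb : |E| ≤ Q * J / n + 2 := by
    have hE2 : E = (Q * J - ⌊Q * J⌋₊) + (k - Q * (i / n) * J) := by rw [hE]; ring
    have hq : 0 ≤ Q * J / n := by positivity
    rw [hE2, abs_le]
    constructor <;> linarith
  have m7 : γ * Real.log 2 * E ≤ |γ| * (J / n + 2) := by
    have a1 : γ * Real.log 2 * E ≤ |γ * Real.log 2 * E| := le_abs_self _
    refine a1.trans ?_
    rw [abs_mul, abs_mul, abs_of_nonneg hl2.le]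
    have a2 : Q * J / n ≤ J / n := by
      refine div_le_div_of_nonneg_right ?_ hn0.le
      have := mul_le_mul_of_nonneg_right hQ1 hJ0
      linarith
    calc |γ| * Real.log 2 * |E| ≤ |γ| * 1 * (J / n + 2) := by
          refine mul_le_mul (mul_le_mul_of_nonneg_left hl1 (abs_nonneg _)) (hEb.trans ?_)
            (abs_nonneg _) (by positivity)
          linarith
      _ = _ := by ring
  have m8 : |γ| * (J / n + 2) ≤ h / 8 * J + 2 * (h / 16 * J) := by
    have a1 : |γ| / n ≤ h / 8 := by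
      refine le_trans ?_ hnh
      exact div_le_div_of_nonneg_right (by linarith) hn0.le
    have a2 : |γ| * (J / n + 2) = |γ| / n * J + 2 * |γ| := by ring
    rw [a2]
    have := mul_le_mul_of_nonneg_right a1 hJ0
    linarith
  have m9 : (γ * (Q - Q * (i / n))) * (Real.log 2 * J) =
      (γ * Real.log 2) * ((⌊Q * J⌋₊ : ℝ) - k) + γ * Real.log 2 * E := by
    rw [hE]
    ring
  have m10 : (r Q - r (Q * (i / n))) * (Real.log 2 * J) = r Q * Real.log 2 * J -
      r (Q * (i / n)) * Real.log 2 * J := by ring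
  have hhJ : 0 ≤ h * J := by positivity
  linarith

end Pool.GEN
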