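import Pool.Agent.H71.GEN.Lip

/-!
# Spread fans and rows of the zoom
-/

set_option autoImplicit false

namespace Pool.GEN

open Finset Real MvPolynomial
open Pool.Agent.H49.Ent Pool.Agent.H32.Dense Pool.STK Pool.KA Pool.KSAT Pool.K2S Pool.PB Pool.S6C
open Pool.FLF (Fam.sub)

variable {m n J : ℕ} {κ : Type}

/-- Fans of small diameter, by pairs of samples. -/
theorem plu_pair {Ω U : Type} {ρ : ℝ} {pt : Ω → U} {d : Ω → Fin m → ℝ} {B : Ω → Prop}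
    (h : ∀ ω ω', B ω → B ω' → pt ω = pt ω' → ∀ j, |d ω j - d ω' j| ≤ ρ) : PlU 0 ρ pt d B := by
  classical
  refine ⟨fun y => if hy : ∃ ω₀, B ω₀ ∧ pt ω₀ = y then (d hy.choose, fun _ _ => 0) else
    (fun _ => 0, fun _ _ => 0), fun ω hω => ⟨fun _ => 0, fun i => ?_⟩⟩
  have hy : ∃ ω₀, B ω₀ ∧ pt ω₀ = pt ω := ⟨ω, hω, rfl⟩
  simp only [dif_pos hy]
  have h1 := h ω hy.choose hω hy.choose_spec.1 hy.choose_spec.2.symm i
  simpa using h1

theorem plu_diff {Ω U : Type} {ρ : ℝ} {pt : Ω → U} {d : Ω → Fin m → ℝ} {B : Ω → Prop}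
    (h : PlU 0 ρ pt d B) : ∀ ω ω', B ω → B ω' → pt ω = pt ω' → ∀ j, |d ω j - d ω' j| ≤ 2 * ρ := by
  obtain ⟨ζ, hζ⟩ := h
  intro ω ω' hω hω' hpt j
  obtain ⟨c, hc⟩ := hζ ω hω
  obtain ⟨c', hc'⟩ := hζ ω' hω'
  have h1 := hc j
  have h2 := hc' j
  rw [← hpt] at h2
  simp only [Finset.univ_eq_empty, Finset.sum_empty, sub_zero] at h1 h2
  rw [abs_le] at h1 h2 ⊢
  constructor <;> linarith [h1.1, h1.2, h2.1, h2.2]

/-- **Thin fans of the zoom are thin fans of the family.** -/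
theorem plu_base (m n K : ℕ) : ∃ (C₁ : ℝ) (C₂ : ℕ), 0 < C₁ ∧ ∀ (J : ℕ) (F : Fam m J)
    (I : Finset (Fin m)) (w J' s q : ℕ) (A : F.Ω → Prop) (V : Type) (z : PtT F → V)
    (z' : LnT F → V) (G : V → Fin m → MvPolynomial (Option (Fin m)) ℝ),
    LabOK F I K J w s A z z' G → ∀ (e : Fin n → Fin m) (h : w + J' ≤ J),
    (∀ k ∈ I, ∃ i, e i = k) → q ≤ J' → w + q ≤ s → C₂ ≤ q → ∀ B : F.Ω → Prop, Sub B A →
    PlU 0 (1 / 2 ^ q) (Fam.pt (zf F w J' h (fun ω => z' (slam F w ω)) e))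
      (zf F w J' h (fun ω => z' (slam F w ω)) e).d B →
    ∃ B' : F.Ω → Prop, Sub B' B ∧ Pe F.p B ≤ C₁ * Pe F.p B' ∧
      PlU 0 (1 / 2 ^ (q - C₂)) (Fam.pt F) F.d B' := by
  obtain ⟨C, hC, hvel⟩ := lab_vel m K
  obtain ⟨C₂, hC₂⟩ := pow_unbounded_of_one_lt (C * 6) (one_lt_two : (1 : ℝ) < 2)
  refine ⟨5 ^ m * (5 ^ m * 17 ^ n), C₂, by positivity, ?_⟩
  intro J F I w J' s q A V z z' G hlab e h hI hq hs hCq B hBA hplu
  have hcls : ∀ ω ω', A ω → A ω' → ptr F J ω = ptr F J ω' →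
      z' (slam F w ω) = z' (slam F w ω') := by
    intro ω ω' h1 h2 hpt
    rw [← hlab.cls ω h1, ← hlab.cls ω' h2, hpt]
  obtain ⟨B', hB', hP, hdet⟩ := pt_zoom F h h (fun ω => z' (slam F w ω)) e B
    (fun ω ω' h1 h2 hpt => hcls ω ω' (hBA ω h1) (hBA ω' h2) hpt)
  refine ⟨B', hB', hP, plu_pair fun ω ω' h1 h2 hpt j => ?_⟩
  obtain ⟨hl, hpz⟩ := hdet ω ω' h1 h2 hpt
  have hpz' : Fam.pt (zf F w J' h (fun ω => z' (slam F w ω)) e) ω =
      Fam.pt (zf F w J' h (fun ω => z' (slam F w ω)) e) ω' := hpz J' le_rfl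
  have hdz := plu_diff hplu ω ω' (hB' ω h1) (hB' ω' h2) hpz'
  have hT : F.T ω = F.T ω' := (Prod.ext_iff.1 (Prod.ext_iff.1 hpt).2).1
  have ht : F.t ω = F.t ω' := by
    unfold Fam.t
    rw [hT]
  have hX : F.X J ω = F.X J ω' := (Prod.ext_iff.1 hpt).1
  have pJ : (0 : ℝ) < 2 ^ J := by positivity
  have pw : (0 : ℝ) < 2 ^ w := by positivity
  have pq : (0 : ℝ) < 2 ^ q := by positivity
  have hx : ∀ j, |F.x ω j - F.x ω' j| ≤ 1 / 2 ^ J := by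
    intro j
    have h3 := Plk.abs_sub_lt_of_floor (congrFun hX j : ⌊(2 : ℝ) ^ J * F.x ω j⌋ =
      ⌊(2 : ℝ) ^ J * F.x ω' j⌋)
    rw [← mul_sub, abs_mul, abs_of_pos pJ] at h3
    rw [le_div_iff₀ pJ]
    linarith
  have hqJ : (1 : ℝ) / 2 ^ J' ≤ 1 / 2 ^ q := inv_mono hq
  have hd : ∀ i, |F.d ω (e i) - F.d ω' (e i)| ≤ 4 / 2 ^ q := by
    intro i
    have c1 := zf_d F h (fun ω => z' (slam F w ω)) e ω i
    have c2 := zf_d F h (fun ω => z' (slam F w ω)) e ω' i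
    have c3 := hdz i
    have c4 : vl F ω = vl F ω' := (lb_iff.1 hl).2.2.2.1
    rw [c4] at c1
    have e1 : (4 : ℝ) / 2 ^ q = 2 * (1 / 2 ^ q) + 1 / 2 ^ q + 1 / 2 ^ q := by ring
    rw [e1]
    rw [abs_le] at c1 c2 c3 ⊢
    constructor <;> linarith [c1.1, c1.2, c2.1, c2.2, c3.1, c3.2]
  have hJw : (1 : ℝ) / 2 ^ J ≤ 1 / 2 ^ w := inv_mono (by omega)
  have key := hvel J F I J w s A V z z' G hlab ω ω' (hBA ω (hB' ω h1)) (hBA ω' (hB' ω' h2))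
    (hcls ω ω' (hBA ω (hB' ω h1)) (hBA ω' (hB' ω' h2)) hpt) ht (1 / 2 ^ J) (4 / 2 ^ q)
    (by positivity) hJw hx (by positivity) (fun k hk => by
      obtain ⟨i, rfl⟩ := hI k hk
      exact hd i) j
  refine key.trans ?_
  have e1 : (1 : ℝ) / 2 ^ J * 2 ^ w ≤ 1 / 2 ^ q := by
    rw [div_mul_eq_mul_div, one_mul, div_le_div_iff₀ pJ pq, one_mul, ← pow_add]
    exact pow_le_pow_right₀ one_le_two (by omega)
  have e2 : (2 : ℝ) ^ w / 2 ^ s ≤ 1 / 2 ^ q := by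
    rw [div_le_div_iff₀ (by positivity) pq, one_mul, ← pow_add]
    exact pow_le_pow_right₀ one_le_two (by omega)
  have hC0 : 0 ≤ C := by linarith
  have e3 : C * (4 / 2 ^ q + 1 / 2 ^ J * 2 ^ w + 2 ^ w / 2 ^ s) ≤ C * (6 / 2 ^ q) := by
    refine mul_le_mul_of_nonneg_left ?_ hC0
    have : (6 : ℝ) / 2 ^ q = 4 / 2 ^ q + 1 / 2 ^ q + 1 / 2 ^ q := by ring
    linarith
  refine e3.trans ?_
  have e4 : (2 : ℝ) ^ q = 2 ^ (q - C₂) * 2 ^ C₂ := by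
    rw [← pow_add]
    congr 1
    omega
  have e5 : C * (6 / 2 ^ q) = C * 6 / 2 ^ q := by ring
  rw [e5, e4, div_le_div_iff₀ (by positivity) (by positivity), one_mul, mul_comm]
  exact mul_le_mul_of_nonneg_left hC₂.le (by positivity)

/-- **The rows of the zoom**, for a label. -/
theorem lab_row (m K : ℕ) : ∃ C : ℝ, 0 ≤ C ∧ ∀ (n J : ℕ) (F : Fam m J)
    (I : Finset (Fin m)) (w J' s P : ℕ) (A : F.Ω → Prop) (V : Type) (z : PtT F → V)
    (z' : LnT F → V) (G : V → Fin m → MvPolynomial (Option (Fin m)) ℝ),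
    LabOK F I K J w s A z z' G → ∀ (e : Fin n → Fin m) (h : w + J' ≤ J),
    (∀ k ∈ I, ∃ i, e i = k) → P ≤ J' → w + J' ≤ s → ∀ (q : F.Ω → ℝ), IsLaw q →
    (∀ ω, 0 < q ω → A ω) → ∀ (e₀ : ℝ),
    (J : ℝ) * Real.log 2 - e₀ ≤ CH q F.T (fun ω => (F.l ω, F.Z ω)) →
    CH q ((zf F w J' h (fun ω => z' (slam F w ω)) e).X J')
        (fun ω => ((zf F w J' h (fun ω => z' (slam F w ω)) e).X P ω,
          (zf F w J' h (fun ω => z' (slam F w ω)) e).W ω)) ≤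
      CH q (F.X (w + J')) (fun ω => (F.X (w + P) ω, (F.T ω, (z' (slam F w ω), F.Z ω)))) +
        e₀ + (n * Real.log 17 + C) := by
  refine ⟨m * Real.log (2 * (42 + 7 * K * m) + 3), ?_, ?_⟩
  · refine mul_nonneg (Nat.cast_nonneg m) (Real.log_nonneg ?_)
    have : (0 : ℝ) ≤ 7 * K * m := by positivity
    linarith
  intro n J F I w J' s P A V z z' G hlab e h hI hP hs q hq hqA e₀ hTm
  have h1 := zf_time F h (fun ω => z' (slam F w ω)) e (P := P) hq (by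
    intro ω ω' _ _ hh
    have a1 := Prod.ext_iff.1 hh
    have a2 := Prod.ext_iff.1 a1.2
    simp only at a1 a2
    have : slam F w ω = slam F w ω' := Prod.ext a1.1 (Prod.ext a2.2 a2.1)
    simp only [this]) hTm
  have h2 := zf_row F h (fun ω => z' (slam F w ω)) e hP hq (Ck := 42 + 7 * K * m) (by
    intro ω ω' hω hω' hT hz _ hx hb j
    have pw : (0 : ℝ) < 2 ^ w := by positivity
    have pP : (0 : ℝ) < 2 ^ (w + P) := by positivity
    have hK : (0 : ℝ) ≤ 7 * K * m := by positivity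
    rcases le_or_gt 3 P with h3 | h3
    · have ht : F.t ω = F.t ω' := by
        unfold Fam.t
        rw [hT]
      have h7 : (7 : ℝ) / 2 ^ (w + P) ≤ 1 / 2 ^ w := by
        rw [pow_add, div_le_div_iff₀ (by positivity) pw, one_mul, mul_comm]
        refine mul_le_mul_of_nonneg_left ?_ pw.le
        calc (7 : ℝ) ≤ 2 ^ 3 := by norm_num
          _ ≤ 2 ^ P := pow_le_pow_right₀ one_le_two h3
      have key := hlab.crd (hqA ω hω) (hqA ω' hω') hz ht h7 (fun k hk => by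
        obtain ⟨i, rfl⟩ := hI k hk
        exact hx i) (by positivity) j
      refine key.trans ?_
      have h8 : (1 : ℝ) / 2 ^ s ≤ 1 / 2 ^ (w + P) := inv_mono (by omega)
      have e1 : (2 : ℝ) / 2 ^ s = 2 * (1 / 2 ^ s) := by ring
      have e2 : (42 + 7 * (K : ℝ) * m) / 2 ^ (w + P) = 2 * (1 / 2 ^ (w + P)) +
          K * (m * (7 / 2 ^ (w + P))) + 40 * (1 / 2 ^ (w + P)) := by ring
      have e3 : (0 : ℝ) ≤ 1 / 2 ^ (w + P) := by positivity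
      rw [e1, e2]
      linarith
    · refine (hb j).trans ?_
      rw [pow_add, div_le_div_iff₀ pw (by positivity)]
      have h4 : (2 : ℝ) ^ P ≤ 8 := by
        calc (2 : ℝ) ^ P ≤ 2 ^ 3 := pow_le_pow_right₀ one_le_two (by omega)
          _ = 8 := by norm_num
      have h5 : (5 : ℝ) * 2 ^ P ≤ 42 + 7 * K * m := by linarith
      calc (5 : ℝ) * (2 ^ w * 2 ^ P) = (5 * 2 ^ P) * 2 ^ w := by ring
        _ ≤ (42 + 7 * K * m) * 2 ^ w := mul_le_mul_of_nonneg_right h5 pw.le)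
  linarith

end Pool.GEN
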