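import Pool.Agent.H71.GEN.Comp
import Pool.Agent.H71.GEN.Rows
import Pool.Agent.H71.GEN.Spz

/-!
# The zooms of the families of a class have spread fans and no leaves of codimension one
-/

set_option autoImplicit false

namespace Pool.GEN

open Finset Real MvPolynomial
open Pool.Agent.H49.Ent Pool.Agent.H32.Dense Pool.STK Pool.KA Pool.KSAT Pool.K2S Pool.PB Pool.S6C
open Pool.FLF (Fam.sub)

variable {m n J : ℕ} {κ : Type}

/-- Constants are small powers. -/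
theorem cst (C : ℝ) {δ : ℝ} (hδ : 0 < δ) : ∃ J₀ : ℕ, ∀ J ≥ J₀, C ≤ Real.exp (δ * (J : ℝ)) := by
  obtain ⟨J₀, hJ₀⟩ := exists_nat_gt (C / δ)
  refine ⟨J₀, fun J hJ => ?_⟩
  have h1 : C / δ < J := hJ₀.trans_le (by exact_mod_cast hJ)
  rw [div_lt_iff₀ hδ] at h1
  have h2 := Real.add_one_le_exp (δ * (J : ℝ))
  linarith

/-- Linear functions with a positive slope are large. -/
theorem lin (C : ℝ) {δ : ℝ} (hδ : 0 < δ) : ∃ J₀ : ℕ, ∀ J ≥ J₀, C ≤ δ * (J : ℝ) := by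
  obtain ⟨J₀, hJ₀⟩ := exists_nat_gt (C / δ)
  refine ⟨J₀, fun J hJ => ?_⟩
  have h1 : C / δ < J := hJ₀.trans_le (by exact_mod_cast hJ)
  rw [div_lt_iff₀ hδ] at h1
  linarith

/-- A large event of the zoom, as an event of the family. -/
theorem evt {F : Fam m J} {A B : F.Ω → Prop} (hA : 0 < Pe F.p A) {ψ : ℝ} {J' : ℕ} (hJ : J' ≤ J)
    (hψ : 0 ≤ ψ)
    (h : Real.exp (-(3 * ψ * J')) ≤ Pe (Pool.Agent.H49.Ent.cond F.p A True) B) :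
    Real.exp (-(3 * ψ * J)) * Pe F.p A ≤ Pe F.p (fun ω => A ω ∧ B ω) := by
  rw [Pe_cond, le_div_iff₀ hA] at h
  refine le_trans (mul_le_mul_of_nonneg_right (Real.exp_le_exp.2 ?_) hA.le) h
  have h1 : (J' : ℝ) ≤ J := by exact_mod_cast hJ
  have h2 := mul_le_mul_of_nonneg_left h1 (by positivity : 0 ≤ 3 * ψ)
  linarith

/-- Finitely many base statements. -/
theorem Bas.fin {S : PCl m} {ι : Type} [Finite ι] {Φ : ι → Stat m} (h : ∀ i, Bas S (Φ i)) :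
    Bas S (fun J F A => ∀ i, Φ i J F A) := by
  classical
  obtain ⟨n, ⟨e⟩⟩ := Finite.exists_equiv_fin ι
  have h1 : Bas S (fun J F A => ∀ i < n, ∀ hi : i < n, Φ (e.symm ⟨i, hi⟩) J F A) := by
    refine Bas.all n fun i hi => Bas.mono 0 (h (e.symm ⟨i, hi⟩)) ?_
    intro J _ F A h2 _
    exact h2
  refine Bas.mono 0 h1 ?_
  intro J _ F A h2 i
  have := h2 (e i) (e i).2 (e i).2
  simpa using this

/-- **The fans of the zooms are spread.** -/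
theorem za {S : PCl m}
    (hpos : ∀ (τ : ℝ) (J : ℕ) (F : Fam m J) (A : F.Ω → Prop), S.St τ J F A → 0 < Pe F.p A)
    (hsp : ∀ g : ℝ, 0 < g → Bas S (fun J F A => ¬ PlU 0 (1 / 2 ^ ⌊g * J⌋₊) (Fam.pt F) F.d A))
    (K n : ℕ) {w₁ Q : ℝ} (hw : 0 < w₁) (hQ : w₁ < Q) {ν : ℝ} (hν : 0 < ν)
    (hν1 : ν ≤ 1) :
    ∃ ψ : ℝ, 0 < ψ ∧ ∃ τ₀ : ℝ, 0 < τ₀ ∧ ∃ J₀ : ℕ, ∀ J ≥ J₀, ∀ (F : Fam m J) (A : F.Ω → Prop),
    S.St τ₀ J F A → ∀ (I : Finset (Fin m)) (s : ℕ) (κ : Type) (z : PtT F → κ) (z' : LnT F → κ)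
    (Gp : κ → Fin m → MvPolynomial (Option (Fin m)) ℝ), LabOK F I K J ⌊w₁ * J⌋₊ s A z z' Gp →
    ⌊Q * J⌋₊ ≤ s → ∀ (e : Fin n → Fin m), (∀ k ∈ I, ∃ i, e i = k) → ∀ (J' : ℕ)
    (h : ⌊w₁ * J⌋₊ + J' ≤ J), J' = ⌊Q * J⌋₊ - ⌊w₁ * J⌋₊ → ∀ B : F.Ω → Prop,
    Real.exp (-(3 * ψ * J')) ≤ Pe (Pool.Agent.H49.Ent.cond F.p A True) B →
    ¬ PlU 0 (1 / 2 ^ ⌊ν * J'⌋₊)
      (Fam.pt (zf F ⌊w₁ * J⌋₊ J' h (fun ω => z' (slam F ⌊w₁ * J⌋₊ ω)) e))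
      (zf F ⌊w₁ * J⌋₊ J' h (fun ω => z' (slam F ⌊w₁ * J⌋₊ ω)) e).d B := by
  obtain ⟨C₁, C₂, hC₁, hbase⟩ := plu_base m n K
  obtain ⟨g, hg⟩ : ∃ g, g = ν * (Q - w₁) / 2 := ⟨_, rfl⟩
  have hg0 : 0 < g := by
    rw [hg]
    have := mul_pos hν (sub_pos.2 hQ)
    linarith
  obtain ⟨τ₁, hτ₁, J₁, hb⟩ := hsp g hg0
  obtain ⟨J₂, hJ₂⟩ := cst C₁ (δ := τ₁ / 4) (by linarith)
  obtain ⟨J₃, hJ₃⟩ := lin ((C₂ : ℝ) + 2) hg0
  refine ⟨τ₁ / 12, by linarith, τ₁ / 4, by linarith, max J₁ (max J₂ J₃), ?_⟩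
  intro J hJ F A hS I s κ z z' Gp hlab hs e hI J' h hJ' B hB hplu
  have hJ1 : J₁ ≤ J := (le_max_left _ _).trans hJ
  have hJ2 := hJ₂ J ((le_max_left _ _).trans ((le_max_right _ _).trans hJ))
  have hJ3 := hJ₃ J ((le_max_right _ _).trans ((le_max_right _ _).trans hJ))
  have hA := hpos _ J F A hS
  have hJr : (0 : ℝ) ≤ J := Nat.cast_nonneg J
  have hwQ : ⌊w₁ * (J : ℝ)⌋₊ ≤ ⌊Q * (J : ℝ)⌋₊ :=
    Nat.floor_le_floor (mul_le_mul_of_nonneg_right hQ.le hJr)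
  have hsum : ⌊w₁ * (J : ℝ)⌋₊ + J' = ⌊Q * (J : ℝ)⌋₊ := by omega
  -- the scale
  have hJ'r : (Q - w₁) * J - 1 ≤ (J' : ℝ) := by
    have a1 := Nat.floor_le (by positivity : 0 ≤ w₁ * (J : ℝ))
    have a2 := Nat.lt_floor_add_one (Q * (J : ℝ))
    have a3 : ((⌊w₁ * (J : ℝ)⌋₊ : ℕ) : ℝ) + J' = (⌊Q * (J : ℝ)⌋₊ : ℕ) := by exact_mod_cast hsum
    linarith
  have hqle : ⌊ν * (J' : ℝ)⌋₊ ≤ J' := by
    refine Nat.floor_le_of_le ?_
    have : (0 : ℝ) ≤ J' := Nat.cast_nonneg J'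
    nlinarith
  have hq2 : ⌊g * (J : ℝ)⌋₊ + C₂ ≤ ⌊ν * (J' : ℝ)⌋₊ := by
    refine Nat.le_floor ?_
    push_cast
    have a1 := Nat.floor_le (by positivity : 0 ≤ g * (J : ℝ))
    have a2 : ν * ((Q - w₁) * J - 1) ≤ ν * J' := mul_le_mul_of_nonneg_left hJ'r hν.le
    have a3 : ν * ((Q - w₁) * J - 1) = 2 * (g * J) - ν := by rw [hg]; ring
    linarith
  obtain ⟨B', hB', hP, hplu'⟩ := hbase J F I ⌊w₁ * J⌋₊ J' s ⌊ν * (J' : ℝ)⌋₊ A κ z z' Gp hlab e h hI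
    hqle (by omega) (by omega) (fun ω => A ω ∧ B ω) (fun ω hω => hω.1)
    (PlU.hered _ _ _ _ B _ (fun ω hω => hω.2) hplu)
  have hev := evt hA (by omega : J' ≤ J) (by linarith : 0 ≤ τ₁ / 12) hB
  have hPB : Real.exp (-((τ₁ / 4 + τ₁ / 4) * J)) * Pe F.p A ≤ Pe F.p B' := by
    have a1 : Real.exp (-(3 * (τ₁ / 12) * J)) * Pe F.p A ≤ Real.exp (τ₁ / 4 * J) * Pe F.p B' :=
      hev.trans (hP.trans (mul_le_mul_of_nonneg_right hJ2 (Pe_nonneg F.isLaw B')))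
    have e1 : Real.exp (-((τ₁ / 4 + τ₁ / 4) * J)) =
        Real.exp (-(τ₁ / 4 * J)) * Real.exp (-(3 * (τ₁ / 12) * J)) := by
      rw [← Real.exp_add]
      congr 1
      ring
    rw [e1, mul_assoc]
    calc _ ≤ Real.exp (-(τ₁ / 4 * J)) * (Real.exp (τ₁ / 4 * J) * Pe F.p B') :=
          mul_le_mul_of_nonneg_left a1 (Real.exp_pos _).le
      _ = Pe F.p B' := by
          rw [← mul_assoc, ← Real.exp_add]
          have : -(τ₁ / 4 * (J : ℝ)) + τ₁ / 4 * J = 0 := by ring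
          rw [this, Real.exp_zero, one_mul]
  have hSB := S.res (by linarith : 0 ≤ τ₁ / 4 + τ₁ / 4) hS (fun ω hω => (hB' ω hω).1) hPB
  refine hb J hJ1 F B' (S.mono (by linarith) hSB) ?_
  exact hplu'.mono (inv_mono (by omega))

/-- **No leaves of codimension one in the zooms.** -/
theorem zl {S : PCl m}
    (hbs : ∀ (τ : ℝ) (J : ℕ) (F : Fam m J) (A : F.Ω → Prop), S.St τ J F A → F.Tr ∧
      F.Tm (τ * J) ∧ F.Rb (τ * J) ∧ Real.exp (-(τ * J)) ≤ Pe F.p A)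
    {w₁ w₂ Q P x : ℝ} (hw : 0 < w₁) (hw12 : w₁ < w₂) (hw2 : w₂ ≤ 1 / 2) (hQ : w₁ < Q)
    (hQ1 : Q ≤ 1) (hP0 : 0 ≤ P) (hPQ : P < Q) (hx0 : 0 < x) (hx1 : x ≤ (w₂ - w₁) / 2)
    (hx2 : x ≤ (Q - P) / 4) (hx3 : x ≤ 1 / 2) (n : ℕ)
    (hthr : ∀ (I : Finset (Fin m)), I.card = n → ∀ K : ℕ,
      Bas S (fun J F A => ¬ GLab F I K J ⌊w₂ * J⌋₊ ⌊P * J⌋₊ A)) (K K₁ : ℕ) :
    ∃ ψ : ℝ, 0 < ψ ∧ ∃ τ₀ : ℝ, 0 < τ₀ ∧ ∃ J₀ : ℕ, ∀ J ≥ J₀, ∀ (F : Fam m J) (A : F.Ω → Prop),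
    S.St τ₀ J F A → ∀ (I : Finset (Fin m)) (s : ℕ) (κ : Type) (z : PtT F → κ) (z' : LnT F → κ)
    (Gp : κ → Fin m → MvPolynomial (Option (Fin m)) ℝ), LabOK F I K J ⌊w₁ * J⌋₊ s A z z' Gp →
    ⌊Q * J⌋₊ ≤ s → I.card = n + 1 → ∀ (e : Fin (n + 1) → Fin m), (∀ i, e i ∈ I) →
    Function.Injective e → ∀ (J' : ℕ)
    (h : ⌊w₁ * J⌋₊ + J' ≤ J), J' = ⌊Q * J⌋₊ - ⌊w₁ * J⌋₊ → ∀ B : F.Ω → Prop,
    Real.exp (-(3 * ψ * J')) ≤ Pe (Pool.Agent.H49.Ent.cond F.p A True) B →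
    ¬ LL K₁ x J' (zf F ⌊w₁ * J⌋₊ J' h (fun ω => z' (slam F ⌊w₁ * J⌋₊ ω)) e) B := by
  classical
  obtain ⟨c, C, K₂, c₀, hc, hC, hcomp⟩ := comp m (n + 1) K K₁
  have hpos : ∀ (τ : ℝ) (J : ℕ) (F : Fam m J) (A : F.Ω → Prop), S.St τ J F A →
      0 < Pe F.p A := fun τ J F A hS => lt_of_lt_of_le (Real.exp_pos _) (hbs τ J F A hS).2.2.2
  -- the thresholds
  have hbas : Bas S (fun J F A => ∀ I : Finset (Fin m), I.card = n →
      ¬ GLab F I K₂ J ⌊w₂ * J⌋₊ ⌊P * J⌋₊ A) := by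
    refine Bas.fin fun I => ?_
    by_cases hI : I.card = n
    · exact Bas.mono 0 (hthr I hI K₂) fun J _ F A h _ => h
    · exact ⟨1, one_pos, 0, fun J _ F A _ h => absurd h hI⟩
  obtain ⟨τ₁, hτ₁, J₁, hb⟩ := hbas
  obtain ⟨lam, hlam⟩ : ∃ lam, lam = min ((Q - P) / 8) (min (1 / 8) ((Q - w₁) / 8)) := ⟨_, rfl⟩
  have hlam0 : 0 < lam := by
    rw [hlam]
    exact lt_min (by linarith) (lt_min (by norm_num) (by linarith))
  have hl1 : lam ≤ (Q - P) / 8 := by rw [hlam]; exact min_le_left _ _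
  have hl2 : lam ≤ 1 / 8 := by rw [hlam]; exact (min_le_right _ _).trans (min_le_left _ _)
  have hl3 : lam ≤ (Q - w₁) / 8 := by
    rw [hlam]
    exact (min_le_right _ _).trans (min_le_right _ _)
  obtain ⟨δ, hδ⟩ : ∃ δ, δ = min (τ₁ / 8) (lam / (20 * C)) := ⟨_, rfl⟩
  have hC0 : 0 < C := by linarith
  have hδ0 : 0 < δ := by
    rw [hδ]
    exact lt_min (by linarith) (by positivity)
  have hδ1 : δ ≤ τ₁ / 8 := by rw [hδ]; exact min_le_left _ _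
  have hδ2 : C * (10 * δ) ≤ lam / 2 := by
    have : δ ≤ lam / (20 * C) := by rw [hδ]; exact min_le_right _ _
    rw [le_div_iff₀ (by positivity)] at this
    linarith
  obtain ⟨J₂, hJ₂⟩ := cst (1 / c) hδ0
  obtain ⟨J₃, hJ₃⟩ := lin (C + 1) (half_pos hlam0)
  obtain ⟨J₄, hJ₄⟩ := lin (4 * ((c₀ : ℝ) + 4)) (by linarith : 0 < (Q - w₁) / 2)
  obtain ⟨J₅, hJ₅⟩ := lin ((c₀ : ℝ) + 2) (by linarith : 0 < (w₂ - w₁) / 2)
  obtain ⟨J₆, hJ₆⟩ := lin (2 : ℝ) (by linarith : 0 < (Q - P) / 8)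
  refine ⟨δ / 3, by linarith, δ, hδ0, max J₁ (max J₂ (max J₃ (max J₄ (max J₅ J₆)))), ?_⟩
  intro J hJ F A hS I s κ z z' Gp hlab hs hIc e he hinj J' h hJ' B hB hLL
  simp only [ge_iff_le, max_le_iff] at hJ
  obtain ⟨hJ1, hJ2, hJ3, hJ4, hJ5, hJ6⟩ := hJ
  replace hJ2 := hJ₂ J hJ2
  replace hJ3 := hJ₃ J hJ3
  replace hJ4 := hJ₄ J hJ4
  replace hJ5 := hJ₅ J hJ5
  replace hJ6 := hJ₆ J hJ6
  have hA := hpos _ J F A hS
  obtain ⟨hTr, hTm, hRb, hPA⟩ := hbs _ J F A hS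
  have hJr : (0 : ℝ) ≤ J := Nat.cast_nonneg J
  obtain ⟨i₁, w, P₁, hw', hP1, hP2, hL⟩ := hLL
  obtain ⟨W, hW⟩ : ∃ W, W = ⌊w₁ * (J : ℝ)⌋₊ := ⟨_, rfl⟩
  have hwQ : W ≤ ⌊Q * (J : ℝ)⌋₊ := by
    rw [hW]
    exact Nat.floor_le_floor (mul_le_mul_of_nonneg_right hQ.le hJr)
  have hsum : W + J' = ⌊Q * (J : ℝ)⌋₊ := by rw [hW] at hwQ ⊢; omega
  have hWr : (W : ℝ) ≤ w₁ * J := by rw [hW]; exact Nat.floor_le (by positivity)
  have hQr := Nat.lt_floor_add_one (Q * (J : ℝ))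
  have hQr' : ((⌊Q * (J : ℝ)⌋₊ : ℕ) : ℝ) ≤ Q * J := Nat.floor_le (mul_nonneg (by linarith) hJr)
  have hsumr : (W : ℝ) + J' = (⌊Q * (J : ℝ)⌋₊ : ℕ) := by exact_mod_cast hsum
  have hJ'0 : (0 : ℝ) ≤ J' := Nat.cast_nonneg J'
  have hJ'J : (J' : ℝ) ≤ J := by
    have : J' ≤ J := by omega
    exact_mod_cast this
  have hJ'r : (Q - w₁) * J - 1 ≤ (J' : ℝ) := by linarith
  have hJ'c : 4 * ((c₀ : ℝ) + 3) ≤ J' := by linarith
  have hxJ : x * (J' : ℝ) ≤ x * J := mul_le_mul_of_nonneg_left hJ'J hx0.le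
  have hxJ2 : x * (J' : ℝ) ≤ 1 / 2 * J' := mul_le_mul_of_nonneg_right hx3 hJ'0
  have hc0r : (0 : ℝ) ≤ c₀ := Nat.cast_nonneg c₀
  have hcP : c₀ ≤ P₁ := by
    have : (c₀ : ℝ) ≤ P₁ := by linarith
    exact_mod_cast this
  have hwP : w ≤ P₁ := by
    have : (w : ℝ) ≤ P₁ := by linarith
    exact_mod_cast this
  have hwc : w + c₀ ≤ J' := by
    have : (w : ℝ) + c₀ ≤ J' := by linarith
    exact_mod_cast this
  have hev := evt hA (by omega : J' ≤ J) (by linarith : 0 ≤ δ / 3) hB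
  have hPB0 : 0 < Pe F.p (fun ω => A ω ∧ B ω) :=
    lt_of_lt_of_le (mul_pos (Real.exp_pos _) hA) hev
  -- the time deficit
  obtain ⟨θ, hθ⟩ : ∃ θ, θ = (4 * (δ * J) + δ * J + 3 * (δ * J)) := ⟨_, rfl⟩
  have hθ0 : 0 ≤ θ := by rw [hθ]; positivity
  obtain ⟨l, hl⟩ : ∃ l, l = ⌈C * (θ + 1)⌉₊ := ⟨_, rfl⟩
  have hl4 : C * (θ + 1) ≤ l := by rw [hl]; exact Nat.le_ceil _
  have hl5 : (l : ℝ) ≤ lam * J := by
    have h1 : (l : ℝ) < C * (θ + 1) + 1 := by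
      rw [hl]
      exact Nat.ceil_lt_add_one (by positivity)
    have h2 : C * θ ≤ lam / 2 * J := by
      have e1 : C * θ = C * (8 * δ) * J := by rw [hθ]; ring
      rw [e1]
      refine mul_le_mul_of_nonneg_right ?_ hJr
      have : C * (8 * δ) ≤ C * (10 * δ) := mul_le_mul_of_nonneg_left (by linarith) hC0.le
      linarith
    have e2 : C * (θ + 1) = C * θ + C := by ring
    rw [e2] at h1
    linarith
  have hwin : W + w + c₀ ≤ ⌊w₂ * (J : ℝ)⌋₊ := by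
    refine Nat.le_floor ?_
    push_cast
    have h1 : x * (J : ℝ) ≤ (w₂ - w₁) / 2 * J := mul_le_mul_of_nonneg_right hx1 hJr
    have h2 : w₂ * (J : ℝ) = w₁ * J + (w₂ - w₁) / 2 * J + (w₂ - w₁) / 2 * J := by ring
    rw [h2]
    linarith
  have hw2J : (⌊w₂ * (J : ℝ)⌋₊ : ℝ) ≤ 1 / 2 * J := by
    refine (Nat.floor_le (mul_nonneg (by linarith) hJr)).trans ?_
    exact mul_le_mul_of_nonneg_right hw2 hJr
  have hw2le : ⌊w₂ * (J : ℝ)⌋₊ ≤ J := by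
    have : (⌊w₂ * (J : ℝ)⌋₊ : ℝ) ≤ J := by linarith
    exact_mod_cast this
  obtain ⟨B', hB', hPB', hG⟩ := hcomp J F I W J' s A κ z z' Gp (by rw [hW]; exact hlab) e
    (by rw [hW]; exact h) he hinj (by rw [hsum]; exact hs) i₁ w P₁ (fun ω => A ω ∧ B ω)
    (fun ω hω => hω.1) hwP hP2 hcP hwc (by
      subst hW
      obtain ⟨G₁, H₁, a1, a2, a3⟩ := hL
      exact ⟨G₁, H₁, a1, a2, fun ω hω => a3 ω hω.2⟩) θ l hPB0 hθ0 hl4 (by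
      have h1 : (((W + w + c₀ : ℕ) : ℝ)) ≤ 1 / 2 * J := by
        have : ((W + w + c₀ : ℕ) : ℝ) ≤ (⌊w₂ * (J : ℝ)⌋₊ : ℕ) := by exact_mod_cast hwin
        linarith
      have h2 : (1 : ℝ) / 2 * J ≤ (J : ℝ) - ((W + w + c₀ : ℕ) : ℝ) := by linarith
      have h3 := mul_le_mul_of_nonneg_right h2 (Real.log_nonneg one_le_two)
      have h4 : (0.69 : ℝ) ≤ Real.log 2 := by
        have := Real.log_two_gt_d9
        linarith
      have h5 : 1 / 2 * (J : ℝ) * 0.69 ≤ 1 / 2 * J * Real.log 2 :=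
        mul_le_mul_of_nonneg_left h4 (by positivity)
      have h6 : lam * (J : ℝ) ≤ 1 / 8 * J := mul_le_mul_of_nonneg_right hl2 hJr
      linarith) (by
      have h1 : (l : ℝ) ≤ ((W + P₁ : ℕ) : ℝ) := by
        push_cast
        have h2 : lam * (J : ℝ) ≤ (Q - w₁) / 8 * J := mul_le_mul_of_nonneg_right hl3 hJr
        have h3 : (0 : ℝ) ≤ W := Nat.cast_nonneg W
        linarith
      exact_mod_cast h1) (by
      intro B'' hB'' hsub hPB''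
      have h1 : Real.exp (-(3 * (δ * J))) ≤ Pe F.p B'' := by
        have a1 : Real.exp (-(3 * (δ / 3) * J)) * Real.exp (-(δ * J)) ≤
            Pe F.p (fun ω => A ω ∧ B ω) :=
          le_trans (mul_le_mul_of_nonneg_left hPA (Real.exp_pos _).le) hev
        have a2 : c * (Real.exp (-(3 * (δ / 3) * J)) * Real.exp (-(δ * J))) ≤ Pe F.p B'' :=
          le_trans (mul_le_mul_of_nonneg_left a1 hc.le) hPB''
        refine le_trans ?_ a2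
        rw [div_le_iff₀ hc] at hJ2
        have e1 : Real.exp (-(3 * (δ * J))) = Real.exp (-(3 * (δ / 3) * J)) *
            Real.exp (-(δ * J)) * Real.exp (-(δ * J)) := by
          rw [← Real.exp_add, ← Real.exp_add]
          congr 1
          ring
        rw [e1, mul_comm c]
        refine mul_le_mul_of_nonneg_left ?_ (by positivity)
        rw [Real.exp_neg, inv_le_comm₀ (Real.exp_pos _) hc]
        rw [← one_div, div_le_iff₀ hc]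
        exact hJ2
      have h2 := Pool.STPA.sub_Tm_of_reg hTr hTm hRb hB'' h1
      rw [hθ]
      exact h2)
  -- the contradiction
  have hPB : Real.exp (-((δ + δ) * J)) * Pe F.p A ≤ Pe F.p B' := by
    refine le_trans ?_ hPB'
    refine le_trans ?_ (mul_le_mul_of_nonneg_left hev hc.le)
    rw [div_le_iff₀ hc] at hJ2
    have e1 : Real.exp (-((δ + δ) * J)) = Real.exp (-(3 * (δ / 3) * J)) *
        Real.exp (-(δ * J)) := by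
      rw [← Real.exp_add]
      congr 1
      ring
    have e2 : c * (Real.exp (-(3 * (δ / 3) * J)) * Pe F.p A) =
        Real.exp (-(3 * (δ / 3) * J)) * c * Pe F.p A := by ring
    rw [e1, e2]
    refine mul_le_mul_of_nonneg_right (mul_le_mul_of_nonneg_left ?_ (Real.exp_pos _).le) hA.le
    rw [Real.exp_neg, inv_le_comm₀ (Real.exp_pos _) hc]
    rw [← one_div, div_le_iff₀ hc]
    exact hJ2
  have hSB := S.res (by linarith : 0 ≤ δ + δ) hS (fun ω hω => (hB' ω hω).1) hPB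
  refine hb J hJ1 F B' (S.mono (by linarith) hSB) (I.erase (e i₁)) ?_ ?_
  · rw [Finset.card_erase_of_mem (he i₁), hIc]
    rfl
  · refine hG.mono le_rfl le_rfl hwin hw2le ?_
    have h1 : (⌊P * (J : ℝ)⌋₊ : ℝ) + l ≤ W + P₁ := by
      have a1 := Nat.floor_le (mul_nonneg hP0 hJr)
      have a2 : x * (J : ℝ) ≤ (Q - P) / 4 * J := mul_le_mul_of_nonneg_right hx2 hJr
      have a3 : lam * (J : ℝ) ≤ (Q - P) / 8 * J := mul_le_mul_of_nonneg_right hl1 hJr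
      have a4 : Q * (J : ℝ) = P * J + (Q - P) / 8 * J + (Q - P) / 4 * J + (Q - P) / 8 * J +
          (Q - P) / 2 * J := by ring
      have a5 : 0 ≤ (Q - P) / 2 * (J : ℝ) := mul_nonneg (by linarith) hJr
      linarith
    have h2 : ⌊P * (J : ℝ)⌋₊ + l ≤ W + P₁ := by exact_mod_cast h1
    omega

end Pool.GEN
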