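import Pool.Agent.H71.GEN.Defs
import Pool.Agent.H99.FLF.EXL
import Pool.Agent.H80.KS6.Plk

/-!
# Exact closed labels

`box_lab`: the boxes of the window are closed labels. `exact_poly`: a polynomial label of codimension
one gives an exact closed label on an event of relative probability at least a constant.
-/

set_option autoImplicit false

namespace Pool.GEN

open Finset Real MvPolynomial
open Pool.Agent.H49.Ent Pool.Agent.H32.Dense Pool.STK Pool.KA Pool.KSAT Pool.K2S Pool.PB Pool.KS3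
open Pool.KAL (shf coefSum eval_shf pderiv_shf totalDegree_shf_le abs_eval_le_coefSum
  coefSum_aeval_le coefSum_nonneg)
open Pool.KST

variable {m J : ℕ}

/-- **The boxes are closed labels.** -/
theorem box_lab (F : Fam m J) {r w : ℕ} (hw : 1 ≤ w) (hwr : w ≤ r) (hwJ : w ≤ J)
    (A : F.Ω → Prop) : ∃ B : F.Ω → Prop, Sub B A ∧ Pe F.p A ≤ 5 ^ m * Pe F.p B ∧
      GLab F ∅ 0 r w (w - 1) B := by
  classical
  have p0 : (0 : ℝ) < 2 ^ w := by positivity
  obtain ⟨v, rfl⟩ : ∃ v, w = v + 1 := ⟨w - 1, by omega⟩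
  have hcl : ∀ ω (i : Fin m), |F.x ω i - (fl (v + 1) (F.x1 (v + 1) ω) i : ℝ) / 2 ^ (v + 1)| ≤
      1 / 2 ^ v := by
    intro ω i
    have h1 : F.x ω i = F.x1 (v + 1) ω i +
        (F.t ω - (F.T1 (v + 1) ω : ℝ) / 2 ^ (v + 1)) * F.d ω i := by
      unfold Fam.x Fam.x1
      ring
    have h2 := T1_real F hwJ ω
    have h3 : |F.t ω - (F.T1 (v + 1) ω : ℝ) / 2 ^ (v + 1)| ≤ 1 / 2 ^ (v + 1) := by
      rw [abs_le]
      have e1 : F.t ω - (F.T1 (v + 1) ω : ℝ) / 2 ^ (v + 1) =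
          (2 ^ (v + 1) * F.t ω - F.T1 (v + 1) ω) / 2 ^ (v + 1) := by field_simp
      rw [e1]
      constructor
      · rw [← neg_div]
        refine div_le_div_of_nonneg_right ?_ p0.le
        linarith [h2.1]
      · refine div_le_div_of_nonneg_right ?_ p0.le
        linarith [h2.2]
    have h4 : |(F.t ω - (F.T1 (v + 1) ω : ℝ) / 2 ^ (v + 1)) * F.d ω i| ≤ 1 / 2 ^ (v + 1) := by
      rw [abs_mul]
      have := F.dir ω i
      have h0 := abs_nonneg (F.d ω i)
      have h5 := abs_nonneg (F.t ω - (F.T1 (v + 1) ω : ℝ) / 2 ^ (v + 1))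
      nlinarith
    have h5 : |F.x1 (v + 1) ω i - (fl (v + 1) (F.x1 (v + 1) ω) i : ℝ) / 2 ^ (v + 1)| ≤
        1 / 2 ^ (v + 1) := by
      have a1 : (fl (v + 1) (F.x1 (v + 1) ω) i : ℝ) ≤ 2 ^ (v + 1) * F.x1 (v + 1) ω i ∧
          2 ^ (v + 1) * F.x1 (v + 1) ω i < fl (v + 1) (F.x1 (v + 1) ω) i + 1 := by
        unfold fl rd
        exact ⟨Int.floor_le _, Int.lt_floor_add_one _⟩
      have e1 : F.x1 (v + 1) ω i - (fl (v + 1) (F.x1 (v + 1) ω) i : ℝ) / 2 ^ (v + 1) =
          (2 ^ (v + 1) * F.x1 (v + 1) ω i - fl (v + 1) (F.x1 (v + 1) ω) i) / 2 ^ (v + 1) := by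
        field_simp
      rw [e1, abs_div, abs_of_pos p0]
      refine div_le_div_of_nonneg_right ?_ p0.le
      rw [abs_le]
      constructor <;> linarith [a1.1, a1.2]
    have e3 : (1 : ℝ) / 2 ^ v = 1 / 2 ^ (v + 1) + 1 / 2 ^ (v + 1) := by
      rw [pow_succ]
      field_simp
      norm_num
    rw [h1, e3]
    have e4 : F.x1 (v + 1) ω i + (F.t ω - (F.T1 (v + 1) ω : ℝ) / 2 ^ (v + 1)) * F.d ω i -
        (fl (v + 1) (F.x1 (v + 1) ω) i : ℝ) / 2 ^ (v + 1) =
        (F.x1 (v + 1) ω i - (fl (v + 1) (F.x1 (v + 1) ω) i : ℝ) / 2 ^ (v + 1)) +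
        (F.t ω - (F.T1 (v + 1) ω : ℝ) / 2 ^ (v + 1)) * F.d ω i := by ring
    rw [e4]
    exact (abs_add_le _ _).trans (add_le_add h5 h4)
  obtain ⟨B, hBA, hPB, φ, hφ⟩ := Pool.S6K.exact_label F.isLaw 2 (ptr F r)
    (fun ω => fl (v + 1) (F.x1 (v + 1) ω)) A (by
      intro ω ω' _ _ hpt i
      obtain ⟨ψ, hψ⟩ := ptr_coarse F hwr
      have h1 : F.X (v + 1) ω i = F.X (v + 1) ω' i := by
        have : ptr F (v + 1) ω = ptr F (v + 1) ω' := by rw [hψ ω, hψ ω', hpt]
        exact congrFun (Prod.ext_iff.1 this).1 i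
      have key : ∀ ω : F.Ω, |(F.X (v + 1) ω i : ℝ) - fl (v + 1) (F.x1 (v + 1) ω) i| < 2 := by
        intro ω
        have a1 : (F.X (v + 1) ω i : ℝ) ≤ 2 ^ (v + 1) * F.x ω i ∧
            2 ^ (v + 1) * F.x ω i < F.X (v + 1) ω i + 1 := by
          unfold Fam.X fl rd
          exact ⟨Int.floor_le _, Int.lt_floor_add_one _⟩
        have a2 : (fl (v + 1) (F.x1 (v + 1) ω) i : ℝ) ≤ 2 ^ (v + 1) * F.x1 (v + 1) ω i ∧
            2 ^ (v + 1) * F.x1 (v + 1) ω i < fl (v + 1) (F.x1 (v + 1) ω) i + 1 := by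
          unfold fl rd
          exact ⟨Int.floor_le _, Int.lt_floor_add_one _⟩
        have h2 := T1_real F hwJ ω
        have h3 : 2 ^ (v + 1) * F.x ω i = 2 ^ (v + 1) * F.x1 (v + 1) ω i +
            (2 ^ (v + 1) * F.t ω - F.T1 (v + 1) ω) * F.d ω i := by
          unfold Fam.x Fam.x1
          field_simp
          ring
        have h4 : |(2 ^ (v + 1) * F.t ω - F.T1 (v + 1) ω) * F.d ω i| ≤ 1 := by
          rw [abs_mul, abs_of_nonneg (by linarith [h2.1])]
          have := F.dir ω i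
          have h0 := abs_nonneg (F.d ω i)
          nlinarith [h2.1, h2.2]
        rw [abs_le] at h4
        rw [abs_lt]
        constructor <;> linarith [a1.1, a1.2, a2.1, a2.2, h4.1, h4.2]
      have k1 := key ω
      have k2 := key ω'
      rw [h1] at k1
      rw [abs_lt] at k1 k2
      have k3 : |((fl (v + 1) (F.x1 (v + 1) ω) i - fl (v + 1) (F.x1 (v + 1) ω') i : ℤ) : ℝ)| <
          4 := by
        push_cast
        rw [abs_lt]
        constructor <;> linarith [k1.1, k1.2, k2.1, k2.2]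
      -- both cells are below the position by at most two
      have key2 : ∀ ω : F.Ω, F.X (v + 1) ω i - 1 ≤ fl (v + 1) (F.x1 (v + 1) ω) i ∧
          fl (v + 1) (F.x1 (v + 1) ω) i ≤ F.X (v + 1) ω i + 1 := by
        intro ω
        have h := key ω
        rw [abs_lt] at h
        have h1 : F.X (v + 1) ω i - fl (v + 1) (F.x1 (v + 1) ω) i < 2 := by
          have := h.2
          exact_mod_cast this
        have h2 : -2 < F.X (v + 1) ω i - fl (v + 1) (F.x1 (v + 1) ω) i := by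
          have := h.1
          exact_mod_cast this
        constructor <;> omega
      have q1 := key2 ω
      have q2 := key2 ω'
      rw [h1] at q1
      rw [abs_le]
      push_cast
      constructor <;> omega)
  refine ⟨B, hBA, ?_, ?_⟩
  · have e1 : (2 * ((2 : ℕ) : ℝ) + 1) ^ m = 5 ^ m := by norm_num
    rw [e1] at hPB
    exact hPB
  · refine ⟨Fin m → ℤ, φ, fun s => fl (v + 1) (fun i => s.1.1 i + (s.2.2 : ℝ) / 2 ^ (v + 1) *
      s.1.2 i), fun c j => C ((c j : ℝ) / 2 ^ (v + 1)), ?_⟩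
    have hz : ∀ ω, fl (v + 1) (fun i => (slam F (v + 1) ω).1.1 i +
        ((slam F (v + 1) ω).2.2 : ℝ) / 2 ^ (v + 1) * (slam F (v + 1) ω).1.2 i) =
        fl (v + 1) (F.x1 (v + 1) ω) := fun ω => rfl
    refine ⟨fun c j => by rw [totalDegree_C], fun c j hj => absurd hj (Finset.notMem_empty j),
      fun c j b b' _ _ => by rw [eval_C, eval_C], fun ω hω => ?_, fun ω hω j => ?_,
      fun ω hω j => ?_, fun ω hω b _ j o => ?_⟩
    · rw [hz, hφ ω hω]
    · rw [hz, eval_C]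
      exact hcl ω j
    · rw [hz]
      have : (∑ o, bd F ω o * eval (bt F ω) (pderiv o
          (C ((fl (v + 1) (F.x1 (v + 1) ω) j : ℝ) / 2 ^ (v + 1)) :
            MvPolynomial (Option (Fin m)) ℝ))) = 0 := by
        refine Finset.sum_eq_zero fun o _ => ?_
        rw [pderiv_C, map_zero, mul_zero]
      rw [this, sub_zero]
      refine (F.dir ω j).trans ?_
      rw [Nat.add_sub_cancel, le_div_iff₀ (by positivity), one_mul]
      exact pow_le_pow_right₀ (by norm_num) (by omega)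
    · rw [pderiv_C, map_zero, abs_zero]
      simp

/-- Polynomials on a larger cube. -/
theorem big_cube (m K : ℕ) : ∃ C : ℝ, 1 ≤ C ∧ ∀ (Q : MvPolynomial (Fin m) ℝ) (M : ℝ),
    Q.totalDegree ≤ K → (∀ y ∈ cube (fun _ : Fin m => (0 : ℝ)) 1, |eval y Q| ≤ M) →
    ∀ y : Fin m → ℝ, (∀ i, |y i| ≤ 4) → |eval y Q| ≤ C * M := by
  classical
  obtain ⟨C, hC, h⟩ := Pool.FLF.coefSum_le_unit m K
  refine ⟨4 ^ K * C, ?_, fun Q M hQ hM y hy => ?_⟩
  · have : (1 : ℝ) ≤ 4 ^ K := one_le_pow₀ (by norm_num)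
    nlinarith
  have h1 := h Q M hQ hM
  have h2 : eval y Q = eval (fun i => y i / 4) (shf Q 4 (fun _ => 0)) := by
    rw [eval_shf]
    congr 1
    congr 1
    funext i
    ring
  rw [h2]
  refine (abs_eval_le_coefSum _ _ fun i => ?_).trans ?_
  · rw [abs_div, abs_of_pos (by norm_num : (0 : ℝ) < 4), div_le_one (by norm_num)]
    exact hy i
  · have h3 : coefSum (shf Q 4 (fun _ => 0)) ≤ 4 ^ Q.totalDegree * coefSum Q := by
      unfold shf
      refine coefSum_aeval_le Q _ 4 (by norm_num) fun i => ?_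
      refine (Pool.KAL.coefSum_add_le _ _).trans ?_
      rw [Pool.KAL.coefSum_C, Pool.KAL.coefSum_C_mul, Pool.KAL.coefSum_X]
      norm_num
    have h4 : (4 : ℝ) ^ Q.totalDegree ≤ 4 ^ K := pow_le_pow_right₀ (by norm_num) hQ
    have h5 : 0 ≤ coefSum Q := coefSum_nonneg Q
    calc _ ≤ 4 ^ Q.totalDegree * coefSum Q := h3
      _ ≤ 4 ^ K * (C * M) := mul_le_mul h4 h1 h5 (by positivity)
      _ = _ := by ring

end Pool.GEN
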