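import Pool.Agent.H71.GEN.Stm
import Pool.Agent.H42.PB.Ext

/-!
# The modules of Theorem R (statements), second part

* `LEAFw n`: leaves of codimension one in classes of families in dimension `n` with spread fans and
  with a tail which is not full.
* `LeafZ n`: the same for a single family with side information (a zoom).
* `RateStmt m`: the rates of the positions given the labels.
-/

set_option autoImplicit false

namespace Pool.GEN

open Finset Real MvPolynomial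
open Pool.Agent.H49.Ent Pool.Agent.H32.Dense Pool.STK Pool.KA Pool.KSAT Pool.K2S Pool.PB Pool.S6C
open Pool.FLF (Fam.sub)

variable {m n J : ℕ}

/-- A family in the unit box, with rounded lines. -/
def Gd {n J : ℕ} (F : Fam n J) : Prop :=
  ∀ ω i, (0 ≤ F.u ω i ∧ F.u ω i ≤ 1) ∧ 0 ≤ F.d ω i ∧ (∃ a : ℤ, F.u ω i = a / 2 ^ J) ∧
    ∃ a : ℤ, F.d ω i = a / 2 ^ J

/-- A polynomial label of codimension one and of class `K`, of almost full precision, on windows of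
small length exponent. -/
def LL {n : ℕ} (K : ℕ) (x : ℝ) : Stat n := fun J F A =>
  ∃ (i₁ : Fin n) (w P : ℕ), (w : ℝ) ≤ x * J ∧ (1 - x) * J ≤ P ∧ P ≤ J ∧ Lab F i₁ J K w w P A

/-- The tail, at all rows. -/
def TLA (S : FCl n) (c : ℝ) : Prop :=
  ∀ η : ℝ, 0 < η → Clg S (fun J F A => ∀ P : ℕ, P ≤ J →
    CH (Pool.Agent.H49.Ent.cond F.p A True) (F.X J) (fun ω => (F.X P ω, F.W ω)) ≤
      (n - c) * Real.log 2 * ((J : ℝ) - P) + η * J)

/-- **(LEAF)** in dimension `n`. -/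
def LEAFw (n : ℕ) : Prop :=
  ∀ (S : FCl n) (c : ℝ), 0 < c → S.toP.Ne → (∀ (τ : ℝ) (J : ℕ) (F : Fam n J), S.T τ J F → Gd F) →
    SPS S 0 → TLA S c → ∀ x : ℝ, 0 < x → ¬ ∀ K : ℕ, Clg S (fun J F A => ¬ LL K x J F A)

/-- **(LEAF)** for a family with side information. -/
def LeafZ (n : ℕ) : Prop :=
  ∀ c x B₀ : ℝ, 0 < c → 0 < x → 0 < B₀ → ∀ ψ : ℕ → ℝ, (∀ i, 0 < ψ i) →
    ∃ η : ℝ, 0 < η ∧ ∃ N J₁ : ℕ, ∀ J ≥ J₁, ∀ G : Fam n J, G.Tm (η * J) →
    (∀ z, 0 < law G.p G.Z z → H (Pool.Agent.H49.Ent.cond G.p G.Z z) G.l ≤ B₀ * J) → Gd G →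
    ∃ i ≤ N, ∃ B : G.Ω → Prop, Real.exp (-(3 * ψ i * J)) ≤ Pe G.p B ∧
      (PlU 0 (1 / 2 ^ ⌊1 / ((i : ℝ) + 1) * J⌋₊) (Fam.pt G) G.d B ∨
      (∃ P ≤ J, (n - c) * Real.log 2 * ((J : ℝ) - P) + 1 / ((i : ℝ) + 1) * J <
        CH (Pool.Agent.H49.Ent.cond G.p B True) (G.X J) (fun ω => (G.X P ω, G.W ω))) ∨
      LL i x J G B)

/-- The statement of the transfer from classes to zooms: `zcl_core` for the class `zc` with
`Good = Gd`, `Bad i = BadS 0 ∨ (bad tail) ∨ LL i x`, and gluing of the sections. -/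
def LeafZStmt : Prop := ∀ n : ℕ, 0 < n → LEAFw n → LeafZ n

/-- The families with the labels as side information. -/
inductive Mem (S : PCl m) (K : ℕ) (w : ℝ) (s : Fin m → ℝ) (I : Fin m → Finset (Fin m)) (τ : ℝ) :
    ∀ (J : ℕ) (F : Fam m J), (F.Ω → Prop) → Prop
  | mk (J : ℕ) (F : Fam m J) (A : F.Ω → Prop) (V : Fin m → Type) (z : ∀ j, PtT F → V j)
      (z' : ∀ j, LnT F → V j) (G : ∀ j, V j → Fin m → MvPolynomial (Option (Fin m)) ℝ)
      (hlab : ∀ j, LabOK F (I j) K J ⌊w * J⌋₊ ⌊s j * J⌋₊ A (z j) (z' j) (G j))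
      (hS : S.St τ J F A) :
      Mem S K w s I τ J (F.cnd (fun ω => fun j => z' j (slam F ⌊w * J⌋₊ ω))) A

/-- **(RATE)** The rates of the positions given labels of all dimensions, in a class of families
with the labels as side information. -/
def RateStmt (m : ℕ) : Prop :=
  ∀ (S : PCl m) (M : ℝ) (K : ℕ) (w : ℝ) (s : Fin m → ℝ) (I : Fin m → Finset (Fin m)), S.Ne →
    (∀ (τ : ℝ) (J : ℕ) (F : Fam m J) (A : F.Ω → Prop), S.St τ J F A → 0 < Pe F.p A) →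
    Bas S (fun J F A => ∀ k : ℕ, k ≤ J → (cnt F.p (ptr F k) A : ℝ) ≤ Real.exp (M * J)) →
    0 < w → w ≤ 1 →
    (∀ j, Bas S (fun J F A => GLab F (I j) K J ⌊w * J⌋₊ ⌊s j * J⌋₊ A)) →
    ∃ S' : PCl m, S'.Ne ∧
      (∀ (τ : ℝ) (J : ℕ) (F : Fam m J) (A : F.Ω → Prop), S'.St τ J F A →
        Mem S K w s I τ J F A) ∧
      ∃ r : ℝ → ℝ, ContinuousOn r (Set.Icc 0 1) ∧ MonotoneOn r (Set.Icc 0 1) ∧ 0 ≤ r 0 ∧
        ∀ Q : ℝ, 0 ≤ Q → Q ≤ 1 → ∀ h : ℝ, 0 < h → Bas S' (fun J F A =>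
          |CH (Pool.Agent.H49.Ent.cond F.p A True) (F.X ⌊Q * J⌋₊) F.W -
            r Q * Real.log 2 * J| ≤ h * J)

end Pool.GEN
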