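import Pool.Agent.H35.ZCL.SecG
import Pool.Agent.H60.ZCL.BTail

/-!
# General dimension: closed labels with free coordinates

`GLab F I K r w P A`: labels which are functions of the point of resolution `r` and of the line in
the window of length `2 ^ (-w)`; given the label, the coordinates outside `I` are polynomials of
the time and of the coordinates in `I`, up to `2 ^ (-P)`, and the velocities are tangent.
-/

set_option autoImplicit false

namespace Pool.GEN

open Finset Real MvPolynomial
open Pool.Agent.H49.Ent Pool.Agent.H32.Dense Pool.STK Pool.KA Pool.KSAT Pool.K2S Pool.PB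

variable {m J : ℕ}

/-- The time and the position. -/
noncomputable def bt (F : Fam m J) (ω : F.Ω) : Option (Fin m) → ℝ
  | none => F.t ω
  | some j => F.x ω j

/-- The velocity of the time and of the position. -/
noncomputable def bd (F : Fam m J) (ω : F.Ω) : Option (Fin m) → ℝ
  | none => 1
  | some j => F.d ω j

/-- The type of the values at the points. -/
abbrev PtT (F : Fam m J) : Type := (Fin m → ℤ) × (ℕ × F.ζ)

/-- The type of the values on the lines, in a window. -/
abbrev LnT (F : Fam m J) : Type := ((Fin m → ℝ) × (Fin m → ℝ)) × F.ζ × ℕ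

/-- **The conditions for a label** with the free coordinates `I`. -/
structure LabOK (F : Fam m J) (I : Finset (Fin m)) (K r w P : ℕ) (A : F.Ω → Prop) {V : Type}
    (z : PtT F → V) (z' : LnT F → V) (G : V → Fin m → MvPolynomial (Option (Fin m)) ℝ) :
    Prop where
  deg : ∀ v j, (G v j).totalDegree ≤ K
  fre : ∀ v, ∀ j ∈ I, G v j = X (some j)
  dep : ∀ v j, ∀ b b' : Option (Fin m) → ℝ, b none = b' none →
    (∀ k ∈ I, b (some k) = b' (some k)) → eval b (G v j) = eval b' (G v j)
  cls : ∀ ω, A ω → z (ptr F r ω) = z' (slam F w ω)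
  pos : ∀ ω, A ω → ∀ j, |F.x ω j - eval (bt F ω) (G (z' (slam F w ω)) j)| ≤ 1 / 2 ^ P
  vel : ∀ ω, A ω → ∀ j, |F.d ω j -
    ∑ o, bd F ω o * eval (bt F ω) (pderiv o (G (z' (slam F w ω)) j))| ≤ 2 ^ w / 2 ^ P
  lip : ∀ ω, A ω → ∀ b : Option (Fin m) → ℝ, (∀ o, |b o - bt F ω o| ≤ 1 / 2 ^ w) → ∀ j o,
    |eval b (pderiv o (G (z' (slam F w ω)) j))| ≤ K

/-- **Closed labels with the free coordinates `I`.** -/
def GLab (F : Fam m J) (I : Finset (Fin m)) (K r w P : ℕ) (A : F.Ω → Prop) : Prop :=
  ∃ (V : Type) (z : PtT F → V) (z' : LnT F → V)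
    (G : V → Fin m → MvPolynomial (Option (Fin m)) ℝ), LabOK F I K r w P A z z' G

/-! ### Monotonicity -/

theorem LabOK.sub {F : Fam m J} {I : Finset (Fin m)} {K r w P : ℕ} {A B : F.Ω → Prop} {V : Type}
    {z : PtT F → V} {z' : LnT F → V} {G : V → Fin m → MvPolynomial (Option (Fin m)) ℝ}
    (h : LabOK F I K r w P A z z' G) (hB : Sub B A) : LabOK F I K r w P B z z' G :=
  ⟨h.deg, h.fre, h.dep, fun ω hω => h.cls ω (hB ω hω), fun ω hω => h.pos ω (hB ω hω),
    fun ω hω => h.vel ω (hB ω hω), fun ω hω => h.lip ω (hB ω hω)⟩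

theorem GLab.hered (F : Fam m J) (I : Finset (Fin m)) (K r w P : ℕ) :
    Hered (GLab F I K r w P) := by
  rintro A B hB ⟨V, z, z', G, h⟩
  exact ⟨V, z, z', G, h.sub hB⟩

theorem LabOK.pre {F : Fam m J} {I : Finset (Fin m)} {K r w P P' : ℕ} {A : F.Ω → Prop} {V : Type}
    {z : PtT F → V} {z' : LnT F → V} {G : V → Fin m → MvPolynomial (Option (Fin m)) ℝ}
    (h : LabOK F I K r w P A z z' G) (hP : P' ≤ P) : LabOK F I K r w P' A z z' G := by
  have h1 : (1 : ℝ) / 2 ^ P ≤ 1 / 2 ^ P' := inv_mono hP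
  have h2 : (2 : ℝ) ^ w / 2 ^ P ≤ 2 ^ w / 2 ^ P' :=
    div_le_div_of_nonneg_left (by positivity) (by positivity)
      (pow_le_pow_right₀ (by norm_num) hP)
  exact ⟨h.deg, h.fre, h.dep, h.cls, fun ω hω j => (h.pos ω hω j).trans h1,
    fun ω hω j => (h.vel ω hω j).trans h2, h.lip⟩

theorem LabOK.mK {F : Fam m J} {I : Finset (Fin m)} {K K' r w P : ℕ} {A : F.Ω → Prop} {V : Type}
    {z : PtT F → V} {z' : LnT F → V} {G : V → Fin m → MvPolynomial (Option (Fin m)) ℝ}
    (h : LabOK F I K r w P A z z' G) (hK : K ≤ K') : LabOK F I K' r w P A z z' G :=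
  ⟨fun v j => (h.deg v j).trans hK, h.fre, h.dep, h.cls, h.pos, h.vel, fun ω hω b hb j o =>
    (h.lip ω hω b hb j o).trans (by exact_mod_cast hK)⟩

/-- A label for windows is a label for shorter windows. -/
theorem GLab.win {F : Fam m J} {I : Finset (Fin m)} {K r w w' P : ℕ} {A : F.Ω → Prop}
    (h : GLab F I K r w P A) (hw : w ≤ w') (hw' : w' ≤ J) : GLab F I K r w' P A := by
  obtain ⟨V, z, z', G, h⟩ := h
  refine ⟨V, z, fun s => z' (s.1, s.2.1, s.2.2 / 2 ^ (w' - w)), G, ?_⟩
  have e : ∀ ω, z' ((slam F w' ω).1, (slam F w' ω).2.1, (slam F w' ω).2.2 / 2 ^ (w' - w)) =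
      z' (slam F w ω) := fun ω => by rw [← slam_coarse F hw hw' ω]
  refine ⟨h.deg, h.fre, h.dep, fun ω hω => (h.cls ω hω).trans (e ω).symm, fun ω hω j => ?_,
    fun ω hω j => ?_, fun ω hω b hb j o => ?_⟩
  · simp only [e]
    exact h.pos ω hω j
  · simp only [e]
    refine (h.vel ω hω j).trans ?_
    exact div_le_div_of_nonneg_right (pow_le_pow_right₀ (by norm_num) hw) (by positivity)
  · simp only [e]
    exact h.lip ω hω b (fun o => (hb o).trans (inv_mono hw)) j o

/-- A label which is visible at a resolution is visible at higher resolutions. -/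
theorem LabOK.res {F : Fam m J} {I : Finset (Fin m)} {K r r' w P : ℕ} {A : F.Ω → Prop}
    {V : Type} {z : PtT F → V} {z' : LnT F → V}
    {G : V → Fin m → MvPolynomial (Option (Fin m)) ℝ}
    (h : LabOK F I K r w P A z z' G) (hr : r ≤ r') :
    ∃ y : PtT F → V, LabOK F I K r' w P A y z' G := by
  obtain ⟨φ, hφ⟩ := ptr_coarse F hr
  exact ⟨fun x => z (φ x), h.deg, h.fre, h.dep, fun ω hω => by rw [← hφ ω]; exact h.cls ω hω,
    h.pos, h.vel, h.lip⟩

theorem GLab.mono {F : Fam m J} {I : Finset (Fin m)} {K K' r r' w w' P P' : ℕ} {A : F.Ω → Prop}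
    (h : GLab F I K r w P A) (hK : K ≤ K') (hr : r ≤ r') (hw : w ≤ w') (hw' : w' ≤ J)
    (hP : P' ≤ P) : GLab F I K' r' w' P' A := by
  obtain ⟨V, z, z', G, h⟩ := h
  obtain ⟨y, h1⟩ := ((h.pre hP).mK hK).res hr
  exact GLab.win ⟨V, y, z', G, h1⟩ hw hw'

/-- More free coordinates. -/
theorem GLab.free {F : Fam m J} {I I' : Finset (Fin m)} {K r w P : ℕ} {A : F.Ω → Prop}
    (h : GLab F I K r w P A) (hI : I ⊆ I') (hK : 1 ≤ K) : GLab F I' K r w P A := by
  classical
  obtain ⟨V, z, z', G, h⟩ := h
  refine ⟨V, z, z', fun v j => if j ∈ I' then X (some j) else G v j, ?_⟩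
  have hx : ∀ ω (j : Fin m), F.x ω j - eval (bt F ω) (X (some j)) = 0 := by
    intro ω j
    rw [eval_X]
    exact sub_self _
  have hpd : ∀ (o : Option (Fin m)) (j : Fin m),
      pderiv o (X (some j) : MvPolynomial (Option (Fin m)) ℝ) =
        if o = some j then 1 else 0 := by
    intro o j
    rw [pderiv_X]
    by_cases ho : o = some j
    · rw [if_pos ho, ho, Pi.single_eq_same]
    · rw [if_neg ho, Pi.single_eq_of_ne (Ne.symm ho)]
  refine ⟨fun v j => ?_, fun v j hj => if_pos hj, fun v j b b' h1 h2 => ?_, h.cls,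
    fun ω hω j => ?_, fun ω hω j => ?_, fun ω hω b hb j o => ?_⟩
  · by_cases hj : j ∈ I'
    · simp only [if_pos hj]
      exact (totalDegree_X _).le.trans hK
    · simp only [if_neg hj]
      exact h.deg v j
  · by_cases hj : j ∈ I'
    · simp only [if_pos hj, eval_X]
      exact h2 j hj
    · simp only [if_neg hj]
      exact h.dep v j b b' h1 fun k hk => h2 k (hI hk)
  · by_cases hj : j ∈ I'
    · simp only [if_pos hj, hx, abs_zero]
      positivity
    · simp only [if_neg hj]
      exact h.pos ω hω j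
  · by_cases hj : j ∈ I'
    · simp only [if_pos hj, hpd]
      have : (∑ o, bd F ω o * eval (bt F ω) (if o = some j then
          (1 : MvPolynomial (Option (Fin m)) ℝ) else 0)) = F.d ω j := by
        rw [Finset.sum_eq_single (some j)]
        · simp [bd]
        · intro o _ ho
          rw [if_neg ho, map_zero, mul_zero]
        · intro hh
          exact absurd (Finset.mem_univ _) hh
      rw [this, sub_self, abs_zero]
      positivity
    · simp only [if_neg hj]
      exact h.vel ω hω j
  · by_cases hj : j ∈ I'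
    · simp only [if_pos hj, hpd]
      have h1 : (1 : ℝ) ≤ K := by exact_mod_cast hK
      split_ifs
      · rw [map_one, abs_one]
        exact h1
      · rw [map_zero, abs_zero]
        linarith
    · simp only [if_neg hj]
      exact h.lip ω hω b hb j o

/-- Without conditions: all coordinates are free. -/
theorem GLab.univ (F : Fam m J) {K : ℕ} (hK : 1 ≤ K) (r w P : ℕ) (A : F.Ω → Prop) :
    GLab F Finset.univ K r w P A := by
  classical
  refine ⟨Unit, fun _ => (), fun _ => (), fun _ j => X (some j), fun v j =>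
    (totalDegree_X _).le.trans hK, fun _ _ _ => rfl, fun v j b b' h1 h2 => ?_, fun _ _ => rfl,
    fun ω hω j => ?_, fun ω hω j => ?_, fun ω hω b hb j o => ?_⟩
  · rw [eval_X, eval_X]
    exact h2 j (Finset.mem_univ _)
  · rw [eval_X]
    change |F.x ω j - F.x ω j| ≤ _
    rw [sub_self, abs_zero]
    positivity
  · have : (∑ o, bd F ω o * eval (bt F ω) (pderiv o
        (X (some j) : MvPolynomial (Option (Fin m)) ℝ))) = F.d ω j := by
      rw [Finset.sum_eq_single (some j)]
      · rw [pderiv_X, Pi.single_eq_same, map_one, mul_one]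
        rfl
      · intro o _ ho
        rw [pderiv_X, Pi.single_eq_of_ne (Ne.symm ho), map_zero, mul_zero]
      · intro hh
        exact absurd (Finset.mem_univ _) hh
    rw [this, sub_self, abs_zero]
    positivity
  · have h1 : (1 : ℝ) ≤ K := by exact_mod_cast hK
    rw [pderiv_X]
    by_cases ho : o = some j
    · rw [ho, Pi.single_eq_same, map_one, abs_one]
      exact h1
    · rw [Pi.single_eq_of_ne (Ne.symm ho), map_zero, abs_zero]
      linarith

end Pool.GEN
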