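import Pool.Agent.H71.GEN.Lip
import Pool.Agent.H55.KS3.SML

/-!
# Substitution of the label of the zoom in the label of the family (polynomials)
-/

set_option autoImplicit false

namespace Pool.GEN

open Finset Real MvPolynomial

variable {m n : ℕ}

/-- The chain rule. -/
theorem pd_aeval {σ τ : Type} [Fintype σ] (Q : MvPolynomial σ ℝ) (g : σ → MvPolynomial τ ℝ)
    (o : τ) : pderiv o (aeval g Q) = ∑ i, aeval g (pderiv i Q) * pderiv o (g i) := by
  classical
  induction Q using MvPolynomial.induction_on with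
  | C a =>
    have h1 : aeval g (C a : MvPolynomial σ ℝ) = C a := by
      rw [aeval_C]
      rfl
    rw [h1, pderiv_C]
    symm
    refine Finset.sum_eq_zero fun i _ => ?_
    rw [pderiv_C, map_zero, zero_mul]
  | add p q hp hq =>
    rw [map_add, map_add, hp, hq, ← Finset.sum_add_distrib]
    refine Finset.sum_congr rfl fun i _ => ?_
    rw [map_add, map_add, add_mul]
  | mul_X p j hp =>
    rw [map_mul, pderiv_mul, hp, aeval_X]
    have h1 : ∀ i, aeval g (pderiv i (p * X j)) * pderiv o (g i) =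
        aeval g (pderiv i p) * pderiv o (g i) * g j +
          (if i = j then aeval g p * pderiv o (g i) else 0) := by
      intro i
      rw [pderiv_mul, map_add, map_mul, map_mul, aeval_X, pderiv_X]
      by_cases h : i = j
      · rw [if_pos h, h, Pi.single_eq_same, map_one]
        ring
      · rw [if_neg h, Pi.single_eq_of_ne (Ne.symm h), map_zero]
        ring
    rw [Finset.sum_congr rfl fun i _ => h1 i, Finset.sum_add_distrib, Finset.sum_ite_eq',
      if_pos (Finset.mem_univ _), ← Finset.sum_mul]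

theorem eval_aevalσ {σ τ : Type} (Q : MvPolynomial σ ℝ) (g : σ → MvPolynomial τ ℝ)
    (b : τ → ℝ) : eval b (aeval g Q) = eval (fun i => eval b (g i)) Q := by
  induction Q using MvPolynomial.induction_on with
  | C a =>
    rw [aeval_C, eval_C]
    change eval b (C a) = a
    rw [eval_C]
  | add p q hp hq => rw [map_add, map_add, map_add, hp, hq]
  | mul_X p j hp => rw [map_mul, map_mul, map_mul, hp, aeval_X, eval_X]

theorem totalDegree_aevalσ {σ τ : Type} {Q : MvPolynomial σ ℝ} {g : σ → MvPolynomial τ ℝ}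
    {d K : ℕ} (hg : ∀ i, (g i).totalDegree ≤ d) (hQ : Q.totalDegree ≤ K) :
    (aeval g Q).totalDegree ≤ d * K :=
  (Pool.KS3.SML.totalDegree_bind_le g d hg Q).trans (Nat.mul_le_mul_left d hQ)

/-! ### The box coordinates -/

/-- The time in the box. -/
noncomputable def tbx (m w : ℕ) (a : ℝ) : MvPolynomial (Option (Fin m)) ℝ :=
  C (2 ^ w) * X none - C a

/-- The coordinates of the zoom, with the time in the slot `i₁`. -/
noncomputable def ssb (w : ℕ) (a : ℝ) (cv vv : Fin m → ℝ) (e : Fin n → Fin m) (i₁ k : Fin n) :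
    MvPolynomial (Option (Fin m)) ℝ :=
  if k = i₁ then tbx m w a else C (2 ^ w) * X (some (e k)) - C (cv (e k)) - C (vv (e k)) * tbx m w a

/-- The coordinate `e i₁`, by the label `H` of the zoom. -/
noncomputable def qsb (w : ℕ) (a : ℝ) (cv vv : Fin m → ℝ) (e : Fin n → Fin m) (i₁ : Fin n)
    (H : MvPolynomial (Fin n) ℝ) : MvPolynomial (Option (Fin m)) ℝ :=
  C (1 / 2 ^ w) * (aeval (ssb w a cv vv e i₁) H + C (cv (e i₁)) + C (vv (e i₁)) * tbx m w a)

/-- The composed label. -/
noncomputable def gsb (w : ℕ) (a : ℝ) (cv vv : Fin m → ℝ) (e : Fin n → Fin m) (i₁ : Fin n)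
    (H : MvPolynomial (Fin n) ℝ) (I : Finset (Fin m))
    (Gp : Fin m → MvPolynomial (Option (Fin m)) ℝ) (j : Fin m) :
    MvPolynomial (Option (Fin m)) ℝ :=
  if j ∈ I.erase (e i₁) then X (some j) else if j = e i₁ then qsb w a cv vv e i₁ H else
    aeval (fun o => if o = some (e i₁) then qsb w a cv vv e i₁ H else X o) (Gp j)

section

variable {w : ℕ} {a : ℝ} {cv vv : Fin m → ℝ} {e : Fin n → Fin m} {i₁ : Fin n}

theorem eval_tbx (b : Option (Fin m) → ℝ) : eval b (tbx m w a) = 2 ^ w * b none - a := by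
  unfold tbx
  rw [map_sub, map_mul, eval_C, eval_C, eval_X]

theorem eval_ssb (b : Option (Fin m) → ℝ) (k : Fin n) : eval b (ssb w a cv vv e i₁ k) =
    if k = i₁ then 2 ^ w * b none - a else
      2 ^ w * b (some (e k)) - cv (e k) - vv (e k) * (2 ^ w * b none - a) := by
  unfold ssb
  split_ifs
  · exact eval_tbx b
  · rw [map_sub, map_sub, map_mul, map_mul, eval_C, eval_C, eval_C, eval_X, eval_tbx]

theorem eval_qsb (H : MvPolynomial (Fin n) ℝ) (b : Option (Fin m) → ℝ) :
    eval b (qsb w a cv vv e i₁ H) = 1 / 2 ^ w * (eval (fun k => eval b (ssb w a cv vv e i₁ k)) H +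
      cv (e i₁) + vv (e i₁) * (2 ^ w * b none - a)) := by
  unfold qsb
  rw [map_mul, map_add, map_add, map_mul, eval_C, eval_C, eval_C, eval_tbx, eval_aevalσ]

theorem deg_tbx : (tbx m w a).totalDegree ≤ 1 := by
  unfold tbx
  refine (totalDegree_sub _ _).trans (max_le ?_ ?_)
  · refine (totalDegree_mul _ _).trans ?_
    rw [totalDegree_C, totalDegree_X]
  · rw [totalDegree_C]
    exact Nat.zero_le _

theorem deg_ssb (k : Fin n) : (ssb w a cv vv e i₁ k).totalDegree ≤ 1 := by
  unfold ssb
  split_ifs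
  · exact deg_tbx
  · refine (totalDegree_sub _ _).trans (max_le ((totalDegree_sub _ _).trans (max_le ?_ ?_)) ?_)
    · refine (totalDegree_mul _ _).trans ?_
      rw [totalDegree_C, totalDegree_X]
    · rw [totalDegree_C]
      exact Nat.zero_le _
    · refine (totalDegree_mul _ _).trans ?_
      rw [totalDegree_C, zero_add]
      exact deg_tbx

theorem deg_qsb {H : MvPolynomial (Fin n) ℝ} {K : ℕ} (hH : H.totalDegree ≤ K) :
    (qsb w a cv vv e i₁ H).totalDegree ≤ K + 1 := by
  unfold qsb
  refine (totalDegree_mul _ _).trans ?_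
  rw [totalDegree_C, zero_add]
  refine (totalDegree_add _ _).trans (max_le ((totalDegree_add _ _).trans (max_le ?_ ?_)) ?_)
  · have := totalDegree_aevalσ (g := ssb w a cv vv e i₁) (fun k => deg_ssb k) hH
    omega
  · rw [totalDegree_C]
    exact Nat.zero_le _
  · refine (totalDegree_mul _ _).trans ?_
    rw [totalDegree_C, zero_add]
    exact deg_tbx.trans (by omega)

theorem deg_gsb {H : MvPolynomial (Fin n) ℝ} {K K₁ : ℕ} (hH : H.totalDegree ≤ K₁)
    (I : Finset (Fin m)) {Gp : Fin m → MvPolynomial (Option (Fin m)) ℝ}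
    (hG : ∀ j, (Gp j).totalDegree ≤ K) (j : Fin m) :
    (gsb w a cv vv e i₁ H I Gp j).totalDegree ≤ (K₁ + 1) * (K + 1) := by
  have e1 : (K₁ + 1) * (K + 1) = (K₁ + 1) * K + (K₁ + 1) := by ring
  have e2 : 0 ≤ (K₁ + 1) * K := Nat.zero_le _
  unfold gsb
  split_ifs
  · rw [totalDegree_X]
    omega
  · refine (deg_qsb hH).trans ?_
    omega
  · refine (totalDegree_aevalσ (d := K₁ + 1) (fun o => ?_) (hG j)).trans ?_
    · split_ifs
      · exact deg_qsb hH
      · rw [totalDegree_X]
        omega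
    · omega

/-- The free coordinates of the composed label. -/
theorem dep_gsb {H : MvPolynomial (Fin n) ℝ} {I : Finset (Fin m)} (he : ∀ i, e i ∈ I)
    (hinj : Function.Injective e) {Gp : Fin m → MvPolynomial (Option (Fin m)) ℝ}
    (hG : ∀ j, ∀ b b' : Option (Fin m) → ℝ, b none = b' none →
      (∀ k ∈ I, b (some k) = b' (some k)) → eval b (Gp j) = eval b' (Gp j)) (j : Fin m)
    (b b' : Option (Fin m) → ℝ) (h0 : b none = b' none)
    (h1 : ∀ k ∈ I.erase (e i₁), b (some k) = b' (some k)) :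
    eval b (gsb w a cv vv e i₁ H I Gp j) = eval b' (gsb w a cv vv e i₁ H I Gp j) := by
  have hs : ∀ k, eval b (ssb w a cv vv e i₁ k) = eval b' (ssb w a cv vv e i₁ k) := by
    intro k
    rw [eval_ssb, eval_ssb, h0]
    split_ifs with hk
    · rfl
    · rw [h1 (e k) (Finset.mem_erase.2 ⟨fun h => hk (hinj h), he k⟩)]
  have hq : eval b (qsb w a cv vv e i₁ H) = eval b' (qsb w a cv vv e i₁ H) := by
    rw [eval_qsb, eval_qsb, h0]
    simp only [hs]
  unfold gsb
  split_ifs with hj1 hj2
  · rw [eval_X, eval_X]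
    exact h1 j hj1
  · exact hq
  · rw [eval_aevalσ, eval_aevalσ]
    refine hG j _ _ ?_ fun k hk => ?_
    · simp only [reduceCtorEq, if_false, eval_X]
      exact h0
    · by_cases hke : some k = some (e i₁)
      · rw [if_pos hke]
        exact hq
      · rw [if_neg hke, eval_X, eval_X]
        refine h1 k (Finset.mem_erase.2 ⟨fun h => hke (by rw [h]), hk⟩)

/-! ### Derivatives -/

theorem pd_tbx (b : Option (Fin m) → ℝ) (o : Option (Fin m)) :
    eval b (pderiv o (tbx m w a)) = if o = none then 2 ^ w else 0 := by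
  classical
  unfold tbx
  rw [map_sub, pderiv_C_mul, pderiv_C, sub_zero, map_mul, eval_C, pderiv_X]
  by_cases ho : o = none
  · subst ho
    rw [if_pos rfl, Pi.single_eq_same, map_one, mul_one]
  · rw [if_neg ho, Pi.single_eq_of_ne (Ne.symm ho), map_zero, mul_zero]

theorem pd_tbx_abs (b : Option (Fin m) → ℝ) (o : Option (Fin m)) :
    |eval b (pderiv o (tbx m w a))| ≤ 2 ^ w := by
  rw [pd_tbx]
  split_ifs
  · rw [abs_of_pos (by positivity)]
  · rw [abs_zero]
    positivity

theorem pd_ssb_abs (hv : ∀ i, |vv i| ≤ 1) (b : Option (Fin m) → ℝ) (o : Option (Fin m))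
    (k : Fin n) : |eval b (pderiv o (ssb w a cv vv e i₁ k))| ≤ 2 ^ w := by
  classical
  unfold ssb
  split_ifs
  · exact pd_tbx_abs b o
  · rw [map_sub, map_sub, map_sub, map_sub, pderiv_C_mul, pderiv_C_mul, pderiv_C, map_zero,
      sub_zero, map_mul, map_mul, eval_C, eval_C, pd_tbx, pderiv_X]
    by_cases ho : o = none
    · subst ho
      rw [if_pos rfl, Pi.single_eq_of_ne (by simp), map_zero, mul_zero, zero_sub, abs_neg, abs_mul,
        abs_of_pos (by positivity : (0 : ℝ) < 2 ^ w)]
      have := hv (e k)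
      have p0 : (0 : ℝ) < 2 ^ w := by positivity
      nlinarith
    · rw [if_neg ho, mul_zero, sub_zero]
      by_cases hk : o = some (e k)
      · subst hk
        rw [Pi.single_eq_same, map_one, mul_one, abs_of_pos (by positivity)]
      · rw [Pi.single_eq_of_ne (Ne.symm hk), map_zero, mul_zero, abs_zero]
        positivity

/-- The slopes of the coordinate `e i₁`. -/
theorem pd_qsb {H : MvPolynomial (Fin n) ℝ} {Cn : ℝ} (hv : ∀ i, |vv i| ≤ 1)
    (b : Option (Fin m) → ℝ)
    (hH : ∀ k, |eval (fun k => eval b (ssb w a cv vv e i₁ k)) (pderiv k H)| ≤ Cn)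
    (o : Option (Fin m)) : |eval b (pderiv o (qsb w a cv vv e i₁ H))| ≤ n * Cn + 1 := by
  have p0 : (0 : ℝ) < 2 ^ w := by positivity
  unfold qsb
  rw [pderiv_C_mul, map_add, map_add, pderiv_C_mul, pderiv_C, add_zero, map_mul, map_add,
    map_mul, eval_C, eval_C, pd_aeval, map_sum, abs_mul,
    abs_of_pos (by positivity : (0 : ℝ) < 1 / 2 ^ w)]
  have h1 : |∑ k, eval b (aeval (ssb w a cv vv e i₁) (pderiv k H) *
      pderiv o (ssb w a cv vv e i₁ k))| ≤ n * Cn * 2 ^ w := by
    refine (Finset.abs_sum_le_sum_abs _ _).trans ?_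
    have h2 : ∀ k ∈ (Finset.univ : Finset (Fin n)), |eval b (aeval (ssb w a cv vv e i₁)
        (pderiv k H) * pderiv o (ssb w a cv vv e i₁ k))| ≤ Cn * 2 ^ w := by
      intro k _
      rw [map_mul, eval_aevalσ, abs_mul]
      exact mul_le_mul (hH k) (pd_ssb_abs hv b o k) (abs_nonneg _)
        ((abs_nonneg _).trans (hH k))
    refine (Finset.sum_le_sum h2).trans (le_of_eq ?_)
    rw [Finset.sum_const, Finset.card_univ, Fintype.card_fin, nsmul_eq_mul]
    ring
  have h3 : |vv (e i₁) * eval b (pderiv o (tbx m w a))| ≤ 2 ^ w := by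
    rw [abs_mul]
    have := pd_tbx_abs (w := w) (a := a) b o
    have h4 := hv (e i₁)
    have h5 := abs_nonneg (vv (e i₁))
    have h6 := abs_nonneg (eval b (pderiv o (tbx m w a)))
    nlinarith
  have h7 := (abs_add_le (∑ k, eval b (aeval (ssb w a cv vv e i₁) (pderiv k H) *
      pderiv o (ssb w a cv vv e i₁ k))) (vv (e i₁) * eval b (pderiv o (tbx m w a)))).trans
      (add_le_add h1 h3)
  calc _ ≤ 1 / 2 ^ w * (n * Cn * 2 ^ w + 2 ^ w) :=
        mul_le_mul_of_nonneg_left h7 (by positivity)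
    _ = n * Cn + 1 := by field_simp

/-- The slopes of the composed label. -/
theorem pd_gsb {H : MvPolynomial (Fin n) ℝ} {Cn K : ℝ} (hv : ∀ i, |vv i| ≤ 1)
    (hCn : 0 ≤ Cn) (hK : 0 ≤ K)
    (b : Option (Fin m) → ℝ)
    (hH : ∀ k, |eval (fun k => eval b (ssb w a cv vv e i₁ k)) (pderiv k H)| ≤ Cn)
    (I : Finset (Fin m)) {Gp : Fin m → MvPolynomial (Option (Fin m)) ℝ}
    (hG : ∀ j o, |eval (fun o => if o = some (e i₁) then eval b (qsb w a cv vv e i₁ H) else b o)
      (pderiv o (Gp j))| ≤ K) (j : Fin m)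
    (o : Option (Fin m)) : |eval b (pderiv o (gsb w a cv vv e i₁ H I Gp j))| ≤
      (m + 2) * (K + 1) * (n * Cn + 1) := by
  classical
  have hq := pd_qsb (w := w) (a := a) (cv := cv) (e := e) (i₁ := i₁) hv b hH o
  have hq0 : 0 ≤ n * Cn + 1 := by positivity
  have hm : (0 : ℝ) ≤ m := Nat.cast_nonneg m
  have h1 : 1 ≤ (m + 2) * (K + 1) * (n * Cn + 1) := by
    have a1 : (0 : ℝ) ≤ n * Cn := by positivity
    have a2 : 1 ≤ (m + 2) * (K + 1) := by nlinarith
    nlinarith
  have h2 : n * Cn + 1 ≤ (m + 2) * (K + 1) * (n * Cn + 1) := by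
    have a2 : 1 ≤ (m + 2) * (K + 1) := by nlinarith
    nlinarith
  have hX : ∀ o' : Option (Fin m), |eval b (pderiv o (X o' : MvPolynomial (Option (Fin m)) ℝ))| ≤
      1 := by
    intro o'
    rw [pderiv_X]
    by_cases ho : o = o'
    · subst ho
      rw [Pi.single_eq_same, map_one, abs_one]
    · rw [Pi.single_eq_of_ne (Ne.symm ho), map_zero, abs_zero]
      exact zero_le_one
  unfold gsb
  split_ifs
  · exact (hX _).trans h1
  · exact hq.trans h2
  · rw [pd_aeval, map_sum]
    refine (Finset.abs_sum_le_sum_abs _ _).trans ?_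
    have h3 : ∀ o' ∈ (Finset.univ : Finset (Option (Fin m))), |eval b (aeval (fun o =>
        if o = some (e i₁) then qsb w a cv vv e i₁ H else X o) (pderiv o' (Gp j)) *
        pderiv o (if o' = some (e i₁) then qsb w a cv vv e i₁ H else X o'))| ≤
        K * (n * Cn + 1) := by
      intro o' _
      rw [map_mul, eval_aevalσ, abs_mul]
      refine mul_le_mul ?_ ?_ (abs_nonneg _) hK
      · have := hG j o'
        refine le_trans (le_of_eq ?_) this
        congr 2
        congr 1
        funext o''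
        split_ifs
        · rfl
        · rw [eval_X]
      · split_ifs
        · exact hq
        · refine (hX o').trans ?_
          have a1 : (0 : ℝ) ≤ n * Cn := by positivity
          linarith
    refine (Finset.sum_le_sum h3).trans ?_
    rw [Finset.sum_const, Finset.card_univ, Fintype.card_option, Fintype.card_fin, nsmul_eq_mul]
    push_cast
    have a3 : K * (n * Cn + 1) ≤ (K + 1) * (n * Cn + 1) :=
      mul_le_mul_of_nonneg_right (by linarith) hq0
    have a4 : 0 ≤ (K + 1) * (n * Cn + 1) := by positivity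
    nlinarith

end

end Pool.GEN
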