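import Pool.Agent.H71.GEN.Stm2

/-!
# The modules of Theorem R (statements), third part

* `BaseStmt m`: the facts about the class of the maximal families which are used.
* `TheoremR m`: Theorem R for a class.
-/

set_option autoImplicit false

namespace Pool.GEN

open Finset Real MvPolynomial
open Pool.Agent.H49.Ent Pool.Agent.H32.Dense Pool.STK Pool.KA Pool.KSAT Pool.K2S Pool.PB Pool.S6C
open Pool.FLF (Fam.sub)

variable {m J : ℕ}

/-- **(BASE)** The maximal families: spread fans, number of points, gain. -/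
def BaseStmt (m : ℕ) : Prop :=
  ∀ a R : ℝ, 1 < a → 0 < R → UBa m a R →
    (∀ g : ℝ, 0 < g → Bas (FCl.mx m a R).toP
      (fun J F A => ¬ PlU 0 (1 / 2 ^ ⌊g * J⌋₊) (Fam.pt F) F.d A)) ∧
    (∃ M : ℝ, Bas (FCl.mx m a R).toP (fun J F A => ∀ k : ℕ, k ≤ J →
      (cnt F.p (ptr F k) A : ℝ) ≤ Real.exp (M * J))) ∧
    ∃ ρ : ℝ, 0 < ρ ∧ Bas (FCl.mx m a R).toP (fun J F A =>
      ρ * J ≤ CH (Pool.Agent.H49.Ent.cond F.p A True) (F.D J) F.Z -
        CH (Pool.Agent.H49.Ent.cond F.p A True) (F.X J) F.W)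

/-- **Theorem R**: no class with spread fans and a gain. -/
def TheoremR (m : ℕ) : Prop :=
  ∀ (S : PCl m), (∀ (τ : ℝ) (J : ℕ) (F : Fam m J) (A : F.Ω → Prop), S.St τ J F A →
      F.Tr ∧ F.Tm (τ * J) ∧ F.Rb (τ * J) ∧ Real.exp (-(τ * J)) ≤ Pe F.p A) →
    (∀ g : ℝ, 0 < g → Bas S (fun J F A => ¬ PlU 0 (1 / 2 ^ ⌊g * J⌋₊) (Fam.pt F) F.d A)) →
    ∀ M : ℝ, Bas S (fun J F A => ∀ k : ℕ, k ≤ J →
      (cnt F.p (ptr F k) A : ℝ) ≤ Real.exp (M * J)) →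
    ∀ ρ : ℝ, 0 < ρ → Bas S (fun J F A =>
      ρ * J ≤ CH (Pool.Agent.H49.Ent.cond F.p A True) (F.D J) F.Z -
        CH (Pool.Agent.H49.Ent.cond F.p A True) (F.X J) F.W) → ¬ S.Ne

end Pool.GEN
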