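import Pool.Agent.H71.GEN.Gain
import Pool.Agent.H71.GEN.Stm3

/-!
# Theorem R: the pieces of the assembly
-/

set_option autoImplicit false

namespace Pool.GEN

open Finset Real MvPolynomial
open Pool.Agent.H49.Ent Pool.Agent.H32.Dense Pool.STK Pool.KA Pool.KSAT Pool.K2S Pool.PB Pool.S6C
open Pool.FLF (Fam.sub)

variable {m n J : ℕ} {κ : Type}

/-- The zooms are in the unit box, with rounded lines. -/
theorem zf_Gd (F : Fam m J) {w J' : ℕ} (h : w + J' ≤ J) (g : F.Ω → κ) (e : Fin n → Fin m) :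
    Gd (zf F w J' h g e) := by
  have p0 : (0 : ℝ) < 2 ^ J' := by positivity
  have key : ∀ y : ℝ, 0 ≤ (⌊(2 : ℝ) ^ J' * Int.fract y⌋ : ℝ) / 2 ^ J' ∧
      (⌊(2 : ℝ) ^ J' * Int.fract y⌋ : ℝ) / 2 ^ J' ≤ 1 := by
    intro y
    have h1 := Int.fract_nonneg y
    have h2 := (Int.fract_lt_one y).le
    have h3 : 0 ≤ ⌊(2 : ℝ) ^ J' * Int.fract y⌋ := Int.floor_nonneg.2 (by positivity)
    have h4 := Int.floor_le ((2 : ℝ) ^ J' * Int.fract y)
    refine ⟨div_nonneg (by exact_mod_cast h3) p0.le, ?_⟩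
    rw [div_le_one p0]
    refine h4.trans ?_
    nlinarith
  intro ω i
  exact ⟨key (2 ^ w * F.x1 w ω (e i)), (key (F.d ω (e i))).1, ⟨_, rfl⟩, ⟨_, rfl⟩⟩

/-- A label with more information. -/
theorem lab_join {F : Fam m J} {K r w P : ℕ} {A : F.Ω → Prop} {I : Finset (Fin m)}
    {V : Fin m → Type} {z : ∀ j, PtT F → V j} {z' : ∀ j, LnT F → V j}
    {G : ∀ j, V j → Fin m → MvPolynomial (Option (Fin m)) ℝ}
    (hcls : ∀ j, ∀ ω, A ω → z j (ptr F r ω) = z' j (slam F w ω)) (i : Fin m)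
    (h : LabOK F I K r w P A (z i) (z' i) (G i)) :
    LabOK F I K r w P A (fun y j => z j y) (fun s j => z' j s) (fun v => G i (v i)) :=
  ⟨fun v j => h.deg (v i) j, fun v => h.fre (v i), fun v => h.dep (v i),
    fun ω hω => funext fun j => hcls j ω hω, h.pos, h.vel, h.lip⟩

/-- The label with all coordinates free. -/
theorem lab_univ {F : Fam m J} {K r w P : ℕ} {A : F.Ω → Prop} {V : Type} {z : PtT F → V}
    {z' : LnT F → V} (hK : 1 ≤ K) (hcls : ∀ ω, A ω → z (ptr F r ω) = z' (slam F w ω)) :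
    LabOK F Finset.univ K r w P A z z' (fun _ j => X (some j)) := by
  have hpd : ∀ (o : Option (Fin m)) (j : Fin m),
      pderiv o (X (some j) : MvPolynomial (Option (Fin m)) ℝ) =
        if o = some j then 1 else 0 := by
    intro o j
    rw [pderiv_X]
    by_cases ho : o = some j
    · rw [if_pos ho, ho, Pi.single_eq_same]
    · rw [if_neg ho, Pi.single_eq_of_ne (Ne.symm ho)]
  refine ⟨fun _ j => ?_, fun _ _ _ => rfl, fun _ j b b' _ h2 => ?_, hcls, fun ω _ j => ?_,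
    fun ω _ j => ?_, fun ω _ b _ j o => ?_⟩
  · rw [totalDegree_X]
    exact hK
  · rw [eval_X, eval_X]
    exact h2 j (Finset.mem_univ j)
  · rw [eval_X]
    have : F.x ω j - bt F ω (some j) = 0 := sub_self _
    rw [this, abs_zero]
    positivity
  · have : ∑ o, bd F ω o * eval (bt F ω) (pderiv o (X (some j) :
        MvPolynomial (Option (Fin m)) ℝ)) = F.d ω j := by
      rw [Finset.sum_eq_single (some j)]
      · rw [hpd, if_pos rfl, map_one, mul_one]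
        rfl
      · intro o _ ho
        rw [hpd, if_neg ho, map_zero, mul_zero]
      · intro hh
        exact absurd (Finset.mem_univ _) hh
    rw [this, sub_self, abs_zero]
    positivity
  · rw [hpd]
    have hK' : (1 : ℝ) ≤ K := by exact_mod_cast hK
    by_cases ho : o = some j
    · rw [if_pos ho, map_one, abs_one]
      exact hK'
    · rw [if_neg ho, map_zero, abs_zero]
      linarith

/-- The positive probabilities of the conditional law. -/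
theorem cond_pos {Ω : Type} [Fintype Ω] {p : Ω → ℝ} {B : Ω → Prop} {ω : Ω}
    (h : 0 < Pool.Agent.H49.Ent.cond p B True ω) : B ω := by
  by_contra hcon
  have : Pool.Agent.H49.Ent.cond p B True ω = 0 := by
    unfold Pool.Agent.H49.Ent.cond
    rw [if_neg]
    intro h1
    exact hcon (of_eq_true h1)
  linarith

/-- **The rate of the row `1`.** -/
theorem rate_one (hK2 : K2Stmt m) {S S₁ S₂ : PCl m}
    (hbs : ∀ (τ : ℝ) (J : ℕ) (F : Fam m J) (A : F.Ω → Prop), S.St τ J F A →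
      F.Tr ∧ F.Tm (τ * J) ∧ F.Rb (τ * J) ∧ Real.exp (-(τ * J)) ≤ Pe F.p A)
    {ρ : ℝ} (hV : Bas S (fun J F A =>
      ρ * J ≤ CH (Pool.Agent.H49.Ent.cond F.p A True) (F.D J) F.Z -
        CH (Pool.Agent.H49.Ent.cond F.p A True) (F.X J) F.W)) (hρ : 0 < ρ)
    (hS₁ : ∀ (τ : ℝ) (J : ℕ) (F : Fam m J) (A : F.Ω → Prop), S₁.St τ J F A → S.St τ J F A)
    {K : ℕ} {w : ℝ} {s : Fin m → ℝ} {I : Fin m → Finset (Fin m)} (hw : 0 < w) (hw1 : w ≤ 1)
    (hs : ∀ j, 0 ≤ s j ∧ s j ≤ 1) (hI : ∀ j, (I j).card = (j : ℕ)) (hne : S₂.Ne)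
    (hS₂ : ∀ (τ : ℝ) (J : ℕ) (F : Fam m J) (A : F.Ω → Prop), S₂.St τ J F A →
      Mem S₁ K w s I τ J F A) {r : ℝ → ℝ} (hr : ∀ h : ℝ, 0 < h → Bas S₂ (fun J F A =>
      |CH (Pool.Agent.H49.Ent.cond F.p A True) (F.X ⌊(1 : ℝ) * J⌋₊) F.W -
        r 1 * Real.log 2 * J| ≤ h * J)) :
    r 1 ≤ (∑ j, (1 - s j)) + (2 * m + 1) * w - ρ := by
  refine le_of_forall_pos_le_add fun ε hε => ?_
  obtain ⟨τ₁, hτ₁, J₁, hb₁⟩ := hr (ε / 16) (by linarith)
  obtain ⟨τ₂, hτ₂, J₂, hb₂⟩ := hV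
  obtain ⟨ε₁, hε₁⟩ : ∃ ε₁, ε₁ = min (ε / 16) (min (τ₁ / 2) (τ₂ / 2)) := ⟨_, rfl⟩
  have hε0 : 0 < ε₁ := by
    rw [hε₁]
    exact lt_min (by linarith) (lt_min (by linarith) (by linarith))
  have hε1 : ε₁ ≤ ε / 16 := by rw [hε₁]; exact min_le_left _ _
  have hε2 : ε₁ ≤ τ₁ / 2 := by rw [hε₁]; exact (min_le_right _ _).trans (min_le_left _ _)
  have hε3 : ε₁ ≤ τ₂ / 2 := by rw [hε₁]; exact (min_le_right _ _).trans (min_le_right _ _)
  obtain ⟨τ₃, hτ₃, J₃, hb₃⟩ := hK2 K w ε₁ hw hw1 hε0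
  obtain ⟨τ, hτ⟩ : ∃ τ, τ = min (ε / 96) (min (τ₁ / 2) (min (τ₂ / 2) (τ₃ / 6))) := ⟨_, rfl⟩
  have hτ0 : 0 < τ := by
    rw [hτ]
    exact lt_min (by linarith) (lt_min (by linarith) (lt_min (by linarith) (by linarith)))
  have hτ1 : τ ≤ ε / 96 := by rw [hτ]; exact min_le_left _ _
  have hτ2 : τ ≤ τ₁ / 2 := by rw [hτ]; exact (min_le_right _ _).trans (min_le_left _ _)
  have hτ3 : τ ≤ τ₂ / 2 := by
    rw [hτ]
    exact (min_le_right _ _).trans ((min_le_right _ _).trans (min_le_left _ _))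
  have hτ4 : τ ≤ τ₃ / 6 := by
    rw [hτ]
    exact (min_le_right _ _).trans ((min_le_right _ _).trans (min_le_right _ _))
  obtain ⟨J, hJ, F', A, hSt⟩ := hne τ hτ0 (max 1 (max J₁ (max J₂ J₃)))
  simp only [ge_iff_le, max_le_iff] at hJ
  obtain ⟨hJ0, hJ1, hJ2, hJ3⟩ := hJ
  have hMem := hS₂ _ _ _ _ hSt
  obtain ⟨F, A, V, z, z', G, hlab, hS⟩ := hMem
  obtain ⟨hTr, hTm, hRb, hPA⟩ := hbs _ J F A (hS₁ _ _ _ _ hS)
  have hA : 0 < Pe F.p A := lt_of_lt_of_le (Real.exp_pos _) hPA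
  have hJr : (1 : ℝ) ≤ J := by exact_mod_cast hJ0
  have hJp : (0 : ℝ) ≤ J := by linarith
  have hTmA : (Fam.sub F A hA).Tm (τ₃ * J) := by
    have h1 := Pool.STPA.sub_Tm_of_reg hTr hTm hRb hA hPA
    unfold Fam.Tm at h1 ⊢
    have h2 : 4 * (τ * J) + τ * J + τ * J ≤ τ₃ * (J : ℝ) := by
      have := mul_le_mul_of_nonneg_right hτ4 hJp
      linarith
    linarith
  obtain ⟨B, hBA, hPB, hCH⟩ := hb₃ J hJ3 F A hA s I V z z' G hTr hTmA hI hs hlab
  have hPB0 : 0 < Pe F.p B := lt_of_lt_of_le (mul_pos (Real.exp_pos _) hA) hPB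
  have hPB1 : Real.exp (-((τ + ε₁) * J)) ≤ Pe F.p B := by
    refine le_trans ?_ hPB
    refine le_trans ?_ (mul_le_mul_of_nonneg_left hPA (Real.exp_pos _).le)
    rw [← Real.exp_add]
    refine Real.exp_le_exp.2 (le_of_eq ?_)
    ring
  obtain ⟨q, hq⟩ : ∃ q, q = Pool.Agent.H49.Ent.cond F.p B True := ⟨_, rfl⟩
  have hql : IsLaw q := by rw [hq]; exact isLaw_cond F.isLaw hPB0
  obtain ⟨c, hc⟩ : ∃ c, c = (fun ω => fun j => z' j (slam F ⌊w * (J : ℝ)⌋₊ ω)) := ⟨_, rfl⟩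
  -- the gain
  have hv1 := hb₂ J hJ2 F B (S.mono (by linarith) (S.res hε0.le (hS₁ _ _ _ _ hS) hBA hPB))
  -- the rate
  have hSB := S₂.res (F := F.cnd (fun ω => fun j => z' j (slam F ⌊w * (J : ℝ)⌋₊ ω))) (A := A)
    (B := B) hε0.le hSt hBA hPB
  have hr1 := hb₁ J hJ1 _ _ (S₂.mono (by linarith) hSB)
  beta_reduce at hr1 hv1
  rw [one_mul, Nat.floor_natCast] at hr1
  have hr2 := (abs_le.1 hr1).1
  -- the time
  have hTmB : (J : ℝ) * Real.log 2 - (6 * τ + ε₁) * J ≤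
      CH q F.T (fun ω => (F.l ω, F.Z ω)) := by
    have h2 := Pool.S6K.Wfe.res_Tm hτ0.le (by linarith : 0 ≤ τ + ε₁) hTr hTm hRb hPB1
      (hq ▸ hql)
    unfold Fam.Tm at h2
    rw [hq]
    refine le_trans (le_of_eq ?_) h2
    ring
  have hwJ : ⌊w * (J : ℝ)⌋₊ ≤ J := by
    refine Nat.floor_le_of_le ?_
    nlinarith
  have hgain := vgain hql c hwJ (by
    intro ω ω' hω hω' hh
    rw [hq] at hω hω'
    have h1 := hBA _ (cond_pos hω)
    have h2 := hBA _ (cond_pos hω')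
    have h3 : ptr F J ω = ptr F J ω' := hh
    rw [hc]
    funext j
    simp only
    rw [← (hlab j).cls ω h1, ← (hlab j).cls ω' h2, h3]) (by
    intro ω ω' _ _ hh
    have a1 := Prod.ext_iff.mp hh
    have a2 := Prod.ext_iff.mp a1.2
    have a3 : slam F ⌊w * (J : ℝ)⌋₊ ω = slam F ⌊w * (J : ℝ)⌋₊ ω' :=
      Prod.ext a1.1 (Prod.ext a2.2 a2.1)
    rw [hc]
    simp only [a3]) hTmB
  have hl2 : 0 < Real.log 2 := Real.log_pos (by norm_num)
  have hl1 : Real.log 2 ≤ 1 := by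
    have := Real.log_two_lt_d9
    linarith
  have hl3 : (1 : ℝ) / 2 ≤ Real.log 2 := by
    have := Real.log_two_gt_d9
    linarith
  obtain ⟨X₁, hX₁⟩ : ∃ X₁, X₁ = CH q (F.X J) (fun ω => (F.T ω, (c ω, F.Z ω))) := ⟨_, rfl⟩
  have e1 : r 1 * Real.log 2 * J - ε / 16 * J ≤ X₁ := by
    rw [hX₁, hq, hc]
    have : CH (Pool.Agent.H49.Ent.cond F.p B True) (F.X J) (fun ω => (F.T ω,
      ((fun j => z' j (slam F ⌊w * (J : ℝ)⌋₊ ω)), F.Z ω))) =
      CH (Pool.Agent.H49.Ent.cond (F.cnd (fun ω => fun j => z' j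
        (slam F ⌊w * (J : ℝ)⌋₊ ω))).p B True) ((F.cnd (fun ω => fun j => z' j
        (slam F ⌊w * (J : ℝ)⌋₊ ω))).X J) (F.cnd (fun ω => fun j => z' j
        (slam F ⌊w * (J : ℝ)⌋₊ ω))).W := rfl
    simp only at this ⊢
    rw [this]
    linarith
  have e2 : ρ * J ≤ CH q (F.D J) F.Z - CH q (F.X J) F.W := by
    rw [hq]
    exact hv1
  have e3 : CH q (F.D J) (fun ω => (c ω, (F.T1 ⌊w * (J : ℝ)⌋₊ ω, F.Z ω))) ≤
      ((∑ j, (1 - s j)) + 2 * m * w) * Real.log 2 * J + ε₁ * J := by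
    rw [hq, hc]
    exact hCH
  rw [← hX₁] at hgain
  have e4 : (⌊w * (J : ℝ)⌋₊ : ℝ) * Real.log 2 ≤ w * J * Real.log 2 :=
    mul_le_mul_of_nonneg_right (Nat.floor_le (by positivity)) hl2.le
  have e5 : r 1 * Real.log 2 * J ≤ ((∑ j, (1 - s j)) + (2 * m + 1) * w) * Real.log 2 * J -
      ρ * J + (ε / 2 * J) := by
    have a1 : ε₁ * (J : ℝ) ≤ ε / 16 * J := mul_le_mul_of_nonneg_right hε1 hJp
    have a2 : τ * (J : ℝ) ≤ ε / 96 * J := mul_le_mul_of_nonneg_right hτ1 hJp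
    have a3 : ((∑ j, (1 - s j)) + (2 * m + 1) * w) * Real.log 2 * (J : ℝ) =
        ((∑ j, (1 - s j)) + 2 * m * w) * Real.log 2 * J + w * J * Real.log 2 := by ring
    rw [a3]
    have a4 : (6 * τ + ε₁) * (J : ℝ) = 6 * (τ * J) + ε₁ * J := by ring
    rw [a4] at hgain
    have a5 : 0 ≤ ε * (J : ℝ) := by positivity
    linarith
  obtain ⟨Y, hY⟩ : ∃ Y, Y = (∑ j, (1 - s j)) + (2 * m + 1) * w := ⟨_, rfl⟩
  rw [← hY] at e5 ⊢
  by_contra hcon
  push Not at hcon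
  have e6 : (Y - ρ + ε) * (Real.log 2 * J) < r 1 * (Real.log 2 * J) :=
    mul_lt_mul_of_pos_right hcon (by positivity)
  have e7 : ρ * (Real.log 2 * J) ≤ ρ * J := by
    refine mul_le_mul_of_nonneg_left ?_ hρ.le
    nlinarith
  have e8 : ε / 2 * (J : ℝ) ≤ ε * (Real.log 2 * J) := by
    have := mul_le_mul_of_nonneg_right hl3 (by positivity : 0 ≤ ε * (J : ℝ))
    linarith
  linarith

end Pool.GEN
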