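import Pool.Agent.H71.GEN.Zact
import Pool.Agent.H71.GEN.Ft

/-!
# The zooms of a class are active
-/

set_option autoImplicit false

namespace Pool.GEN

open Finset Real MvPolynomial
open Pool.Agent.H49.Ent Pool.Agent.H32.Dense Pool.STK Pool.KA Pool.KSAT Pool.K2S Pool.PB Pool.S6C
open Pool.FLF (Fam.sub)

variable {m n J : ℕ} {κ : Type}

/-- The numbers of the zoom. -/
noncomputable def NZ (N : ℚ → ℚ → ℝ) (w : ℚ) (q q' : ℚ) : ℝ :=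
  N ((1 - w) * q) ((1 - w) * q') / (1 - w)

/-- The pure part of (ACT) for the zoom, with the modulus. -/
theorem ActM.zoom {N : ℚ → ℚ → ℝ} {al : ℝ} {g₀ : ℝ → ℝ} (h : ActM N al g₀) {w : ℚ} (hw0 : 0 ≤ w)
    (hw1 : w < 1) : ActM (NZ N w) al g₀ := by
  have h1w : (0 : ℚ) < 1 - w := by linarith
  have h1w' : (0 : ℝ) < 1 - w := by exact_mod_cast h1w
  intro ε hε g hg hgg M
  have h2 := h ε hε ((1 - w) * g) (mul_pos h1w hg) (by
    push_cast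
    have h3 : (0 : ℝ) < g := by exact_mod_cast hg
    have h4 : (0 : ℝ) ≤ w := by exact_mod_cast hw0
    nlinarith) M
  refine le_trans (le_of_eq ?_) h2
  congr 1
  congr 1
  refine Finset.filter_congr fun i _ => ?_
  unfold NZ
  have e1 : (1 - w) * ((i : ℚ) * (g / M)) = i * ((1 - w) * g / M) := by ring
  have e2 : (1 - w) * (((i : ℚ) + 1) * (g / M)) = (i + 1) * ((1 - w) * g / M) := by ring
  rw [e1, e2, div_lt_iff₀ h1w']
  push_cast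
  have e3 : (al - ε) * ((g : ℝ) / M) * (1 - w) = (al - ε) * ((1 - w) * g / M) := by ring
  rw [e3]

/-- **The zooms are active.** -/
theorem z_act (n : ℕ) {S : PCl m}
    (hpos : ∀ (τ : ℝ) (J : ℕ) (F : Fam m J) (A : F.Ω → Prop), 0 < τ → S.St τ J F A →
      0 < Pe F.p A)
    {N : ℚ → ℚ → ℝ} {kap : Fin m} (hN : ActB N S kap) {w : ℚ} (hw0 : 0 < w) (hw1 : w < 1)
    {q q' : ℚ} (hq0 : 0 ≤ q) (hqq : q ≤ q') (hq1 : q' ≤ 1) {h : ℝ} (hh : 0 < h) :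
    ∃ ψ : ℝ, 0 < ψ ∧ ∃ τ₀ : ℝ, 0 < τ₀ ∧ ∃ J₀ : ℕ, ∀ J ≥ J₀, ∀ (F : Fam m J) (A : F.Ω → Prop),
    S.St τ₀ J F A → ∀ (κ : Type) (z : PtT F → κ) (z' : LnT F → κ),
    (∀ ω, A ω → z (ptr F J ω) = z' (slam F ⌊(w : ℝ) * J⌋₊ ω)) →
    ∀ (hl : IsLaw (Pool.Agent.H49.Ent.cond F.p A True)) (J' : ℕ) (hJ : ⌊(w : ℝ) * J⌋₊ + J' = J)
    (e : Fin n → Fin m) (i : Fin n), e i = kap → ∀ B : F.Ω → Prop,
    Real.exp (-(3 * ψ * J')) ≤ Pe (Pool.Agent.H49.Ent.cond F.p A True) B →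
    ¬ ActF (NZ N w) q q' h i J'
      (zf (F.res A True hl) ⌊(w : ℝ) * J⌋₊ J' hJ.le (fun ω => z' (slam F ⌊(w : ℝ) * J⌋₊ ω)) e) B := by
  have h1w : (0 : ℚ) < 1 - w := by linarith
  have h1w' : (0 : ℝ) < 1 - w := by exact_mod_cast h1w
  have hw0' : (0 : ℝ) < w := by exact_mod_cast hw0
  obtain ⟨p, hp⟩ : ∃ p, p = (1 - w) * q := ⟨_, rfl⟩
  obtain ⟨p', hp'⟩ : ∃ p', p' = (1 - w) * q' := ⟨_, rfl⟩
  have hp0 : 0 ≤ p := by rw [hp]; positivity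
  have hpp : p ≤ p' := by
    rw [hp, hp']
    exact mul_le_mul_of_nonneg_left hqq h1w.le
  have hq'0 : 0 ≤ q' := hq0.trans hqq
  have hp1 : p' ≤ 1 := by
    rw [hp']
    nlinarith
  obtain ⟨h', hh'⟩ : ∃ h', h' = h * (1 - w) / 2 := ⟨_, rfl⟩
  have hh0 : 0 < h' := by
    rw [hh']
    positivity
  obtain ⟨τ₁, hτ₁, J₁, hb⟩ := hN p p' hp0 hpp hp1 h' hh0
  have hl2 : 0 < Real.log 2 := Real.log_pos (by norm_num)
  obtain ⟨C, hC⟩ : ∃ C : ℝ, C = m * Real.log 7 + (2 * m * Real.log 7 + n * Real.log 17) +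
    |N p p'| / (1 - w) * Real.log 2 := ⟨_, rfl⟩
  obtain ⟨J₂, hJ₂⟩ := lin C (mul_pos hh0 hl2)
  refine ⟨τ₁ / 12, by linarith, τ₁ / 2, by linarith, max J₁ J₂, ?_⟩
  intro J hJ₀ F A hS κ z z' hcls hl J' hJ e i hei B hB hact
  have hJ1 : J₁ ≤ J := (le_max_left _ _).trans hJ₀
  have hJ2 := hJ₂ J ((le_max_right _ _).trans hJ₀)
  have hA : 0 < Pe F.p A := hpos _ J F A (by linarith) hS
  have hJr : (0 : ℝ) ≤ J := Nat.cast_nonneg J
  have hJ'r : (0 : ℝ) ≤ J' := Nat.cast_nonneg J'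
  -- the scale
  have hJs : ((⌊(w : ℝ) * J⌋₊ : ℕ) : ℝ) + J' = J := by exact_mod_cast hJ
  have f1 : ((⌊(w : ℝ) * J⌋₊ : ℕ) : ℝ) ≤ w * J := Nat.floor_le (by positivity)
  have f2 := Nat.lt_floor_add_one ((w : ℝ) * J)
  have g1 : (1 - w) * (J : ℝ) ≤ J' := by linarith
  have g2 : (J' : ℝ) ≤ (1 - w) * J + 1 := by linarith
  have fl_up : ∀ r : ℚ, 0 ≤ r → r ≤ 1 → ⌊(((1 - w) * r : ℚ) : ℝ) * J⌋₊ ≤ ⌊(r : ℝ) * J'⌋₊ ∧
      ⌊(r : ℝ) * J'⌋₊ ≤ ⌊(((1 - w) * r : ℚ) : ℝ) * J⌋₊ + 1 ∧ ⌊(r : ℝ) * J'⌋₊ ≤ J' := by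
    intro r hr0 hr1
    have r0 : (0 : ℝ) ≤ r := by exact_mod_cast hr0
    have r1 : (r : ℝ) ≤ 1 := by exact_mod_cast hr1
    have e1 : (((1 - w) * r : ℚ) : ℝ) = (1 - w) * r := by push_cast; ring
    refine ⟨Nat.floor_le_floor ?_, ?_, ?_⟩
    · rw [e1]
      nlinarith
    · have e2 : ⌊(((1 - w) * r : ℚ) : ℝ) * J⌋₊ + 1 = ⌊(((1 - w) * r : ℚ) : ℝ) * J + 1⌋₊ := by
        rw [Nat.floor_add_one]
        rw [e1]
        positivity
      rw [e2]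
      refine Nat.floor_le_floor ?_
      rw [e1]
      nlinarith
    · refine Nat.floor_le_of_le ?_
      nlinarith
  obtain ⟨a1, a2, a3⟩ := fl_up q hq0 (hqq.trans hq1)
  obtain ⟨b1, b2, b3⟩ := fl_up q' hq'0 hq1
  rw [← hp] at a1 a2
  rw [← hp'] at b1 b2
  obtain ⟨a, ha⟩ : ∃ a, a = ⌊(q : ℝ) * J'⌋₊ := ⟨_, rfl⟩
  obtain ⟨b, hb'⟩ : ∃ b, b = ⌊(q' : ℝ) * J'⌋₊ := ⟨_, rfl⟩
  obtain ⟨a₀, ha₀⟩ : ∃ a₀, a₀ = ⌊(p : ℝ) * J⌋₊ := ⟨_, rfl⟩
  obtain ⟨b₀, hb₀⟩ : ∃ b₀, b₀ = ⌊(p' : ℝ) * J⌋₊ := ⟨_, rfl⟩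
  rw [← ha, ← ha₀] at a1 a2
  rw [← ha] at a3
  rw [← hb', ← hb₀] at b1 b2
  rw [← hb'] at b3
  -- the event
  have hev := evt hA (by omega : J' ≤ J) (by linarith : 0 ≤ τ₁ / 12) hB
  have hPB0 : 0 < Pe F.p (fun ω => A ω ∧ B ω) :=
    lt_of_lt_of_le (mul_pos (Real.exp_pos _) hA) hev
  have hSB := S.res (F := F) (A := A) (B := fun ω => A ω ∧ B ω) (by linarith : 0 ≤ 3 * (τ₁ / 12))
    hS (fun ω hω => hω.1) hev
  have hlow := hb J hJ1 F _ (S.mono (by linarith) hSB)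
  simp only at hlow
  rw [← ha₀, ← hb₀] at hlow
  unfold ActF at hact
  rw [← ha, ← hb'] at hact
  have ecnd : Pool.Agent.H49.Ent.cond (zf (F.res A True hl) ⌊(w : ℝ) * J⌋₊ J' hJ.le
      (fun ω => z' (slam F ⌊(w : ℝ) * J⌋₊ ω)) e).p B True =
      Pool.Agent.H49.Ent.cond F.p (fun ω => A ω ∧ B ω) True := by
    change Pool.Agent.H49.Ent.cond (Pool.Agent.H49.Ent.cond F.p A True) B True = _
    rw [Pool.ZCL.cond_and F.p hA.ne']
  rw [ecnd] at hact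
  obtain ⟨μ, hμ⟩ : ∃ μ, μ = Pool.Agent.H49.Ent.cond F.p (fun ω => A ω ∧ B ω) True := ⟨_, rfl⟩
  have hql : IsLaw μ := by rw [hμ]; exact isLaw_cond F.isLaw hPB0
  have hsupp : ∀ ω, 0 < μ ω → A ω := by
    intro ω hω
    rw [hμ] at hω
    exact (cond_pos hω).1
  have h0 := hql.nonneg
  rw [← hμ] at hlow hact
  have hz := zf_act (F := F.res A True hl) (q := μ) hJ (fun ω => z' (slam F ⌊(w : ℝ) * J⌋₊ ω)) e hql
    (by
      intro ω ω' hω hω' hh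
      have h1 := hcls ω (hsupp ω hω)
      have h2 := hcls ω' (hsupp ω' hω')
      have h3 : ptr F J ω = ptr F J ω' := hh
      simp only
      rw [← h1, ← h2, h3]) a3 b3 i
  rw [hei] at hz
  -- the digits
  have c1 : CH μ (fun ω => F.D b₀ ω kap) (fun ω => (F.D a₀ ω, (F.X J ω, F.W ω))) ≤
      CH μ (fun ω => F.D b ω kap) (fun ω => (F.D a₀ ω, (F.X J ω, F.W ω))) := by
    refine CH_mono_left h0 ?_
    intro ω ω' _ _ hh'
    have hh : F.D b ω kap = F.D b ω' kap := (Prod.ext_iff.mp hh').1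
    obtain ⟨l, hl'⟩ : ∃ l, b = b₀ + l := ⟨b - b₀, by omega⟩
    have e1 : ∀ ω, F.D b₀ ω kap = ⌊((2 : ℝ) ^ b * F.d ω kap) / ((2 ^ l : ℕ) : ℝ)⌋ := by
      intro ω
      change ⌊(2 : ℝ) ^ b₀ * F.d ω kap⌋ = _
      congr 1
      rw [hl', pow_add]
      push_cast
      field_simp
    simp only
    rw [e1, e1, Int.floor_div_natCast, Int.floor_div_natCast]
    have e3 : ⌊(2 : ℝ) ^ b * F.d ω kap⌋ = ⌊(2 : ℝ) ^ b * F.d ω' kap⌋ := hh
    rw [e3]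
  have c2 := CH_le_add h0 (fun ω => F.D b ω kap) (F.D a) (fun ω => (F.D a₀ ω, (F.X J ω, F.W ω)))
  have c3 : CH μ (F.D a) (fun ω => (F.D a₀ ω, (F.X J ω, F.W ω))) ≤ m * Real.log 7 := by
    have key := ENP.CH_fl hql a F.d (fun ω => (F.D a₀ ω, (F.X J ω, F.W ω))) 2 (by
      intro ω ω' _ _ hh i
      have d1 := Prod.ext_iff.mp hh
      have d2 := Plk.abs_sub_lt_of_floor (congrFun d1.1 i :
        ⌊(2 : ℝ) ^ a₀ * F.d ω i⌋ = ⌊(2 : ℝ) ^ a₀ * F.d ω' i⌋)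
      simp only at d2
      rw [← mul_sub, abs_mul, abs_of_pos (by positivity : (0 : ℝ) < 2 ^ a₀)] at d2
      have pa : (0 : ℝ) < 2 ^ a := by positivity
      rw [le_div_iff₀ pa]
      have d3 : (2 : ℝ) ^ a ≤ 2 ^ a₀ * 2 := by
        rw [← pow_succ]
        exact pow_le_pow_right₀ one_le_two a2
      have d4 : |F.d ω i - F.d ω' i| * 2 ^ a ≤ |F.d ω i - F.d ω' i| * (2 ^ a₀ * 2) :=
        mul_le_mul_of_nonneg_left d3 (abs_nonneg _)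
      nlinarith)
    have e2 : (2 : ℝ) * 2 + 3 = 7 := by norm_num
    rw [e2] at key
    exact key
  have c4 : CH μ (fun ω => F.D b ω kap) (fun ω => (F.D a ω, (F.D a₀ ω, (F.X J ω, F.W ω)))) ≤
      CH μ (fun ω => F.D b ω kap) (fun ω => (F.D a ω, (F.X J ω, F.W ω))) := by
    refine CH_mono_cond h0 ?_
    intro ω ω' _ _ hh
    have d1 := Prod.ext_iff.mp hh
    have d2 := Prod.ext_iff.mp d1.2
    exact Prod.ext d1.1 d2.2
  have c5 : CH μ (fun ω => F.D b ω kap) (fun ω => (F.D a ω, (F.X J ω, F.W ω))) <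
      (NZ N w q q' - h) * Real.log 2 * J' + (2 * m * Real.log 7 + n * Real.log 17) :=
    lt_of_le_of_lt hz (add_lt_add_of_lt_of_le hact le_rfl)
  -- the numbers
  have c6 : NZ N w q q' * (J' : ℝ) ≤ N p p' * J + |N p p'| / (1 - w) := by
    unfold NZ
    rw [← hp, ← hp']
    have d1 : N p p' / (1 - w) * (J' : ℝ) = N p p' * J + N p p' / (1 - w) * (J' - (1 - w) * J) := by
      field_simp
      ring
    rw [d1]
    have d2 : N p p' / (1 - w) * ((J' : ℝ) - (1 - w) * J) ≤ |N p p'| / (1 - w) * 1 := by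
      refine mul_le_mul ?_ (by linarith) (by linarith) (by positivity)
      exact div_le_div_of_nonneg_right (le_abs_self _) h1w'.le
    linarith
  have c7 : h * (1 - w) * (J : ℝ) ≤ h * J' := by
    have := mul_le_mul_of_nonneg_left g1 hh.le
    linarith
  have c8 : (NZ N w q q' - h) * Real.log 2 * J' ≤
      N p p' * Real.log 2 * J + |N p p'| / (1 - w) * Real.log 2 - 2 * h' * Real.log 2 * J := by
    have e1 : (NZ N w q q' - h) * Real.log 2 * J' =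
        (NZ N w q q' * (J' : ℝ) - h * J') * Real.log 2 := by ring
    have e2 : 2 * h' = h * (1 - w) := by rw [hh']; ring
    rw [e1, e2]
    have e3 : (NZ N w q q' * (J' : ℝ) - h * J') * Real.log 2 ≤
        ((N p p' * J + |N p p'| / (1 - w)) - h * (1 - w) * J) * Real.log 2 :=
      mul_le_mul_of_nonneg_right (by linarith) hl2.le
    refine e3.trans (le_of_eq ?_)
    ring
  have c9 : h' * Real.log 2 * (J : ℝ) = 2 * h' * Real.log 2 * J - h' * Real.log 2 * J := by ring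
  rw [hC] at hJ2
  have c10 : (N p p' - h') * Real.log 2 * (J : ℝ) = N p p' * Real.log 2 * J -
    h' * Real.log 2 * J := by ring
  rw [c10] at hlow
  linarith

end Pool.GEN
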