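import Pool.Agent.H71.GEN.Ft2
import Pool.Agent.H1.GEN.LeafZ
import Pool.Agent.H2.GEN.Rate
import Pool.Agent.H54.GN.Thr
import Pool.Agent.H54.GN.Sun
import Pool.Agent.H99.CLM.Clm
import Pool.Agent.H13.K2S.All

/-!
# The entropy inequality from the leaves of codimension one, for all dimensions
-/

set_option autoImplicit false

namespace Pool.GEN

open Finset Real MvPolynomial
open Pool.Agent.H49.Ent Pool.Agent.H32.Dense Pool.STK Pool.KA Pool.KSAT Pool.K2S Pool.PB Pool.S6C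
open Pool.FLF (Fam.sub)

variable {m : ℕ}

/-- **Theorem R** from the leaves. -/
theorem theoremR (hK2 : K2Stmt m) (hleaf : ∀ n, 0 < n → n ≤ m → LEAFw n) : TheoremR m :=
  ft (fun n h1 h2 => leafZ_thm n h1 (hleaf n h1 h2)) hK2 (thr_thm m) sun_thm (rate_stmt m)

/-- **The reduction of the entropy inequality to the leaves of codimension one.** -/
theorem kp_gen (hK2 : K2Stmt m) (hB : BaseStmt m) (hleaf : ∀ n, 0 < n → n ≤ m → LEAFw n) :
    KP m := by
  refine kp_of_clm aex rex fun a R ha hR hU => clm_of_clg (clg_of_not_ne fun hNe => ?_)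
  obtain ⟨h1, ⟨M, h2⟩, ρ, hρ, h3⟩ := hB a R ha hR hU
  refine theoremR hK2 hleaf (FCl.mx m a R).toP ?_ h1 M h2 ρ hρ h3 hNe
  intro τ J F A hS
  exact ⟨hS.1.1, hS.1.2.1.1, hS.1.2.2, hS.2⟩

end Pool.GEN
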