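import Pool.Agent.H71.GEN.Kpf0
import Pool.Agent.H71.GEN.Kp
import Pool.Agent.H1.GEN.Fx
import Pool.Agent.H54.GN.NoLb
import Pool.Agent.H32.KR.K2E
import Pool.Agent.H33.EXA.Grx
import Pool.Agent.H45.EXA.Zbx
import Pool.Agent.H54.GN.ThrX
import Pool.Agent.H72.ACT.Start

/-!
# From the exactness theorem with exact numbers to the entropy inequality

`kp_of_fzx : FZX m → KP m`.
-/

set_option autoImplicit false

namespace Pool.GEN

open Finset Real MvPolynomial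
open Pool.Agent.H49.Ent Pool.Agent.H32.Dense Pool.STK Pool.KA Pool.KSAT Pool.K2S Pool.PB Pool.S6C
open Pool.FLF (Fam.sub)

variable {m n J : ℕ} {κ : Type}

/-! ### The inputs -/

/-- **(THR)** with exact numbers and a modulus for the absent labels. -/
def ThrXS (m : ℕ) : Prop :=
  ∀ (S : PCl m), S.Ne → ∀ κ : Fin m, NoLb0 S κ →
    ∃ (σ : Equiv.Perm (Fin m)) (s : Fin m → ℝ) (d : ℕ → ℝ), NumX s d ∧ (∀ l, d l ≤ 1 / ((l : ℝ) + 1)) ∧
    (∀ j : Fin m, (j : ℕ) = 0 → σ j = κ) ∧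
    ∀ w₁ e₁ : ℝ, 0 < w₁ → w₁ ≤ 1 → 0 < e₁ → ∃ (S' : PCl m) (K₀ : ℕ), S'.Ne ∧
      (∀ (τ : ℝ) (J : ℕ) (F : Fam m J) (A : F.Ω → Prop), S'.St τ J F A → S.St τ J F A) ∧
      (∀ j, ∀ k ∉ bef σ j, Bas S' (fun J F A =>
        Lb F (bef σ j) k K₀ ⌊e₁ * J⌋₊ J ⌊w₁ * J⌋₊ ⌊min (rad s 0 j + e₁) 1 * J⌋₊
          ⌊(s j - e₁) * J⌋₊ A)) ∧
      ∀ (j : Fin m) (l K : ℕ), s j + 1 / ((l : ℝ) + 1) ≤ 1 → Bas S' (fun J F A =>
        ¬ Lb F (bef σ j) (σ j) K ⌊d l * J⌋₊ J ⌊d l * J⌋₊ ⌊(rad s 0 j + d l) * J⌋₊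
          ⌊(s j + 1 / ((l : ℝ) + 1)) * J⌋₊ A)

/-- The modulus of the zooms. -/
noncomputable def dZ (d : ℕ → ℝ) (l : ℕ) : ℝ := min (d (2 * l + 1) / 4) (1 / (2 * (l : ℝ) + 2))

/-- **(ZBX)** The absent labels of the zooms. -/
def ZbxS (m n : ℕ) : Prop :=
  ∀ (S : PCl m) (C₀ : ℝ), 0 ≤ C₀ → TmC S C₀ → ∀ (s : Fin n → ℝ) (d : ℕ → ℝ), NumX s d →
    (∀ l, d l ≤ 1 / ((l : ℝ) + 1)) → ∀ ε : Fin n → Fin m, Function.Injective ε →
    (∀ (j : Fin n) (l K : ℕ), s j + 1 / ((l : ℝ) + 1) ≤ 1 → Bas S (fun J F A =>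
      ¬ Lb F ((Finset.Iio j).image ε) (ε j) K ⌊d l * J⌋₊ J ⌊d l * J⌋₊ ⌊(rad s 0 j + d l) * J⌋₊
        ⌊(s j + 1 / ((l : ℝ) + 1)) * J⌋₊ A)) →
    ∀ (l K : ℕ) (w₁ : ℝ), 0 < w₁ → w₁ ≤ dZ d l →
    ∃ ψ : ℝ, 0 < ψ ∧ ∃ τ₀ : ℝ, 0 < τ₀ ∧ ∃ J₀ : ℕ, ∀ J ≥ J₀, ∀ (F : Fam m J) (A : F.Ω → Prop),
    S.St τ₀ J F A → ∀ (κ : Type) (g : F.Ω → κ),
    (∀ ω ω', A ω → A ω' → ptr F J ω = ptr F J ω' → g ω = g ω') →
    (∀ ω ω', A ω → A ω' → slam F ⌊w₁ * J⌋₊ ω = slam F ⌊w₁ * J⌋₊ ω' → g ω = g ω') →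
    ∀ (J' : ℕ) (h : ⌊w₁ * J⌋₊ + J' ≤ J), J' = J - ⌊w₁ * J⌋₊ →
    ∀ (hl : IsLaw (Pool.Agent.H49.Ent.cond F.p A True)) (B : F.Ω → Prop),
    Real.exp (-(3 * ψ * J')) ≤ Pe (Pool.Agent.H49.Ent.cond F.p A True) B →
    ¬ BtrX s (dZ d l) (1 / ((l : ℝ) + 1)) K J' (zf (F.res A True hl) ⌊w₁ * J⌋₊ J' h g ε) B

/-- **(GRAX)** The attained labels of the zooms. -/
def GraxS (m n : ℕ) : Prop :=
  ∀ (K : ℕ) (s : Fin n → ℝ), Monotone s → (∀ j, 0 ≤ s j) → (∀ j, s j ≤ 1) →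
    (∀ j : Fin n, (j : ℕ) = 0 → s j = 0) → ∀ e e₁ w₁ : ℝ, 0 < e → e ≤ 1 → 0 < w₁ → w₁ ≤ e / 8 →
    0 < e₁ → e₁ ≤ e / 8 → ∃ J₀ : ℕ, ∀ J ≥ J₀, ∀ (F : Fam m J) (A : F.Ω → Prop)
    (hl : IsLaw (Pool.Agent.H49.Ent.cond F.p A True)) (eps : Fin n → Fin m),
    Function.Injective eps → ∀ (V : Fin n → Fin n → Type) (z : ∀ j k, PtT F → V j k)
    (z' : ∀ j k, LnT F → V j k) (G : ∀ j k, V j k → MvPolynomial (Option (Fin m)) ℝ),
    (∀ j k, j ≤ k → LbOK F ((Finset.Iio j).image eps) (eps k) K ⌊e₁ * J⌋₊ J ⌊w₁ * J⌋₊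
      ⌊min (rad s 0 j + e₁) 1 * J⌋₊ ⌊(s j - e₁) * J⌋₊ A (z j k) (z' j k) (G j k)) →
    ∀ (J' : ℕ) (h : ⌊w₁ * J⌋₊ + J' ≤ J), J' = J - ⌊w₁ * J⌋₊ →
    ∀ (κ : Type) (g : F.Ω → κ) (φ : ∀ j k, κ → V j k),
      (∀ j k, j ≤ k → ∀ ω, A ω → z' j k (slam F ⌊w₁ * J⌋₊ ω) = φ j k (g ω)) →
      GraX (K + 1) e s J' (zf (F.res A True hl) ⌊w₁ * J⌋₊ J' h g eps)

theorem thrXS_thm (m : ℕ) : ThrXS m := by
  intro S hS κ hnl
  obtain ⟨σ, s, d, ms, h01, hd, hn, h⟩ := thrx_thm m S hS κ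
  exact ⟨σ, s, d, ⟨ms, fun j => (h01 j).1, fun j => (h01 j).2, fun j hj => (hn hnl j hj).2,
    fun l => (hd l).1⟩, fun l => (hd l).2, fun j hj => (hn hnl j hj).1, h⟩

theorem zbxS_thm (m n : ℕ) : ZbxS m n := by
  intro S C₀ hC₀ hTm s d hnum hd ε hinj habs l K w₁ hw0 hw1
  have hl : (0 : ℝ) ≤ l := Nat.cast_nonneg l
  have e1 : (((2 * l + 1 : ℕ) : ℝ) + 1) = 2 * (l : ℝ) + 2 := by
    push_cast
    ring
  have hD0 := hnum.d0 (2 * l + 1)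
  have hD1 := hd (2 * l + 1)
  rw [e1] at hD1
  have hz0 : 0 < dZ d l := lt_min (by linarith) (by positivity)
  have hz1 : dZ d l ≤ d (2 * l + 1) / 4 := min_le_left _ _
  have hz2 : dZ d l ≤ 1 / (2 * (l : ℝ) + 2) := min_le_right _ _
  have h2 : 1 / (2 * (l : ℝ) + 2) ≤ 1 / 2 :=
    one_div_le_one_div_of_le (by norm_num) (by linarith)
  have h3 : 1 / (2 * (l : ℝ) + 2) + 1 / (2 * (l : ℝ) + 2) = 1 / ((l : ℝ) + 1) := by
    field_simp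
    ring
  have h4 : 0 < 1 / (2 * (l : ℝ) + 2) := by positivity
  refine zbx hC₀ hTm (D := d (2 * l + 1)) (dZ := dZ d l) (h := 1 / ((l : ℝ) + 1))
    (h₂ := 1 / (2 * (l : ℝ) + 2)) hw0 (by linarith) (by linarith) hz0 (by linarith) h4
    (by linarith) (by linarith) hnum.s0 hnum.ms hinj K ?_
  intro j hj
  have h5 := habs j (2 * l + 1) (K + 1) (by rw [e1]; exact hj)
  rw [e1] at h5
  exact h5

theorem graxS_thm (m n : ℕ) : GraxS m n := by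
  intro K s _ hs0 hs1 _ e e₁ w₁ he0 he1 hw0 hw1 he₁0 he₁1
  obtain ⟨c₀, hc⟩ := grax_zf m n K
  obtain ⟨J₁, hJ₁⟩ := lin (2 * (c₀ : ℝ) + 8) he0
  obtain ⟨J₂, hJ₂⟩ := lin 4 hw0
  refine ⟨max J₁ J₂, fun J hJ F A hl eps hinj V z z' G hlab J' h hJ' κ g φ hφ => ?_⟩
  have hwJ : ⌊w₁ * (J : ℝ)⌋₊ ≤ J := fl_le (by linarith) J
  have hJJ : ⌊w₁ * (J : ℝ)⌋₊ + J' = J := by omega
  obtain ⟨h1, h2⟩ := grax_num (c₀ := c₀) he1 he₁1 hw1 hJJ rfl hw0
    (hJ₁ J ((le_max_left _ _).trans hJ)) (hJ₂ J ((le_max_right _ _).trans hJ))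
  exact hc J _ J' hJJ F A hl eps hinj s hs0 hs1 e e₁ he₁0.le V z z' G hlab h1 h2 κ g φ hφ

/-! ### Lists -/

/-- **The bad properties are absent in the zooms**, for the number `i` of the list. -/
theorem zbad_fin {n : ℕ} (hzbx : ZbxS m n) {S : PCl m} {C₀ : ℝ} (hC₀ : 0 ≤ C₀) (hTm : TmC S C₀)
    {s : Fin n → ℝ} {d : ℕ → ℝ} (hnum : NumX s d) (hd : ∀ l, d l ≤ 1 / ((l : ℝ) + 1)) {ε : Fin n → Fin m}
    (hinj : Function.Injective ε)
    (habs : ∀ (j : Fin n) (l K : ℕ), s j + 1 / ((l : ℝ) + 1) ≤ 1 → Bas S (fun J F A =>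
      ¬ Lb F ((Finset.Iio j).image ε) (ε j) K ⌊d l * J⌋₊ J ⌊d l * J⌋₊ ⌊(rad s 0 j + d l) * J⌋₊
        ⌊(s j + 1 / ((l : ℝ) + 1)) * J⌋₊ A))
    {N : ℚ → ℚ → ℝ} {kap : Fin m} (hN : ActB N S kap)
    (hkap : ∀ j : Fin n, (j : ℕ) = 0 → ε j = kap) {e : ℝ} {w : ℚ} (hw0 : 0 < w) (hw1 : w < 1)
    (hwd : ∀ l : ℕ, e ≤ 1 / ((l : ℝ) + 1) → (w : ℝ) ≤ dZ d l) (i : ℕ) :
    ∃ ψ : ℝ, 0 < ψ ∧ ∃ τ₀ : ℝ, 0 < τ₀ ∧ ∃ J₀ : ℕ, ∀ J ≥ J₀, ∀ (F : Fam m J) (A : F.Ω → Prop),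
    S.St τ₀ J F A → ∀ (κ : Type) (z : PtT F → κ) (z' : LnT F → κ),
    (∀ ω, A ω → z (ptr F J ω) = z' (slam F ⌊(w : ℝ) * J⌋₊ ω)) →
    ∀ (hl : IsLaw (Pool.Agent.H49.Ent.cond F.p A True)) (J' : ℕ) (hJ : ⌊(w : ℝ) * J⌋₊ + J' = J)
    (B : F.Ω → Prop),
    Real.exp (-(3 * ψ * J')) ≤ Pe (Pool.Agent.H49.Ent.cond F.p A True) B →
    ¬ FBadX (NZ N w) s (dZ d) e i J'
      (zf (F.res A True hl) ⌊(w : ℝ) * J⌋₊ J' hJ.le (fun ω => z' (slam F ⌊(w : ℝ) * J⌋₊ ω)) ε)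
      B := by
  have hpos : ∀ (τ : ℝ) (J : ℕ) (F : Fam m J) (A : F.Ω → Prop), 0 < τ → S.St τ J F A →
      0 < Pe F.p A := fun τ J F A hτ hS => (hTm τ J F A hτ hS).1
  have hwr : (0 : ℝ) < w := by exact_mod_cast hw0
  have hi : (0 : ℝ) < 1 / ((i : ℝ) + 1) := by positivity
  obtain ⟨ψa, hψa, τa, hτa, Ja, ha⟩ := z_act_fin n hpos hN hw0 hw1 i hi
  have hb : ∀ l : ℕ, ∃ ψ : ℝ, 0 < ψ ∧ ∃ τ₀ : ℝ, 0 < τ₀ ∧ ∃ J₀ : ℕ,
      e ≤ 1 / ((l : ℝ) + 1) → ∀ J ≥ J₀, ∀ (F : Fam m J) (A : F.Ω → Prop),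
      S.St τ₀ J F A → ∀ (κ : Type) (g : F.Ω → κ),
      (∀ ω ω', A ω → A ω' → ptr F J ω = ptr F J ω' → g ω = g ω') →
      (∀ ω ω', A ω → A ω' → slam F ⌊(w : ℝ) * J⌋₊ ω = slam F ⌊(w : ℝ) * J⌋₊ ω' → g ω = g ω') →
      ∀ (J' : ℕ) (h : ⌊(w : ℝ) * J⌋₊ + J' ≤ J), J' = J - ⌊(w : ℝ) * J⌋₊ →
      ∀ (hl : IsLaw (Pool.Agent.H49.Ent.cond F.p A True)) (B : F.Ω → Prop),
      Real.exp (-(3 * ψ * J')) ≤ Pe (Pool.Agent.H49.Ent.cond F.p A True) B →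
      ¬ BtrX s (dZ d l) (1 / ((l : ℝ) + 1)) i J'
        (zf (F.res A True hl) ⌊(w : ℝ) * J⌋₊ J' h g ε) B := by
    intro l
    by_cases hl : e ≤ 1 / ((l : ℝ) + 1)
    · obtain ⟨ψ, hψ, τ, hτ, J₀, h⟩ := hzbx S C₀ hC₀ hTm s d hnum hd ε hinj habs l i w hwr (hwd l hl)
      exact ⟨ψ, hψ, τ, hτ, J₀, fun _ => h⟩
    · exact ⟨1, one_pos, 1, one_pos, 0, fun h => absurd h hl⟩
  choose ψb hψb τb hτb Jb hb using hb
  obtain ⟨ψ₁, hψ₁, h1⟩ := fin_min i ψb hψb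
  obtain ⟨τ₁, hτ₁, h2⟩ := fin_min i τb hτb
  obtain ⟨J₁, h3⟩ := fin_max i Jb
  refine ⟨min ψa ψ₁, lt_min hψa hψ₁, min τa τ₁, lt_min hτa hτ₁, max Ja J₁,
    fun J hJ₀ F A hS κ z z' hcl hl J' hJ B hB hbad => ?_⟩
  have hexp : ∀ ψ' : ℝ, min ψa ψ₁ ≤ ψ' →
      Real.exp (-(3 * ψ' * J')) ≤ Pe (Pool.Agent.H49.Ent.cond F.p A True) B := by
    intro ψ' hψ'
    refine le_trans (Real.exp_le_exp.2 (neg_le_neg ?_)) hB
    exact mul_le_mul_of_nonneg_right (mul_le_mul_of_nonneg_left hψ' (by norm_num))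
      (Nat.cast_nonneg J')
  rcases hbad with ⟨q, q', k, hk, hc, hq0, hqq, hq1, hact⟩ | ⟨l, hl', hel, hbtr⟩
  · exact ha J ((le_max_left _ _).trans hJ₀) F A (S.mono (min_le_left _ _) hS) κ z z' hcl hl J' hJ
      ε k (hkap k hk) B (hexp _ (min_le_left _ _)) q q' hc hq0 hqq hq1 hact
  · refine hb l hel J ((h3 l hl').trans ((le_max_right _ _).trans hJ₀)) F A
      (S.mono ((min_le_right _ _).trans (h2 l hl')) hS) κ (fun ω => z' (slam F ⌊(w : ℝ) * J⌋₊ ω))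
      ?_ ?_ J' hJ.le (by omega) hl B (hexp _ ((min_le_right _ _).trans (h1 l hl'))) hbtr
    · intro ω ω' hω hω' h
      rw [← hcl ω hω, ← hcl ω' hω', h]
    · intro ω ω' _ _ h
      rw [h]

/-! ### The assembly -/

theorem numX_dZ {s : Fin n → ℝ} {d : ℕ → ℝ} (h : NumX s d) : NumX s (dZ d) := by
  refine ⟨h.ms, h.s0, h.s1, h.z, fun l => ?_⟩
  have := h.d0 (2 * l + 1)
  exact lt_min (by linarith) (by positivity)

/-- A small rational number. -/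
theorem exists_rat_small {x : ℝ} (hx : 0 < x) : ∃ w : ℚ, 0 < w ∧ (w : ℝ) ≤ x := by
  obtain ⟨w, h1, h2⟩ := exists_rat_btwn hx
  exact ⟨w, by exact_mod_cast h1, h2.le⟩

/-- The modulus on the part of the list. -/
theorem fin_dZ {d : ℕ → ℝ} (hd : ∀ l, 0 < d l) {e : ℝ} (he : 0 < e) : ∃ x : ℝ, 0 < x ∧
    ∀ l : ℕ, e ≤ 1 / ((l : ℝ) + 1) → x ≤ dZ d l := by
  have h0 : ∀ l, 0 < dZ d l := fun l => lt_min (by linarith [hd (2 * l + 1)]) (by positivity)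
  obtain ⟨x, hx, h⟩ := fin_min ⌈1 / e⌉₊ (dZ d) h0
  refine ⟨x, hx, fun l hl => h l ?_⟩
  rw [le_div_iff₀ (by positivity)] at hl
  have h1 : (l : ℝ) ≤ 1 / e := by
    rw [le_div_iff₀ he]
    nlinarith
  exact_mod_cast h1.trans (Nat.le_ceil _)

/-- Joint labels: all pairs. -/
theorem lb_all {F : Fam m J} {σ : Equiv.Perm (Fin m)} {K e r w : ℕ} {ρ P : Fin m → ℕ}
    {A : F.Ω → Prop}
    (h : ∀ j, ∀ k ∉ bef σ j, Lb F (bef σ j) k K e r w (ρ j) (P j) A) :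
    ∃ (V : Fin m → Fin m → Type) (z : ∀ j k, PtT F → V j k) (z' : ∀ j k, LnT F → V j k)
      (G : ∀ j k, V j k → MvPolynomial (Option (Fin m)) ℝ),
      (∀ j k, ∀ ω, A ω → z j k (ptr F r ω) = z' j k (slam F w ω)) ∧
      ∀ j k, j ≤ k → LbOK F (bef σ j) (σ k) K e r w (ρ j) (P j) A (z j k) (z' j k) (G j k) := by
  have key : ∀ j k : Fin m, ∃ (V : Type) (z : PtT F → V) (z' : LnT F → V)
      (G : V → MvPolynomial (Option (Fin m)) ℝ),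
      (∀ ω, A ω → z (ptr F r ω) = z' (slam F w ω)) ∧
      (j ≤ k → LbOK F (bef σ j) (σ k) K e r w (ρ j) (P j) A z z' G) := by
    intro j k
    by_cases hjk : j ≤ k
    · obtain ⟨V, z, z', G, h1⟩ := h j (σ k) (by
        rw [mem_bef, Equiv.symm_apply_apply]
        exact not_lt.2 hjk)
      exact ⟨V, z, z', G, h1.cls, fun _ => h1⟩
    · exact ⟨PUnit, fun _ => PUnit.unit, fun _ => PUnit.unit, fun _ => 0, fun _ _ => rfl,
        fun h1 => absurd h1 hjk⟩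
  choose V z z' G h1 h2 using key
  exact ⟨V, z, z', G, h1, h2⟩

theorem fam_Tm_mono {F : Fam m J} {a b : ℝ} (h : F.Tm a) (hab : a ≤ b) : F.Tm b := by
  unfold Fam.Tm at h ⊢
  linarith

theorem GraX.mono_e {K : ℕ} {e e' : ℝ} {s : Fin n → ℝ} {F : Fam n J} (h : GraX K e s J F)
    (he : e ≤ e') : GraX K e' s J F := by
  obtain ⟨G, h1, h2⟩ := h
  have hJ : (0 : ℝ) ≤ J := Nat.cast_nonneg J
  refine ⟨G, h1, fun ω hω j k hjk => ⟨((h2 ω hω j k hjk).1).trans (inv_mono ?_), fun b hb o => ?_⟩⟩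
  · exact Nat.floor_le_floor (mul_le_mul_of_nonneg_right (by linarith) hJ)
  · refine ((h2 ω hω j k hjk).2 b (fun o => (hb o).trans (inv_mono ?_)) o).trans
      (pow_le_pow_right₀ (by norm_num) ?_)
    · exact Nat.floor_le_floor (mul_le_mul_of_nonneg_right
        (min_le_min (by linarith) le_rfl) hJ)
    · exact Nat.floor_le_floor (mul_le_mul_of_nonneg_right he hJ)

/-- **From the exactness theorem to the entropy inequality.** -/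
theorem kp_core {m : ℕ} (hthr : ThrXS m) (hzbx : ZbxS m m) (hgrax : GraxS m m)
    (hst : StartStmt m) (hF : FZX m) : KP m := by
  classical
  refine kp_of_clm aex rex fun a R ha hR hU => clm_of_clg (clg_of_not_ne fun hNe => ?_)
  obtain ⟨S, kap, N, al, C, M, ρ, hSne, hTmC, -, hρ, hV, hal, hN0, hQ, hB⟩ := hst a R ha hR hU hNe
  have hl2 : 0 < Real.log 2 := Real.log_pos (by norm_num)
  have hl1 : Real.log 2 ≤ 1 := by
    have := Real.log_two_lt_d9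
    linarith
  have hm0 : (0 : ℝ) ≤ m := Nat.cast_nonneg m
  have hmpos : 0 < m := lt_of_le_of_lt (Nat.zero_le _) kap.2
  obtain ⟨C₀, hC₀⟩ : ∃ C₀, C₀ = |C| := ⟨_, rfl⟩
  have hC0 : 0 ≤ C₀ := by rw [hC₀]; exact abs_nonneg C
  have hTm : TmC S C₀ := by
    intro τ J F A hτ hS
    refine ⟨(hTmC τ J F A hτ hS).1, fun h => fam_Tm_mono ((hTmC τ J F A hτ hS).2 h) ?_⟩
    rw [hC₀]
    exact mul_le_mul_of_nonneg_right (mul_le_mul_of_nonneg_right (le_abs_self C) hτ.le)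
      (Nat.cast_nonneg J)
  have hposB : Bas S (fun _ F A => 0 < Pe F.p A) :=
    ⟨1, one_pos, 0, fun J _ F A hS => (hTm 1 J F A one_pos hS).1⟩
  have hnl : NoLb0 S kap := act_noLb hal hQ hB hposB
  obtain ⟨g₀, hg₀, hM⟩ := hQ.mod
  -- the thresholds
  obtain ⟨σ, s, d, hnum, hd2, hσ, hthr⟩ := hthr S hSne kap hnl
  -- the exactness theorem
  obtain ⟨e', he', hFe⟩ := hF (ρ / 8) al (by linarith) hal g₀ hg₀ s (dZ d) (numX_dZ hnum)
  obtain ⟨e, he⟩ : ∃ e, e = min e' 1 := ⟨_, rfl⟩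
  have he0 : 0 < e := by rw [he]; exact lt_min he' one_pos
  have he1 : e ≤ 1 := by rw [he]; exact min_le_right _ _
  have hee' : e ≤ e' := by rw [he]; exact min_le_left _ _
  -- the window and the slack
  obtain ⟨x₁, hx₁, hx₁'⟩ := fin_dZ hnum.d0 he'
  obtain ⟨x₂, hx₂⟩ : ∃ x₂, x₂ = min x₁ (min (e / 8) (ρ / (8 * (3 * m + 1)))) := ⟨_, rfl⟩
  have hx₂0 : 0 < x₂ := by
    rw [hx₂]
    exact lt_min hx₁ (lt_min (by linarith) (by positivity))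
  obtain ⟨w, hw0, hwx⟩ := exists_rat_small hx₂0
  have hwr : (0 : ℝ) < w := by exact_mod_cast hw0
  have hw1 : (w : ℝ) ≤ x₁ := by
    refine hwx.trans ?_
    rw [hx₂]
    exact min_le_left _ _
  have hw2 : (w : ℝ) ≤ e / 8 := by
    refine hwx.trans ?_
    rw [hx₂]
    exact (min_le_right _ _).trans (min_le_left _ _)
  have hw3 : (3 * m + 1) * (w : ℝ) ≤ ρ / 8 := by
    have h1 : (w : ℝ) ≤ ρ / (8 * (3 * m + 1)) := by
      refine hwx.trans ?_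
      rw [hx₂]
      exact (min_le_right _ _).trans (min_le_right _ _)
    rw [le_div_iff₀ (by positivity)] at h1
    linarith
  have hw8 : (w : ℝ) ≤ 1 / 8 := by linarith
  have hwlt : w < 1 := by
    have : (w : ℝ) < 1 := by linarith
    exact_mod_cast this
  obtain ⟨e₁, he₁⟩ : ∃ e₁, e₁ = min (e / 8) (ρ / (32 * (m + 1))) := ⟨_, rfl⟩
  have he₁0 : 0 < e₁ := by
    rw [he₁]
    exact lt_min (by linarith) (by positivity)
  have he₁1 : e₁ ≤ e / 8 := by rw [he₁]; exact min_le_left _ _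
  have he₁2 : 4 * ((m : ℝ) + 1) * e₁ ≤ ρ / 8 := by
    have h1 : e₁ ≤ ρ / (32 * (m + 1)) := by rw [he₁]; exact min_le_right _ _
    rw [le_div_iff₀ (by positivity)] at h1
    linarith
  obtain ⟨S', K, hNe', hsub, hatt, habs⟩ := hthr w e₁ hwr (by linarith) he₁0
  have hTm' : TmC S' C₀ := fun τ J F A hτ hS => hTm τ J F A hτ (hsub _ _ _ _ hS)
  have hB' : ActB N S' kap := fun q q' h0 h1 h2 h hh => Bas.sub hsub (hB q q' h0 h1 h2 h hh)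
  have hV' := Bas.sub hsub hV
  -- the bad properties
  have hbad := fun i : ℕ => zbad_fin hzbx hC0 hTm' hnum hd2 (ε := σ) σ.injective
    (fun j l K' hl => by
      have h1 := habs j l K' hl
      rw [bef_eq] at h1
      exact h1) hB' (fun j hj => hσ j hj) (e := e') hw0 hwlt (fun l hl => hw1.trans (hx₁' l hl)) i
  choose ψ hψ τb hτb Jb hbad using hbad
  obtain ⟨η, hη, M', J₁, hZ⟩ := hFe (K + 1) (NZ N w) (hM.zoom hw0.le hwlt) ψ hψ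
  obtain ⟨τ₁, hτ₁, hτ₁'⟩ := fin_min M' τb hτb
  obtain ⟨J₂, hJ₂⟩ := fin_max M' Jb
  -- the attained labels
  have hatt' : Bas S' (fun J F A => ∀ j, ∀ k ∉ bef σ j, Lb F (bef σ j) k K ⌊e₁ * J⌋₊ J
      ⌊(w : ℝ) * J⌋₊ ⌊min (rad s 0 j + e₁) 1 * J⌋₊ ⌊(s j - e₁) * J⌋₊ A) := by
    refine Bas.fin fun j => Bas.fin fun k => ?_
    by_cases hk : k ∉ bef σ j
    · exact Bas.mono 0 (hatt j k hk) fun J _ F A h _ => h
    · exact ⟨1, one_pos, 0, fun J _ F A _ h => absurd h hk⟩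
  obtain ⟨τ₂, hτ₂, J₃, hatt'⟩ := hatt'
  obtain ⟨τ₃, hτ₃, J₄, hgain⟩ := hV'
  obtain ⟨τ₄, hτ₄, J₅, hK2⟩ := k2e_thm m K w (ρ / 8) hwr (by linarith) (by linarith)
  obtain ⟨J₆, hgrax⟩ := hgrax K s hnum.ms hnum.s0 hnum.s1 hnum.z e e₁ w he0 he1 hwr hw2 he₁0 he₁1
  -- the defect
  have hC1 : 0 < C₀ + 1 := by linarith
  obtain ⟨τ, hτ⟩ : ∃ τ, τ = min (min (τ₁ / 2) τ₂) (min (τ₃ / 2) (min (τ₄ / (C₀ + 1))
      (min (η / (4 * (C₀ + 1))) (ρ / (16 * (C₀ + 1)))))) := ⟨_, rfl⟩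
  have hτ0 : 0 < τ := by
    rw [hτ]
    refine lt_min (lt_min (by linarith) hτ₂) (lt_min (by linarith) (lt_min (by positivity)
      (lt_min (by positivity) (by positivity))))
  have t1 : τ + τ ≤ τ₁ := by
    have : τ ≤ τ₁ / 2 := by rw [hτ]; exact (min_le_left _ _).trans (min_le_left _ _)
    linarith
  have t2 : τ ≤ τ₂ := by rw [hτ]; exact (min_le_left _ _).trans (min_le_right _ _)
  have t3 : τ + τ ≤ τ₃ := by
    have : τ ≤ τ₃ / 2 := by rw [hτ]; exact (min_le_right _ _).trans (min_le_left _ _)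
    linarith
  have t4 : C₀ * τ ≤ τ₄ := by
    have h1 : τ ≤ τ₄ / (C₀ + 1) := by
      rw [hτ]
      exact (min_le_right _ _).trans ((min_le_right _ _).trans (min_le_left _ _))
    rw [le_div_iff₀ hC1] at h1
    linarith
  have t5 : 4 * (C₀ * τ) ≤ η := by
    have h1 : τ ≤ η / (4 * (C₀ + 1)) := by
      rw [hτ]
      exact (min_le_right _ _).trans ((min_le_right _ _).trans ((min_le_right _ _).trans
        (min_le_left _ _)))
    rw [le_div_iff₀ (by positivity)] at h1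
    linarith
  have t6 : 16 * (C₀ * τ) ≤ ρ := by
    have h1 : τ ≤ ρ / (16 * (C₀ + 1)) := by
      rw [hτ]
      exact (min_le_right _ _).trans ((min_le_right _ _).trans ((min_le_right _ _).trans
        (min_le_right _ _)))
    rw [le_div_iff₀ (by positivity)] at h1
    linarith
  obtain ⟨J₇, hJ₇⟩ := cst 2 hτ0
  obtain ⟨J₈, hJ₈⟩ := lin (m * Real.log 17) (by linarith : 0 < ρ / 8)
  obtain ⟨J, hJ, F, A, hSt⟩ := hNe' τ hτ0 (max (max (2 * J₁) (max J₂ J₃))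
    (max (max J₄ (max J₅ J₆)) (max J₇ J₈)))
  simp only [ge_iff_le, max_le_iff] at hJ
  obtain ⟨⟨hJ1, hJ2, hJ3⟩, ⟨hJ4, hJ5, hJ6⟩, hJ7, hJ8⟩ := hJ
  have hJp : (0 : ℝ) ≤ J := Nat.cast_nonneg J
  have h2e := hJ₇ J hJ7
  have h17 := hJ₈ J hJ8
  have hA : 0 < Pe F.p A := (hTm' τ J F A hτ0 hSt).1
  -- the labels
  obtain ⟨V, z, z', G, hcl, hlab⟩ := lb_all (hatt' J hJ3 F A (S'.mono t2 hSt))
  have hTmA : (Fam.sub F A hA).Tm (τ₄ * J) := by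
    refine fam_Tm_mono (Pool.FLF.sub_Tm ((hTm' τ J F A hτ0 hSt).2 _)) ?_
    exact mul_le_mul_of_nonneg_right t4 hJp
  obtain ⟨j₀, hj₀⟩ : ∃ j₀ : Fin m, j₀ = ⟨0, hmpos⟩ := ⟨_, rfl⟩
  have hj₀' : ∀ k : Fin m, j₀ ≤ k := fun k => by
    rw [hj₀]
    exact Fin.mk_le_of_le_val (Nat.zero_le _)
  have hbef0 : bef σ j₀ = ∅ := by
    refine Finset.card_eq_zero.1 ?_
    rw [card_bef, hj₀]
  obtain ⟨s', hs'⟩ : ∃ s' : Fin m → ℝ, s' = fun j => max (s j - e₁) 0 := ⟨_, rfl⟩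
  have hfl : ∀ j, ⌊s' j * (J : ℝ)⌋₊ = ⌊(s j - e₁) * (J : ℝ)⌋₊ := by
    intro j
    rw [hs']
    simp only
    rcases le_total (s j - e₁) 0 with h1 | h1
    · rw [max_eq_right h1, zero_mul, Nat.floor_zero, Nat.floor_of_nonpos]
      exact mul_nonpos_of_nonpos_of_nonneg h1 hJp
    · rw [max_eq_left h1]
  obtain ⟨B, hBA, hPB, hCH⟩ := hK2 J hJ5 F A hA s' σ ⌊e₁ * (J : ℝ)⌋₊ (fun _ => J)
    (fun j => ⌊min (rad s 0 j + e₁) 1 * (J : ℝ)⌋₊) (fun j => V j j) (fun k => V j₀ (σ.symm k))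
    (fun j => z j j) (fun j => z' j j) (fun k => z' j₀ (σ.symm k)) (fun j => G j j)
    (fun k => G j₀ (σ.symm k)) hTmA (by
      intro j
      rw [hs']
      exact ⟨le_max_right _ _, max_le (by linarith [hnum.s1 j]) zero_le_one⟩) (by
      have h1 : (⌊e₁ * (J : ℝ)⌋₊ : ℝ) ≤ e₁ * J := Nat.floor_le (by positivity)
      have h2 := mul_le_mul_of_nonneg_left h1 (by positivity : 0 ≤ 4 * ((m : ℝ) + 1))
      have h3 := mul_le_mul_of_nonneg_right he₁2 hJp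
      linarith) (by
      intro j
      exact fl_le (min_le_right _ _) J) (by
      intro j
      have h1 := hlab j j le_rfl
      rw [hfl]
      exact h1) (fun k v => (hlab j₀ (σ.symm k) (hj₀' _)).deg v) (by
      intro k v b b' hb
      refine (hlab j₀ (σ.symm k) (hj₀' _)).dep v b b' hb ?_
      intro i hi
      rw [hbef0] at hi
      exact absurd hi (Finset.notMem_empty i)) (by
      intro k ω hω
      have h1 := (hlab j₀ (σ.symm k) (hj₀' _)).pos ω hω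
      rw [Equiv.apply_symm_apply] at h1
      refine h1.trans ?_
      have h2 : (1 : ℝ) / 2 ^ ⌊(s j₀ - e₁) * (J : ℝ)⌋₊ ≤ 1 := by
        rw [div_le_one (by positivity)]
        exact one_le_pow₀ (by norm_num)
      linarith)
  have hPB0 : 0 < Pe F.p B := by linarith
  have hBS : S'.St (τ + τ) J F B := by
    refine S'.res hτ0.le hSt hBA ?_
    have h1 : Real.exp (-(τ * J)) ≤ 1 / 2 := by
      rw [Real.exp_neg, inv_eq_one_div]
      exact one_div_le_one_div_of_le (by norm_num) h2e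
    have h2 := mul_le_mul_of_nonneg_right h1 hA.le
    linarith
  have hl : IsLaw (Pool.Agent.H49.Ent.cond F.p B True) := isLaw_cond F.isLaw hPB0
  -- the zoom
  obtain ⟨W, hW⟩ : ∃ W, W = ⌊(w : ℝ) * (J : ℝ)⌋₊ := ⟨_, rfl⟩
  have hW1 : (W : ℝ) ≤ w * J := by rw [hW]; exact Nat.floor_le (by positivity)
  have hWJ : W ≤ J := by
    rw [hW]
    exact fl_le (by linarith) J
  obtain ⟨J', hJ'⟩ : ∃ J', J' = J - W := ⟨_, rfl⟩
  have hJJ : W + J' = J := by omega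
  have hJ'r : (J' : ℝ) = J - W := by
    have : (W : ℝ) + J' = J := by exact_mod_cast hJJ
    linarith
  have hJ'2 : (J : ℝ) / 2 ≤ J' := by
    rw [hJ'r]
    nlinarith
  have hJJ' : ⌊(w : ℝ) * (J : ℝ)⌋₊ + J' = J := by rw [← hW]; exact hJJ
  have hTmB := (hTm' (τ + τ) J F B (by linarith) hBS).2 hl
  have hTmG := zf_Tm (F.res B True hl) hJJ'.le
    (fun ω => fun j k => z' j k (slam F ⌊(w : ℝ) * (J : ℝ)⌋₊ ω)) σ (by
      intro ω ω' _ _ hh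
      have a1 := Prod.ext_iff.mp hh
      have a2 := Prod.ext_iff.mp a1.2
      have a3 : slam F ⌊(w : ℝ) * (J : ℝ)⌋₊ ω = slam F ⌊(w : ℝ) * (J : ℝ)⌋₊ ω' :=
        Prod.ext a1.1 (Prod.ext a2.2 a2.1)
      simp only [a3]) hTmB
  have hGra := hgrax J hJ6 F B hl σ σ.injective V z z' G (fun j k hjk => by
      have h1 := (hlab j k hjk).sub hBA
      rw [bef_eq] at h1
      exact h1) J' hJJ'.le (by omega) (∀ j k, V j k)
    (fun ω => fun j k => z' j k (slam F ⌊(w : ℝ) * (J : ℝ)⌋₊ ω)) (fun j k v => v j k)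
    (fun j k _ ω _ => rfl)
  rcases hZ J' (by
      have h1 : (2 : ℝ) * J₁ ≤ J := by exact_mod_cast hJ1
      have h2 : (J₁ : ℝ) ≤ J' := by linarith
      exact_mod_cast h2)
    (zf (F.res B True hl) ⌊(w : ℝ) * (J : ℝ)⌋₊ J' hJJ'.le
      (fun ω => fun j k => z' j k (slam F ⌊(w : ℝ) * (J : ℝ)⌋₊ ω)) σ)
    (fam_Tm_mono hTmG (by
      have h1 := mul_le_mul_of_nonneg_left hJ'2 hη.le
      have h2 := mul_le_mul_of_nonneg_right t5 hJp
      linarith)) (zf_Gd _ hJJ'.le _ σ) (hGra.mono_e hee') with ⟨i, hi, B', hPB', hbadi⟩ | hlow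
  · exact hbad i J ((hJ₂ i hi).trans hJ2) F B (S'.mono (t1.trans (hτ₁' i hi)) hBS)
      (∀ j k, V j k) (fun y j k => z j k y) (fun y j k => z' j k y)
      (fun ω hω => funext fun j => funext fun k => hcl j k ω (hBA ω hω)) hl J' hJJ' B' hPB' hbadi
  · have hent := zf_ent (F := F.res B True hl) hJJ'
      (g := fun ω => fun j k => z' j k (slam F ⌊(w : ℝ) * (J : ℝ)⌋₊ ω)) (e := σ) hl
    have hgain' := hgain J hJ4 F B (S'.mono t3 hBS)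
    obtain ⟨q, hq⟩ : ∃ q, q = Pool.Agent.H49.Ent.cond F.p B True := ⟨_, rfl⟩
    have hql : IsLaw q := by rw [hq]; exact hl
    obtain ⟨c, hc⟩ : ∃ c : F.Ω → ∀ j k, V j k,
      c = (fun ω => fun j k => z' j k (slam F ⌊(w : ℝ) * (J : ℝ)⌋₊ ω)) := ⟨_, rfl⟩
    have hvg := vgain (F := F) hql c (w := ⌊(w : ℝ) * (J : ℝ)⌋₊) (by omega) (by
      intro ω ω' hω hω' hh
      rw [hq] at hω hω'
      have h1 := hBA _ (cond_pos hω)
      have h2 := hBA _ (cond_pos hω')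
      have h3 : ptr F J ω = ptr F J ω' := hh
      rw [hc]
      funext j k
      simp only
      rw [← hcl j k ω h1, ← hcl j k ω' h2, h3]) (by
      intro ω ω' _ _ hh
      have a1 := Prod.ext_iff.mp hh
      have a2 := Prod.ext_iff.mp a1.2
      have a3 : slam F ⌊(w : ℝ) * (J : ℝ)⌋₊ ω = slam F ⌊(w : ℝ) * (J : ℝ)⌋₊ ω' :=
        Prod.ext a1.1 (Prod.ext a2.2 a2.1)
      rw [hc]
      simp only [a3]) (e₀ := C₀ * (τ + τ) * J) (by
      have h2 : (J : ℝ) * Real.log 2 - C₀ * (τ + τ) * J ≤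
        CH (Pool.Agent.H49.Ent.cond F.p B True) F.T (fun ω => (F.l ω, F.Z ω)) := hTmB
      rw [hq]
      exact h2)
    have hD : CH q (F.D J) (fun ω => (c ω, (F.T1 ⌊(w : ℝ) * (J : ℝ)⌋₊ ω, F.Z ω))) ≤
        ((∑ j, (1 - s' j)) + 2 * m * w) * Real.log 2 * J + ρ / 8 * J := by
      rw [← hq] at hCH
      refine le_trans (CH_mono_cond hql.nonneg (X := F.D J) ?_) hCH
      intro ω ω' _ _ hh
      have a1 := Prod.ext_iff.mp hh
      have a2 := Prod.ext_iff.mp a1.2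
      have a3 : c ω = c ω' := a1.1
      rw [hc] at a3
      refine Prod.ext ?_ (Prod.ext ?_ (Prod.ext a2.1 a2.2))
      · funext j
        exact congrFun (congrFun a3 j) j
      · funext k
        exact congrFun (congrFun a3 j₀) (σ.symm k)
    have hX : ((∑ j, (1 - s j)) - ρ / 8) * Real.log 2 * J' ≤
        CH q (F.X J) (fun ω => (F.T ω, (c ω, F.Z ω))) + m * Real.log 17 := by
      rw [hq, hc]
      exact hlow.trans hent
    beta_reduce at hgain'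
    rw [← hq] at hgain'
    -- the numbers
    have hs'1 : ∑ j, (1 - s' j) ≤ (∑ j, (1 - s j)) + m * e₁ := by
      have h1 : ∑ j, (1 - s' j) ≤ ∑ j, ((1 - s j) + e₁) := by
        refine Finset.sum_le_sum fun j _ => ?_
        rw [hs']
        have := le_max_left (s j - e₁) 0
        simp only
        linarith
      rw [Finset.sum_add_distrib, Finset.sum_const, Finset.card_univ, Fintype.card_fin,
        nsmul_eq_mul] at h1
      exact h1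
    have hSgm : ∑ j, (1 - s j) ≤ m := by
      have h1 : ∑ j, (1 - s j) ≤ ∑ _j : Fin m, (1 : ℝ) :=
        Finset.sum_le_sum fun j _ => by linarith [hnum.s0 j]
      rw [Finset.sum_const, Finset.card_univ, Fintype.card_fin, nsmul_eq_mul, mul_one] at h1
      exact h1
    have hSg0 : 0 ≤ ∑ j, (1 - s j) := Finset.sum_nonneg fun j _ => by linarith [hnum.s1 j]
    obtain ⟨Sg, hSg⟩ : ∃ Sg, Sg = ∑ j, (1 - s j) := ⟨_, rfl⟩
    rw [← hSg] at hX hs'1 hSgm hSg0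
    have hlJ : 0 ≤ Real.log 2 * (J : ℝ) := mul_nonneg hl2.le hJp
    have hlJ1 : Real.log 2 * (J : ℝ) ≤ J := by nlinarith
    -- the directions
    have d1 : ((∑ j, (1 - s' j)) + 2 * m * w) * Real.log 2 * J ≤
        (Sg + m * e₁ + 2 * m * w) * (Real.log 2 * J) := by
      have := mul_le_mul_of_nonneg_right hs'1 hlJ
      linarith
    -- the positions
    have d2 : Sg * (Real.log 2 * J) - (m * w + ρ / 8) * (Real.log 2 * J) ≤
        (Sg - ρ / 8) * Real.log 2 * J' := by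
      have e1 : (Sg - ρ / 8) * Real.log 2 * (J' : ℝ) =
          (Sg - ρ / 8) * (Real.log 2 * J) - (Sg - ρ / 8) * (Real.log 2 * W) := by
        rw [hJ'r]
        ring
      have e2 : (Sg - ρ / 8) * (Real.log 2 * W) ≤ m * w * (Real.log 2 * J) := by
        have e3 : (Sg - ρ / 8) * (Real.log 2 * (W : ℝ)) ≤ m * (Real.log 2 * W) :=
          mul_le_mul_of_nonneg_right (by linarith) (mul_nonneg hl2.le (Nat.cast_nonneg W))
        have e4 : (m : ℝ) * (Real.log 2 * W) ≤ m * (Real.log 2 * (w * J)) :=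
          mul_le_mul_of_nonneg_left (mul_le_mul_of_nonneg_left hW1 hl2.le) hm0
        linarith
      rw [e1]
      linarith
    have d3 : (⌊(w : ℝ) * (J : ℝ)⌋₊ : ℝ) * Real.log 2 ≤ w * (Real.log 2 * J) := by
      have := mul_le_mul_of_nonneg_right (Nat.floor_le (by positivity : 0 ≤ (w : ℝ) * J)) hl2.le
      linarith
    have d4 : C₀ * (τ + τ) * J ≤ ρ / 8 * J := by
      have := mul_le_mul_of_nonneg_right t6 hJp
      linarith
    have d5 : (m * e₁ + 2 * m * w + m * w + ρ / 8 + w) * (Real.log 2 * J) ≤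
        (ρ / 8 + ρ / 8 + ρ / 8) * J := by
      have e1 : m * e₁ + 2 * m * w + m * w + ρ / 8 + w ≤ ρ / 8 + ρ / 8 + ρ / 8 := by
        have e2 : 0 ≤ (m : ℝ) * e₁ := mul_nonneg hm0 he₁0.le
        linarith
      have e3 : 0 ≤ ρ / 8 + ρ / 8 + ρ / 8 := by linarith
      exact mul_le_mul e1 hlJ1 hlJ e3
    have hJ0 : (0 : ℝ) < J := by
      by_contra hcon
      have h0 : (J : ℝ) = 0 := le_antisymm (not_lt.1 hcon) hJp
      rw [h0, mul_zero, Real.exp_zero] at h2e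
      norm_num at h2e
    have hρJ : 0 < ρ * J := mul_pos hρ hJ0
    linarith

/-- **From the exactness theorem to the entropy inequality.** -/
theorem kp_of_fzx {m : ℕ} (hst : StartStmt m) (hF : FZX m) : KP m :=
  kp_core (thrXS_thm m) (zbxS_thm m m) (graxS_thm m m) hst hF

/-- **The entropy inequality from the exactness theorem.** -/
theorem kp_fzx {m : ℕ} (hF : FZX m) : KP m := kp_of_fzx (start_thm m) hF

end Pool.GEN
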