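import Pool.Agent.H71.GEN.Zf
import Pool.Agent.H80.KS6.Plk
import Pool.Agent.H40.SLP.TrlP

/-!
# The points of the zoom are functions of the points of the family; spread fans of the zoom
-/

set_option autoImplicit false

namespace Pool.GEN

open Finset Real MvPolynomial
open Pool.Agent.H49.Ent Pool.Agent.H32.Dense Pool.STK Pool.KA Pool.KSAT Pool.K2S Pool.PB Pool.S6C
open Pool.FLF (Fam.sub)

variable {m n J : ℕ} {κ : Type}

/-- The increments of a polynomial which is bounded on a ball. -/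
theorem ball_lipσ (K : ℕ) : ∃ C : ℝ, 1 ≤ C ∧ ∀ (σ : Type) (_ : Fintype σ) (P : MvPolynomial σ ℝ)
    (x b : σ → ℝ) (ρ δ M : ℝ), P.totalDegree ≤ K → 0 < δ → δ ≤ ρ →
    (∀ y : σ → ℝ, (∀ j, |y j - x j| ≤ ρ) → |MvPolynomial.eval y P| ≤ M) →
    (∀ j, |b j - x j| ≤ δ) →
    |MvPolynomial.eval b P - MvPolynomial.eval x P| ≤ C * M * (δ / ρ) := by
  obtain ⟨C, hC, h⟩ := Pool.Agent.H40.SLP.lip_one K
  refine ⟨C, hC, ?_⟩
  intro σ _ P x b ρ δ M hP hδ hδρ hM hb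
  have hρ : 0 < ρ := lt_of_lt_of_le hδ hδρ
  obtain ⟨g, hg⟩ : ∃ g : σ → Polynomial ℝ, g = fun j =>
      Polynomial.C (x j) + Polynomial.C ((b j - x j) * (ρ / δ)) * Polynomial.X := ⟨_, rfl⟩
  have hgd : ∀ j, (g j).natDegree ≤ 1 := by
    intro j
    rw [hg]
    refine (Polynomial.natDegree_add_le _ _).trans (max_le ?_ ?_)
    · rw [Polynomial.natDegree_C]
      exact Nat.zero_le _
    · exact (Polynomial.natDegree_C_mul_le _ _).trans Polynomial.natDegree_X_le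
  have hge : ∀ t, (MvPolynomial.aeval g P).eval t =
      MvPolynomial.eval (fun j => x j + (b j - x j) * (ρ / δ) * t) P := by
    intro t
    rw [Pool.KBX.eval_aeval_poly]
    congr 1
    congr 1
    funext j
    rw [hg]
    simp
  have h1 := h (MvPolynomial.aeval g P) M (Pool.KBX.natDegree_aeval_le P g hgd hP) (by
    intro t ht
    rw [hge]
    refine hM _ fun j => ?_
    have h2 : x j + (b j - x j) * (ρ / δ) * t - x j = (b j - x j) * (ρ / δ * t) := by ring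
    rw [h2, abs_mul, abs_of_nonneg (mul_nonneg (by positivity) ht.1)]
    calc |b j - x j| * (ρ / δ * t) ≤ δ * (ρ / δ * 1) :=
          mul_le_mul (hb j) (mul_le_mul_of_nonneg_left ht.2 (by positivity))
            (mul_nonneg (by positivity) ht.1) hδ.le
      _ = ρ := by field_simp) (δ / ρ) 0 (by
    rw [abs_of_nonneg (by positivity)]
    have : δ / ρ ≤ 1 := by rw [div_le_one hρ]; exact hδρ
    linarith) (by simp)
  rw [hge, hge] at h1
  have e1 : (fun j => x j + (b j - x j) * (ρ / δ) * (δ / ρ)) = b := by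
    funext j
    field_simp
    ring
  have e2 : (fun j => x j + (b j - x j) * (ρ / δ) * 0) = x := by
    funext j
    ring
  rw [e1, e2, sub_zero, abs_of_nonneg (show (0 : ℝ) ≤ δ / ρ by positivity)] at h1
  exact h1

/-- The cell of the position and the cell of the beginning of the window. -/
theorem cl_near (F : Fam m J) {w : ℕ} (hw : w ≤ J) (ω : F.Ω) (i : Fin m) :
    F.X w ω i - 1 ≤ cl F w ω i ∧ cl F w ω i ≤ F.X w ω i + 1 := by
  have a1 : (F.X w ω i : ℝ) ≤ 2 ^ w * F.x ω i ∧ 2 ^ w * F.x ω i < F.X w ω i + 1 := by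
    unfold Fam.X fl rd
    exact ⟨Int.floor_le _, Int.lt_floor_add_one _⟩
  have a2 : (cl F w ω i : ℝ) ≤ 2 ^ w * F.x1 w ω i ∧ 2 ^ w * F.x1 w ω i < cl F w ω i + 1 := by
    unfold cl fl rd
    exact ⟨Int.floor_le _, Int.lt_floor_add_one _⟩
  have h2 := T1_real F hw ω
  have h3 : 2 ^ w * F.x ω i = 2 ^ w * F.x1 w ω i + (2 ^ w * F.t ω - F.T1 w ω) * F.d ω i := by
    unfold Fam.x Fam.x1
    field_simp
    ring
  have h4 : |(2 ^ w * F.t ω - F.T1 w ω) * F.d ω i| ≤ 1 := by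
    rw [abs_mul, abs_of_nonneg (by linarith [h2.1])]
    have := F.dir ω i
    have h0 := abs_nonneg (F.d ω i)
    nlinarith [h2.1, h2.2]
  rw [abs_le] at h4
  have h5 : (F.X w ω i : ℝ) - cl F w ω i < 2 := by linarith [a1.1, a2.2, h4.2]
  have h6 : (-2 : ℝ) < F.X w ω i - cl F w ω i := by linarith [a1.2, a2.1, h4.1]
  have h7 : F.X w ω i - cl F w ω i < 2 := by exact_mod_cast h5
  have h8 : -2 < F.X w ω i - cl F w ω i := by exact_mod_cast h6
  constructor <;> omega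

theorem vl_near (F : Fam m J) (ω : F.Ω) (i : Fin m) : -1 ≤ vl F ω i ∧ vl F ω i ≤ 1 := by
  have h1 := abs_le.1 (F.dir ω i)
  have e1 : vl F ω i = ⌊(2 : ℝ) ^ 0 * F.d ω i⌋ := rfl
  rw [e1, pow_zero, one_mul]
  constructor
  · rw [Int.le_floor]
    push_cast
    exact h1.1
  · have : ⌊F.d ω i⌋ ≤ ⌊(1 : ℝ)⌋ := Int.floor_le_floor h1.2
    rwa [Int.floor_one] at this

/-- The positions of the zoom, at points in the same box with the same time. -/
theorem zf_x_diff (F : Fam m J) {w J' : ℕ} (h : w + J' ≤ J) (g : F.Ω → κ) (e : Fin n → Fin m)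
    {ω ω' : F.Ω} (hT : F.T ω = F.T ω') (hl : lb F w g ω = lb F w g ω') (i : Fin n) :
    |((zf F w J' h g e).x ω i - (zf F w J' h g e).x ω' i) -
        2 ^ w * (F.x ω (e i) - F.x ω' (e i))| ≤ 6 / 2 ^ J' := by
  obtain ⟨b1, b2, b3, b4, b5⟩ := lb_iff.1 hl
  have c1 := zf_x F h g e ω i
  have c2 := zf_x F h g e ω' i
  have c3 : tb F w ω = tb F w ω' := by
    unfold tb Fam.t
    rw [hT, b1]
  rw [b3, b4, c3] at c1
  have e1 : (6 : ℝ) / 2 ^ J' = 3 / 2 ^ J' + 3 / 2 ^ J' := by ring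
  rw [e1]
  rw [abs_le] at c1 c2 ⊢
  constructor <;> linarith [c1.1, c1.2, c2.1, c2.2]

/-- **The points of the zoom** are functions of the points of the family, on a large part of the
event. -/
theorem pt_zoom (F : Fam m J) {w J' r : ℕ} (h : w + J' ≤ J) (hr : w + J' ≤ r) (g : F.Ω → κ)
    (e : Fin n → Fin m) (A : F.Ω → Prop)
    (hg : ∀ ω ω', A ω → A ω' → ptr F r ω = ptr F r ω' → g ω = g ω') :
    ∃ B : F.Ω → Prop, Sub B A ∧ Pe F.p A ≤ 5 ^ m * (5 ^ m * 17 ^ n) * Pe F.p B ∧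
      ∀ ω ω', B ω → B ω' → ptr F r ω = ptr F r ω' → lb F w g ω = lb F w g ω' ∧
        ∀ k ≤ J', ptr (zf F w J' h g e) k ω = ptr (zf F w J' h g e) k ω' := by
  have hw : w ≤ J := by omega
  have pJ : (0 : ℝ) < 2 ^ J' := by positivity
  obtain ⟨B₁, hB1, hP1, φ₁, hφ₁⟩ := Pool.S6K.exact_label F.isLaw 2 (ptr F r) (cl F w) A (by
    intro ω ω' _ _ hpt i
    obtain ⟨ψ, hψ⟩ := ptr_coarse F (by omega : w ≤ r)
    have h1 : F.X w ω i = F.X w ω' i := by
      have : ptr F w ω = ptr F w ω' := by rw [hψ ω, hψ ω', hpt]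
      exact congrFun (Prod.ext_iff.1 this).1 i
    have q1 := cl_near F hw ω i
    have q2 := cl_near F hw ω' i
    rw [h1] at q1
    rw [abs_le]
    push_cast
    constructor <;> omega)
  obtain ⟨B₂, hB2, hP2, φ₂, hφ₂⟩ := Pool.S6K.exact_label F.isLaw 2 (ptr F r) (vl F) B₁ (by
    intro ω ω' _ _ _ i
    have q1 := vl_near F ω i
    have q2 := vl_near F ω' i
    rw [abs_le]
    push_cast
    constructor <;> omega)
  have hlb : ∀ ω ω', B₂ ω → B₂ ω' → ptr F r ω = ptr F r ω' → F.T ω = F.T ω' ∧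
      lb F w g ω = lb F w g ω' := by
    intro ω ω' h1 h2 hpt
    have h3 := Prod.ext_iff.1 (Prod.ext_iff.1 hpt).2
    have hT : F.T ω = F.T ω' := h3.1
    have hZ : F.Z ω = F.Z ω' := h3.2
    refine ⟨hT, lb_iff.2 ⟨?_, hg ω ω' (hB1 ω (hB2 ω h1)) (hB1 ω' (hB2 ω' h2)) hpt, ?_, ?_, hZ⟩⟩
    · unfold Fam.T1
      rw [hT]
    · rw [hφ₁ ω (hB2 ω h1), hφ₁ ω' (hB2 ω' h2), hpt]
    · rw [hφ₂ ω h1, hφ₂ ω' h2, hpt]
  obtain ⟨B₃, hB3, hP3, φ₃, hφ₃⟩ := Pool.S6K.exact_label F.isLaw 8 (ptr F r)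
    ((zf F w J' h g e).X J') B₂ (by
    intro ω ω' h1 h2 hpt i
    obtain ⟨hT, hl⟩ := hlb ω ω' h1 h2 hpt
    have c1 := zf_x_diff F h g e hT hl i
    obtain ⟨ψ, hψ⟩ := ptr_coarse F hr
    have c2 : F.X (w + J') ω (e i) = F.X (w + J') ω' (e i) := by
      have : ptr F (w + J') ω = ptr F (w + J') ω' := by rw [hψ ω, hψ ω', hpt]
      exact congrFun (Prod.ext_iff.1 this).1 (e i)
    have c3 := Plk.abs_sub_lt_of_floor (c2 : ⌊(2 : ℝ) ^ (w + J') * F.x ω (e i)⌋ =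
      ⌊(2 : ℝ) ^ (w + J') * F.x ω' (e i)⌋)
    have c4 : |2 ^ w * (F.x ω (e i) - F.x ω' (e i))| ≤ 1 / 2 ^ J' := by
      rw [le_div_iff₀ pJ]
      have e1 : (2 : ℝ) ^ (w + J') * F.x ω (e i) - 2 ^ (w + J') * F.x ω' (e i) =
          2 ^ w * (F.x ω (e i) - F.x ω' (e i)) * 2 ^ J' := by
        rw [pow_add]
        ring
      rw [e1, abs_mul, abs_of_pos pJ] at c3
      exact c3
    have c5 : |(zf F w J' h g e).x ω i - (zf F w J' h g e).x ω' i| ≤ 7 / 2 ^ J' := by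
      have e1 : (7 : ℝ) / 2 ^ J' = 6 / 2 ^ J' + 1 / 2 ^ J' := by ring
      rw [e1]
      rw [abs_le] at c1 c4 ⊢
      constructor <;> linarith [c1.1, c1.2, c4.1, c4.2]
    have c6 : |2 ^ J' * (zf F w J' h g e).x ω i - 2 ^ J' * (zf F w J' h g e).x ω' i| ≤ 7 := by
      rw [← mul_sub, abs_mul, abs_of_pos pJ]
      rw [le_div_iff₀ pJ] at c5
      linarith
    have c7 : |(((zf F w J' h g e).X J' ω i - (zf F w J' h g e).X J' ω' i : ℤ) : ℝ)| ≤ 8 :=
      (ENP.floor_dist c6).trans (le_of_eq (by norm_num))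
    exact_mod_cast c7)
  refine ⟨B₃, (hB3.trans hB2).trans hB1, ?_, fun ω ω' h1 h2 hpt => ?_⟩
  · have e1 : (2 * ((2 : ℕ) : ℝ) + 1) = 5 := by norm_num
    have e2 : (2 * ((8 : ℕ) : ℝ) + 1) = 17 := by norm_num
    rw [e1] at hP1 hP2
    rw [e2] at hP3
    calc Pe F.p A ≤ 5 ^ m * Pe F.p B₁ := hP1
      _ ≤ 5 ^ m * (5 ^ m * Pe F.p B₂) := mul_le_mul_of_nonneg_left hP2 (by positivity)
      _ ≤ 5 ^ m * (5 ^ m * (17 ^ n * Pe F.p B₃)) :=
          mul_le_mul_of_nonneg_left (mul_le_mul_of_nonneg_left hP3 (by positivity)) (by positivity)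
      _ = _ := by ring
  · obtain ⟨hT, hl⟩ := hlb ω ω' (hB3 ω h1) (hB3 ω' h2) hpt
    refine ⟨hl, fun k hk => ?_⟩
    obtain ⟨ψ, hψ⟩ := ptr_coarse (zf F w J' h g e) hk
    have h3 : ptr (zf F w J' h g e) J' ω = ptr (zf F w J' h g e) J' ω' := by
      refine Prod.ext ?_ (Prod.ext ?_ hl)
      · have a1 : (zf F w J' h g e).X J' ω = (zf F w J' h g e).X J' ω' := by
          rw [hφ₃ ω h1, hφ₃ ω' h2, hpt]
        exact a1
      · change F.T ω % 2 ^ (J - w) / 2 ^ (J - w - J') = F.T ω' % 2 ^ (J - w) / 2 ^ (J - w - J')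
        rw [hT]
    exact (hψ ω).trans ((congrArg ψ h3).trans (hψ ω').symm)

end Pool.GEN
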