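import Pool.Agent.H71.GEN.Ex
import Pool.Agent.H18.DICI.Alg

/-!
# Exact closed labels of codimension one
-/

set_option autoImplicit false

namespace Pool.GEN

open Finset Real MvPolynomial
open Pool.Agent.H49.Ent Pool.Agent.H32.Dense Pool.STK Pool.KA Pool.KSAT Pool.K2S Pool.PB Pool.KS3
open Pool.KAL (shf coefSum eval_shf pderiv_shf totalDegree_shf_le)
open Pool.KST
open Pool.FLF (chI crI base_cell pas_cell bp_cell base_unit ppos trp)

variable {m J : ℕ}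

/-- **An exact closed label with a polynomial graph.** -/
theorem exact_poly (m K : ℕ) : ∃ (c : ℝ) (Cn : ℕ), 0 < c ∧ ∀ (J : ℕ) (F : Fam m J) (i₁ : Fin m)
    (r w P : ℕ) (A : F.Ω → Prop), w ≤ P → P ≤ J → w ≤ r → Lab F i₁ r K w w P A →
    ∃ B : F.Ω → Prop, Sub B A ∧ c * Pe F.p A ≤ Pe F.p B ∧
      ∃ (Z : Type) (zx : PtT F → Z) (zs : LnT F → Z) (H : Z → MvPolynomial (Fin m) ℝ),
        (∀ v, (H v).totalDegree ≤ K) ∧ ∀ ω, B ω → zx (ptr F r ω) = zs (slam F w ω) ∧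
          |F.x ω i₁ - eval (bp F i₁ ω) (H (zs (slam F w ω)))| ≤ Cn / 2 ^ P ∧
          ∀ b : Fin m → ℝ, (∀ j, |b j - bp F i₁ ω j| ≤ 2 / 2 ^ w) →
            ∀ j, |eval b (pderiv j (H (zs (slam F w ω))))| ≤ Cn := by
  classical
  obtain ⟨c, hc, hex⟩ := Pool.FLF.exact_label m K
  obtain ⟨C₁, hC₁, hbig⟩ := big_cube m K
  obtain ⟨C₀, hC₀⟩ : ∃ C₀ : ℝ, C₀ = 3 + 2 * m + 2 * m ^ 2 := ⟨_, rfl⟩
  have hC₀0 : 3 ≤ C₀ := by
    rw [hC₀]
    have : (0 : ℝ) ≤ m := Nat.cast_nonneg m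
    nlinarith
  obtain ⟨Cn, hC⟩ := exists_nat_ge (C₁ * C₀ + 1 + C₀ + m * (C₁ * C₀) * 1)
  refine ⟨c, Cn, hc, ?_⟩
  intro J F i₁ r w P A hwP hPJ hwr hlab
  obtain ⟨L, hL⟩ : ∃ L, w + L = P := ⟨P - w, by omega⟩
  have hwJ : w ≤ J := hwP.trans hPJ
  have p0 : (0 : ℝ) < 2 ^ w := by positivity
  have hP2 : (2 : ℝ) ^ P = 2 ^ w * 2 ^ L := by rw [← hL, pow_add]
  have hP0 : (0 : ℝ) < 2 ^ P := by positivity
  obtain ⟨B, hBA, hPB, Z, zx, zs, cz, cζ, cl, G, hB⟩ := hex J F i₁ r w L P A hL hPJ hwr hlab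
  -- the polynomial in the coordinates of the family
  obtain ⟨H₀, hH₀⟩ : ∃ H₀ : Z → MvPolynomial (Fin m) ℝ, H₀ = fun v =>
      C (((cz v).2 i₁ : ℝ) / 2 ^ w) + C (1 / 2 ^ w) *
        shf (G v) (2 ^ w) (fun j => -(2 ^ w * crI i₁ w (cz v) j)) := ⟨_, rfl⟩
  have hcr : ∀ ω, B ω → (H₀ (zx (ptr F r ω))).totalDegree ≤ K ∧
      (∀ b : Fin m → ℝ, eval b (H₀ (zx (ptr F r ω))) = (F.X w ω i₁ : ℝ) / 2 ^ w + 1 / 2 ^ w *
        eval (fun j => 2 ^ w * (b j - crI i₁ w (F.T1 w ω, F.X w ω) j)) (G (zx (ptr F r ω)))) ∧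
      (∀ (b : Fin m → ℝ) j, eval b (pderiv j (H₀ (zx (ptr F r ω)))) =
        eval (fun j => 2 ^ w * (b j - crI i₁ w (F.T1 w ω, F.X w ω) j))
          (pderiv j (G (zx (ptr F r ω))))) := by
    intro ω hω
    obtain ⟨h1, h2, -, -, h4, -⟩ := hB ω hω
    have hfun : ∀ b : Fin m → ℝ,
        (fun j => -(2 ^ w * crI i₁ w (cz (zx (ptr F r ω))) j) + 2 ^ w * b j) =
        fun j => 2 ^ w * (b j - crI i₁ w (F.T1 w ω, F.X w ω) j) := by
      intro b
      funext j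
      rw [h2]
      ring
    rw [hH₀]
    refine ⟨?_, fun b => ?_, fun b j => ?_⟩
    · refine (totalDegree_add _ _).trans (max_le ?_ ?_)
      · rw [totalDegree_C]
        exact Nat.zero_le _
      · refine (totalDegree_mul _ _).trans ?_
        rw [totalDegree_C, zero_add]
        exact (totalDegree_shf_le _ _ _).trans h4.deg
    · simp only [map_add, map_mul, eval_C, eval_shf, hfun]
      rw [h2]
    · simp only [map_add, map_mul, pderiv_C, zero_add, pderiv_C_mul, pderiv_shf, eval_C,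
        eval_shf, hfun]
      field_simp
  -- the degree for all values
  obtain ⟨H, hH⟩ : ∃ H : Z → MvPolynomial (Fin m) ℝ, H = fun v =>
      if (H₀ v).totalDegree ≤ K then H₀ v else 0 := ⟨_, rfl⟩
  have hHe : ∀ ω, B ω → H (zs (slam F w ω)) = H₀ (zx (ptr F r ω)) := by
    intro ω hω
    rw [← (hB ω hω).1, hH]
    simp only
    rw [if_pos (hcr ω hω).1]
  refine ⟨B, hBA, hPB, Z, zx, zs, H, fun v => ?_, fun ω hω => ?_⟩
  · rw [hH]
    simp only
    split_ifs with h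
    · exact h
    · rw [totalDegree_zero]
      exact Nat.zero_le _
  obtain ⟨h1, h2, -, -, h4, h5⟩ := hB ω hω
  obtain ⟨-, e1, e2⟩ := hcr ω hω
  rw [hHe ω hω]
  have hm0 : (0 : ℝ) ≤ m := Nat.cast_nonneg m
  -- the base point in the cell
  have hcell : ∀ b : Fin m → ℝ, (∀ j, |b j - bp F i₁ ω j| ≤ 2 / 2 ^ w) →
      ∀ j, |2 ^ w * (b j - crI i₁ w (F.T1 w ω, F.X w ω) j)| ≤ 4 := by
    intro b hb j
    have k1 := bp_cell F i₁ hwJ ω j
    have k2 := hb j
    rw [abs_le] at k2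
    have e3 : (2 : ℝ) ^ w * (2 / 2 ^ w) = 2 := by field_simp
    have e4 : (2 : ℝ) ^ w * (1 / 2 ^ w) = 1 := by field_simp
    have k3 : b j - crI i₁ w (F.T1 w ω, F.X w ω) j ≤ 2 / 2 ^ w + 1 / 2 ^ w := by
      linarith [k1.2, k2.2]
    have k4 : -(2 / 2 ^ w) ≤ b j - crI i₁ w (F.T1 w ω, F.X w ω) j := by
      linarith [k1.1, k2.1]
    have k5 := mul_le_mul_of_nonneg_left k3 p0.le
    have k6 := mul_le_mul_of_nonneg_left k4 p0.le
    rw [mul_add, e3, e4] at k5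
    rw [mul_neg, e3] at k6
    rw [abs_le]
    constructor <;> linarith
  refine ⟨h1, ?_, fun b hb j => ?_⟩
  · -- the rounded base point
    obtain ⟨bP, hbP⟩ : ∃ bP, bP = crI i₁ P (F.T1 P ω, F.X P ω) := ⟨_, rfl⟩
    have hrp : ∀ j, rp (2 ^ L) (ppos L (chI i₁)) (trp F P ω) (some j) =
        2 ^ w * (bP j - crI i₁ w (F.T1 w ω, F.X w ω) j) := by
      intro j
      have h6 := base_cell F i₁ hL hPJ ω j
      rw [hbP, ← h6]
      field_simp
      ring
    have hpas := pas_cell F i₁ hL ω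
    have h7 : |(F.X P ω i₁ : ℝ) / 2 ^ P - eval bP (H₀ (zx (ptr F r ω)))| ≤ C₀ / 2 ^ P := by
      rw [e1, ← hpas]
      have h8 : (F.X w ω i₁ : ℝ) / 2 ^ w + 1 / 2 ^ w *
          rp (2 ^ L) (ppos L (chI i₁)) (trp F P ω) none - ((F.X w ω i₁ : ℝ) / 2 ^ w + 1 / 2 ^ w *
          eval (fun j => 2 ^ w * (bP j - crI i₁ w (F.T1 w ω, F.X w ω) j))
            (G (zx (ptr F r ω)))) = 1 / 2 ^ w *
          (rp (2 ^ L) (ppos L (chI i₁)) (trp F P ω) none -
          eval (fun j => rp (2 ^ L) (ppos L (chI i₁)) (trp F P ω) (some j))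
            (G (zx (ptr F r ω)))) := by
        have : (fun j => 2 ^ w * (bP j - crI i₁ w (F.T1 w ω, F.X w ω) j)) =
            fun j => rp (2 ^ L) (ppos L (chI i₁)) (trp F P ω) (some j) := by
          funext j
          exact (hrp j).symm
        rw [this]
        ring
      rw [h8, abs_mul, abs_of_pos (by positivity : (0 : ℝ) < 1 / 2 ^ w), hC₀, hP2]
      have h9 := mul_le_mul_of_nonneg_left h5 (by positivity : (0 : ℝ) ≤ 1 / 2 ^ w)
      refine h9.trans (le_of_eq ?_)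
      field_simp
    have hxP : |F.x ω i₁ - (F.X P ω i₁ : ℝ) / 2 ^ P| ≤ 1 / 2 ^ P := by
      have a1 : (F.X P ω i₁ : ℝ) ≤ 2 ^ P * F.x ω i₁ ∧ 2 ^ P * F.x ω i₁ < F.X P ω i₁ + 1 := by
        unfold Fam.X fl rd
        exact ⟨Int.floor_le _, Int.lt_floor_add_one _⟩
      have a2 : F.x ω i₁ - (F.X P ω i₁ : ℝ) / 2 ^ P = (2 ^ P * F.x ω i₁ - F.X P ω i₁) / 2 ^ P := by
        field_simp
      rw [a2, abs_div, abs_of_pos hP0]
      refine div_le_div_of_nonneg_right ?_ hP0.le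
      rw [abs_le]
      constructor <;> linarith [a1.1, a1.2]
    have hmv : |eval (bp F i₁ ω) (H₀ (zx (ptr F r ω))) - eval bP (H₀ (zx (ptr F r ω)))| ≤
        m * (C₁ * C₀) * (1 / 2 ^ P) := by
      refine mean_value (H₀ (zx (ptr F r ω))) bP (1 / 2 ^ P) (C₁ * C₀) (by positivity) ?_ _ _ ?_ ?_
      · intro y' hy' i
        rw [e2]
        refine hbig (pderiv i (G (zx (ptr F r ω)))) C₀
          ((Pool.DICI.totalDegree_pd h4.deg i).trans (by omega))
          (fun y hy => by rw [hC₀]; exact h4.slope y hy i) _ (fun j => ?_)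
        have h6 := hy' j
        have h7 := hrp j
        have h8 := base_unit F i₁ L P ω j
        rw [h7] at h8
        have h9 : (2 : ℝ) ^ w * (1 / 2 ^ P) ≤ 1 := by
          rw [mul_one_div, div_le_one hP0]
          exact pow_le_pow_right₀ (by norm_num) hwP
        have h10 := mul_le_mul_of_nonneg_left h6.1 p0.le
        have h11 := mul_le_mul_of_nonneg_left h6.2 p0.le
        rw [mul_add] at h11
        rw [abs_le]
        constructor <;> nlinarith [h8.1, h8.2]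
      · intro j
        constructor
        · exact le_rfl
        · have : (0 : ℝ) ≤ 1 / 2 ^ P := by positivity
          linarith
      · intro j
        rw [hbP]
        exact bp_cell F i₁ hPJ ω j
    have e5 : F.x ω i₁ - eval (bp F i₁ ω) (H₀ (zx (ptr F r ω))) =
        (F.x ω i₁ - (F.X P ω i₁ : ℝ) / 2 ^ P) +
        ((F.X P ω i₁ : ℝ) / 2 ^ P - eval bP (H₀ (zx (ptr F r ω)))) -
        (eval (bp F i₁ ω) (H₀ (zx (ptr F r ω))) - eval bP (H₀ (zx (ptr F r ω)))) := by ring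
    rw [e5]
    have e6 : |(F.x ω i₁ - (F.X P ω i₁ : ℝ) / 2 ^ P) +
        ((F.X P ω i₁ : ℝ) / 2 ^ P - eval bP (H₀ (zx (ptr F r ω)))) -
        (eval (bp F i₁ ω) (H₀ (zx (ptr F r ω))) - eval bP (H₀ (zx (ptr F r ω))))| ≤
        1 / 2 ^ P + C₀ / 2 ^ P + m * (C₁ * C₀) * (1 / 2 ^ P) := by
      rw [abs_le] at hxP h7 hmv ⊢
      constructor <;> linarith [hxP.1, hxP.2, h7.1, h7.2, hmv.1, hmv.2]
    refine e6.trans ?_
    have e7 : (1 : ℝ) / 2 ^ P + C₀ / 2 ^ P + m * (C₁ * C₀) * (1 / 2 ^ P) =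
        (1 + C₀ + m * (C₁ * C₀) * 1) / 2 ^ P := by ring
    rw [e7]
    refine div_le_div_of_nonneg_right ?_ hP0.le
    have : 0 ≤ C₁ * C₀ := mul_nonneg (by linarith) (by linarith)
    linarith
  · rw [e2]
    have h6 := hbig (pderiv j (G (zx (ptr F r ω)))) C₀ ?_ (fun y hy => ?_) _ (hcell b hb)
    · refine h6.trans ?_
      have : 0 ≤ (m : ℝ) * (C₁ * C₀) * 1 := by positivity
      linarith
    · exact (Pool.DICI.totalDegree_pd h4.deg j).trans (by omega)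
    · rw [hC₀]
      exact h4.slope y hy j

end Pool.GEN
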