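import Pool.Agent.H71.GEN.Poly
import Pool.Agent.H71.GEN.ExP

/-!
# Composition: a label of the zoom of codimension one gives a label with one free coordinate less
-/

set_option autoImplicit false

namespace Pool.GEN

open Finset Real MvPolynomial
open Pool.Agent.H49.Ent Pool.Agent.H32.Dense Pool.STK Pool.KA Pool.KSAT Pool.K2S Pool.PB Pool.S6C
open Pool.FLF (Fam.sub)

variable {m n J : ℕ} {κ : Type}

/-- A function which is a function of `f` on the event. -/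
theorem fac {Ω U V : Type} {f : Ω → U} {Y : Ω → V} {B : Ω → Prop}
    (h : ∀ ω ω', B ω → B ω' → f ω = f ω' → Y ω = Y ω') :
    ∃ y : U → Option V, ∀ ω, B ω → y (f ω) = some (Y ω) := by
  classical
  refine ⟨fun u => if hu : ∃ ω, B ω ∧ f ω = u then some (Y hu.choose) else none, fun ω hω => ?_⟩
  have hu : ∃ ω', B ω' ∧ f ω' = f ω := ⟨ω, hω, rfl⟩
  simp only [dif_pos hu]
  exact congrArg some (h _ _ hu.choose_spec.1 hω hu.choose_spec.2)

/-- The constants of the composition. -/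
theorem comp_pos {F : Fam m J} {w J' w₁ P₁ c₀ : ℕ} {Cn : ℝ} (hCn : 0 ≤ Cn)
    (hc₀ : 8 * ((n * Cn + 1) * (m + 1)) + 4 * (3 + Cn + 3 * n * Cn) + 8 ≤ 2 ^ c₀)
    (hP : P₁ ≤ J') (hcP : c₀ ≤ P₁) (hwc : w₁ + c₀ ≤ J') {ω : F.Ω}
    {e : Fin n → Fin m} {i₁ : Fin n} {H : MvPolynomial (Fin n) ℝ} {zx : Fin n → ℝ} {zt : ℝ}
    (hx : ∀ i, |zx i - (2 ^ w * F.x ω (e i) - cl F w ω (e i) - tb F w ω * vl F ω (e i))| ≤
      3 / 2 ^ J')
    (ht : |zt - tb F w ω| ≤ 1 / 2 ^ J')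
    (hH : |zx i₁ - eval (Function.update zx i₁ zt) H| ≤ Cn / 2 ^ P₁)
    (hHl : ∀ b : Fin n → ℝ, (∀ j, |b j - Function.update zx i₁ zt j| ≤ 2 / 2 ^ w₁) →
      ∀ j, |eval b (pderiv j H)| ≤ Cn) :
    (∀ b : Option (Fin m) → ℝ, (∀ o, |b o - bt F ω o| ≤ 1 / 2 ^ (w + w₁ + c₀)) →
      (∀ k, |eval (fun k => eval b (ssb w (F.T1 w ω) (fun i => cl F w ω i) (fun i => vl F ω i)
        e i₁ k)) (pderiv k H)| ≤ Cn) ∧
      |eval b (qsb w (F.T1 w ω) (fun i => cl F w ω i) (fun i => vl F ω i) e i₁ H) -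
        F.x ω (e i₁)| ≤ 1 / 2 ^ w) ∧
    |F.x ω (e i₁) - eval (bt F ω) (qsb w (F.T1 w ω) (fun i => cl F w ω i) (fun i => vl F ω i)
      e i₁ H)| ≤ (3 + Cn + 3 * n * Cn) / 2 ^ (w + P₁) := by
  classical
  have pw : (0 : ℝ) < 2 ^ w := by positivity
  have pw1 : (0 : ℝ) < 2 ^ w₁ := by positivity
  have pc : (0 : ℝ) < 2 ^ c₀ := by positivity
  have pP : (0 : ℝ) < 2 ^ P₁ := by positivity
  have pJ : (0 : ℝ) < 2 ^ J' := by positivity
  have hn : (0 : ℝ) ≤ n := Nat.cast_nonneg n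
  have hm : (0 : ℝ) ≤ m := Nat.cast_nonneg m
  obtain ⟨S, hS⟩ : ∃ S, S = ssb w (F.T1 w ω : ℝ) (fun i => (cl F w ω i : ℝ))
    (fun i => (vl F ω i : ℝ)) e i₁ := ⟨_, rfl⟩
  obtain ⟨Q, hQ⟩ : ∃ Q, Q = qsb w (F.T1 w ω : ℝ) (fun i => (cl F w ω i : ℝ))
    (fun i => (vl F ω i : ℝ)) e i₁ H := ⟨_, rfl⟩
  rw [← hS, ← hQ]
  have hv : ∀ i, |(fun i => (vl F ω i : ℝ)) i| ≤ 1 := by
    intro i
    have h1 := vl_near F ω i
    have h2 : (-1 : ℝ) ≤ vl F ω i := by exact_mod_cast h1.1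
    have h3 : (vl F ω i : ℝ) ≤ 1 := by exact_mod_cast h1.2
    exact abs_le.2 ⟨h2, h3⟩
  have h8 : (8 : ℝ) ≤ 2 ^ c₀ := by
    have a1 : 0 ≤ 8 * ((n * Cn + 1) * (m + 1)) := by positivity
    have a2 : 0 ≤ 4 * (3 + Cn + 3 * n * Cn) := by positivity
    linarith
  -- the base point of the zoom
  obtain ⟨z₀, hz₀⟩ : ∃ z₀, z₀ = Function.update zx i₁ zt := ⟨_, rfl⟩
  rw [← hz₀] at hH hHl
  have hSbt : ∀ k, |eval (bt F ω) (S k) - z₀ k| ≤ 3 / 2 ^ J' := by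
    intro k
    rw [hS, hz₀, eval_ssb]
    by_cases hk : k = i₁
    · subst hk
      rw [if_pos rfl, Function.update_self]
      have e1 : 2 ^ w * bt F ω none - (F.T1 w ω : ℝ) = tb F w ω := rfl
      rw [e1, abs_sub_comm]
      refine ht.trans (div_le_div_of_nonneg_right (by norm_num) pJ.le)
    · rw [if_neg hk, Function.update_of_ne hk]
      have h1 := hx k
      rw [abs_sub_comm] at h1
      refine le_trans (le_of_eq ?_) h1
      congr 1
      have e1 : 2 ^ w * bt F ω none - (F.T1 w ω : ℝ) = tb F w ω := rfl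
      have e2 : bt F ω (some (e k)) = F.x ω (e k) := rfl
      rw [e1, e2]
      ring
  have hSb : ∀ b : Option (Fin m) → ℝ, ∀ δ : ℝ, (∀ o, |b o - bt F ω o| ≤ δ) → ∀ k,
      |eval b (S k) - eval (bt F ω) (S k)| ≤ 2 * (2 ^ w * δ) := by
    intro b δ hb k
    have hδ : 0 ≤ δ := (abs_nonneg _).trans (hb none)
    rw [hS, eval_ssb, eval_ssb]
    by_cases hk : k = i₁
    · rw [if_pos hk, if_pos hk]
      have e1 : 2 ^ w * b none - (F.T1 w ω : ℝ) - (2 ^ w * bt F ω none - F.T1 w ω) =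
          2 ^ w * (b none - bt F ω none) := by ring
      rw [e1, abs_mul, abs_of_pos pw]
      have := mul_le_mul_of_nonneg_left (hb none) pw.le
      have h0 : 0 ≤ 2 ^ w * δ := by positivity
      linarith
    · rw [if_neg hk, if_neg hk]
      have e1 : 2 ^ w * b (some (e k)) - (cl F w ω (e k) : ℝ) -
          vl F ω (e k) * (2 ^ w * b none - F.T1 w ω) -
          (2 ^ w * bt F ω (some (e k)) - cl F w ω (e k) -
          vl F ω (e k) * (2 ^ w * bt F ω none - F.T1 w ω)) =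
          2 ^ w * (b (some (e k)) - bt F ω (some (e k))) -
          vl F ω (e k) * (2 ^ w * (b none - bt F ω none)) := by ring
      rw [e1]
      have h1 := mul_le_mul_of_nonneg_left (hb none) pw.le
      have h2 := mul_le_mul_of_nonneg_left (hb (some (e k))) pw.le
      have h3 : |2 ^ w * (b (some (e k)) - bt F ω (some (e k)))| ≤ 2 ^ w * δ := by
        rw [abs_mul, abs_of_pos pw]
        exact h2
      have h4 : |(vl F ω (e k) : ℝ) * (2 ^ w * (b none - bt F ω none))| ≤ 2 ^ w * δ := by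
        rw [abs_mul, abs_mul, abs_of_pos pw]
        calc _ ≤ 1 * (2 ^ w * δ) := mul_le_mul (hv (e k)) h1 (by positivity) zero_le_one
          _ = _ := one_mul _
      have h5 := abs_sub (2 ^ w * (b (some (e k)) - bt F ω (some (e k))))
        ((vl F ω (e k) : ℝ) * (2 ^ w * (b none - bt F ω none)))
      linarith
  have hwJ' : (3 : ℝ) / 2 ^ J' ≤ 1 / 2 ^ w₁ := by
    rw [div_le_div_iff₀ pJ pw1, one_mul]
    calc (3 : ℝ) * 2 ^ w₁ ≤ 2 ^ c₀ * 2 ^ w₁ := mul_le_mul_of_nonneg_right (by linarith) pw1.le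
      _ = 2 ^ (w₁ + c₀) := by rw [pow_add]; ring
      _ ≤ 2 ^ J' := pow_le_pow_right₀ one_le_two hwc
  have hrad : ∀ b : Option (Fin m) → ℝ, (∀ o, |b o - bt F ω o| ≤ 1 / 2 ^ (w + w₁ + c₀)) →
      ∀ k, |eval b (S k) - z₀ k| ≤ 2 / 2 ^ w₁ := by
    intro b hb k
    have h1 := hSb b _ hb k
    have h2 := hSbt k
    have h3 : 2 * (2 ^ w * (1 / 2 ^ (w + w₁ + c₀))) ≤ (1 : ℝ) / 2 ^ w₁ := by
      have e1 : 2 * (2 ^ w * (1 / 2 ^ (w + w₁ + c₀))) = (2 : ℝ) / 2 ^ c₀ / 2 ^ w₁ := by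
        rw [pow_add, pow_add]
        field_simp
      rw [e1]
      refine div_le_div_of_nonneg_right ?_ pw1.le
      rw [div_le_one pc]
      linarith
    have e2 : (2 : ℝ) / 2 ^ w₁ = 1 / 2 ^ w₁ + 1 / 2 ^ w₁ := by ring
    rw [e2]
    have e3 : eval b (S k) - z₀ k = (eval b (S k) - eval (bt F ω) (S k)) +
        (eval (bt F ω) (S k) - z₀ k) := by ring
    rw [e3]
    exact (abs_add_le _ _).trans (add_le_add (h1.trans h3) (h2.trans hwJ'))
  -- the position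
  have hpos : |F.x ω (e i₁) - eval (bt F ω) Q| ≤ (3 + Cn + 3 * n * Cn) / 2 ^ (w + P₁) := by
    have h1 : |eval (fun k => eval (bt F ω) (S k)) H - eval z₀ H| ≤ Cn * (n * (3 / 2 ^ J')) := by
      have h2 := mvσ H z₀ (fun k => eval (bt F ω) (S k)) Cn (fun y hy k => by
        refine hHl y (fun j => ?_) k
        refine (hy j).trans ((hSbt j).trans (hwJ'.trans ?_))
        exact div_le_div_of_nonneg_right (by norm_num) pw1.le)
      refine h2.trans (mul_le_mul_of_nonneg_left ?_ hCn)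
      calc ∑ k, |eval (bt F ω) (S k) - z₀ k| ≤ ∑ _k : Fin n, 3 / 2 ^ J' :=
            Finset.sum_le_sum fun k _ => hSbt k
        _ = n * (3 / 2 ^ J') := by
            rw [Finset.sum_const, Finset.card_univ, Fintype.card_fin, nsmul_eq_mul]
    have h3 := hx i₁
    have e1 : F.x ω (e i₁) - eval (bt F ω) Q = 1 / 2 ^ w *
        ((2 ^ w * F.x ω (e i₁) - cl F w ω (e i₁) - tb F w ω * vl F ω (e i₁)) -
          eval (fun k => eval (bt F ω) (S k)) H) := by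
      rw [hQ, eval_qsb, ← hS]
      have e2 : 2 ^ w * bt F ω none - (F.T1 w ω : ℝ) = tb F w ω := rfl
      rw [e2]
      field_simp
      ring
    rw [e1, abs_mul, abs_of_pos (by positivity : (0 : ℝ) < 1 / 2 ^ w)]
    have h4 : |(2 ^ w * F.x ω (e i₁) - cl F w ω (e i₁) - tb F w ω * vl F ω (e i₁)) -
          eval (fun k => eval (bt F ω) (S k)) H| ≤ 3 / 2 ^ J' + Cn / 2 ^ P₁ +
          Cn * (n * (3 / 2 ^ J')) := by
      rw [abs_le] at h1 h3 hH ⊢
      constructor <;> linarith [h1.1, h1.2, h3.1, h3.2, hH.1, hH.2]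
    have h5 : (1 : ℝ) / 2 ^ J' ≤ 1 / 2 ^ P₁ := inv_mono hP
    have h6 : 3 / 2 ^ J' + Cn / 2 ^ P₁ + Cn * (n * (3 / 2 ^ J')) ≤
        (3 + Cn + 3 * n * Cn) * (1 / 2 ^ P₁) := by
      have e2 : 3 / 2 ^ J' + Cn / 2 ^ P₁ + Cn * (n * (3 / 2 ^ J')) =
          (3 + 3 * n * Cn) * (1 / 2 ^ J') + Cn * (1 / 2 ^ P₁) := by ring
      rw [e2]
      have := mul_le_mul_of_nonneg_left h5 (by positivity : 0 ≤ 3 + 3 * n * Cn)
      linarith
    calc 1 / 2 ^ w * _ ≤ 1 / 2 ^ w * ((3 + Cn + 3 * n * Cn) * (1 / 2 ^ P₁)) :=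
          mul_le_mul_of_nonneg_left (h4.trans h6) (by positivity)
      _ = _ := by rw [pow_add]; field_simp
  refine ⟨fun b hb => ?_, hpos⟩
  have hHb : ∀ b' : Option (Fin m) → ℝ, (∀ o, |b' o - bt F ω o| ≤ 1 / 2 ^ (w + w₁ + c₀)) →
      ∀ k, |eval (fun k => eval b' (S k)) (pderiv k H)| ≤ Cn := fun b' hb' k =>
    hHl _ (hrad b' hb') k
  refine ⟨hHb b hb, ?_⟩
  have h1 := mvσ Q (bt F ω) b (n * Cn + 1) (fun y hy o => by
    rw [hQ]
    refine pd_qsb hv y (fun k => ?_) o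
    rw [← hS]
    exact hHb y (fun o => (hy o).trans (hb o)) k)
  have h2 : ∑ o, |b o - bt F ω o| ≤ (m + 1) * (1 / 2 ^ (w + w₁ + c₀)) := by
    refine (Finset.sum_le_sum fun o _ => hb o).trans (le_of_eq ?_)
    rw [Finset.sum_const, Finset.card_univ, Fintype.card_option, Fintype.card_fin, nsmul_eq_mul]
    push_cast
    ring
  have h3 : |eval b Q - eval (bt F ω) Q| ≤ 1 / 2 * (1 / 2 ^ w) := by
    refine (h1.trans (mul_le_mul_of_nonneg_left h2 (by positivity))).trans ?_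
    have e1 : (n * Cn + 1) * ((m + 1) * (1 / 2 ^ (w + w₁ + c₀))) =
        ((n * Cn + 1) * (m + 1)) / 2 ^ c₀ / 2 ^ w₁ * (1 / 2 ^ w) := by
      rw [pow_add, pow_add]
      field_simp
    rw [e1]
    refine mul_le_mul_of_nonneg_right ?_ (by positivity)
    have h4 : ((n * Cn + 1) * (m + 1)) / 2 ^ c₀ ≤ 1 / 2 := by
      rw [div_le_iff₀ pc]
      have a2 : 0 ≤ 4 * (3 + Cn + 3 * n * Cn) := by positivity
      linarith
    calc ((n * Cn + 1) * (m + 1)) / 2 ^ c₀ / 2 ^ w₁ ≤ 1 / 2 / 2 ^ w₁ :=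
          div_le_div_of_nonneg_right h4 pw1.le
      _ ≤ 1 / 2 / 1 := by
          refine div_le_div_of_nonneg_left (by norm_num) one_pos ?_
          exact one_le_pow₀ one_le_two
      _ = 1 / 2 := by norm_num
  have h5 : (3 + Cn + 3 * n * Cn) / 2 ^ (w + P₁) ≤ 1 / 2 * (1 / 2 ^ w) := by
    have e1 : (3 + Cn + 3 * n * Cn) / 2 ^ (w + P₁) = (3 + Cn + 3 * n * Cn) / 2 ^ P₁ *
        (1 / 2 ^ w) := by
      rw [pow_add]
      field_simp
    rw [e1]
    refine mul_le_mul_of_nonneg_right ?_ (by positivity)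
    rw [div_le_iff₀ pP]
    have h6 : (2 : ℝ) ^ c₀ ≤ 2 ^ P₁ := pow_le_pow_right₀ one_le_two hcP
    have a1 : 0 ≤ 8 * ((n * Cn + 1) * (m + 1)) := by positivity
    have a2 : 0 ≤ 4 * (3 + Cn + 3 * n * Cn) := by positivity
    linarith
  have h6 : |eval (bt F ω) Q - F.x ω (e i₁)| ≤ 1 / 2 * (1 / 2 ^ w) := by
    rw [abs_sub_comm]
    exact hpos.trans h5
  have e1 : eval b Q - F.x ω (e i₁) = (eval b Q - eval (bt F ω) Q) +
      (eval (bt F ω) Q - F.x ω (e i₁)) := by ring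
  rw [e1]
  have h7 := (abs_add_le (eval b Q - eval (bt F ω) Q) (eval (bt F ω) Q - F.x ω (e i₁))).trans
    (add_le_add h3 h6)
  linarith

/-- **Composition of labels.** -/
theorem comp (m n K K₁ : ℕ) : ∃ (c C : ℝ) (K₂ c₀ : ℕ), 0 < c ∧ 1 ≤ C ∧ ∀ (J : ℕ) (F : Fam m J)
    (I : Finset (Fin m)) (w J' s : ℕ) (A : F.Ω → Prop) (V : Type) (z : PtT F → V)
    (z' : LnT F → V) (G : V → Fin m → MvPolynomial (Option (Fin m)) ℝ),
    LabOK F I K J w s A z z' G → ∀ (e : Fin n → Fin m) (h : w + J' ≤ J),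
    (∀ i, e i ∈ I) → Function.Injective e → w + J' ≤ s →
    ∀ (i₁ : Fin n) (w₁ P₁ : ℕ) (B : F.Ω → Prop), Sub B A → w₁ ≤ P₁ → P₁ ≤ J' → c₀ ≤ P₁ →
    w₁ + c₀ ≤ J' → Lab (zf F w J' h (fun ω => z' (slam F w ω)) e) i₁ J' K₁ w₁ w₁ P₁ B →
    ∀ (θ : ℝ) (l : ℕ), 0 < Pe F.p B → 0 ≤ θ → C * (θ + 1) ≤ l →
    (l : ℝ) ≤ ((J : ℝ) - (w + w₁ + c₀ : ℕ)) * Real.log 2 → l ≤ w + P₁ →
    (∀ (B' : F.Ω → Prop) (hB' : 0 < Pe F.p B'), Sub B' B → c * Pe F.p B ≤ Pe F.p B' →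
      (Fam.sub F B' hB').Tm θ) →
    ∃ B' : F.Ω → Prop, Sub B' B ∧ c * Pe F.p B ≤ Pe F.p B' ∧
      GLab F (I.erase (e i₁)) K₂ J (w + w₁ + c₀) (w + P₁ - l) B' := by
  classical
  obtain ⟨c₁, Cn, hc₁, hex⟩ := exact_poly n K₁
  have hCn : (0 : ℝ) ≤ Cn := Nat.cast_nonneg Cn
  obtain ⟨K₂, hK₂⟩ := exists_nat_ge (((K₁ : ℝ) + 1) * (K + 1) + (m + 2) * (K + 1) * (n * Cn + 1))
  have hK0 : (0 : ℝ) ≤ K := Nat.cast_nonneg K
  have hm0 : (0 : ℝ) ≤ m := Nat.cast_nonneg m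
  have hn0 : (0 : ℝ) ≤ n := Nat.cast_nonneg n
  have hKa : (K₁ + 1) * (K + 1) ≤ K₂ := by
    have a1 : (0 : ℝ) ≤ (m + 2) * (K + 1) * (n * Cn + 1) := by positivity
    have a2 : (((K₁ + 1) * (K + 1) : ℕ) : ℝ) ≤ K₂ := by
      push_cast
      linarith
    exact_mod_cast a2
  have hKb : (m + 2) * (K + 1) * (n * Cn + 1) ≤ (K₂ : ℝ) := by
    have a1 : (0 : ℝ) ≤ ((K₁ : ℝ) + 1) * (K + 1) := by positivity
    linarith
  obtain ⟨C₂, hC₂, hvel⟩ := vel_of_pos m K₂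
  obtain ⟨D₀, hD₀⟩ : ∃ D₀ : ℝ, D₀ = (K + 1) * (3 + Cn + 3 * n * Cn) + 1 := ⟨_, rfl⟩
  have hD1 : 1 ≤ D₀ := by
    rw [hD₀]
    have : (0 : ℝ) ≤ (K + 1) * (3 + Cn + 3 * n * Cn) := by positivity
    linarith
  obtain ⟨c₀, hc₀⟩ := pow_unbounded_of_one_lt
    (8 * (((n : ℝ) * Cn + 1) * (m + 1)) + 4 * (3 + Cn + 3 * n * Cn) + 8) (one_lt_two : (1 : ℝ) < 2)
  obtain ⟨D, hD⟩ : ∃ D : ℝ, D = 5 ^ m * (5 ^ m * 17 ^ n) := ⟨_, rfl⟩
  have hDpos : 0 < D := by rw [hD]; positivity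
  have hl2 : 0 < Real.log 2 := Real.log_pos (by norm_num)
  have hl1 : Real.log 2 ≤ 1 := by
    have := Real.log_two_lt_d9
    linarith
  have hlD : 0 ≤ Real.log D₀ := Real.log_nonneg hD1
  obtain ⟨C, hC⟩ : ∃ C : ℝ, C = (C₂ + Real.log D₀) / Real.log 2 := ⟨_, rfl⟩
  have hC2 : C₂ ≤ C := by
    rw [hC, le_div_iff₀ hl2]
    nlinarith
  refine ⟨c₁ / D / 2, C, K₂, c₀, by positivity, hC₂.trans hC2, ?_⟩
  intro J F I w J' s A V z z' G hlab e h he hinj hs i₁ w₁ P₁ B hBA hwP hPJ hcP hwc hL θ l hB0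
    hθ hCl hlJ hlP hTm
  have hwJ : w ≤ J := by omega
  obtain ⟨g, hg⟩ : ∃ g : F.Ω → V, g = fun ω => z' (slam F w ω) := ⟨_, rfl⟩
  rw [← hg] at hL
  obtain ⟨B₁, hB1, hP1, Z, zx, zs, H, hHd, hH⟩ := hex J' (zf F w J' h g e) i₁ J' w₁ P₁ B hwP hPJ
    (by omega) hL
  have hcls : ∀ ω ω', A ω → A ω' → ptr F J ω = ptr F J ω' → g ω = g ω' := by
    intro ω ω' h1 h2 hpt
    rw [hg]
    simp only
    rw [← hlab.cls ω h1, ← hlab.cls ω' h2, hpt]
  obtain ⟨B₂, hB2, hP2, hdet⟩ := pt_zoom F h h g e B₁ (fun ω ω' h1 h2 hpt =>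
    hcls ω ω' (hBA ω (hB1 ω h1)) (hBA ω' (hB1 ω' h2)) hpt)
  rw [← hD] at hP2
  have hP1' : c₁ * Pe F.p B ≤ Pe F.p B₁ := hP1
  have hPB2 : c₁ / D * Pe F.p B ≤ Pe F.p B₂ := by
    rw [div_mul_eq_mul_div, div_le_iff₀ hDpos, mul_comm (Pe F.p B₂) D]
    exact hP1'.trans hP2
  have hB2pos : 0 < Pe F.p B₂ := lt_of_lt_of_le (by positivity) hPB2
  have hB2B : Sub B₂ B := hB2.trans hB1
  -- the value of the new label
  obtain ⟨w₂, hw₂⟩ : ∃ w₂, w₂ = w + w₁ + c₀ := ⟨_, rfl⟩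
  have hw2J : w₂ ≤ J := by omega
  obtain ⟨Y, hY⟩ : ∃ Y : F.Ω → V × (Z × (((ℕ × V) × ((Fin m → ℤ) × (Fin m → ℤ))) × F.ζ)),
      Y = fun ω => (g ω, (zs (slam (zf F w J' h g e) w₁ ω), lb F w g ω)) := ⟨_, rfl⟩
  obtain ⟨y, hy⟩ := fac (f := ptr F J) (Y := Y) (B := B₂) (by
    intro ω ω' h1 h2 hpt
    obtain ⟨a1, a2⟩ := hdet ω ω' h1 h2 hpt
    have a3 := (hH ω (hB2 ω h1)).1
    have a4 := (hH ω' (hB2 ω' h2)).1
    have a5 : zs (slam (zf F w J' h g e) w₁ ω) = zs (slam (zf F w J' h g e) w₁ ω') :=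
      a3.symm.trans ((congrArg zx (a2 J' le_rfl)).trans a4)
    rw [hY]
    exact Prod.ext (hcls ω ω' (hBA ω (hB2B ω h1)) (hBA ω' (hB2B ω' h2)) hpt) (Prod.ext a5 a1))
  obtain ⟨y', hy'⟩ := fac (f := slam F w₂) (Y := Y) (B := B₂) (by
    intro ω ω' h1 h2 hsl
    obtain ⟨a1, a2⟩ := Prod.ext_iff.1 hsl
    obtain ⟨a3, a4⟩ := Prod.ext_iff.1 a2
    have b1 : F.l ω = F.l ω' := a1
    have b2 : F.Z ω = F.Z ω' := a3
    have b3 : F.T1 w₂ ω = F.T1 w₂ ω' := a4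
    have b4 : F.T1 (w + w₁) ω = F.T1 (w + w₁) ω' := by
      have e1 : w₂ = w + w₁ + c₀ := hw₂
      have c1 := T1_div F (w := w + w₁) (K := c₀) (by omega) ω
      have c2 := T1_div F (w := w + w₁) (K := c₀) (by omega) ω'
      rw [← e1] at c1 c2
      rw [c1, c2, b3]
    have b5 : F.T1 w ω = F.T1 w ω' := by
      rw [T1_div F (w := w) (K := w₁) (by omega) ω, T1_div F (w := w) (K := w₁) (by omega) ω', b4]
    have b6 : slam F w ω = slam F w ω' := Prod.ext b1 (Prod.ext b2 b5)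
    have b7 : g ω = g ω' := by
      rw [hg]
      simp only [b6]
    obtain ⟨d1, d2, -⟩ := zf_det F h g e (v := w₁) (by omega) b1 b4 b7 b2
    rw [hY]
    exact Prod.ext b7 (Prod.ext (congrArg zs d1) d2))
  -- the new polynomials
  obtain ⟨G', hG'⟩ : ∃ G' : Option (V × (Z × (((ℕ × V) × ((Fin m → ℤ) × (Fin m → ℤ))) ×
      F.ζ))) → Fin m → MvPolynomial (Option (Fin m)) ℝ, G' = fun o j => match o with
      | none => if j ∈ I.erase (e i₁) then X (some j) else 0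
      | some v => gsb w (v.2.2.1.1.1 : ℝ) (fun i => (v.2.2.1.2.1 i : ℝ))
          (fun i => (v.2.2.1.2.2 i : ℝ)) e i₁ (H v.2.1) I (G v.1) j := ⟨_, rfl⟩
  have hG'Y : ∀ ω j, G' (some (Y ω)) j = gsb w (F.T1 w ω : ℝ) (fun i => (cl F w ω i : ℝ))
      (fun i => (vl F ω i : ℝ)) e i₁ (H (zs (slam (zf F w J' h g e) w₁ ω))) I
      (G (z' (slam F w ω))) j := by
    intro ω j
    rw [hG', hY, hg]
    rfl
  have hdeg : ∀ v j, (G' v j).totalDegree ≤ K₂ := by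
    intro v j
    have h1 : 1 ≤ (K₁ + 1) * (K + 1) := Nat.succ_le_of_lt (by positivity)
    rw [hG']
    rcases v with _ | v
    · simp only
      split_ifs
      · rw [totalDegree_X]
        omega
      · rw [totalDegree_zero]
        exact Nat.zero_le _
    · exact (deg_gsb (hHd _) I (fun j => hlab.deg _ j) j).trans hKa
  -- the analysis on the event
  have hcomp := fun ω (hω : B₂ ω) => comp_pos (F := F) (n := n) (w := w) (J' := J') (w₁ := w₁)
    (P₁ := P₁) (c₀ := c₀) (Cn := (Cn : ℝ)) (e := e) (i₁ := i₁)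
    (H := H (zs (slam (zf F w J' h g e) w₁ ω))) (zx := (zf F w J' h g e).x ω)
    (zt := (zf F w J' h g e).t ω) (ω := ω) hCn hc₀.le hPJ hcP hwc
    (fun i => zf_x F h g e ω i) (by
      have h1 := zf_t F h g e ω
      rw [abs_le]
      have : (0 : ℝ) ≤ 1 / 2 ^ J' := by positivity
      constructor <;> linarith [h1.1, h1.2]) (hH ω (hB2 ω hω)).2.1 (hH ω (hB2 ω hω)).2.2
  have hbt : ∀ ω : F.Ω, ∀ o, |bt F ω o - bt F ω o| ≤ 1 / 2 ^ (w + w₁ + c₀) := by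
    intro ω o
    rw [sub_self, abs_zero]
    positivity
  have hwle : (1 : ℝ) / 2 ^ (w + w₁ + c₀) ≤ 1 / 2 ^ w := inv_mono (by omega)
  obtain ⟨E, hE⟩ : ∃ E : ℝ, E = 3 + Cn + 3 * n * Cn := ⟨_, rfl⟩
  have hE0 : 0 ≤ E := by rw [hE]; positivity
  have hpos : ∀ ω, B₂ ω → ∀ j, |F.x ω j - eval (bt F ω) (G' (some (Y ω)) j)| ≤
      D₀ / 2 ^ (w + P₁) := by
    intro ω hω j
    obtain ⟨k1, k2⟩ := hcomp ω hω
    rw [← hE] at k2
    have k3 := (k1 (bt F ω) (hbt ω)).2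
    have hD₀' : D₀ / 2 ^ (w + P₁) = K * (E / 2 ^ (w + P₁)) + E / 2 ^ (w + P₁) +
        1 / 2 ^ (w + P₁) := by
      rw [hD₀, ← hE]
      ring
    have q1 : (0 : ℝ) ≤ E / 2 ^ (w + P₁) := by positivity
    have q2 : (0 : ℝ) ≤ 1 / 2 ^ (w + P₁) := by positivity
    have q3 : 0 ≤ K * (E / 2 ^ (w + P₁)) := mul_nonneg hK0 q1
    rw [hG'Y, hD₀']
    unfold gsb
    split_ifs with hj1 hj2
    · rw [eval_X]
      change |F.x ω j - F.x ω j| ≤ _
      rw [sub_self, abs_zero]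
      linarith
    · rw [hj2]
      refine k2.trans ?_
      linarith
    · have hjA := hBA ω (hB2B ω hω)
      have r1 := hlab.pos ω hjA j
      obtain ⟨b', hb'⟩ : ∃ b' : Option (Fin m) → ℝ, b' = fun o => if o = some (e i₁) then
          eval (bt F ω) (qsb w (F.T1 w ω : ℝ) (fun i => (cl F w ω i : ℝ))
          (fun i => (vl F ω i : ℝ)) e i₁ (H (zs (slam (zf F w J' h g e) w₁ ω)))) else
          bt F ω o := ⟨_, rfl⟩
      have hb1 : ∀ o, o ≠ some (e i₁) → |b' o - bt F ω o| = 0 := by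
        intro o ho
        rw [hb']
        simp only [if_neg ho, sub_self, abs_zero]
      have hb2 : |b' (some (e i₁)) - bt F ω (some (e i₁))| = |F.x ω (e i₁) - eval (bt F ω)
          (qsb w (F.T1 w ω : ℝ) (fun i => (cl F w ω i : ℝ)) (fun i => (vl F ω i : ℝ)) e i₁
          (H (zs (slam (zf F w J' h g e) w₁ ω))))| := by
        rw [hb', abs_sub_comm]
        simp only [if_true]
        rfl
      have r2 := mvσ (G (z' (slam F w ω)) j) (bt F ω) b' K (fun q hq o => by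
        refine hlab.lip ω hjA q (fun o' => (hq o').trans ?_) j o
        by_cases ho : o' = some (e i₁)
        · rw [ho, hb2, abs_sub_comm]
          exact k3
        · rw [hb1 o' ho]
          positivity)
      have r3 : ∑ o, |b' o - bt F ω o| ≤ E / 2 ^ (w + P₁) := by
        rw [Finset.sum_eq_single (some (e i₁)) (fun o _ ho => hb1 o ho)
          (fun hh => absurd (Finset.mem_univ _) hh), hb2]
        exact k2
      have r4 := r2.trans (mul_le_mul_of_nonneg_left r3 hK0)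
      have r5 : eval (bt F ω) (aeval (fun o => if o = some (e i₁) then qsb w (F.T1 w ω : ℝ)
          (fun i => (cl F w ω i : ℝ)) (fun i => (vl F ω i : ℝ)) e i₁
          (H (zs (slam (zf F w J' h g e) w₁ ω))) else X o) (G (z' (slam F w ω)) j)) =
          eval b' (G (z' (slam F w ω)) j) := by
        rw [eval_aevalσ]
        congr 2
        rw [hb']
        funext o
        split_ifs
        · rfl
        · rw [eval_X]
      rw [r5]
      have r6 : (1 : ℝ) / 2 ^ s ≤ 1 / 2 ^ (w + P₁) := inv_mono (by omega)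
      rw [abs_le] at r1 r4 ⊢
      constructor <;> linarith [r1.1, r1.2, r4.1, r4.2]
  -- the velocities
  obtain ⟨B₃, hB3, hP3, hB3v⟩ := hvel J F B₂ hB2pos w₂ (fun σ j => G' (y' σ) j)
    (D₀ / 2 ^ (w + P₁)) θ hw2J (fun σ j => hdeg _ j) (by positivity) hθ
    (hTm B₂ hB2pos hB2B (by
      refine le_trans ?_ hPB2
      refine mul_le_mul_of_nonneg_right ?_ hB0.le
      have : 0 < c₁ / D := by positivity
      linarith)) (by
      have h1 : C₂ * (θ + 1) ≤ C * (θ + 1) := mul_le_mul_of_nonneg_right hC2 (by linarith)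
      rw [hw₂]
      linarith) (fun ω hω j => by
      rw [hy' ω hω]
      exact hpos ω hω j)
  have hexp : Real.exp (C₂ * (θ + 1)) * D₀ ≤ 2 ^ l := by
    have e1 : (2 : ℝ) ^ l = Real.exp (l * Real.log 2) := by
      rw [mul_comm, Real.exp_mul, Real.exp_log (by norm_num)]
      exact (Real.rpow_natCast 2 l).symm
    have e2 : D₀ = Real.exp (Real.log D₀) := (Real.exp_log (by linarith)).symm
    rw [e1, e2, ← Real.exp_add]
    refine Real.exp_le_exp.2 ?_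
    have e3 : C * (θ + 1) * Real.log 2 = (C₂ + Real.log D₀) * (θ + 1) := by
      rw [hC]
      field_simp
    have e4 := mul_le_mul_of_nonneg_right hCl hl2.le
    rw [e3] at e4
    have e5 : Real.log D₀ ≤ Real.log D₀ * (θ + 1) := by nlinarith
    have e6 : (C₂ + Real.log D₀) * (θ + 1) = C₂ * (θ + 1) + Real.log D₀ * (θ + 1) := by ring
    linarith
  have hexp1 : D₀ ≤ 2 ^ l := by
    refine le_trans ?_ hexp
    have h1 : 1 ≤ Real.exp (C₂ * (θ + 1)) := by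
      rw [Real.one_le_exp_iff]
      have : 0 ≤ θ + 1 := by linarith
      nlinarith
    nlinarith
  have hpow : (2 : ℝ) ^ (w + P₁) = 2 ^ (w + P₁ - l) * 2 ^ l := by
    rw [← pow_add]
    congr 1
    omega
  have pl : (0 : ℝ) < 2 ^ l := by positivity
  have hprec : ∀ x : ℝ, x ≤ 2 ^ l → x / 2 ^ (w + P₁) ≤ 1 / 2 ^ (w + P₁ - l) := by
    intro x hx
    rw [hpow, div_le_div_iff₀ (by positivity) (by positivity), one_mul, mul_comm]
    exact mul_le_mul_of_nonneg_left hx (by positivity)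
  refine ⟨B₃, hB3.trans hB2B, ?_, ?_⟩
  · have h1 : c₁ / D / 2 * Pe F.p B = (c₁ / D * Pe F.p B) / 2 := by ring
    rw [h1]
    linarith
  · refine ⟨_, y, y', G', hdeg, ?_, ?_, ?_, ?_, ?_, ?_⟩
    · intro v j hj
      rw [hG']
      rcases v with _ | v
      · simp only [if_pos hj]
      · simp only
        unfold gsb
        rw [if_pos hj]
    · intro v j b b' h0 h1
      rw [hG']
      rcases v with _ | v
      · simp only
        split_ifs with hj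
        · rw [eval_X, eval_X]
          exact h1 j hj
        · rw [map_zero, map_zero]
      · exact dep_gsb he hinj (fun j => hlab.dep _ j) j b b' h0 h1
    · intro ω hω
      rw [hy ω (hB3 ω hω), ← hw₂, hy' ω (hB3 ω hω)]
    · intro ω hω j
      rw [← hw₂, hy' ω (hB3 ω hω)]
      exact (hpos ω (hB3 ω hω) j).trans (hprec _ hexp1)
    · intro ω hω j
      have h1 := hB3v ω hω j
      rw [hy' ω (hB3 ω hω)] at h1
      rw [← hw₂, hy' ω (hB3 ω hω)]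
      refine h1.trans ?_
      have h2 := hprec _ hexp
      have h3 : Real.exp (C₂ * (θ + 1)) * 2 ^ w₂ * (D₀ / 2 ^ (w + P₁)) =
          2 ^ w₂ * (Real.exp (C₂ * (θ + 1)) * D₀ / 2 ^ (w + P₁)) := by ring
      have h4 : (2 : ℝ) ^ w₂ / 2 ^ (w + P₁ - l) = 2 ^ w₂ * (1 / 2 ^ (w + P₁ - l)) := by ring
      rw [h3, h4]
      exact mul_le_mul_of_nonneg_left h2 (by positivity)
    · intro ω hω b hb j o
      rw [← hw₂, hy' ω (hB3 ω hω), hG'Y]
      obtain ⟨k1, -⟩ := hcomp ω (hB3 ω hω)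
      obtain ⟨k2, k3⟩ := k1 b hb
      refine (pd_gsb (fun i => ?_) hCn hK0 b k2 I (fun j o => ?_) j o).trans hKb
      · have h1 := vl_near F ω i
        have h2 : (-1 : ℝ) ≤ vl F ω i := by exact_mod_cast h1.1
        have h3 : (vl F ω i : ℝ) ≤ 1 := by exact_mod_cast h1.2
        exact abs_le.2 ⟨h2, h3⟩
      · refine hlab.lip ω (hBA ω (hB2B ω (hB3 ω hω))) _ (fun o' => ?_) j o
        by_cases ho : o' = some (e i₁)
        · subst ho
          simp only [if_true]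
          exact k3
        · simp only [if_neg ho]
          exact (hb o').trans hwle

end Pool.GEN
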