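import Pool.Agent.H71.GEN.Nst
import Pool.Agent.H71.GEN.Lip
import Pool.Agent.H71.GEN.Cell

/-!
# Labels on larger balls

A polynomial of bounded degree which is bounded on a ball is bounded on the ball of eight times the
radius, up to a constant.
-/

set_option autoImplicit false

namespace Pool.GEN

open Finset Real MvPolynomial
open Pool.Agent.H49.Ent Pool.Agent.H32.Dense Pool.STK Pool.KA Pool.KSAT Pool.K2S Pool.PB Pool.S6C
open Pool.FLF (Fam.sub)

variable {m n J : ℕ} {κ : Type}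

/-- **Growth** of a polynomial which is bounded on a ball. -/
theorem ball_grow (K : ℕ) : ∃ C : ℝ, 1 ≤ C ∧ ∀ (σ : Type) (_ : Fintype σ) (P : MvPolynomial σ ℝ)
    (x b : σ → ℝ) (ρ M : ℝ), P.totalDegree ≤ K → 0 < ρ →
    (∀ y : σ → ℝ, (∀ j, |y j - x j| ≤ ρ) → |MvPolynomial.eval y P| ≤ M) →
    (∀ j, |b j - x j| ≤ 8 * ρ) → |MvPolynomial.eval b P| ≤ C * M := by
  obtain ⟨C, hC, h⟩ := Pool.Agent.H40.FR.unit_coef K
  obtain ⟨A, hA⟩ : ∃ A : ℝ, A = ∑ j ∈ range (K + 1), (8 : ℝ) ^ j := ⟨_, rfl⟩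
  have hA1 : 1 ≤ A := by
    rw [hA]
    have h1 := Finset.single_le_sum (f := fun j : ℕ => (8 : ℝ) ^ j) (s := range (K + 1))
      (fun j _ => by positivity) (Finset.mem_range.2 (Nat.succ_pos K) : 0 ∈ range (K + 1))
    simpa using h1
  refine ⟨C * A, by nlinarith, ?_⟩
  intro σ _ P x b ρ M hP hρ hM hb
  obtain ⟨g, hg⟩ : ∃ g : σ → Polynomial ℝ, g = fun j =>
      Polynomial.C (x j) + Polynomial.C ((b j - x j) / 8) * Polynomial.X := ⟨_, rfl⟩
  have hgd : ∀ j, (g j).natDegree ≤ 1 := by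
    intro j
    rw [hg]
    refine (Polynomial.natDegree_add_le _ _).trans (max_le ?_ ?_)
    · rw [Polynomial.natDegree_C]
      exact Nat.zero_le _
    · exact (Polynomial.natDegree_C_mul_le _ _).trans Polynomial.natDegree_X_le
  have hge : ∀ t, (MvPolynomial.aeval g P).eval t =
      MvPolynomial.eval (fun j => x j + (b j - x j) / 8 * t) P := by
    intro t
    rw [Pool.KBX.eval_aeval_poly]
    congr 1
    congr 1
    funext j
    rw [hg]
    simp
  have hd := Pool.KBX.natDegree_aeval_le P g hgd hP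
  have h1 := h (MvPolynomial.aeval g P) M hd (by
    intro t ht
    rw [hge]
    refine hM _ fun j => ?_
    have h2 : x j + (b j - x j) / 8 * t - x j = (b j - x j) / 8 * t := by ring
    rw [h2, abs_mul, abs_of_nonneg ht.1, abs_div, abs_of_pos (by norm_num : (0 : ℝ) < 8)]
    have h3 : |b j - x j| / 8 ≤ ρ := by
      rw [div_le_iff₀ (by norm_num)]
      linarith [hb j]
    calc |b j - x j| / 8 * t ≤ ρ * 1 := mul_le_mul h3 ht.2 ht.1 hρ.le
      _ = ρ := mul_one _)
  have e1 : (fun j => x j + (b j - x j) / 8 * 8) = b := by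
    funext j
    ring
  have e2 := hge 8
  rw [e1] at e2
  rw [← e2, Polynomial.eval_eq_sum_range' (Nat.lt_succ_of_le hd)]
  have hM0 : 0 ≤ M := le_trans (abs_nonneg _) (hM x fun j => by simpa using hρ.le)
  refine (Finset.abs_sum_le_sum_abs _ _).trans ?_
  rw [hA, mul_assoc, mul_comm _ M, ← mul_assoc, Finset.mul_sum]
  refine Finset.sum_le_sum fun j _ => ?_
  rw [abs_mul, abs_of_nonneg (by positivity : (0 : ℝ) ≤ 8 ^ j)]
  exact mul_le_mul_of_nonneg_right (h1 j) (by positivity)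

/-- **Labels on larger balls.** -/
theorem LbOK.grow (K : ℕ) : ∃ c : ℕ, ∀ (m J : ℕ) (F : Fam m J) (I : Finset (Fin m)) (k : Fin m)
    (e r w ρ P : ℕ) (A : F.Ω → Prop) (V : Type) (z : PtT F → V) (z' : LnT F → V)
    (G : V → MvPolynomial (Option (Fin m)) ℝ), LbOK F I k K e r w ρ P A z z' G →
    LbOK F I k K (e + c) r w (ρ - 3) P A z z' G := by
  obtain ⟨C, hC, h⟩ := ball_grow K
  obtain ⟨c, hc⟩ := pow_unbounded_of_one_lt C (one_lt_two : (1 : ℝ) < 2)
  refine ⟨c, fun m J F I k e r w ρ P A V z z' G hG => ?_⟩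
  refine ⟨hG.deg, hG.dep, hG.cls, hG.pos, hG.vel, fun ω hω b hb o => ?_⟩
  have h1 := h (Option (Fin m)) inferInstance (pderiv o (G (z' (slam F w ω)))) (bt F ω) b
    (1 / 2 ^ ρ) (2 ^ e) (totalDegree_pdσ (hG.deg _) o) (by positivity)
    (fun y hy => hG.lip ω hω y hy o) (fun j => (hb j).trans ?_)
  · refine h1.trans ?_
    rw [pow_add, mul_comm]
    exact mul_le_mul_of_nonneg_left hc.le (by positivity)
  · have h2 : (2 : ℝ) ^ ρ ≤ 8 * 2 ^ (ρ - 3) := by
      calc (2 : ℝ) ^ ρ ≤ 2 ^ (ρ - 3 + 3) := pow_le_pow_right₀ one_le_two (by omega)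
        _ = 8 * 2 ^ (ρ - 3) := by rw [pow_add]; ring
    rw [mul_one_div, div_le_div_iff₀ (by positivity) (by positivity)]
    linarith

end Pool.GEN
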