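import Pool.Agent.H71.GEN.Ft

/-!
# Theorem R: the assembly
-/

set_option autoImplicit false

namespace Pool.GEN

open Finset Real MvPolynomial
open Pool.Agent.H49.Ent Pool.Agent.H32.Dense Pool.STK Pool.KA Pool.KSAT Pool.K2S Pool.PB Pool.S6C
open Pool.FLF (Fam.sub)

variable {m n J : ℕ} {κ : Type}

theorem fin_min (N : ℕ) (f : ℕ → ℝ) (hf : ∀ i, 0 < f i) : ∃ τ : ℝ, 0 < τ ∧ ∀ i ≤ N, τ ≤ f i := by
  induction N with
  | zero => exact ⟨f 0, hf 0, fun i hi => by rw [Nat.le_zero.1 hi]⟩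
  | succ N ih =>
    obtain ⟨τ, hτ, h⟩ := ih
    refine ⟨min τ (f (N + 1)), lt_min hτ (hf _), fun i hi => ?_⟩
    rcases Nat.lt_or_ge i (N + 1) with h1 | h1
    · exact (min_le_left _ _).trans (h i (by omega))
    · have : i = N + 1 := by omega
      rw [this]
      exact min_le_right _ _

theorem fin_max (N : ℕ) (f : ℕ → ℕ) : ∃ M : ℕ, ∀ i ≤ N, f i ≤ M := by
  induction N with
  | zero => exact ⟨f 0, fun i hi => by rw [Nat.le_zero.1 hi]⟩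
  | succ N ih =>
    obtain ⟨M, h⟩ := ih
    refine ⟨max M (f (N + 1)), fun i hi => ?_⟩
    rcases Nat.lt_or_ge i (N + 1) with h1 | h1
    · exact (h i (by omega)).trans (le_max_left _ _)
    · have : i = N + 1 := by omega
      rw [this]
      exact le_max_right _ _

/-- **Theorem R.** -/
theorem ft (hleaf : ∀ n, 0 < n → n ≤ m → LeafZ n) (hK2 : K2Stmt m) (hthr : ThrStmt m)
    (hsun : SunStmt) (hrate : RateStmt m) : TheoremR m := by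
  classical
  intro S hbs hsp M hcnt ρ hρ hV hNe
  have hm0 : (0 : ℝ) ≤ m := Nat.cast_nonneg m
  -- the constants
  obtain ⟨x, hx⟩ : ∃ x, x = min 1 (ρ / (8 * ((m : ℝ) + 1) ^ 2)) := ⟨_, rfl⟩
  have hx0 : 0 < x := by
    rw [hx]
    exact lt_min one_pos (by positivity)
  have hx1 : x ≤ 1 := by rw [hx]; exact min_le_left _ _
  have hx2 : 2 * ((m : ℝ) + 1) ^ 2 * x ≤ ρ / 4 := by
    have h1 : x ≤ ρ / (8 * ((m : ℝ) + 1) ^ 2) := by rw [hx]; exact min_le_right _ _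
    rw [le_div_iff₀ (by positivity)] at h1
    linarith
  obtain ⟨wp, hwp⟩ : ∃ wp, wp = min (x / 2) (min (1 / 2) (ρ / (4 * (2 * (m : ℝ) + 1)))) :=
    ⟨_, rfl⟩
  have hwp0 : 0 < wp := by
    rw [hwp]
    exact lt_min (by linarith) (lt_min (by norm_num) (by positivity))
  have hwp1 : wp ≤ x / 2 := by rw [hwp]; exact min_le_left _ _
  have hwp2 : wp ≤ 1 / 2 := by rw [hwp]; exact (min_le_right _ _).trans (min_le_left _ _)
  have hwp3 : (2 * (m : ℝ) + 1) * wp ≤ ρ / 4 := by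
    have h1 : wp ≤ ρ / (4 * (2 * (m : ℝ) + 1)) := by
      rw [hwp]
      exact (min_le_right _ _).trans (min_le_right _ _)
    rw [le_div_iff₀ (by positivity)] at h1
    linarith
  -- the thresholds
  obtain ⟨S₁, w₁, w₂, K₀, I, s, u, hNe₁, hS₁, hw₁, hw₁₂, hw₂, hsm, hsu, hlab₁, hnl⟩ :=
    hthr S hNe wp x hwp0 (by linarith) hx0
  have hbs₁ : ∀ (τ : ℝ) (J : ℕ) (F : Fam m J) (A : F.Ω → Prop), S₁.St τ J F A → F.Tr ∧
      F.Tm (τ * J) ∧ F.Rb (τ * J) ∧ Real.exp (-(τ * J)) ≤ Pe F.p A :=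
    fun τ J F A h => hbs τ J F A (hS₁ _ _ _ _ h)
  have hpos : ∀ (τ : ℝ) (J : ℕ) (F : Fam m J) (A : F.Ω → Prop), S.St τ J F A → 0 < Pe F.p A :=
    fun τ J F A h => lt_of_lt_of_le (Real.exp_pos _) (hbs τ J F A h).2.2.2
  have hpos₁ : ∀ (τ : ℝ) (J : ℕ) (F : Fam m J) (A : F.Ω → Prop), S₁.St τ J F A → 0 < Pe F.p A :=
    fun τ J F A h => hpos τ J F A (hS₁ _ _ _ _ h)
  -- the rates
  obtain ⟨S₂, hNe₂, hS₂, r, hrc, hrm, hr0, hr⟩ := hrate S₁ M K₀ w₁ s I hNe₁ hpos₁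
    (Bas.sub hS₁ hcnt) hw₁ (by linarith) hlab₁
  have hpos₂ : ∀ (τ : ℝ) (J : ℕ) (F : Fam m J) (A : F.Ω → Prop), S₂.St τ J F A →
      0 < Pe F.p A := by
    intro τ J F' A hSt
    obtain ⟨F, A, V, z, z', G, hlab, hS⟩ := hS₂ _ _ _ _ hSt
    exact hpos₁ _ _ F A hS
  have hr1 := rate_one hK2 hbs hV hρ hS₁ hw₁ (by linarith)
    (fun j => ⟨(hsu j).1.le, (hsu j).2.1.trans (hsu j).2.2.2.1⟩) (fun j => (hsu j).2.2.2.2)
    hNe₂ hS₂ (fun h hh => hr 1 zero_le_one le_rfl h hh)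
  -- the row
  have hsum : ∑ j, (u j + x - s j) ≤ 2 * m * x := by
    have h1 : ∀ j ∈ (Finset.univ : Finset (Fin m)), u j + x - s j ≤ 2 * x := fun j _ => by
      linarith [(hsu j).2.2.1]
    have h2 := Finset.sum_le_card_nsmul _ _ _ h1
    rw [Finset.card_univ, Fintype.card_fin, nsmul_eq_mul] at h2
    linarith
  obtain ⟨Q, hQ0, hQ1, i, hi1, him, hQu, hQs, hslope⟩ := hsun m (fun P => r P - r 0)
    (hrc.sub continuousOn_const) (fun a ha b hb hab => sub_le_sub_right (hrm ha hb hab) _)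
    (sub_self _) s (fun j => u j + x) hsm (fun j => (hsu j).1.le)
    (fun j => by linarith [(hsu j).2.1]) (ρ / 8) (2 * m * x) (by linarith) hsum (by
      have h1 : ∑ j, (1 - s j) ≤ ∑ j, max (1 - s j) 0 :=
        Finset.sum_le_sum fun j _ => le_max_left _ _
      have h2 : (2 * (m : ℝ) + 1) * w₁ ≤ ρ / 4 := by
        refine le_trans (mul_le_mul_of_nonneg_left (by linarith : w₁ ≤ wp) (by positivity)) hwp3
      have h3 : ((m : ℝ) + 1) * (2 * m * x) ≤ ρ / 4 := by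
        refine le_trans ?_ hx2
        nlinarith
      linarith)
  obtain ⟨n, rfl⟩ : ∃ n, i = n + 1 := ⟨i - 1, by omega⟩
  have hnm : n < m := by omega
  have hm1 : (0 : ℝ) < m := by exact_mod_cast (by omega : 0 < m)
  have hj₀ := hsu ⟨n, hnm⟩
  have hQj : u ⟨n, hnm⟩ + x < Q := hQu ⟨n, hnm⟩ (Nat.lt_succ_self n)
  have hu0 : 0 < u ⟨n, hnm⟩ := lt_of_lt_of_le hj₀.1 hj₀.2.1
  have hwQ : w₁ < Q := by linarith
  obtain ⟨P₀, hP₀⟩ : ∃ P₀, P₀ = u ⟨n, hnm⟩ + x / 2 := ⟨_, rfl⟩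
  have hP0 : 0 ≤ P₀ := by rw [hP₀]; linarith
  have hPQ : P₀ < Q := by rw [hP₀]; linarith
  obtain ⟨x', hx'⟩ : ∃ x', x' = min ((w₂ - w₁) / 2) (min ((Q - P₀) / 4) (1 / 2)) := ⟨_, rfl⟩
  have hx'0 : 0 < x' := by
    rw [hx']
    exact lt_min (by linarith) (lt_min (by linarith) (by norm_num))
  have hx'1 : x' ≤ (w₂ - w₁) / 2 := by rw [hx']; exact min_le_left _ _
  have hx'2 : x' ≤ (Q - P₀) / 4 := by
    rw [hx']
    exact (min_le_right _ _).trans (min_le_left _ _)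
  have hx'3 : x' ≤ 1 / 2 := by rw [hx']; exact (min_le_right _ _).trans (min_le_right _ _)
  have hthr' : ∀ I' : Finset (Fin m), I'.card = n → ∀ K : ℕ,
      Bas S₁ (fun J F A => ¬ GLab F I' K J ⌊w₂ * J⌋₊ ⌊P₀ * J⌋₊ A) := by
    intro I' hI' K
    rw [hP₀]
    exact hnl ⟨n, hnm⟩ I' hI' K (x / 2) (half_pos hx0) (by linarith)
  -- the three claims for the zooms
  have hν : ∀ i' : ℕ, 0 < 1 / ((i' : ℝ) + 1) := fun i' => by positivity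
  have hν1 : ∀ i' : ℕ, 1 / ((i' : ℝ) + 1) ≤ 1 := fun i' => by
    rw [div_le_one (by positivity)]
    have : (0 : ℝ) ≤ i' := Nat.cast_nonneg i'
    linarith
  have hza := fun i' : ℕ => za hpos hsp (max K₀ 1) (n + 1) hw₁ hwQ (hν i') (hν1 i')
  have hzt := fun i' : ℕ => zt hbs₁ hr hpos₂ (max K₀ 1) (n + 1) hw₁ hwQ hQ1
    (γ := ((n + 1 : ℕ) : ℝ) - ρ / 8) (fun P h1 h2 => by
      have := hslope P h1 h2
      linarith) (hν i')
  have hzl := fun i' : ℕ => zl hbs₁ hw₁ hw₁₂ (by linarith) hwQ hQ1 hP0 hPQ hx'0 hx'1 hx'2 hx'3 n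
    hthr' (max K₀ 1) i'
  choose ψa hψa τa hτa Ja hza using hza
  choose ψt hψt τt hτt Jt hzt using hzt
  choose ψl hψl τl hτl Jl hzl using hzl
  obtain ⟨η, hη, N, J₁, hZ⟩ := hleaf (n + 1) (Nat.succ_pos n) him (ρ / 8) x' (2 * m)
    (by linarith) hx'0 (by linarith) (fun i' => min (ψa i') (min (ψt i') (ψl i')))
    (fun i' => lt_min (hψa i') (lt_min (hψt i') (hψl i')))
  obtain ⟨τ₁, hτ₁, hta⟩ := fin_min N τa hτa
  obtain ⟨τ₂, hτ₂, htt⟩ := fin_min N τt hτt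
  obtain ⟨τ₃, hτ₃, htl⟩ := fin_min N τl hτl
  obtain ⟨M₁, hMa⟩ := fin_max N Ja
  obtain ⟨M₂, hMt⟩ := fin_max N Jt
  obtain ⟨M₃, hMl⟩ := fin_max N Jl
  obtain ⟨M₄, hM₄⟩ := lin ((J₁ : ℝ) + 2) (by linarith : 0 < (Q - w₁) / 2)
  obtain ⟨τ, hτ⟩ : ∃ τ, τ = min (η * (Q - w₁) / 12) (min τ₁ (min τ₂ τ₃)) := ⟨_, rfl⟩
  have hηQ : 0 < η * (Q - w₁) := mul_pos hη (by linarith)
  have hτ0 : 0 < τ := by
    rw [hτ]
    exact lt_min (by linarith) (lt_min hτ₁ (lt_min hτ₂ hτ₃))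
  have hτ1 : τ ≤ η * (Q - w₁) / 12 := by rw [hτ]; exact min_le_left _ _
  have hτ2 : τ ≤ τ₁ := by rw [hτ]; exact (min_le_right _ _).trans (min_le_left _ _)
  have hτ3 : τ ≤ τ₂ := by
    rw [hτ]
    exact (min_le_right _ _).trans ((min_le_right _ _).trans (min_le_left _ _))
  have hτ4 : τ ≤ τ₃ := by
    rw [hτ]
    exact (min_le_right _ _).trans ((min_le_right _ _).trans (min_le_right _ _))
  obtain ⟨J, hJ, F', A, hSt⟩ := hNe₂ τ hτ0 (max M₁ (max M₂ (max M₃ M₄)))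
  simp only [ge_iff_le, max_le_iff] at hJ
  obtain ⟨hJ1, hJ2, hJ3, hJ4⟩ := hJ
  replace hJ4 := hM₄ J hJ4
  obtain ⟨F, A, V, z, z', G, hlab, hS⟩ := hS₂ _ _ _ _ hSt
  obtain ⟨hTr, hTm, hRb, hPA⟩ := hbs₁ _ J F A hS
  have hA : 0 < Pe F.p A := lt_of_lt_of_le (Real.exp_pos _) hPA
  have hJp : (0 : ℝ) ≤ J := Nat.cast_nonneg J
  have hWQ : ⌊w₁ * (J : ℝ)⌋₊ ≤ ⌊Q * (J : ℝ)⌋₊ :=
    Nat.floor_le_floor (mul_le_mul_of_nonneg_right hwQ.le hJp)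
  have hQJ : ⌊Q * (J : ℝ)⌋₊ ≤ J := by
    refine Nat.floor_le_of_le ?_
    nlinarith
  obtain ⟨J', hJ'⟩ : ∃ J', J' = ⌊Q * (J : ℝ)⌋₊ - ⌊w₁ * (J : ℝ)⌋₊ := ⟨_, rfl⟩
  have h : ⌊w₁ * (J : ℝ)⌋₊ + J' ≤ J := by omega
  have hJ'r : (Q - w₁) * J - 1 ≤ (J' : ℝ) := by
    have a1 : (⌊w₁ * (J : ℝ)⌋₊ : ℝ) ≤ w₁ * J := Nat.floor_le (by positivity)
    have a2 := Nat.lt_floor_add_one (Q * (J : ℝ))
    have a3 : (⌊w₁ * (J : ℝ)⌋₊ : ℝ) + J' = (⌊Q * (J : ℝ)⌋₊ : ℕ) := by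
      exact_mod_cast (by omega : ⌊w₁ * (J : ℝ)⌋₊ + J' = ⌊Q * (J : ℝ)⌋₊)
    linarith
  have hJ'2 : (Q - w₁) / 2 * J ≤ (J' : ℝ) := by
    have : (0 : ℝ) ≤ J₁ := Nat.cast_nonneg J₁
    linarith
  have hJ'1 : J₁ ≤ J' := by
    have : (J₁ : ℝ) ≤ J' := by linarith
    exact_mod_cast this
  -- the label
  have hcls : ∀ j, ∀ ω, A ω → z j (ptr F J ω) = z' j (slam F ⌊w₁ * (J : ℝ)⌋₊ ω) :=
    fun j => (hlab j).cls
  obtain ⟨Ic, sN, Gp, hcard, hsN, hlabc⟩ : ∃ (Ic : Finset (Fin m)) (sN : ℕ)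
      (Gp : (∀ j, V j) → Fin m → MvPolynomial (Option (Fin m)) ℝ), Ic.card = n + 1 ∧
      ⌊Q * (J : ℝ)⌋₊ ≤ sN ∧ LabOK F Ic (max K₀ 1) J ⌊w₁ * (J : ℝ)⌋₊ sN A (fun y j => z j y)
        (fun s j => z' j s) Gp := by
    by_cases hlt : n + 1 < m
    · refine ⟨I ⟨n + 1, hlt⟩, ⌊s ⟨n + 1, hlt⟩ * (J : ℝ)⌋₊, fun v => G ⟨n + 1, hlt⟩ (v _),
        (hsu ⟨n + 1, hlt⟩).2.2.2.2, ?_, ?_⟩
      · exact Nat.floor_le_floor (mul_le_mul_of_nonneg_right (hQs ⟨n + 1, hlt⟩ le_rfl) hJp)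
      · exact (lab_join hcls ⟨n + 1, hlt⟩ (hlab ⟨n + 1, hlt⟩)).mK (le_max_left _ _)
    · refine ⟨Finset.univ, ⌊Q * (J : ℝ)⌋₊, fun _ j => X (some j), ?_, le_rfl, ?_⟩
      · rw [Finset.card_univ, Fintype.card_fin]
        omega
      · exact lab_univ (le_max_right _ _) (fun ω hω => funext fun j => hcls j ω hω)
  obtain ⟨e, he, hinj, hsurj⟩ : ∃ e : Fin (n + 1) → Fin m, (∀ i, e i ∈ Ic) ∧
      Function.Injective e ∧ ∀ k ∈ Ic, ∃ i, e i = k := by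
    refine ⟨fun i => Ic.orderEmbOfFin hcard i, fun i => Finset.orderEmbOfFin_mem _ _ _,
      fun i j hij => (Ic.orderEmbOfFin hcard).injective hij, fun k hk => ?_⟩
    have h1 := Finset.range_orderEmbOfFin Ic hcard
    have h2 : k ∈ Set.range (Ic.orderEmbOfFin hcard) := by
      rw [h1]
      exact hk
    exact h2
  -- the zoom
  have hl : IsLaw (Pool.Agent.H49.Ent.cond F.p A True) := isLaw_cond F.isLaw hA
  have hTmA := Pool.S6K.Wfe.res_Tm hτ0.le hτ0.le hTr hTm hRb hPA hl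
  have hTmG := zf_Tm (F.res A True hl) h (fun ω => fun j => z' j (slam F ⌊w₁ * (J : ℝ)⌋₊ ω)) e (by
    intro ω ω' _ _ hh
    have a1 := Prod.ext_iff.mp hh
    have a2 := Prod.ext_iff.mp a1.2
    have a3 : slam F ⌊w₁ * (J : ℝ)⌋₊ ω = slam F ⌊w₁ * (J : ℝ)⌋₊ ω' :=
      Prod.ext a1.1 (Prod.ext a2.2 a2.1)
    simp only [a3]) hTmA
  obtain ⟨i', hi', B, hPB, hbad⟩ := hZ J' hJ'1 (zf (F.res A True hl) ⌊w₁ * (J : ℝ)⌋₊ J' h
    (fun ω => fun j => z' j (slam F ⌊w₁ * (J : ℝ)⌋₊ ω)) e) (by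
      unfold Fam.Tm at hTmG ⊢
      have a1 : (5 * τ + τ) * (J : ℝ) ≤ η * J' := by
        have a2 := mul_le_mul_of_nonneg_right hτ1 hJp
        have a3 := mul_le_mul_of_nonneg_left hJ'2 hη.le
        linarith
      linarith) (zf_lines _ h _ e) (zf_Gd _ h _ e)
  have hexp : ∀ ψ' : ℝ, min (ψa i') (min (ψt i') (ψl i')) ≤ ψ' →
      Real.exp (-(3 * ψ' * J')) ≤ Pe (Pool.Agent.H49.Ent.cond F.p A True) B := by
    intro ψ' hψ'
    refine le_trans ?_ hPB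
    refine Real.exp_le_exp.2 (neg_le_neg ?_)
    exact mul_le_mul_of_nonneg_right (mul_le_mul_of_nonneg_left hψ' (by norm_num))
      (Nat.cast_nonneg J')
  rcases hbad with h1 | ⟨P, hP, h2⟩ | h3
  · exact hza i' J ((hMa i' hi').trans hJ1) F A
      (S.mono (hτ2.trans (hta i' hi')) (hS₁ _ _ _ _ hS)) Ic sN _ _ _ Gp hlabc hsN e hsurj J' h
      hJ' B (hexp _ (min_le_left _ _)) h1
  · refine absurd h2 (not_lt.2 ?_)
    exact hzt i' J ((hMt i' hi').trans hJ2) F A (S₁.mono (hτ3.trans (htt i' hi')) hS) Ic sN _ _ _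
      Gp hlabc (S₂.mono (hτ3.trans (htt i' hi')) hSt) hsN e hsurj J' h hJ' B
      (hexp _ ((min_le_right _ _).trans (min_le_left _ _))) P hP
  · exact hzl i' J ((hMl i' hi').trans hJ3) F A (S₁.mono (hτ4.trans (htl i' hi')) hS) Ic sN _ _ _
      Gp hlabc hsN hcard e he hinj J' h hJ' B
      (hexp _ ((min_le_right _ _).trans (min_le_right _ _))) h3

end Pool.GEN
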