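import Pool.Agent.H71.GEN.Zt

/-!
# The gain given the labels
-/

set_option autoImplicit false

namespace Pool.GEN

open Finset Real MvPolynomial
open Pool.Agent.H49.Ent Pool.Agent.H32.Dense Pool.STK Pool.KA Pool.KSAT Pool.K2S Pool.PB Pool.S6C
open Pool.FLF (Fam.sub)

variable {m n J : ℕ} {κ : Type}

/-- **The gain given a label.** -/
theorem vgain {F : Fam m J} {q : F.Ω → ℝ} (hq : IsLaw q) (c : F.Ω → κ) {w : ℕ} (hw : w ≤ J)
    (h1 : Det q (fun ω => (F.X J ω, F.W ω)) c)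
    (h2 : Det q (fun ω => (F.l ω, (F.T1 w ω, F.Z ω))) c) {e₀ : ℝ}
    (hTm : (J : ℝ) * Real.log 2 - e₀ ≤ CH q F.T (fun ω => (F.l ω, F.Z ω))) :
    CH q (F.D J) F.Z - CH q (F.X J) F.W ≤
      CH q (F.D J) (fun ω => (c ω, (F.T1 w ω, F.Z ω))) -
        CH q (F.X J) (fun ω => (F.T ω, (c ω, F.Z ω))) + w * Real.log 2 + e₀ := by
  have h0 := hq.nonneg
  obtain ⟨k, hk⟩ : ∃ k, k = J - w := ⟨_, rfl⟩
  have hT1 : ∀ ω, F.T1 w ω = F.T ω / 2 ^ k := fun ω => by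
    rw [hk]
    rfl
  have hTs : ∀ ω, F.T ω = 2 ^ k * F.T1 w ω + F.T ω % 2 ^ k := fun ω => by
    rw [hT1]
    exact (Nat.div_add_mod _ _).symm
  have hlt : ∀ ω, F.T1 w ω < 2 ^ w := fun ω => by
    rw [hT1, Nat.div_lt_iff_lt_mul (by positivity), ← pow_add]
    have h3 := F.tim ω
    have e1 : w + k = J := by omega
    rwa [e1]
  have hJk : (J : ℝ) = (w : ℕ) + k := by
    have : J = w + k := by omega
    exact_mod_cast this
  -- the directions
  have a1 := CH_le_add h0 (F.D J) (F.T1 w) F.Z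
  have a2 := CH_le_add h0 (F.D J) c (fun ω => (F.T1 w ω, F.Z ω))
  have a3 := TRC.CH_lt hq (F.T1 w) F.Z w hlt
  -- the positions
  have b1 := CH_chain h0 (F.X J) c F.W
  have b2 := CH_chain h0 c (F.X J) F.W
  have b3 : CH q (fun ω => (F.X J ω, c ω)) F.W = CH q (fun ω => (c ω, F.X J ω)) F.W := by
    refine CH_congr h0 ?_ ?_ (fun _ _ _ _ hh => hh) (fun _ _ _ _ hh => hh)
    · intro ω ω' _ _ hh
      have a1 := Prod.ext_iff.mp (Prod.ext_iff.mp hh).1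
      exact Prod.ext a1.2 a1.1
    · intro ω ω' _ _ hh
      have a1 := Prod.ext_iff.mp (Prod.ext_iff.mp hh).1
      exact Prod.ext a1.2 a1.1
  have b4 : CH q c (fun ω => (F.X J ω, F.W ω)) = 0 := CH_eq_zero h0 h1
  have b5 : CH q (F.X J) (fun ω => (F.T ω, (c ω, F.Z ω))) ≤
      CH q (F.X J) (fun ω => (c ω, F.W ω)) := by
    refine CH_mono_cond h0 (X := F.X J) ?_
    intro ω ω' _ _ hh
    have a1 := Prod.ext_iff.mp hh
    have a2 := Prod.ext_iff.mp a1.2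
    exact Prod.ext a2.1 (Prod.ext a1.1 a2.2)
  -- the label and the time
  have c1 := CH_chain h0 c F.T (fun ω => (F.T1 w ω, F.Z ω))
  have c2 := CH_chain h0 F.T c (fun ω => (F.T1 w ω, F.Z ω))
  have c3 : CH q (fun ω => (c ω, F.T ω)) (fun ω => (F.T1 w ω, F.Z ω)) =
      CH q (fun ω => (F.T ω, c ω)) (fun ω => (F.T1 w ω, F.Z ω)) := by
    refine CH_congr h0 ?_ ?_ (fun _ _ _ _ hh => hh) (fun _ _ _ _ hh => hh)
    · intro ω ω' _ _ hh
      have a1 := Prod.ext_iff.mp (Prod.ext_iff.mp hh).1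
      exact Prod.ext a1.2 a1.1
    · intro ω ω' _ _ hh
      have a1 := Prod.ext_iff.mp (Prod.ext_iff.mp hh).1
      exact Prod.ext a1.2 a1.1
  have d1 : CH q F.T (fun ω => (F.T1 w ω, F.Z ω)) ≤ k * Real.log 2 := by
    have e1 := CH_le_add h0 F.T (fun ω => F.T ω % 2 ^ k) (fun ω => (F.T1 w ω, F.Z ω))
    have e2 := TRC.CH_lt hq (fun ω => F.T ω % 2 ^ k) (fun ω => (F.T1 w ω, F.Z ω)) k
      (fun ω => Nat.mod_lt _ (by positivity))
    have e3 : CH q F.T (fun ω => (F.T ω % 2 ^ k, (F.T1 w ω, F.Z ω))) = 0 := by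
      refine CH_eq_zero h0 fun ω ω' _ _ hh => ?_
      have a1 := Prod.ext_iff.mp hh
      have a2 := Prod.ext_iff.mp a1.2
      simp only at a1 a2
      rw [hTs ω, hTs ω', a1.1, a2.1]
    linarith
  have d2 : k * Real.log 2 - e₀ ≤ CH q F.T (fun ω => (c ω, (F.T1 w ω, F.Z ω))) := by
    have e1 := CH_mono_cond h0 (X := F.T) (W := fun ω => (c ω, (F.T1 w ω, F.Z ω)))
      (W' := fun ω => (F.T1 w ω, (F.l ω, F.Z ω))) (by
        intro ω ω' hω hω' hh
        have a1 := Prod.ext_iff.mp hh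
        have a2 := Prod.ext_iff.mp a1.2
        have a3 : c ω = c ω' := h2 ω ω' hω hω' (Prod.ext a2.1 (Prod.ext a1.1 a2.2))
        exact Prod.ext a3 (Prod.ext a1.1 a2.2))
    have e2 := CH_le_add h0 F.T (F.T1 w) (fun ω => (F.l ω, F.Z ω))
    have e3 := TRC.CH_lt hq (F.T1 w) (fun ω => (F.l ω, F.Z ω)) w hlt
    rw [hJk] at hTm
    linarith
  have d3 : CH q c (fun ω => (F.T ω, (F.T1 w ω, F.Z ω))) ≤ CH q c F.W := by
    refine CH_mono_cond h0 (X := c) ?_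
    intro ω ω' _ _ hh
    have a1 := Prod.ext_iff.mp hh
    have a2 := Prod.ext_iff.mp a1.2
    exact Prod.ext a1.1 a2.2
  linarith

end Pool.GEN
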