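import Pool.Agent.H71.GEN.Kp
import Pool.Agent.H32.KR.K2
import Pool.Agent.H54.GN.Base

/-!
# The entropy inequality from the leaves of codimension one, for all dimensions (final form)
-/

set_option autoImplicit false

namespace Pool.GEN

open Pool.STK Pool.KA Pool.K2S Pool.PB

/-- **Theorem R**: the entropy inequality `KP m` follows from the leaves of codimension one in all
dimensions `n ≤ m`. -/
theorem kp_of_leaf {m : ℕ} (hleaf : ∀ n, 0 < n → n ≤ m → LEAFw n) : KP m :=
  kp_gen (k2_thm m) (base_thm m) hleaf

end Pool.GEN
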