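import Pool.Agent.H71.GEN.Zact2
import Pool.Agent.H71.GEN.Ft2

/-!
# The zooms are active, for the first pairs of scales
-/

set_option autoImplicit false

namespace Pool.GEN

open Finset Real MvPolynomial
open Pool.Agent.H49.Ent Pool.Agent.H32.Dense Pool.STK Pool.KA Pool.KSAT Pool.K2S Pool.PB Pool.S6C
open Pool.FLF (Fam.sub)

variable {m n J : ℕ} {κ : Type}

/-- **The zooms are active**, for the first pairs of scales. -/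
theorem z_act_fin (n : ℕ) {S : PCl m}
    (hpos : ∀ (τ : ℝ) (J : ℕ) (F : Fam m J) (A : F.Ω → Prop), 0 < τ → S.St τ J F A →
      0 < Pe F.p A)
    {N : ℚ → ℚ → ℝ} {kap : Fin m} (hN : ActB N S kap) {w : ℚ} (hw0 : 0 < w) (hw1 : w < 1)
    (N₀ : ℕ) {h : ℝ} (hh : 0 < h) :
    ∃ ψ : ℝ, 0 < ψ ∧ ∃ τ₀ : ℝ, 0 < τ₀ ∧ ∃ J₀ : ℕ, ∀ J ≥ J₀, ∀ (F : Fam m J) (A : F.Ω → Prop),
    S.St τ₀ J F A → ∀ (κ : Type) (z : PtT F → κ) (z' : LnT F → κ),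
    (∀ ω, A ω → z (ptr F J ω) = z' (slam F ⌊(w : ℝ) * J⌋₊ ω)) →
    ∀ (hl : IsLaw (Pool.Agent.H49.Ent.cond F.p A True)) (J' : ℕ) (hJ : ⌊(w : ℝ) * J⌋₊ + J' = J)
    (e : Fin n → Fin m) (i : Fin n), e i = kap → ∀ B : F.Ω → Prop,
    Real.exp (-(3 * ψ * J')) ≤ Pe (Pool.Agent.H49.Ent.cond F.p A True) B →
    ∀ q q' : ℚ, Encodable.encode (q, q') ≤ N₀ → 0 ≤ q → q ≤ q' → q' ≤ 1 →
    ¬ ActF (NZ N w) q q' h i J'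
      (zf (F.res A True hl) ⌊(w : ℝ) * J⌋₊ J' hJ.le (fun ω => z' (slam F ⌊(w : ℝ) * J⌋₊ ω)) e)
      B := by
  classical
  have key : ∀ c : ℕ, ∃ ψ : ℝ, 0 < ψ ∧ ∃ τ₀ : ℝ, 0 < τ₀ ∧ ∃ J₀ : ℕ, ∀ J ≥ J₀,
      ∀ (F : Fam m J) (A : F.Ω → Prop),
      S.St τ₀ J F A → ∀ (κ : Type) (z : PtT F → κ) (z' : LnT F → κ),
      (∀ ω, A ω → z (ptr F J ω) = z' (slam F ⌊(w : ℝ) * J⌋₊ ω)) →
      ∀ (hl : IsLaw (Pool.Agent.H49.Ent.cond F.p A True)) (J' : ℕ) (hJ : ⌊(w : ℝ) * J⌋₊ + J' = J)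
      (e : Fin n → Fin m) (i : Fin n), e i = kap → ∀ B : F.Ω → Prop,
      Real.exp (-(3 * ψ * J')) ≤ Pe (Pool.Agent.H49.Ent.cond F.p A True) B →
      ∀ q q' : ℚ, Encodable.encode (q, q') = c → 0 ≤ q → q ≤ q' → q' ≤ 1 →
      ¬ ActF (NZ N w) q q' h i J'
        (zf (F.res A True hl) ⌊(w : ℝ) * J⌋₊ J' hJ.le (fun ω => z' (slam F ⌊(w : ℝ) * J⌋₊ ω)) e)
        B := by
    intro c
    by_cases hc : ∃ q q' : ℚ, Encodable.encode (q, q') = c ∧ 0 ≤ q ∧ q ≤ q' ∧ q' ≤ 1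
    · obtain ⟨q, q', hc1, hc2, hc3, hc4⟩ := hc
      obtain ⟨ψ, hψ, τ₀, hτ₀, J₀, h1⟩ := z_act n hpos hN hw0 hw1 hc2 hc3 hc4 hh
      refine ⟨ψ, hψ, τ₀, hτ₀, J₀, fun J hJ₀ F A hS κ z z' hcl hl J' hJ e i hei B hB r r' hr _ _ _ => ?_⟩
      have h2 : (r, r') = (q, q') := Encodable.encode_injective (hr.trans hc1.symm)
      obtain ⟨rfl, rfl⟩ := Prod.ext_iff.1 h2
      exact h1 J hJ₀ F A hS κ z z' hcl hl J' hJ e i hei B hB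
    · refine ⟨1, one_pos, 1, one_pos, 0, fun J _ F A _ κ z z' _ hl J' hJ e i _ B _ q q' h1 h2 h3 h4 =>
        absurd ⟨q, q', h1, h2, h3, h4⟩ hc⟩
  choose ψ hψ τ hτ J₀ hk using key
  obtain ⟨ψ₁, hψ₁, h1⟩ := fin_min N₀ ψ hψ
  obtain ⟨τ₁, hτ₁, h2⟩ := fin_min N₀ τ hτ
  obtain ⟨J₁, h3⟩ := fin_max N₀ J₀
  refine ⟨ψ₁, hψ₁, τ₁, hτ₁, J₁, fun J hJ₀ F A hS κ z z' hcl hl J' hJ e i hei B hB q q' hc c2 c3 c4 =>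
    ?_⟩
  refine hk _ J ((h3 _ hc).trans hJ₀) F A (S.mono (h2 _ hc) hS) κ z z' hcl hl J' hJ e i hei B
    (le_trans (Real.exp_le_exp.2 (neg_le_neg ?_)) hB) q q' rfl c2 c3 c4
  exact mul_le_mul_of_nonneg_right (mul_le_mul_of_nonneg_left (h1 _ hc) (by norm_num))
    (Nat.cast_nonneg J')

end Pool.GEN
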