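import Pool.Agent.H71.GEN.Ex

/-!
# The modules of Theorem R (statements)

* `K2Stmt m`: the directions of the lines with given exact labels of all dimensions.
* `ThrStmt m`: thresholds of the labels in a class, and the choice of the windows.
* `SunStmt`: the choice of the row (rising sun with penalty).
-/

set_option autoImplicit false

namespace Pool.GEN

open Finset Real MvPolynomial
open Pool.Agent.H49.Ent Pool.Agent.H32.Dense Pool.STK Pool.KA Pool.KSAT Pool.K2S Pool.PB Pool.S6C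
open Pool.FLF (Fam.sub)

/-- **(K2)** For exact labels with `j` free coordinates and precision `2 ^ (-s j J)` for all
`j < m`, on windows of length `2 ^ (-w J)`, the directions have entropy at most
`∑ j, (1 - s j) + 2 m w` given the labels and the window. -/
def K2Stmt (m : ℕ) : Prop :=
  ∀ (K : ℕ) (w ε : ℝ), 0 < w → w ≤ 1 → 0 < ε → ∃ τ : ℝ, 0 < τ ∧ ∃ J₁ : ℕ, ∀ J ≥ J₁,
    ∀ (F : Fam m J) (A : F.Ω → Prop) (hA : 0 < Pe F.p A) (s : Fin m → ℝ)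
    (I : Fin m → Finset (Fin m)) (V : Fin m → Type) (z : ∀ j, PtT F → V j)
    (z' : ∀ j, LnT F → V j) (G : ∀ j, V j → Fin m → MvPolynomial (Option (Fin m)) ℝ),
    F.Tr → (Fam.sub F A hA).Tm (τ * J) → (∀ j, (I j).card = (j : ℕ)) →
    (∀ j, 0 ≤ s j ∧ s j ≤ 1) →
    (∀ j, LabOK F (I j) K J ⌊w * J⌋₊ ⌊s j * J⌋₊ A (z j) (z' j) (G j)) →
    ∃ B : F.Ω → Prop, Sub B A ∧ Real.exp (-(ε * J)) * Pe F.p A ≤ Pe F.p B ∧
      CH (Pool.Agent.H49.Ent.cond F.p B True) (F.D J)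
        (fun ω => ((fun j => z' j (slam F ⌊w * J⌋₊ ω)), (F.T1 ⌊w * J⌋₊ ω, F.Z ω))) ≤
        ((∑ j, (1 - s j)) + 2 * m * w) * Real.log 2 * J + ε * J

/-- **(THR)** The thresholds of the labels with `j` free coordinates, at the row `J`, and the
choice of the windows `w₁ < w₂`: the labels of class `K₀` on the windows `w₁` with precision `s j`
exist, and the thresholds for the windows `w₂` are at most `u j ≤ s j + x`, for all classes. -/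
def ThrStmt (m : ℕ) : Prop :=
  ∀ (S : PCl m), S.Ne → ∀ wp x : ℝ, 0 < wp → wp ≤ 1 → 0 < x →
    ∃ (S' : PCl m) (w₁ w₂ : ℝ) (K₀ : ℕ) (I : Fin m → Finset (Fin m)) (s u : Fin m → ℝ),
    S'.Ne ∧ (∀ (τ : ℝ) (J : ℕ) (F : Fam m J) (A : F.Ω → Prop), S'.St τ J F A → S.St τ J F A) ∧
    0 < w₁ ∧ w₁ < w₂ ∧ w₂ ≤ wp ∧ Monotone s ∧
    (∀ j, 0 < s j ∧ s j ≤ u j ∧ u j ≤ s j + x ∧ u j ≤ 1 ∧ (I j).card = (j : ℕ)) ∧
    (∀ j, Bas S' (fun J F A => GLab F (I j) K₀ J ⌊w₁ * J⌋₊ ⌊s j * J⌋₊ A)) ∧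
    ∀ (j : Fin m) (I' : Finset (Fin m)), I'.card = (j : ℕ) → ∀ (K : ℕ) (h : ℝ), 0 < h →
      u j + h ≤ 1 → Bas S' (fun J F A => ¬ GLab F I' K J ⌊w₂ * J⌋₊ ⌊(u j + h) * J⌋₊ A)

/-- **(SUN)** The rising sun with penalty: a row `Q` outside the intervals `(s j, u j]`, with a
tail for the number `i` of the live coordinates. -/
def SunStmt : Prop :=
  ∀ (n : ℕ) (r : ℝ → ℝ), ContinuousOn r (Set.Icc 0 1) → MonotoneOn r (Set.Icc 0 1) → r 0 = 0 →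
    ∀ (s u : Fin n → ℝ), Monotone s → (∀ j, 0 ≤ s j) → (∀ j, s j ≤ u j) → ∀ c e : ℝ, 0 < c →
    ∑ j, (u j - s j) ≤ e → r 1 < ∑ j, max (1 - s j) 0 - c - (n + 1) * e →
    ∃ Q : ℝ, 0 < Q ∧ Q ≤ 1 ∧ ∃ i : ℕ, 1 ≤ i ∧ i ≤ n ∧ (∀ j : Fin n, (j : ℕ) < i → u j < Q) ∧
      (∀ j : Fin n, i ≤ (j : ℕ) → Q ≤ s j) ∧ ∀ P, 0 ≤ P → P ≤ Q → r Q - r P ≤ (i - c) * (Q - P)

end Pool.GEN
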