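import Pool.Agent.H71.GEN.Zt
import Pool.Agent.H71.GEN.Nst

/-!
# Full zooms: the entropy of the positions, and the active velocities
-/

set_option autoImplicit false

namespace Pool.GEN

open Finset Real MvPolynomial
open Pool.Agent.H49.Ent Pool.Agent.H32.Dense Pool.STK Pool.KA Pool.KSAT Pool.K2S Pool.PB Pool.S6C
open Pool.FLF (Fam.sub)

variable {m n J : ℕ} {κ : Type}

section

variable {F : Fam m J} {w J' : ℕ} (h : w + J' = J) (g : F.Ω → κ) (e : Fin n → Fin m)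

/-- The condition of a full zoom. -/
theorem zw_iff {ω ω' : F.Ω} : (zf F w J' h.le g e).W ω = (zf F w J' h.le g e).W ω' ↔
    F.T ω = F.T ω' ∧ lb F w g ω = lb F w g ω' := by
  have h1 := Box.T1_box F h.le (idC m κ) g ω
  have h2 := Box.T1_box F h.le (idC m κ) g ω'
  have e1 : ∀ ω, F.T1 (w + J') ω = F.T ω := by
    intro ω
    change F.T ω / 2 ^ (J - (w + J')) = F.T ω
    rw [h, Nat.sub_self, pow_zero, Nat.div_one]
  rw [e1] at h1 h2
  constructor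
  · intro hh
    have a1 := Prod.ext_iff.mp hh
    have a2 : (F.box w (idC m κ) g).T1 J' ω = (F.box w (idC m κ) g).T1 J' ω' := a1.1
    have a3 : lb F w g ω = lb F w g ω' := a1.2
    refine ⟨?_, a3⟩
    rw [h1, h2, a2, (lb_iff.1 a3).1]
  · rintro ⟨hT, hl⟩
    refine Prod.ext ?_ hl
    change (F.box w (idC m κ) g).T1 J' ω = (F.box w (idC m κ) g).T1 J' ω'
    have h3 := (lb_iff.1 hl).1
    rw [hT, h3] at h1
    omega

/-- The positions of the zoom and of the family. -/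
theorem zx_near {ω ω' : F.Ω} (hT : F.T ω = F.T ω') (hl : lb F w g ω = lb F w g ω')
    (hX : F.X J ω = F.X J ω') (i : Fin n) :
    |(zf F w J' h.le g e).x ω i - (zf F w J' h.le g e).x ω' i| ≤ 7 / 2 ^ J' := by
  have pJ : (0 : ℝ) < 2 ^ J' := by positivity
  obtain ⟨b1, b2, b3, b4, b5⟩ := lb_iff.1 hl
  have c1 := zf_x F h.le g e ω i
  have c2 := zf_x F h.le g e ω' i
  have c3 : tb F w ω = tb F w ω' := by
    unfold tb Fam.t
    rw [hT, b1]
  rw [b3, b4, c3] at c1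
  have b6' := Plk.abs_sub_lt_of_floor (congrFun hX (e i) :
    ⌊(2 : ℝ) ^ J * F.x ω (e i)⌋ = ⌊(2 : ℝ) ^ J * F.x ω' (e i)⌋)
  have b6 : |2 ^ w * (F.x ω (e i) - F.x ω' (e i))| ≤ 1 / 2 ^ J' := by
    rw [le_div_iff₀ pJ]
    have e0 : (2 : ℝ) ^ J = 2 ^ w * 2 ^ J' := by rw [← h, pow_add]
    have e1 : (2 : ℝ) ^ J * F.x ω (e i) - 2 ^ J * F.x ω' (e i) =
        2 ^ w * (F.x ω (e i) - F.x ω' (e i)) * 2 ^ J' := by
      rw [e0]
      ring
    simp only at b6'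
    rw [e1, abs_mul, abs_of_pos pJ] at b6'
    exact b6'
  have e1 : (7 : ℝ) / 2 ^ J' = 3 / 2 ^ J' + 3 / 2 ^ J' + 1 / 2 ^ J' := by ring
  rw [e1]
  rw [abs_le] at b6 c1 c2 ⊢
  constructor <;> linarith [b6.1, b6.2, c1.1, c1.2, c2.1, c2.2]

/-- **The entropy of the positions of a full zoom.** -/
theorem zf_ent {q : F.Ω → ℝ} (hq : IsLaw q) :
    CH q ((zf F w J' h.le g e).X J') (zf F w J' h.le g e).W ≤
      CH q (F.X J) (fun ω => (F.T ω, (g ω, F.Z ω))) + n * Real.log 17 := by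
  have h0 := hq.nonneg
  have a1 := CH_le_add h0 ((zf F w J' h.le g e).X J') (F.X J) (zf F w J' h.le g e).W
  have a2 : CH q ((zf F w J' h.le g e).X J')
      (fun ω => (F.X J ω, (zf F w J' h.le g e).W ω)) ≤ n * Real.log 17 := by
    have key := ENP.CH_fl hq J' (zf F w J' h.le g e).x
      (fun ω => (F.X J ω, (zf F w J' h.le g e).W ω)) 7 (by
        intro ω ω' _ _ hh i
        have b1 := Prod.ext_iff.mp hh
        have b2 := (zw_iff h g e).1 b1.2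
        exact zx_near h g e b2.1 b2.2 b1.1 i)
    have e : (2 : ℝ) * 7 + 3 = 17 := by norm_num
    rw [e] at key
    exact key
  have a3 : CH q (F.X J) (zf F w J' h.le g e).W ≤
      CH q (F.X J) (fun ω => (F.T ω, (g ω, F.Z ω))) := by
    refine CH_mono_cond h0 (X := F.X J) ?_
    intro ω ω' _ _ hh
    have b2 := (zw_iff h g e).1 hh
    obtain ⟨c1, c2, c3, c4, c5⟩ := lb_iff.1 b2.2
    exact Prod.ext b2.1 (Prod.ext c2 c5)
  linarith

/-- The digits of the velocities of the zoom. -/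
theorem zd_eq {k : ℕ} (hk : k ≤ J') (ω : F.Ω) (i : Fin n) :
    (zf F w J' h.le g e).D k ω i = F.D k ω (e i) - 2 ^ k * vl F ω (e i) := by
  have pJ : (0 : ℝ) < 2 ^ J' := by positivity
  have pk : (0 : ℝ) < 2 ^ k := by positivity
  have e0 : (zf F w J' h.le g e).d ω i = (⌊(2 : ℝ) ^ J' * Int.fract (F.d ω (e i))⌋ : ℝ) / 2 ^ J' :=
    rfl
  have e1 : (vl F ω (e i) : ℤ) = ⌊F.d ω (e i)⌋ := by
    have : vl F ω (e i) = ⌊(2 : ℝ) ^ 0 * F.d ω (e i)⌋ := rfl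
    rw [this, pow_zero, one_mul]
  change ⌊(2 : ℝ) ^ k * (zf F w J' h.le g e).d ω i⌋ = ⌊(2 : ℝ) ^ k * F.d ω (e i)⌋ - 2 ^ k * vl F ω (e i)
  rw [e0, e1]
  obtain ⟨r, hr⟩ : ∃ r, r = Int.fract (F.d ω (e i)) := ⟨_, rfl⟩
  have e2 : (2 : ℝ) ^ k * F.d ω (e i) = 2 ^ k * r + ((2 ^ k * ⌊F.d ω (e i)⌋ : ℤ) : ℝ) := by
    rw [hr]
    push_cast
    have := Int.floor_add_fract (F.d ω (e i))
    linear_combination -(2 : ℝ) ^ k * this
  rw [e2, Int.floor_add_intCast, ← hr]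
  obtain ⟨l, hl⟩ : ∃ l, J' = k + l := ⟨J' - k, by omega⟩
  have pl : (0 : ℝ) < 2 ^ l := by positivity
  have e3 : ⌊(2 : ℝ) ^ k * ((⌊(2 : ℝ) ^ J' * r⌋ : ℝ) / 2 ^ J')⌋ = ⌊(2 : ℝ) ^ k * r⌋ := by
    have e4 : (2 : ℝ) ^ k * ((⌊(2 : ℝ) ^ J' * r⌋ : ℝ) / 2 ^ J') =
        (⌊(2 : ℝ) ^ J' * r⌋ : ℝ) / ((2 ^ l : ℕ) : ℝ) := by
      rw [hl, pow_add]
      push_cast
      field_simp
    rw [e4, Int.floor_div_natCast, Int.floor_intCast]
    have e5 : (2 : ℝ) ^ k * r = (2 ^ J' * r) / ((2 ^ l : ℕ) : ℝ) := by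
      rw [hl, pow_add]
      push_cast
      field_simp
    rw [e5, Int.floor_div_natCast]
  rw [e3]
  ring

/-- **The active velocities of a full zoom.** -/
theorem zf_act {q : F.Ω → ℝ} (hq : IsLaw q) (hg : Det q (fun ω => (F.X J ω, F.W ω)) g) {a b : ℕ}
    (ha : a ≤ J') (hb : b ≤ J') (i : Fin n) :
    CH q (fun ω => F.D b ω (e i)) (fun ω => (F.D a ω, (F.X J ω, F.W ω))) ≤
      CH q (fun ω => (zf F w J' h.le g e).D b ω i) (fun ω => ((zf F w J' h.le g e).D a ω,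
        ((zf F w J' h.le g e).X J' ω, (zf F w J' h.le g e).W ω))) +
      (2 * m * Real.log 7 + n * Real.log 17) := by
  have h0 := hq.nonneg
  have hw : w ≤ J := by omega
  obtain ⟨B, hB⟩ : ∃ B, B = fun ω => (F.D a ω, (F.X J ω, F.W ω)) := ⟨_, rfl⟩
  obtain ⟨B₁, hB₁⟩ : ∃ B₁, B₁ = fun ω => (cl F w ω, B ω) := ⟨_, rfl⟩
  obtain ⟨B₂, hB₂⟩ : ∃ B₂, B₂ = fun ω => (vl F ω, B₁ ω) := ⟨_, rfl⟩
  obtain ⟨B₃, hB₃⟩ : ∃ B₃, B₃ = fun ω => ((zf F w J' h.le g e).X J' ω, B₂ ω) := ⟨_, rfl⟩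
  obtain ⟨A, hA⟩ : ∃ A, A = fun ω => F.D b ω (e i) := ⟨_, rfl⟩
  -- the value of the condition
  have d0 : ∀ ω ω', B ω = B ω' → F.D a ω = F.D a ω' ∧ F.X J ω = F.X J ω' ∧ F.T ω = F.T ω' ∧
      F.Z ω = F.Z ω' := by
    intro ω ω' hh
    rw [hB] at hh
    have a1 := Prod.ext_iff.mp hh
    have a2 := Prod.ext_iff.mp a1.2
    have a3 := Prod.ext_iff.mp a2.2
    exact ⟨a1.1, a2.1, a3.1, a3.2⟩
  have d1 : ∀ ω ω', B₂ ω = B₂ ω' → vl F ω = vl F ω' ∧ cl F w ω = cl F w ω' ∧ B ω = B ω' := by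
    intro ω ω' hh
    rw [hB₂] at hh
    have a1 := Prod.ext_iff.mp hh
    have a2' : B₁ ω = B₁ ω' := a1.2
    rw [hB₁] at a2'
    have a2 := Prod.ext_iff.mp a2'
    exact ⟨a1.1, a2.1, a2.2⟩
  have d2 : ∀ ω ω', 0 < q ω → 0 < q ω' → B₂ ω = B₂ ω' → F.T ω = F.T ω' ∧
      lb F w g ω = lb F w g ω' := by
    intro ω ω' hω hω' hh
    obtain ⟨a1, a2, a3⟩ := d1 ω ω' hh
    obtain ⟨b1, b2, b3, b4⟩ := d0 ω ω' a3
    refine ⟨b3, lb_iff.2 ⟨?_, hg ω ω' hω hω' ?_, a2, a1, b4⟩⟩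
    · unfold Fam.T1
      rw [b3]
    · exact Prod.ext b2 (Prod.ext b3 b4)
  -- the steps
  have s1 := CH_le_add h0 A (cl F w) B
  have s2 := CH_le_add h0 A (vl F) B₁
  have s3 := CH_le_add h0 A ((zf F w J' h.le g e).X J') B₂
  have t1 : CH q (cl F w) B ≤ m * Real.log 7 := by
    have key := ENP.CH_fl hq 0 (fun ω i => (cl F w ω i : ℝ)) B 2 (by
      intro ω ω' _ _ hh i
      obtain ⟨b1, b2, b3, b4⟩ := d0 ω ω' hh
      have c1 := cl_near F hw ω i
      have c2 := cl_near F hw ω' i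
      have c3 : F.X w ω i = F.X w ω' i := by
        obtain ⟨l, hl⟩ : ∃ l, J = w + l := ⟨J - w, by omega⟩
        have e1 : ∀ ω, F.X w ω i = ⌊((2 : ℝ) ^ J * F.x ω i) / ((2 ^ l : ℕ) : ℝ)⌋ := by
          intro ω
          change ⌊(2 : ℝ) ^ w * F.x ω i⌋ = _
          congr 1
          have e2 : (2 : ℝ) ^ J = 2 ^ w * 2 ^ l := by rw [← pow_add, ← hl]
          rw [e2]
          push_cast
          field_simp
        rw [e1, e1, Int.floor_div_natCast, Int.floor_div_natCast]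
        have e3 : ⌊(2 : ℝ) ^ J * F.x ω i⌋ = ⌊(2 : ℝ) ^ J * F.x ω' i⌋ := congrFun b2 i
        rw [e3]
      rw [c3] at c1
      have c4 : ((cl F w ω i : ℤ) : ℝ) - cl F w ω' i ≤ 2 := by
        exact_mod_cast (by omega : cl F w ω i - cl F w ω' i ≤ 2)
      have c5 : (-2 : ℝ) ≤ ((cl F w ω i : ℤ) : ℝ) - cl F w ω' i := by
        exact_mod_cast (by omega : -2 ≤ cl F w ω i - cl F w ω' i)
      rw [pow_zero, div_one, abs_le]
      exact ⟨c5, c4⟩)
    have e1 : (fun ω => fl 0 (fun i => (cl F w ω i : ℝ))) = cl F w := by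
      funext ω i
      change ⌊(2 : ℝ) ^ 0 * (cl F w ω i : ℝ)⌋ = cl F w ω i
      rw [pow_zero, one_mul, Int.floor_intCast]
    rw [e1] at key
    have e2 : (2 : ℝ) * 2 + 3 = 7 := by norm_num
    rw [e2] at key
    exact key
  have t2 : CH q (vl F) B₁ ≤ m * Real.log 7 := by
    have key := ENP.CH_fl hq 0 (fun ω i => (vl F ω i : ℝ)) B₁ 2 (by
      intro ω ω' _ _ _ i
      have c1 := vl_near F ω i
      have c2 := vl_near F ω' i
      have c4 : ((vl F ω i : ℤ) : ℝ) - vl F ω' i ≤ 2 := by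
        exact_mod_cast (by omega : vl F ω i - vl F ω' i ≤ 2)
      have c5 : (-2 : ℝ) ≤ ((vl F ω i : ℤ) : ℝ) - vl F ω' i := by
        exact_mod_cast (by omega : -2 ≤ vl F ω i - vl F ω' i)
      rw [pow_zero, div_one, abs_le]
      exact ⟨c5, c4⟩)
    have e1 : (fun ω => fl 0 (fun i => (vl F ω i : ℝ))) = vl F := by
      funext ω i
      change ⌊(2 : ℝ) ^ 0 * (vl F ω i : ℝ)⌋ = vl F ω i
      rw [pow_zero, one_mul, Int.floor_intCast]
    rw [e1] at key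
    have e2 : (2 : ℝ) * 2 + 3 = 7 := by norm_num
    rw [e2] at key
    exact key
  have t3 : CH q ((zf F w J' h.le g e).X J') B₂ ≤ n * Real.log 17 := by
    have key := ENP.CH_fl hq J' (zf F w J' h.le g e).x B₂ 7 (by
      intro ω ω' hω hω' hh i
      have b2 := d2 ω ω' hω hω' hh
      exact zx_near h g e b2.1 b2.2 (d0 ω ω' (d1 ω ω' hh).2.2).2.1 i)
    have e2 : (2 : ℝ) * 7 + 3 = 17 := by norm_num
    rw [e2] at key
    exact key
  have t4 : CH q A (fun ω => ((zf F w J' h.le g e).X J' ω, B₂ ω)) ≤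
      CH q (fun ω => (zf F w J' h.le g e).D b ω i) (fun ω => ((zf F w J' h.le g e).D a ω,
        ((zf F w J' h.le g e).X J' ω, (zf F w J' h.le g e).W ω))) := by
    have u1 : CH q A (fun ω => ((zf F w J' h.le g e).X J' ω, B₂ ω)) =
        CH q (fun ω => (zf F w J' h.le g e).D b ω i)
          (fun ω => ((zf F w J' h.le g e).X J' ω, B₂ ω)) := by
      refine CH_congr h0 ?_ ?_ (fun _ _ _ _ hh => hh) (fun _ _ _ _ hh => hh)
      · intro ω ω' _ _ hh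
        have a1 := Prod.ext_iff.mp hh
        have a2 := Prod.ext_iff.mp a1.2
        have a3 := d1 ω ω' a2.2
        change (zf F w J' h.le g e).D b ω i = (zf F w J' h.le g e).D b ω' i
        have a4 : A ω = A ω' := a1.1
        rw [hA] at a4
        simp only at a4
        rw [zd_eq h g e hb ω i, zd_eq h g e hb ω' i, a4, a3.1]
      · intro ω ω' _ _ hh
        have a1 := Prod.ext_iff.mp hh
        have a2 := Prod.ext_iff.mp a1.2
        have a3 := d1 ω ω' a2.2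
        change A ω = A ω'
        rw [hA]
        simp only
        have a4 : (zf F w J' h.le g e).D b ω i = (zf F w J' h.le g e).D b ω' i := a1.1
        rw [zd_eq h g e hb ω i, zd_eq h g e hb ω' i, a3.1] at a4
        linarith
    rw [u1]
    refine CH_mono_cond h0 ?_
    intro ω ω' hω hω' hh
    have a1 := Prod.ext_iff.mp hh
    have a3 := d1 ω ω' a1.2
    have b2 := d2 ω ω' hω hω' a1.2
    refine Prod.ext ?_ (Prod.ext a1.1 ((zw_iff h g e).2 b2))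
    change (zf F w J' h.le g e).D a ω = (zf F w J' h.le g e).D a ω'
    funext k
    rw [zd_eq h g e ha ω k, zd_eq h g e ha ω' k, a3.1, (d0 ω ω' a3.2.2).1]
  rw [← hB, ← hA]
  have v1 : CH q A (fun ω => (cl F w ω, B ω)) = CH q A B₁ := by rw [hB₁]
  have v2 : CH q A (fun ω => (vl F ω, B₁ ω)) = CH q A B₂ := by rw [hB₂]
  rw [v1] at s1
  rw [v2] at s2
  linarith

end

end Pool.GEN
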