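import Pool.Agent.H71.GEN.Stm
import Pool.Agent.H89.ZCL.Tail
import Pool.Agent.H35.ZCL.Zoom

/-!
# The zoom of a family, with some of the coordinates

`zf F w J' h g e`: the family in the windows of length `2 ^ (-w)` and in the balls of radius
`2 ^ (-w)`, at the resolution `J'`, with rounded lines, with the side information `g`, and with the
coordinates `e` only.
-/

set_option autoImplicit false

namespace Pool.GEN

open Finset Real MvPolynomial
open Pool.Agent.H49.Ent Pool.Agent.H32.Dense Pool.STK Pool.KA Pool.KSAT Pool.K2S Pool.PB Pool.S6C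
open Pool.FLF (Fam.sub)

variable {m n J : ℕ} {κ : Type}

/-- Some of the coordinates of a family. -/
def prj (F : Fam m J) (e : Fin n → Fin m) : Fam n J where
  Ω := F.Ω
  ζ := F.ζ
  fin := F.fin
  p := F.p
  u := fun ω i => F.u ω (e i)
  d := fun ω i => F.d ω (e i)
  T := F.T
  Z := F.Z
  isLaw := F.isLaw
  dir := fun ω i => F.dir ω (e i)
  tim := F.tim

/-- The coordinates themselves. -/
def idC (m : ℕ) (κ : Type) : Crd m κ where
  L := fun _ x => x
  lin := fun _ _ _ _ _ => rfl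
  inj := fun _ _ _ h => h

/-- **The zoom with the coordinates `e`.** -/
noncomputable def zf (F : Fam m J) (w J' : ℕ) (h : w + J' ≤ J) (g : F.Ω → κ) (e : Fin n → Fin m) :
    Fam n J' := prj (F.zm w J' h (idC m κ) g) e

/-- The label of the box. -/
noncomputable def lb (F : Fam m J) (w : ℕ) (g : F.Ω → κ) (ω : F.Ω) :
    ((ℕ × κ) × ((Fin m → ℤ) × (Fin m → ℤ))) × F.ζ := F.blab w (idC m κ) g ω

/-- The cell of the position at the beginning of the window. -/
noncomputable def cl (F : Fam m J) (w : ℕ) (ω : F.Ω) : Fin m → ℤ := fl w (F.x1 w ω)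

/-- The cell of the velocity. -/
noncomputable def vl (F : Fam m J) (ω : F.Ω) : Fin m → ℤ := fl 0 (F.d ω)

/-- The time in the box. -/
noncomputable def tb (F : Fam m J) (w : ℕ) (ω : F.Ω) : ℝ := 2 ^ w * F.t ω - F.T1 w ω

theorem lb_eq (F : Fam m J) (w : ℕ) (g : F.Ω → κ) (ω : F.Ω) :
    lb F w g ω = (((F.T1 w ω, g ω), (cl F w ω, vl F ω)), F.Z ω) := rfl

theorem lb_iff {F : Fam m J} {w : ℕ} {g : F.Ω → κ} {ω ω' : F.Ω} :
    lb F w g ω = lb F w g ω' ↔ F.T1 w ω = F.T1 w ω' ∧ g ω = g ω' ∧ cl F w ω = cl F w ω' ∧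
      vl F ω = vl F ω' ∧ F.Z ω = F.Z ω' := by
  rw [lb_eq, lb_eq]
  constructor
  · intro h
    have h4 := Prod.ext_iff.mp h
    have h5 := Prod.ext_iff.mp h4.1
    exact ⟨(Prod.ext_iff.mp h5.1).1, (Prod.ext_iff.mp h5.1).2, (Prod.ext_iff.mp h5.2).1,
      (Prod.ext_iff.mp h5.2).2, h4.2⟩
  · rintro ⟨h1, h2, h3, h4, h5⟩
    rw [h1, h2, h3, h4, h5]

theorem tb_mem (F : Fam m J) {w : ℕ} (hw : w ≤ J) (ω : F.Ω) : 0 ≤ tb F w ω ∧ tb F w ω < 1 := by
  have := T1_real F hw ω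
  exact this

theorem box_t_eq (F : Fam m J) {w : ℕ} (hw : w ≤ J) (g : F.Ω → κ) (ω : F.Ω) :
    (F.box w (idC m κ) g).t ω = tb F w ω := by
  have h1 := Box.box_t F hw (idC m κ) g ω
  unfold tb
  rw [h1]
  field_simp
  ring

/-- Positions with the same time, in the same box. -/
theorem x_near (F : Fam m J) {w : ℕ} (hw : w ≤ J) {ω ω' : F.Ω} (hT : F.T ω = F.T ω')
    (h1 : F.T1 w ω = F.T1 w ω') (hc : cl F w ω = cl F w ω') (j : Fin m) :
    |F.x ω j - F.x ω' j| ≤ 5 / 2 ^ w := by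
  have pw : (0 : ℝ) < 2 ^ w := by positivity
  have e1 : ∀ ω, F.x ω j = F.x1 w ω j + tb F w ω / 2 ^ w * F.d ω j := by
    intro ω
    unfold Fam.x Fam.x1 tb
    field_simp
    ring
  have ht : tb F w ω = tb F w ω' := by
    unfold tb Fam.t
    rw [hT, h1]
  have h3 := tb_mem F hw ω'
  have h4 := Plk.abs_sub_lt_of_floor (congrFun hc j :
    ⌊(2 : ℝ) ^ w * F.x1 w ω j⌋ = ⌊(2 : ℝ) ^ w * F.x1 w ω' j⌋)
  rw [← mul_sub, abs_mul, abs_of_pos pw] at h4
  have h5 : |F.x1 w ω j - F.x1 w ω' j| ≤ 1 / 2 ^ w := by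
    rw [le_div_iff₀ pw]
    linarith
  have h6 : |tb F w ω' / 2 ^ w * (F.d ω j - F.d ω' j)| ≤ 2 / 2 ^ w := by
    rw [abs_mul, abs_of_nonneg (div_nonneg h3.1 pw.le)]
    have h7 : |F.d ω j - F.d ω' j| ≤ 2 := by
      have a1 := abs_le.1 (F.dir ω j)
      have a2 := abs_le.1 (F.dir ω' j)
      rw [abs_le]
      constructor <;> linarith
    have h8 : tb F w ω' / 2 ^ w ≤ 1 / 2 ^ w := div_le_div_of_nonneg_right h3.2.le pw.le
    calc tb F w ω' / 2 ^ w * |F.d ω j - F.d ω' j| ≤ 1 / 2 ^ w * 2 :=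
          mul_le_mul h8 h7 (abs_nonneg _) (by positivity)
      _ = 2 / 2 ^ w := by ring
  have e2 : F.x ω j - F.x ω' j = (F.x1 w ω j - F.x1 w ω' j) +
      tb F w ω' / 2 ^ w * (F.d ω j - F.d ω' j) := by
    rw [e1, e1, ht]
    ring
  rw [e2]
  have e3 : (5 : ℝ) / 2 ^ w = 1 / 2 ^ w + 2 / 2 ^ w + 2 * (1 / 2 ^ w) := by ring
  have e4 : (0 : ℝ) ≤ 1 / 2 ^ w := by positivity
  rw [e3]
  rw [abs_le] at h5 h6 ⊢
  constructor <;> linarith [h5.1, h5.2, h6.1, h6.2]

section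

variable (F : Fam m J) {w J' : ℕ} (h : w + J' ≤ J) (g : F.Ω → κ) (e : Fin n → Fin m)

theorem zf_Tm (hg : Det F.p (fun ω => (F.l ω, (F.T1 w ω, F.Z ω))) g) {e₀ : ℝ} (he : F.Tm e₀) :
    (zf F w J' h g e).Tm e₀ := by
  have h1 := Pool.ZCL.zm_Tm F h (idC m κ) g hg he
  unfold Fam.Tm at h1 ⊢
  refine h1.trans (CH_mono_cond F.isLaw.nonneg (X := (F.zm w J' h (idC m κ) g).T)
    (W' := fun ω => ((F.zm w J' h (idC m κ) g).l ω, (F.zm w J' h (idC m κ) g).Z ω))
    (W := fun ω => ((zf F w J' h g e).l ω, (zf F w J' h g e).Z ω)) ?_)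
  intro ω ω' _ _ e1
  have e2 := Prod.ext_iff.1 e1
  simp only at e2
  have e3 := Prod.ext_iff.1 e2.1
  refine Prod.ext (Prod.ext ?_ ?_) e2.2
  · funext i
    exact congrFun e3.1 (e i)
  · funext i
    exact congrFun e3.2 (e i)

theorem zf_lines : ∀ z, 0 < law (zf F w J' h g e).p (zf F w J' h g e).Z z →
    H (cond (zf F w J' h g e).p (zf F w J' h g e).Z z) (zf F w J' h g e).l ≤ 2 * m * J' := by
  intro z hz
  refine le_trans ?_ (Pool.ZCL.zm_lines F h (idC m κ) g z hz)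
  refine H_mono (cond_nonneg F.isLaw.nonneg _ _) ?_
  intro ω ω' _ _ e1
  have e3 := Prod.ext_iff.1 e1
  refine Prod.ext ?_ ?_
  · funext i
    exact congrFun e3.1 (e i)
  · funext i
    exact congrFun e3.2 (e i)

theorem zf_x (ω : F.Ω) (i : Fin n) : |(zf F w J' h g e).x ω i - (2 ^ w * F.x ω (e i) -
    cl F w ω (e i) - tb F w ω * vl F ω (e i))| ≤ 3 / 2 ^ J' := by
  have h1 := Pool.ZCL.zm_x F h (idC m κ) g ω (e i)
  rw [box_t_eq F (by omega : w ≤ J) g ω] at h1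
  exact h1

theorem zf_d (ω : F.Ω) (i : Fin n) : |(zf F w J' h g e).d ω i - (F.d ω (e i) -
    vl F ω (e i))| ≤ 1 / 2 ^ J' := Pool.ZCL.zm_d F h (idC m κ) g ω (e i)

/-- The time of the zoom. -/
theorem zf_T (ω : F.Ω) : (zf F w J' h g e).T ω = F.T1 (w + J') ω - 2 ^ J' * F.T1 w ω := by
  have h1 := Box.T1_box F h (idC m κ) g ω
  have h2 : (zf F w J' h g e).T ω = (F.box w (idC m κ) g).T1 J' ω := rfl
  rw [h2]
  omega

theorem zf_t (ω : F.Ω) : 0 ≤ tb F w ω - (zf F w J' h g e).t ω ∧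
    tb F w ω - (zf F w J' h g e).t ω ≤ 1 / 2 ^ J' := by
  have p0 : (0 : ℝ) < 2 ^ J' := by positivity
  have h1 := Box.T1_box F h (idC m κ) g ω
  have h2 : (zf F w J' h g e).t ω = ((F.box w (idC m κ) g).T1 J' ω : ℝ) / 2 ^ J' := rfl
  have h3 := T1_real F h ω
  have h4 : ((F.box w (idC m κ) g).T1 J' ω : ℝ) = F.T1 (w + J') ω - 2 ^ J' * F.T1 w ω := by
    have : (F.T1 (w + J') ω : ℝ) = ((2 ^ J' * F.T1 w ω + (F.box w (idC m κ) g).T1 J' ω : ℕ) : ℝ) := by
      rw [h1]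
    push_cast at this
    linarith
  rw [h2, h4]
  unfold tb
  have e1 : 2 ^ w * F.t ω - (F.T1 w ω : ℝ) - ((F.T1 (w + J') ω : ℝ) - 2 ^ J' * F.T1 w ω) / 2 ^ J' =
      (2 ^ (w + J') * F.t ω - F.T1 (w + J') ω) / 2 ^ J' := by
    rw [pow_add]
    field_simp
    ring
  rw [e1]
  constructor
  · exact div_nonneg h3.1 p0.le
  · exact div_le_div_of_nonneg_right h3.2.le p0.le

/-- The lines and the windows of the zoom are functions of the lines and the windows. -/
theorem zf_det {v : ℕ} (hv : v ≤ J') {ω ω' : F.Ω} (hl : F.l ω = F.l ω')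
    (hT : F.T1 (w + v) ω = F.T1 (w + v) ω') (hg : g ω = g ω') (hZ : F.Z ω = F.Z ω') :
    slam (zf F w J' h g e) v ω = slam (zf F w J' h g e) v ω' ∧ lb F w g ω = lb F w g ω' ∧
      F.T1 w ω = F.T1 w ω' := by
  have hwv : w + v ≤ J := by omega
  have a3 : F.T1 w ω = F.T1 w ω' := by
    rw [T1_div F hwv ω, T1_div F hwv ω', hT]
  have a5 := Box.blab_det F (C := idC m κ) hl a3 hg hZ
  have a6 : (F.box w (idC m κ) g).T1 v ω = (F.box w (idC m κ) g).T1 v ω' := by
    have c1 := Box.T1_box F hwv (idC m κ) g ω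
    have c2 := Box.T1_box F hwv (idC m κ) g ω'
    rw [hT, a3] at c1
    omega
  have a7 : (F.box w (idC m κ) g).u ω = (F.box w (idC m κ) g).u ω' := (Prod.ext_iff.mp a5.2).1
  have a8 : (F.box w (idC m κ) g).d ω = (F.box w (idC m κ) g).d ω' := (Prod.ext_iff.mp a5.2).2
  refine ⟨?_, a5.1, a3⟩
  refine Prod.ext (Prod.ext ?_ ?_) (Prod.ext a5.1 ?_)
  · funext i
    change (⌊(2 : ℝ) ^ J' * (F.box w (idC m κ) g).u ω (e i)⌋ : ℝ) / 2 ^ J' =
      (⌊(2 : ℝ) ^ J' * (F.box w (idC m κ) g).u ω' (e i)⌋ : ℝ) / 2 ^ J'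
    rw [a7]
  · funext i
    change (⌊(2 : ℝ) ^ J' * (F.box w (idC m κ) g).d ω (e i)⌋ : ℝ) / 2 ^ J' =
      (⌊(2 : ℝ) ^ J' * (F.box w (idC m κ) g).d ω' (e i)⌋ : ℝ) / 2 ^ J'
    rw [a8]
  · have e1 : ∀ ω, (slam (zf F w J' h g e) v ω).2.2 = (F.box w (idC m κ) g).T1 v ω := by
      intro ω
      change (F.T ω % 2 ^ (J - w)) / 2 ^ (J - w - J') / 2 ^ (J' - v) =
        (F.T ω % 2 ^ (J - w)) / 2 ^ (J - w - v)
      rw [Nat.div_div_eq_div_mul, ← pow_add]
      congr 2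
      omega
    exact (e1 ω).trans (a6.trans (e1 ω').symm)

/-- The position of the zoom is a function of its line and its time. -/
theorem zf_pos_det {ω ω' : F.Ω}
    (hs : slam (zf F w J' h g e) J' ω = slam (zf F w J' h g e) J' ω') :
    (zf F w J' h g e).x ω = (zf F w J' h g e).x ω' ∧
      (zf F w J' h g e).W ω = (zf F w J' h g e).W ω' := by
  have h1 := Prod.ext_iff.1 hs
  have h2 := Prod.ext_iff.1 h1.1
  have h3 := Prod.ext_iff.1 h1.2
  have hT : ∀ ω, (slam (zf F w J' h g e) J' ω).2.2 = (zf F w J' h g e).T ω := by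
    intro ω
    change (zf F w J' h g e).T ω / 2 ^ (J' - J') = _
    rw [Nat.sub_self, pow_zero, Nat.div_one]
  have h4 : (zf F w J' h g e).T ω = (zf F w J' h g e).T ω' :=
    (hT ω).symm.trans (h3.2.trans (hT ω'))
  have h5 : (zf F w J' h g e).u ω = (zf F w J' h g e).u ω' := h2.1
  have h6 : (zf F w J' h g e).d ω = (zf F w J' h g e).d ω' := h2.2
  refine ⟨?_, Prod.ext h4 h3.1⟩
  funext i
  unfold Fam.x Fam.t
  rw [h4, h5, h6]

/-- The truncated time does not change the entropy of the rows, up to the time deficit. -/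
theorem zf_time {P : ℕ} {q : F.Ω → ℝ} (hq : IsLaw q)
    (hg : Det q (fun ω => (F.l ω, (F.T1 w ω, F.Z ω))) g) {e₀ : ℝ}
    (hTm : (J : ℝ) * Real.log 2 - e₀ ≤ CH q F.T (fun ω => (F.l ω, F.Z ω))) :
    CH q ((zf F w J' h g e).X J')
        (fun ω => ((zf F w J' h g e).X P ω, (zf F w J' h g e).W ω)) ≤
      CH q ((zf F w J' h g e).X J')
        (fun ω => ((zf F w J' h g e).X P ω, (F.T ω, lb F w g ω))) + e₀ := by
  have h0 := hq.nonneg
  obtain ⟨X', hX'⟩ : ∃ X' : F.Ω → Fin n → ℤ, X' = (zf F w J' h g e).X J' := ⟨_, rfl⟩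
  obtain ⟨XP, hXP⟩ : ∃ XP : F.Ω → Fin n → ℤ, XP = (zf F w J' h g e).X P := ⟨_, rfl⟩
  obtain ⟨V, hV⟩ : ∃ V, V = fun ω => (XP ω, (zf F w J' h g e).W ω) := ⟨_, rfl⟩
  have main : CH q X' V ≤ CH q X' (fun ω => (XP ω, (F.T ω, lb F w g ω))) + e₀ := by
    obtain ⟨k, hk⟩ : ∃ k, k = J - (w + J') := ⟨_, rfl⟩
    have hT1 : ∀ ω, F.T1 (w + J') ω = F.T ω / 2 ^ k := fun ω => by
      rw [hk]
      rfl
    have hTs : ∀ ω, F.T ω = 2 ^ k * F.T1 (w + J') ω + F.T ω % 2 ^ k := fun ω => by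
      rw [hT1]
      exact (Nat.div_add_mod _ _).symm
    -- the window of length `2 ^ (-(w + J'))` is a function of `V`
    have hV1 : ∀ ω ω', V ω = V ω' → XP ω = XP ω' ∧ F.T1 (w + J') ω = F.T1 (w + J') ω' ∧
        lb F w g ω = lb F w g ω' := by
      intro ω ω' hh
      rw [hV] at hh
      have a1 := Prod.ext_iff.mp hh
      have a2 := Prod.ext_iff.mp a1.2
      have a5 : lb F w g ω = lb F w g ω' := a2.2
      have a3 := (lb_iff.1 a5).1
      have a4 : (zf F w J' h g e).T ω = (zf F w J' h g e).T ω' := a2.1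
      have a6 : (F.box w (idC m κ) g).T1 J' ω = (F.box w (idC m κ) g).T1 J' ω' := a4
      refine ⟨a1.1, ?_, a5⟩
      rw [Box.T1_box F h (idC m κ) g ω, Box.T1_box F h (idC m κ) g ω', a3, a6]
    -- everything is a function of the line and the window
    have hdet : Det q (fun ω => (F.T1 (w + J') ω, (F.l ω, F.Z ω))) (fun ω => (X' ω, V ω)) := by
      intro ω ω' hω hω' hh
      have a1 := Prod.ext_iff.mp hh
      have a2 := Prod.ext_iff.mp a1.2
      simp only at a1 a2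
      have a3 : F.T1 w ω = F.T1 w ω' := by
        rw [T1_div F h ω, T1_div F h ω', a1.1]
      have a4 : g ω = g ω' := hg ω ω' hω hω' (Prod.ext a2.1 (Prod.ext a3 a2.2))
      have a5 := (zf_det F h g e le_rfl a2.1 a1.1 a4 a2.2).1
      have a6 := zf_pos_det F h g e a5
      rw [hX', hV, hXP]
      unfold Fam.X
      simp only [a6.1, a6.2]
    -- upper bound for the time
    have d1 : CH q F.T V ≤ k * Real.log 2 := by
      have c1 := CH_le_add h0 F.T (fun ω => F.T ω % 2 ^ k) V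
      have c2 := TRC.CH_lt hq (fun ω => F.T ω % 2 ^ k) V k
        (fun ω => Nat.mod_lt _ (by positivity))
      have c3 : CH q F.T (fun ω => (F.T ω % 2 ^ k, V ω)) = 0 := by
        refine CH_eq_zero h0 fun ω ω' _ _ hh => ?_
        have a1 := Prod.ext_iff.mp hh
        simp only at a1
        rw [hTs ω, hTs ω', a1.1, (hV1 ω ω' a1.2).2.1]
      linarith
    -- lower bound for the time
    have d2 : k * Real.log 2 - e₀ ≤ CH q F.T (fun ω => (X' ω, V ω)) := by
      have c1 := CH_mono_cond h0 (X := F.T) hdet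
      have c2 := CH_le_add h0 F.T (F.T1 (w + J')) (fun ω => (F.l ω, F.Z ω))
      have c3 := TRC.CH_lt hq (F.T1 (w + J')) (fun ω => (F.l ω, F.Z ω)) (w + J') (fun ω => by
        rw [hT1, Nat.div_lt_iff_lt_mul (by positivity), ← pow_add]
        have h1 := F.tim ω
        have e1 : w + J' + k = J := by omega
        rwa [e1])
      have c5 : (J : ℝ) = (w + J' : ℕ) + k := by
        have : J = w + J' + k := by omega
        exact_mod_cast this
      rw [c5] at hTm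
      linarith
    -- the chain rule
    have c1 := CH_chain h0 X' F.T V
    have c2 := CH_chain h0 F.T X' V
    have c3 : CH q (fun ω => (X' ω, F.T ω)) V = CH q (fun ω => (F.T ω, X' ω)) V := by
      refine CH_congr h0 ?_ ?_ (fun _ _ _ _ hh => hh) (fun _ _ _ _ hh => hh)
      · intro ω ω' _ _ hh
        have a1 := Prod.ext_iff.mp (Prod.ext_iff.mp hh).1
        exact Prod.ext a1.2 a1.1
      · intro ω ω' _ _ hh
        have a1 := Prod.ext_iff.mp (Prod.ext_iff.mp hh).1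
        exact Prod.ext a1.2 a1.1
    have c4 := CH_mono_cond h0 (X := X') (W' := fun ω => (F.T ω, V ω))
      (W := fun ω => (XP ω, (F.T ω, lb F w g ω))) (fun ω ω' _ _ hh => by
        have a1 := Prod.ext_iff.mp hh
        simp only at a1
        have a2 := hV1 ω ω' a1.2
        exact Prod.ext a2.1 (Prod.ext a1.1 a2.2.2))
    linarith
  rw [hV, hX', hXP] at main
  exact main

/-- **The rows of the zoom** are at most the rows of the family with the side information `g`, if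
the other coordinates are Lipschitz functions of the coordinates `e`, given `g` and the time. -/
theorem zf_row {P : ℕ} (hP : P ≤ J') {q : F.Ω → ℝ} (hq : IsLaw q) {Ck : ℝ}
    (hcrd : ∀ ω ω', 0 < q ω → 0 < q ω' → F.T ω = F.T ω' → g ω = g ω' → F.Z ω = F.Z ω' →
      (∀ i, |F.x ω (e i) - F.x ω' (e i)| ≤ 7 / 2 ^ (w + P)) →
      (∀ j, |F.x ω j - F.x ω' j| ≤ 5 / 2 ^ w) →
      ∀ j, |F.x ω j - F.x ω' j| ≤ Ck / 2 ^ (w + P)) :
    CH q ((zf F w J' h g e).X J')
        (fun ω => ((zf F w J' h g e).X P ω, (F.T ω, lb F w g ω))) ≤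
      CH q (F.X (w + J')) (fun ω => (F.X (w + P) ω, (F.T ω, (g ω, F.Z ω)))) +
        (n * Real.log 17 + m * Real.log (2 * Ck + 3)) := by
  have h0 := hq.nonneg
  have hwJ : w ≤ J := by omega
  have pw : (0 : ℝ) < 2 ^ w := by positivity
  have pJ : (0 : ℝ) < 2 ^ J' := by positivity
  have pP : (0 : ℝ) < 2 ^ P := by positivity
  have hinv : (1 : ℝ) / 2 ^ J' ≤ 1 / 2 ^ P := inv_mono hP
  -- the difference of the positions
  have hdiff : ∀ ω ω', F.T ω = F.T ω' → lb F w g ω = lb F w g ω' → ∀ i,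
      |((zf F w J' h g e).x ω i - (zf F w J' h g e).x ω' i) -
        2 ^ w * (F.x ω (e i) - F.x ω' (e i))| ≤ 6 / 2 ^ J' := by
    intro ω ω' hT hl i
    obtain ⟨b1, b2, b3, b4, b5⟩ := lb_iff.1 hl
    have c1 := zf_x F h g e ω i
    have c2 := zf_x F h g e ω' i
    have c3 : tb F w ω = tb F w ω' := by
      unfold tb Fam.t
      rw [hT, b1]
    rw [b3, b4, c3] at c1
    have e1 : (6 : ℝ) / 2 ^ J' = 3 / 2 ^ J' + 3 / 2 ^ J' := by ring
    rw [e1]
    rw [abs_le] at c1 c2 ⊢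
    constructor <;> linarith [c1.1, c1.2, c2.1, c2.2]
  have a1 := CH_le_add h0 ((zf F w J' h g e).X J') (F.X (w + J'))
    (fun ω => ((zf F w J' h g e).X P ω, (F.T ω, lb F w g ω)))
  have a2 : CH q ((zf F w J' h g e).X J') (fun ω => (F.X (w + J') ω,
      ((zf F w J' h g e).X P ω, (F.T ω, lb F w g ω)))) ≤ n * Real.log 17 := by
    have key := ENP.CH_fl hq J' (zf F w J' h g e).x (fun ω => (F.X (w + J') ω,
      ((zf F w J' h g e).X P ω, (F.T ω, lb F w g ω)))) 7 (by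
        intro ω ω' _ _ hh i
        have b1 := Prod.ext_iff.mp hh
        have b2 := Prod.ext_iff.mp b1.2
        have b3 := Prod.ext_iff.mp b2.2
        have b4 := hdiff ω ω' b3.1 b3.2 i
        have b5 := Plk.abs_sub_lt_of_floor (congrFun b1.1 (e i) :
          ⌊(2 : ℝ) ^ (w + J') * F.x ω (e i)⌋ = ⌊(2 : ℝ) ^ (w + J') * F.x ω' (e i)⌋)
        have b6 : |2 ^ w * (F.x ω (e i) - F.x ω' (e i))| ≤ 1 / 2 ^ J' := by
          rw [le_div_iff₀ pJ]
          have e1 : (2 : ℝ) ^ (w + J') * F.x ω (e i) - 2 ^ (w + J') * F.x ω' (e i) =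
              2 ^ w * (F.x ω (e i) - F.x ω' (e i)) * 2 ^ J' := by
            rw [pow_add]
            ring
          rw [e1, abs_mul, abs_of_pos pJ] at b5
          exact b5
        have e1 : (7 : ℝ) / 2 ^ J' = 6 / 2 ^ J' + 1 / 2 ^ J' := by ring
        rw [e1]
        rw [abs_le] at b4 b6 ⊢
        constructor <;> linarith [b4.1, b4.2, b6.1, b6.2])
    have e : (2 : ℝ) * 7 + 3 = 17 := by norm_num
    rw [e] at key
    exact key
  have a3 := CH_le_add h0 (F.X (w + J')) (F.X (w + P))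
    (fun ω => ((zf F w J' h g e).X P ω, (F.T ω, lb F w g ω)))
  have a4 : CH q (F.X (w + J')) (fun ω => (F.X (w + P) ω,
      ((zf F w J' h g e).X P ω, (F.T ω, lb F w g ω)))) ≤
      CH q (F.X (w + J')) (fun ω => (F.X (w + P) ω, (F.T ω, (g ω, F.Z ω)))) := by
    refine CH_mono_cond h0 ?_
    intro ω ω' _ _ hh
    have b1 := Prod.ext_iff.mp hh
    have b2 := Prod.ext_iff.mp b1.2
    have b3 := Prod.ext_iff.mp b2.2
    simp only at b3
    obtain ⟨c1, c2, c3, c4, c5⟩ := lb_iff.1 b3.2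
    exact Prod.ext b1.1 (Prod.ext b3.1 (Prod.ext c2 c5))
  have a5 : CH q (F.X (w + P)) (fun ω => ((zf F w J' h g e).X P ω, (F.T ω, lb F w g ω))) ≤
      m * Real.log (2 * Ck + 3) := by
    refine ENP.CH_fl hq (w + P) F.x (fun ω => ((zf F w J' h g e).X P ω, (F.T ω, lb F w g ω)))
      Ck ?_
    intro ω ω' hω hω' hh
    have b1 := Prod.ext_iff.mp hh
    have b3 := Prod.ext_iff.mp b1.2
    simp only at b3
    obtain ⟨c1, c2, c3, c4, c5⟩ := lb_iff.1 b3.2
    refine hcrd ω ω' hω hω' b3.1 c2 c5 (fun i => ?_) (fun j => ?_)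
    · have b4 := hdiff ω ω' b3.1 b3.2 i
      have b5 := Plk.abs_sub_lt_of_floor (congrFun b1.1 i :
          ⌊(2 : ℝ) ^ P * (zf F w J' h g e).x ω i⌋ = ⌊(2 : ℝ) ^ P * (zf F w J' h g e).x ω' i⌋)
      have b6 : |(zf F w J' h g e).x ω i - (zf F w J' h g e).x ω' i| ≤ 1 / 2 ^ P := by
        rw [le_div_iff₀ pP]
        rw [← mul_sub, abs_mul, abs_of_pos pP] at b5
        linarith
      have b7 : |2 ^ w * (F.x ω (e i) - F.x ω' (e i))| ≤ 7 / 2 ^ P := by
        have e1 : (6 : ℝ) / 2 ^ J' = 6 * (1 / 2 ^ J') := by ring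
        have e2 : (7 : ℝ) / 2 ^ P = 6 * (1 / 2 ^ P) + 1 / 2 ^ P := by ring
        rw [e1] at b4
        rw [e2]
        rw [abs_le] at b4 b6 ⊢
        constructor <;> linarith [b4.1, b4.2, b6.1, b6.2]
      rw [abs_mul, abs_of_pos pw] at b7
      rw [pow_add, le_div_iff₀ (by positivity)]
      rw [le_div_iff₀ pP] at b7
      calc |F.x ω (e i) - F.x ω' (e i)| * (2 ^ w * 2 ^ P) =
          2 ^ w * |F.x ω (e i) - F.x ω' (e i)| * 2 ^ P := by ring
        _ ≤ 7 := b7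
    · exact x_near F hwJ b3.1 c1 c3 j
  linarith

end

end Pool.GEN
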