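import Pool.Agent.H71.GEN.Zab
import Pool.Agent.H64.KS6.WfeA
import Pool.Agent.H89.ZCL.Tail

/-!
# The tail of the zooms
-/

set_option autoImplicit false

namespace Pool.GEN

open Finset Real MvPolynomial
open Pool.Agent.H49.Ent Pool.Agent.H32.Dense Pool.STK Pool.KA Pool.KSAT Pool.K2S Pool.PB Pool.S6C
open Pool.FLF (Fam.sub)

variable {m n J : ℕ} {κ : Type}

/-- **The tail of the zooms.** -/
theorem zt {S : PCl m} {S' : PCl m}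
    (hbs : ∀ (τ : ℝ) (J : ℕ) (F : Fam m J) (A : F.Ω → Prop), S.St τ J F A → F.Tr ∧
      F.Tm (τ * J) ∧ F.Rb (τ * J) ∧ Real.exp (-(τ * J)) ≤ Pe F.p A)
    {r : ℝ → ℝ} (hr : ∀ P : ℝ, 0 ≤ P → P ≤ 1 → ∀ h : ℝ, 0 < h →
      Bas S' (fun J F A => |CH (Pool.Agent.H49.Ent.cond F.p A True) (F.X ⌊P * J⌋₊) F.W -
        r P * Real.log 2 * J| ≤ h * J))
    (hpos : ∀ (τ : ℝ) (J : ℕ) (F : Fam m J) (A : F.Ω → Prop), S'.St τ J F A → 0 < Pe F.p A)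
    (K n : ℕ) {w₁ Q γ : ℝ} (hw : 0 < w₁) (hQ : w₁ < Q) (hQ1 : Q ≤ 1)
    (hγ : ∀ P, 0 ≤ P → P ≤ Q → r Q - r P ≤ γ * (Q - P)) {ν : ℝ} (hν : 0 < ν) :
    ∃ ψ : ℝ, 0 < ψ ∧ ∃ τ₀ : ℝ, 0 < τ₀ ∧ ∃ J₀ : ℕ, ∀ J ≥ J₀, ∀ (F : Fam m J) (A : F.Ω → Prop),
    S.St τ₀ J F A → ∀ (I : Finset (Fin m)) (s : ℕ) (κ : Type) (z : PtT F → κ) (z' : LnT F → κ)
    (Gp : κ → Fin m → MvPolynomial (Option (Fin m)) ℝ), LabOK F I K J ⌊w₁ * J⌋₊ s A z z' Gp →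
    S'.St τ₀ J (F.cnd (fun ω => z' (slam F ⌊w₁ * J⌋₊ ω))) A →
    ⌊Q * J⌋₊ ≤ s → ∀ (e : Fin n → Fin m), (∀ k ∈ I, ∃ i, e i = k) → ∀ (J' : ℕ)
    (h : ⌊w₁ * J⌋₊ + J' ≤ J), J' = ⌊Q * J⌋₊ - ⌊w₁ * J⌋₊ → ∀ B : F.Ω → Prop,
    Real.exp (-(3 * ψ * J')) ≤ Pe (Pool.Agent.H49.Ent.cond F.p A True) B →
    ∀ P ≤ J', CH (Pool.Agent.H49.Ent.cond (Pool.Agent.H49.Ent.cond F.p A True) B True)
        ((zf F ⌊w₁ * J⌋₊ J' h (fun ω => z' (slam F ⌊w₁ * J⌋₊ ω)) e).X J')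
        (fun ω => ((zf F ⌊w₁ * J⌋₊ J' h (fun ω => z' (slam F ⌊w₁ * J⌋₊ ω)) e).X P ω,
          (zf F ⌊w₁ * J⌋₊ J' h (fun ω => z' (slam F ⌊w₁ * J⌋₊ ω)) e).W ω)) ≤
      γ * Real.log 2 * ((J' : ℝ) - P) + ν * J' := by
  obtain ⟨C, hC, hrow⟩ := lab_row m K
  obtain ⟨h₀, hh₀⟩ : ∃ h₀, h₀ = ν * (Q - w₁) / 8 := ⟨_, rfl⟩
  have hh0 : 0 < h₀ := by
    rw [hh₀]
    have := mul_pos hν (sub_pos.2 hQ)
    linarith
  obtain ⟨τ₁, hτ₁, J₁, hb⟩ := btail hr hpos (by linarith : 0 ≤ Q) hQ1 hγ h₀ hh0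
  obtain ⟨δ, hδ⟩ : ∃ δ, δ = min (τ₁ / 4) (h₀ / 8) := ⟨_, rfl⟩
  have hδ0 : 0 < δ := by
    rw [hδ]
    exact lt_min (by linarith) (by linarith)
  have hδ1 : δ ≤ τ₁ / 4 := by rw [hδ]; exact min_le_left _ _
  have hδ2 : δ ≤ h₀ / 8 := by rw [hδ]; exact min_le_right _ _
  obtain ⟨J₂, hJ₂⟩ := lin ((n : ℝ) * Real.log 17 + C + ν) hh0
  refine ⟨δ / 3, by linarith, δ, hδ0, max J₁ J₂, ?_⟩
  intro J hJ F A hS I s κ z z' Gp hlab hS' hs e hI J' h hJ' B hB P hP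
  have hJ1 : J₁ ≤ J := (le_max_left _ _).trans hJ
  have hJ2 := hJ₂ J ((le_max_right _ _).trans hJ)
  obtain ⟨hTr, hTm, hRb, hPA⟩ := hbs _ J F A hS
  have hA : 0 < Pe F.p A := lt_of_lt_of_le (Real.exp_pos _) hPA
  have hJr : (0 : ℝ) ≤ J := Nat.cast_nonneg J
  have hwQ : ⌊w₁ * (J : ℝ)⌋₊ ≤ ⌊Q * (J : ℝ)⌋₊ :=
    Nat.floor_le_floor (mul_le_mul_of_nonneg_right hQ.le hJr)
  obtain ⟨W, hW⟩ : ∃ W, W = ⌊w₁ * (J : ℝ)⌋₊ := ⟨_, rfl⟩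
  have hsum : W + J' = ⌊Q * (J : ℝ)⌋₊ := by rw [hW]; omega
  have hJ'r : (Q - w₁) * J - 1 ≤ (J' : ℝ) := by
    have a1 : (W : ℝ) ≤ w₁ * J := by rw [hW]; exact Nat.floor_le (by positivity)
    have a2 := Nat.lt_floor_add_one (Q * (J : ℝ))
    have a3 : (W : ℝ) + J' = (⌊Q * (J : ℝ)⌋₊ : ℕ) := by exact_mod_cast hsum
    linarith
  -- the event
  have hev := evt hA (by omega : J' ≤ J) (by linarith : 0 ≤ δ / 3) hB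
  have e3 : 3 * (δ / 3) * (J : ℝ) = δ * J := by ring
  rw [e3] at hev
  have hPB0 : 0 < Pe F.p (fun ω => A ω ∧ B ω) :=
    lt_of_lt_of_le (mul_pos (Real.exp_pos _) hA) hev
  rw [Pool.ZCL.cond_and F.p hA.ne']
  obtain ⟨q, hq⟩ : ∃ q, q = Pool.Agent.H49.Ent.cond F.p (fun ω => A ω ∧ B ω) True := ⟨_, rfl⟩
  have hql : IsLaw q := by rw [hq]; exact isLaw_cond F.isLaw hPB0
  have hSB := S'.res (F := F.cnd (fun ω => z' (slam F ⌊w₁ * (J : ℝ)⌋₊ ω))) (A := A)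
    (B := fun ω => A ω ∧ B ω) hδ0.le hS' (fun ω hω => hω.1) hev
  have htail := hb J hJ1 _ _ (S'.mono (by linarith) hSB) (W + P) (by omega)
  -- the time
  have hTmB : (J : ℝ) * Real.log 2 - 8 * δ * J ≤ CH q F.T (fun ω => (F.l ω, F.Z ω)) := by
    have h1 : Real.exp (-(2 * δ * J)) ≤ Pe F.p (fun ω => A ω ∧ B ω) := by
      refine le_trans ?_ hev
      refine le_trans ?_ (mul_le_mul_of_nonneg_left hPA (Real.exp_pos _).le)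
      rw [← Real.exp_add]
      refine Real.exp_le_exp.2 (le_of_eq ?_)
      ring
    have h2 := Pool.S6K.Wfe.res_Tm hδ0.le (by linarith : 0 ≤ 2 * δ) hTr hTm hRb h1
      (hq ▸ hql)
    unfold Fam.Tm at h2
    have h3 : (5 * δ + 2 * δ) * (J : ℝ) ≤ 8 * δ * J := by nlinarith
    rw [hq]
    refine le_trans ?_ h2
    linarith
  rw [← hq]
  have hrow' := hrow n J F I ⌊w₁ * (J : ℝ)⌋₊ J' s P A κ z z' Gp hlab e h hI hP (by omega) q hql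
    (fun ω hω => by
      rw [hq] at hω
      by_contra hcon
      have : Pool.Agent.H49.Ent.cond F.p (fun ω => A ω ∧ B ω) True ω = 0 := by
        unfold Pool.Agent.H49.Ent.cond
        rw [if_neg]
        intro h1
        have h2 : A ω ∧ B ω := of_eq_true h1
        exact hcon h2.1
      linarith) (8 * δ * J) hTmB
  refine hrow'.trans ?_
  have e5 : CH q (F.X (⌊w₁ * (J : ℝ)⌋₊ + J')) (fun ω => (F.X (⌊w₁ * (J : ℝ)⌋₊ + P) ω,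
      (F.T ω, (z' (slam F ⌊w₁ * (J : ℝ)⌋₊ ω), F.Z ω)))) ≤
      γ * Real.log 2 * ((⌊Q * (J : ℝ)⌋₊ : ℝ) - (W + P : ℕ)) + h₀ * J := by
    rw [← hW, hsum, hq]
    rw [hW] at htail ⊢
    exact htail
  have e6 : ((⌊Q * (J : ℝ)⌋₊ : ℝ) - (W + P : ℕ)) = (J' : ℝ) - P := by
    rw [← hsum]
    push_cast
    ring
  rw [e6] at e5
  have e7 : 8 * δ * (J : ℝ) ≤ h₀ * J := by
    have := mul_le_mul_of_nonneg_right hδ2 hJr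
    linarith
  have e8 : ν * ((Q - w₁) * J - 1) ≤ ν * J' := mul_le_mul_of_nonneg_left hJ'r hν.le
  have e9 : ν * ((Q - w₁) * (J : ℝ) - 1) = 8 * (h₀ * J) - ν := by rw [hh₀]; ring
  have e10 : 0 ≤ h₀ * (J : ℝ) := by positivity
  linarith

end Pool.GEN
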